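import Pool.Agent.BR3.Rot

/-!
# The dual structure of type A_3

The atoms: `s = 0`, `δ⁻¹ s δ = 1`, `u = 2`, `t = 3`, `s t s⁻¹ = 4`, `u⁻¹ t u = 5`.
-/

set_option autoImplicit false

namespace Pool.Agent.BR3.A3

open Pool.Agent.Helper29.BA Pool.Agent.Helper54.LA Pool.Agent.Helper13.LT Equiv

/-- The factorizations. -/
def L : List (Fin 6 × Fin 6 × Fin 6) :=
  [(0, 2, 5), (0, 3, 2), (0, 5, 3), (1, 0, 3), (1, 3, 4), (1, 4, 0), (2, 0, 5), (2, 1, 0),
    (2, 5, 1), (3, 1, 4), (3, 2, 1), (3, 4, 2), (4, 0, 2), (4, 2, 0), (5, 1, 3), (5, 3, 1)]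

/-- The rotation of the atoms. -/
def φ : Perm (Fin 6) where
  toFun := ![1, 2, 3, 0, 5, 4]
  invFun := ![3, 0, 1, 2, 5, 4]
  left_inv := by decide
  right_inv := by decide

/-- The reflections. -/
def w : Fin 6 → Perm (Fin 4) :=
  ![swap 0 1, swap 0 3, swap 2 3, swap 1 2, swap 0 2, swap 1 3]

theorem dual : Dual3 (fun a b c => (a, b, c) ∈ L) φ w :=
  dual3_of L φ w (swap 0 1 * swap 1 2 * swap 2 3) (by decide) (by decide) (by decide +kernel)
    (by decide +kernel) (by decide +kernel) (by decide +kernel) (by decide +kernel)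

/-- The labels. -/
def m : Fin 3 → Fin 3 → ℕ := ![![1, 3, 2], ![3, 1, 3], ![2, 3, 1]]

/-- The simple atoms. -/
def x : Fin 3 → DG (fun a b c => (a, b, c) ∈ L) := ![at' _ 0, at' _ 3, at' _ 2]

theorem braid (a b : Fin 3) : alt (x a) (x b) (m a b) = alt (x b) (x a) (m a b) := by
  have h1 : at' (fun a b c => (a, b, c) ∈ L) 0 * at' _ 3 = at' _ 3 * at' _ 4 :=
    mul_right_cancel (at_prod (F := fun a b c => (a, b, c) ∈ L) (a := 0) (b := 3) (c := 2) (a' := 3)
      (b' := 4) (c' := 2) (by decide) (by decide))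
  have h2 : at' (fun a b c => (a, b, c) ∈ L) 3 * at' _ 4 = at' _ 4 * at' _ 0 :=
    mul_right_cancel (at_prod (F := fun a b c => (a, b, c) ∈ L) (a := 3) (b := 4) (c := 2) (a' := 4)
      (b' := 0) (c' := 2) (by decide) (by decide))
  have h3 : at' (fun a b c => (a, b, c) ∈ L) 3 * at' _ 2 = at' _ 5 * at' _ 3 := by
    have := at_prod (F := fun a b c => (a, b, c) ∈ L) (a := 0) (b := 3) (c := 2) (a' := 0)
      (b' := 5) (c' := 3) (by decide) (by decide)
    rw [mul_assoc, mul_assoc] at this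
    exact mul_left_cancel this
  have h4 : at' (fun a b c => (a, b, c) ∈ L) 3 * at' _ 2 = at' _ 2 * at' _ 5 := by
    have := at_prod (F := fun a b c => (a, b, c) ∈ L) (a := 0) (b := 3) (c := 2) (a' := 0)
      (b' := 2) (c' := 5) (by decide) (by decide)
    rw [mul_assoc, mul_assoc] at this
    exact mul_left_cancel this
  have h5 : at' (fun a b c => (a, b, c) ∈ L) 0 * at' _ 2 = at' _ 2 * at' _ 0 :=
    mul_right_cancel (at_prod (F := fun a b c => (a, b, c) ∈ L) (a := 0) (b := 2) (c := 5) (a' := 2)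
      (b' := 0) (c' := 5) (by decide) (by decide))
  have e1 : alt (x 0) (x 1) 3 = alt (x 1) (x 0) 3 := by
    simp only [alt, x, Matrix.cons_val_zero, Matrix.cons_val_one, mul_one]
    rw [← mul_assoc, h1, mul_assoc, ← h2]
  have e2 : alt (x 1) (x 2) 3 = alt (x 2) (x 1) 3 := by
    simp only [alt, x, Matrix.cons_val_one, Matrix.cons_val, mul_one]
    rw [← mul_assoc, h4, mul_assoc, ← h3, h4]
  have e3 : alt (x 0) (x 2) 2 = alt (x 2) (x 0) 2 := by
    simp only [alt, x, Matrix.cons_val_zero, Matrix.cons_val, mul_one]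
    exact h5
  fin_cases a <;> fin_cases b
  · rfl
  · exact e1
  · exact e3
  · exact e1.symm
  · rfl
  · exact e2
  · exact e3.symm
  · exact e2.symm
  · rfl

theorem lift {G : Type} [Group G] (y : Fin 3 → G)
    (hy : ∀ a b, alt (y a) (y b) (m a b) = alt (y b) (y a) (m a b)) :
    ∃ f : DG (fun a b c => (a, b, c) ∈ L) →* G, ∀ a, f (x a) = y a := by
  have c1 : ev y [1, 0, 1, 2] = ev y [0, 1, 2, 0] :=
    ev_eq hy [(0, 1, 0), (2, 0, 2)] (by decide)
  have c2 : ev y [2, 0, 1, 2] = ev y [0, 1, 2, 1] :=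
    ev_eq hy [(0, 2, 0), (1, 2, 1)] (by decide)
  have c3 : ev y [0, 0, 1, 2, 0, 1, 2] = ev y [0, 1, 2, 0, 1, 2, 2] :=
    ev_eq hy [(3, 2, 0), (1, 0, 1), (3, 1, 2), (2, 0, 2)] (by decide)
  have c4 : ev y [1, 2, 0, 1, 2, 0] = ev y [2, 0, 1, 2, 0, 1] :=
    ev_eq hy [(1, 2, 0), (2, 2, 1), (0, 1, 0), (2, 0, 2), (3, 0, 1), (1, 1, 2), (0, 0, 2)]
      (by decide)
  simp only [ev_cons, ev_nil, mul_one] at c1 c2 c3 c4
  generalize hs : y 0 = s at c1 c2 c3 c4
  generalize ht : y 1 = t at c1 c2 c3 c4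
  generalize hu : y 2 = u at c1 c2 c3 c4
  obtain ⟨f, hf⟩ := exists_dualLift L φ [(0, 3, 2), (0, 2, 5)] 12 (by decide +kernel)
    (![s, (s * t * u)⁻¹ * s * (s * t * u), u, t, s * t * s⁻¹, u⁻¹ * t * u]) (s * t * u)
    (by
      intro a
      fin_cases a
      · change s * t * u * ((s * t * u)⁻¹ * s * (s * t * u)) = s * (s * t * u)
        group
      · change s * t * u * u = (s * t * u)⁻¹ * s * (s * t * u) * (s * t * u)
        rw [mul_assoc ((s * t * u)⁻¹), mul_assoc ((s * t * u)⁻¹), eq_inv_mul_iff_mul_eq]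
        simp only [mul_assoc]
        exact c3.symm
      · change s * t * u * t = u * (s * t * u)
        simp only [mul_assoc]
        exact c2.symm
      · change s * t * u * s = t * (s * t * u)
        simp only [mul_assoc]
        exact c1.symm
      · change s * t * u * (u⁻¹ * t * u) = s * t * s⁻¹ * (s * t * u)
        group
      · change s * t * u * (s * t * s⁻¹) = u⁻¹ * t * u * (s * t * u)
        rw [← mul_assoc, mul_inv_eq_iff_eq_mul, mul_assoc u⁻¹, mul_assoc u⁻¹, mul_assoc u⁻¹,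
          eq_inv_mul_iff_mul_eq]
        simp only [mul_assoc]
        exact c4.symm)
    (by
      intro f hf
      simp only [List.mem_cons, List.not_mem_nil, or_false] at hf
      rcases hf with rfl | rfl
      · rfl
      · change s * u * (u⁻¹ * t * u) = s * t * u
        group)
  refine ⟨f, fun a => ?_⟩
  fin_cases a
  · exact (hf 0).trans hs.symm
  · exact (hf 3).trans ht.symm
  · exact (hf 2).trans hu.symm

/-- The Artin group of type `A_3`. -/
theorem mem {C : ∀ (G : Type) [Group G], Prop} (hC : ClosedClass C) {S : Type} (M : CoxeterMatrix S)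
    (s t u : S) (hS : ∀ x, x = s ∨ x = t ∨ x = u) (hst : s ≠ t) (htu : t ≠ u) (hsu : s ≠ u)
    (m0 : M s t = 3) (m1 : M t u = 3) (m2 : M s u = 2)
    (h : C (DG (fun a b c : Fin 6 => (a, b, c) ∈ L))) : C (ArtinGroup M) :=
  mem_of_dual hC M s t u hS hst htu hsu m m0 m1 m2 (by decide) (by decide) x braid
    (fun y hy => lift y hy) h

end Pool.Agent.BR3.A3
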