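import Pool.Agent.BR3.Rot

/-!
# The dual structure of type B_3

The labels are `m s t = 3`, `m t u = 4`, `m s u = 2`. The atoms, with `δ = s t u`: `s = 0`,
`δ⁻¹ s δ = 1`, `t = 2`, `u = 3`, `u⁻¹ t⁻¹ u t u = 4`, `δ u δ⁻¹ = 5`, `s t s⁻¹ = 6`, `u⁻¹ t u = 7`,
`δ s t s⁻¹ δ⁻¹ = 8`.
-/

set_option autoImplicit false

namespace Pool.Agent.BR3.B3

open Pool.Agent.Helper29.BA Pool.Agent.Helper54.LA Pool.Agent.Helper13.LT Equiv

/-- The factorizations. -/
def L : List (Fin 9 × Fin 9 × Fin 9) :=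
  [(0, 2, 3), (0, 3, 7), (0, 4, 2), (0, 7, 4), (1, 0, 4), (1, 4, 8), (1, 5, 0), (1, 8, 5),
    (2, 1, 5), (2, 3, 1), (2, 5, 6), (2, 6, 3), (3, 0, 7), (3, 1, 0), (3, 7, 1), (4, 1, 8),
    (4, 2, 1), (4, 8, 2), (5, 0, 2), (5, 2, 6), (5, 6, 0), (6, 0, 3), (6, 3, 0), (7, 1, 4),
    (7, 4, 1), (8, 2, 5), (8, 5, 2)]

/-- The rotation of the atoms. -/
def φ : Perm (Fin 9) where
  toFun := ![1, 2, 0, 4, 5, 3, 7, 8, 6]
  invFun := ![2, 0, 1, 5, 3, 4, 8, 6, 7]
  left_inv := by decide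
  right_inv := by decide

/-- The reflections modulo the centre. -/
def w : Fin 9 → Perm (Fin 4) :=
  ![swap 0 1, swap 1 3, swap 1 2, swap 0 1 * swap 2 3, swap 0 2 * swap 1 3, swap 0 3 * swap 1 2,
    swap 0 2, swap 0 3, swap 2 3]

theorem dual : Dual3 (fun a b c => (a, b, c) ∈ L) φ w :=
  dual3_of L φ w (swap 0 1 * swap 1 2 * (swap 0 1 * swap 2 3)) (by decide) (by decide)
    (by decide +kernel) (by decide +kernel) (by decide +kernel) (by decide +kernel)
    (by decide +kernel)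

/-- The labels. -/
def m : Fin 3 → Fin 3 → ℕ := ![![1, 3, 2], ![3, 1, 4], ![2, 4, 1]]

/-- The simple atoms. -/
def x : Fin 3 → DG (fun a b c => (a, b, c) ∈ L) := ![at' _ 0, at' _ 2, at' _ 3]

theorem rel₁ {a b c a' b' : Fin 9} (h : (a, b, c) ∈ L) (h' : (a', b', c) ∈ L) :
    at' (fun a b c => (a, b, c) ∈ L) a * at' _ b = at' _ a' * at' _ b' :=
  mul_right_cancel (at_prod (F := fun a b c => (a, b, c) ∈ L) h h')

theorem rel₂ {a b c b' c' : Fin 9} (h : (a, b, c) ∈ L) (h' : (a, b', c') ∈ L) :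
    at' (fun a b c => (a, b, c) ∈ L) b * at' _ c = at' _ b' * at' _ c' := by
  have := at_prod (F := fun a b c => (a, b, c) ∈ L) h h'
  rw [mul_assoc, mul_assoc] at this
  exact mul_left_cancel this

theorem braid (a b : Fin 3) : alt (x a) (x b) (m a b) = alt (x b) (x a) (m a b) := by
  have h1 := rel₁ (a := 0) (b := 2) (c := 3) (a' := 2) (b' := 6) (by decide) (by decide)
  have h2 := rel₁ (a := 2) (b := 6) (c := 3) (a' := 6) (b' := 0) (by decide) (by decide)
  have h3 := rel₂ (a := 0) (b := 2) (c := 3) (b' := 3) (c' := 7) (by decide) (by decide)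
  have h4 := rel₂ (a := 0) (b := 3) (c := 7) (b' := 7) (c' := 4) (by decide) (by decide)
  have h5 := rel₂ (a := 0) (b := 7) (c := 4) (b' := 4) (c' := 2) (by decide) (by decide)
  have h6 := rel₁ (a := 0) (b := 3) (c := 7) (a' := 3) (b' := 0) (by decide) (by decide)
  have e1 : alt (x 0) (x 1) 3 = alt (x 1) (x 0) 3 := by
    simp only [alt, x, Matrix.cons_val_zero, Matrix.cons_val_one, mul_one]
    rw [← mul_assoc, h1, mul_assoc, ← h2]
  have e2 : alt (x 1) (x 2) 4 = alt (x 2) (x 1) 4 := by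
    simp only [alt, x, Matrix.cons_val_one, Matrix.cons_val, mul_one]
    generalize at' (fun a b c => (a, b, c) ∈ L) 2 = t at *
    generalize at' (fun a b c => (a, b, c) ∈ L) 3 = u at *
    generalize at' (fun a b c => (a, b, c) ∈ L) 7 = p at *
    generalize at' (fun a b c => (a, b, c) ∈ L) 4 = q at *
    -- `t u = u p = p q = q t`
    calc t * (u * (t * u)) = (t * u) * (t * u) := by group
      _ = (u * p) * (q * t) := by rw [← h5, ← h4, ← h3]
      _ = u * (p * q) * t := by group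
      _ = u * (t * u) * t := by rw [← h4, ← h3]
      _ = u * (t * (u * t)) := by group
  have e3 : alt (x 0) (x 2) 2 = alt (x 2) (x 0) 2 := by
    simp only [alt, x, Matrix.cons_val_zero, Matrix.cons_val, mul_one]
    exact h6
  fin_cases a <;> fin_cases b
  · rfl
  · exact e1
  · exact e3
  · exact e1.symm
  · rfl
  · exact e2
  · exact e3.symm
  · exact e2.symm
  · rfl

theorem lift {G : Type} [Group G] (y : Fin 3 → G)
    (hy : ∀ a b, alt (y a) (y b) (m a b) = alt (y b) (y a) (m a b)) :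
    ∃ f : DG (fun a b c => (a, b, c) ∈ L) →* G, ∀ a, f (x a) = y a := by
  have c1 : ev y [1, 0, 1, 2] = ev y [0, 1, 2, 0] :=
    ev_eq hy [(0, 1, 0), (2, 0, 2)] (by decide)
  have c2 : ev y [0, 0, 1, 2, 0, 1, 2] = ev y [0, 1, 2, 0, 1, 2, 1] :=
    ev_eq hy [(3, 2, 0), (1, 0, 1), (3, 1, 2), (2, 0, 2)] (by decide)
  have c3 : ev y [0, 2] = ev y [2, 0] := ev_eq hy [(0, 0, 2)] (by decide)
  have c4 : ev y [2, 1, 2, 0, 1, 2, 0, 1, 2] = ev y [1, 2, 0, 1, 2, 0, 1, 2, 2] :=
    ev_eq hy [(5, 2, 0), (3, 0, 1), (0, 2, 1), (3, 2, 0), (4, 2, 1), (2, 1, 0), (4, 0, 2)]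
      (by decide)
  have c5 : ev y [1, 2, 0, 1, 2, 0, 1, 2, 0] = ev y [2, 0, 1, 2, 0, 1, 2, 0, 1] :=
    ev_eq hy [(4, 2, 0), (2, 0, 1), (4, 1, 2), (3, 0, 2), (0, 1, 2), (3, 1, 0), (2, 2, 0), (5, 0, 2),
      (6, 0, 1), (3, 2, 1), (1, 1, 0), (3, 0, 2)] (by decide)
  simp only [ev_cons, ev_nil, mul_one] at c1 c2 c3 c4 c5
  generalize hs : y 0 = s at c1 c2 c3 c4 c5
  generalize ht : y 1 = t at c1 c2 c3 c4 c5
  generalize hu : y 2 = u at c1 c2 c3 c4 c5
  obtain ⟨f, hf⟩ := exists_dualLift L φ [(0, 2, 3), (0, 3, 7), (0, 7, 4)] 9 (by decide +kernel)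
    (![s, (s * t * u)⁻¹ * s * (s * t * u), t, u, u⁻¹ * t⁻¹ * u * t * u,
      s * t * u * u * (s * t * u)⁻¹, s * t * s⁻¹, u⁻¹ * t * u,
      s * t * u * (s * t * s⁻¹) * (s * t * u)⁻¹]) (s * t * u)
    (by
      intro a
      fin_cases a
      · change s * t * u * ((s * t * u)⁻¹ * s * (s * t * u)) = s * (s * t * u)
        group
      · change s * t * u * t = (s * t * u)⁻¹ * s * (s * t * u) * (s * t * u)
        rw [mul_assoc ((s * t * u)⁻¹), mul_assoc ((s * t * u)⁻¹), eq_inv_mul_iff_mul_eq]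
        simp only [mul_assoc]
        exact c2.symm
      · change s * t * u * s = t * (s * t * u)
        simp only [mul_assoc]
        exact c1.symm
      · change s * t * u * (u⁻¹ * t⁻¹ * u * t * u) = u * (s * t * u)
        have e : s * t * u * (u⁻¹ * t⁻¹ * u * t * u) = (s * u) * (t * u) := by group
        rw [e, c3]
        simp only [mul_assoc]
      · change s * t * u * (s * t * u * u * (s * t * u)⁻¹) = u⁻¹ * t⁻¹ * u * t * u * (s * t * u)
        have e : u⁻¹ * t⁻¹ * u * t * u * (s * t * u) =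
            u⁻¹ * t⁻¹ * (u * (t * (u * (s * (t * (u * (s * (t * u)))))))) * (s * t * u)⁻¹ := by
          group
        rw [e, c4]
        group
      · change s * t * u * u = s * t * u * u * (s * t * u)⁻¹ * (s * t * u)
        group
      · change s * t * u * (u⁻¹ * t * u) = s * t * s⁻¹ * (s * t * u)
        group
      · change s * t * u * (s * t * u * (s * t * s⁻¹) * (s * t * u)⁻¹) = u⁻¹ * t * u * (s * t * u)
        have e : u⁻¹ * t * u * (s * t * u) =
            u⁻¹ * (t * (u * (s * (t * (u * (s * (t * (u * s)))))))) * s⁻¹ * (s * t * u)⁻¹ := by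
          group
        rw [e, c5]
        group
      · change s * t * u * (s * t * s⁻¹) = s * t * u * (s * t * s⁻¹) * (s * t * u)⁻¹ * (s * t * u)
        group)
    (by
      intro f hf
      simp only [List.mem_cons, List.not_mem_nil, or_false] at hf
      rcases hf with rfl | rfl | rfl
      · rfl
      · change s * u * (u⁻¹ * t * u) = s * t * u
        group
      · change s * (u⁻¹ * t * u) * (u⁻¹ * t⁻¹ * u * t * u) = s * t * u
        group)
  refine ⟨f, fun a => ?_⟩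
  fin_cases a
  · exact (hf 0).trans hs.symm
  · exact (hf 2).trans ht.symm
  · exact (hf 3).trans hu.symm

/-- The Artin group of type `B_3`. -/
theorem mem {C : ∀ (G : Type) [Group G], Prop} (hC : ClosedClass C) {S : Type} (M : CoxeterMatrix S)
    (s t u : S) (hS : ∀ x, x = s ∨ x = t ∨ x = u) (hst : s ≠ t) (htu : t ≠ u) (hsu : s ≠ u)
    (m0 : M s t = 3) (m1 : M t u = 4) (m2 : M s u = 2)
    (h : C (DG (fun a b c : Fin 9 => (a, b, c) ∈ L))) : C (ArtinGroup M) :=
  mem_of_dual hC M s t u hS hst htu hsu m m0 m1 m2 (by decide) (by decide) x braid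
    (fun y hy => lift y hy) h

end Pool.Agent.BR3.B3
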