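import Pool.Agent.BR3.Cx

/-!
# Equilateral triangles
-/

set_option autoImplicit false

namespace Pool.Agent.BR3

open Pool.Agent.Helper29.BA Pool.Agent.Helper29.PA Pool.Agent.Helper3.FJ

theorem ang_one {V : Type} (v u w : V) : Cpx.ang (fun _ _ : V => (1 : ℝ)) v u w = Real.pi / 3 := by
  have h1 : Real.pi / 3 = Real.arccos (1 / 2) := by
    rw [← Real.cos_pi_div_three, Real.arccos_cos (by positivity) (by linarith [Real.pi_pos])]
  rw [Cpx.ang, h1]
  norm_num

/-- Classes with all proper actions on piecewise Euclidean complexes. -/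
theorem triClass_of {C : ∀ (G : Type) [Group G], Prop} (hE : ExtClass C) (hC : CatClass C) :
    TriClass C where
  toExtClass := hE
  triangle := by
    intro V X G _ _ hX hL hA hf hcc
    refine hC.cat V X (fun _ _ => 1) G hX ⟨fun _ _ => rfl, fun _ _ _ => one_pos,
      fun _ _ _ _ => by norm_num⟩ ?_ hA (fun _ _ _ => rfl) hf hcc
    intro v k u hu ht
    simp only [ang_one]
    rw [Finset.sum_const, Finset.card_univ, ZMod.card, nsmul_eq_mul]
    by_cases hk : k + 3 ≤ 5
    · exact absurd ht (hL v (k + 3) (by omega) hk u hu)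
    · have h6 : (6 : ℝ) ≤ ((k + 3 : ℕ) : ℝ) := by
        have : 6 ≤ k + 3 := by omega
        exact_mod_cast this
      have := Real.pi_pos
      calc 2 * Real.pi = 6 * (Real.pi / 3) := by ring
        _ ≤ ((k + 3 : ℕ) : ℝ) * (Real.pi / 3) :=
          mul_le_mul_of_nonneg_right h6 (by positivity)

/-- **Dual Garside groups of rank three.** -/
theorem dual_mem {C : ∀ (G : Type) [Group G], Prop} (hC : TriClass C) {A : Type}
    {F : A → A → A → Prop} {φ : Equiv.Perm A} {W : Type} [Group W] {w : A → W}
    (h : Dual3 F φ w) : C (DG F) := h.mem hC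

end Pool.Agent.BR3
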