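import Pool.Agent.BR3.A3
import Pool.Agent.BR3.B3
import Pool.Agent.BR3.Tri

/-!
# The Artin groups of types A_3 and B_3
-/

set_option autoImplicit false

namespace Pool.Agent.BR3

open Pool.Agent.Helper29.BA Pool.Agent.Helper54.LA Pool.Agent.Helper13.LT Pool.Agent.Helper3.FJ

theorem a3_mem {C : ∀ (G : Type) [Group G], Prop} (hC : TriClass C) {S : Type}
    (M : CoxeterMatrix S) (s t u : S) (hS : ∀ x, x = s ∨ x = t ∨ x = u) (hst : s ≠ t)
    (htu : t ≠ u) (hsu : s ≠ u) (m0 : M s t = 3) (m1 : M t u = 3) (m2 : M s u = 2) :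
    C (ArtinGroup M) :=
  A3.mem hC.toClosedClass M s t u hS hst htu hsu m0 m1 m2 (dual_mem hC A3.dual)

theorem b3_mem {C : ∀ (G : Type) [Group G], Prop} (hC : TriClass C) {S : Type}
    (M : CoxeterMatrix S) (s t u : S) (hS : ∀ x, x = s ∨ x = t ∨ x = u) (hst : s ≠ t)
    (htu : t ≠ u) (hsu : s ≠ u) (m0 : M s t = 3) (m1 : M t u = 4) (m2 : M s u = 2) :
    C (ArtinGroup M) :=
  B3.mem hC.toClosedClass M s t u hS hst htu hsu m0 m1 m2 (dual_mem hC B3.dual)

/-- With the order of the labels as in `h3_mem`. -/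
theorem b3_mem' {C : ∀ (G : Type) [Group G], Prop} (hC : TriClass C) {S : Type}
    (M : CoxeterMatrix S) (s t u : S) (hS : ∀ x, x = s ∨ x = t ∨ x = u) (hst : s ≠ t)
    (htu : t ≠ u) (hsu : s ≠ u) (m0 : M s t = 4) (m1 : M t u = 3) (m2 : M s u = 2) :
    C (ArtinGroup M) :=
  b3_mem hC M u t s (fun x => by rcases hS x with h | h | h <;> simp [h]) htu.symm hst.symm hsu.symm
    (by rw [M.symmetric]; exact m1) (by rw [M.symmetric]; exact m0) (by rw [M.symmetric]; exact m2)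

end Pool.Agent.BR3
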