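import Pool.Agent.BR3.Stmts

/-!
# Row F: each divisor gives an element of row `n` (helper75)
-/

set_option autoImplicit false

namespace Pool.Agent.BR3.F75

open Finset Pool.Agent.Helper64.Breadth

/-- the word with three letters `G` -/
lemma br_word (m i j k : ℕ) (hm : 1 ≤ m) (n : ℤ)
    (hn : n + 2 * ((j : ℤ) + 1) * ((k : ℤ) + 1)
      = (2 * (m : ℤ) + 1) * (4 * ((i : ℤ) + 1) * ((j : ℤ) + 1) * ((k : ℤ) + 1) - ((i : ℤ) + 1) - ((k : ℤ) + 1))) :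
    Br 3 n (n - (2 * ((i : ℤ) + 1) * ((j : ℤ) + 1) * (2 * (m : ℤ) + 1) - ((j : ℤ) + 1) - m - 1)) := by
  have h := ((((((Br.diag m hm).G.pow i).G).pow j).G).pow k)
  have hn' : n = (2 * (m : ℤ) + 1) * (4 * ((i : ℤ) + 1) * ((j : ℤ) + 1) * ((k : ℤ) + 1) - ((i : ℤ) + 1) - ((k : ℤ) + 1))
      - 2 * ((j : ℤ) + 1) * ((k : ℤ) + 1) := by linarith
  rw [hn']
  convert h using 1
  · ring
  · ring

/-- the same with `a, b, c ≥ 1` and `u` odd -/
lemma br_abc (a b c u n : ℕ) (ha : 1 ≤ a) (hb : 1 ≤ b) (hc : 1 ≤ c) (hu : u % 2 = 1) (hu3 : 3 ≤ u)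
    (hn : (n : ℤ) + 2 * b * c = u * (4 * a * b * c - a - c)) :
    Br 3 n ((n : ℤ) - (2 * a * b * u - b - ((u / 2 : ℕ) : ℤ) - 1)) := by
  obtain ⟨i, rfl⟩ : ∃ i, a = i + 1 := ⟨a - 1, by omega⟩
  obtain ⟨j, rfl⟩ : ∃ j, b = j + 1 := ⟨b - 1, by omega⟩
  obtain ⟨k, rfl⟩ : ∃ k, c = k + 1 := ⟨c - 1, by omega⟩
  obtain ⟨m, rfl⟩ : ∃ m, u = 2 * m + 1 := ⟨u / 2, by omega⟩
  have h := br_word m i j k (by omega) (n : ℤ) (by push_cast at hn ⊢; exact hn)
  have h2 : (2 * m + 1) / 2 = m := by omega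
  rw [h2]
  push_cast at h ⊢
  exact h

lemma uniq1 (c c' p p' X : ℤ) (hp : 0 < p) (hpX : p < X) (hp' : 0 < p') (hpX' : p' < X)
    (h : 2 * c * X - p = 2 * c' * X - p') : c = c' ∧ p = p' := by
  have h1 : (c - c') * (2 * X) = p - p' := by linarith
  have hc : c = c' := by
    rcases lt_trichotomy c c' with hlt | heq | hgt
    · exfalso
      have h2 : (c - c') * (2 * X) ≤ (-1) * (2 * X) := by
        apply mul_le_mul_of_nonneg_right _ (by linarith)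
        linarith [Int.add_one_le_iff.mpr hlt]
      linarith
    · exact heq
    · exfalso
      have h2 : 1 * (2 * X) ≤ (c - c') * (2 * X) := by
        apply mul_le_mul_of_nonneg_right _ (by linarith)
        linarith [Int.add_one_le_iff.mpr hgt]
      linarith
  refine ⟨hc, ?_⟩
  rw [hc] at h
  linarith

/-- the element determines `a, b, c` -/
lemma uniq (a b c u a' b' c' u' n : ℤ) (ha : 1 ≤ a) (hb : 1 ≤ b) (hu : 3 ≤ u)
    (ha' : 1 ≤ a') (hb' : 1 ≤ b') (hu' : 3 ≤ u')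
    (hn : n + 2 * b * c = u * (4 * a * b * c - a - c)) (hn' : n + 2 * b' * c' = u' * (4 * a' * b' * c' - a' - c'))
    (h : 4 * a * b * u - 2 * b - u = 4 * a' * b' * u' - 2 * b' - u') : a = a' ∧ b = b' ∧ c = c' := by
  obtain ⟨X, hX⟩ : ∃ X : ℤ, X = 2 * a * u - 1 := ⟨_, rfl⟩
  obtain ⟨X', hX'⟩ : ∃ X' : ℤ, X' = 2 * a' * u' - 1 := ⟨_, rfl⟩
  obtain ⟨Y, hY⟩ : ∃ Y : ℤ, Y = 2 * b * X - u := ⟨_, rfl⟩
  have hXu : u < X := by rw [hX]; nlinarith
  have hXu' : u' < X' := by rw [hX']; nlinarith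
  have hYX : X < Y := by rw [hY]; nlinarith
  have hY' : Y = 2 * b' * X' - u' := by
    rw [hY, hX, hX']
    linarith
  have hYX' : X' < Y := by rw [hY']; nlinarith
  have e1 : 2 * c * Y - X = 2 * n + 1 := by
    rw [hY, hX]
    linarith
  have e2 : 2 * c' * Y - X' = 2 * n + 1 := by
    rw [hY', hX']
    linarith
  obtain ⟨hc, hXX⟩ := uniq1 c c' X X' Y (by linarith) hYX (by linarith) hYX' (by linarith)
  obtain ⟨hb1, huu⟩ := uniq1 b b' u u' X (by linarith) hXu (by linarith) (by rw [hXX]; exact hXu')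
    (by rw [← hY, hY', hXX])
  refine ⟨?_, hb1, hc⟩
  have e3 : 2 * a * u = 2 * a' * u := by
    rw [hX, hX', ← huu] at hXX
    linarith
  have hu0 : (2 * u) ≠ 0 := by linarith
  have e4 : a * (2 * u) = a' * (2 * u) := by linarith
  exact mul_right_cancel₀ hu0 e4

/-- the cofactor -/
lemma cof (U V α s β z n : ℕ) (hU : 2 ≤ U) (hUV : U ≤ V) (hn : 12 * U ^ 4 * V ^ 2 ≤ n)
    (hty : (s = 1 ∧ α = 0 ∧ n % 2 = 1) ∨ (s = 2 ∧ α = 1 ∧ β = 1 ∧ n % 4 = 0) ∨ (s = 2 ∧ α = 1 ∧ β = 0 ∧ n % 4 = 2))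
    (i : (ℕ × ℕ) × (ℕ × ℕ)) (hi : i ∈ E U V α s β z) (hd : mo s i ∣ n + 2 * i.2.1 * i.1.2) :
    1 ≤ i.1.1 ∧ 1 ≤ i.2.1 ∧ 1 ≤ i.1.2 ∧ i.2.2 = 0 ∧ ∃ u : ℕ, u % 2 = 1 ∧ 3 ≤ u ∧
      (n : ℤ) + 2 * i.2.1 * i.1.2 = u * (4 * i.1.1 * i.2.1 * i.1.2 - i.1.1 - i.1.2) := by
  obtain ⟨⟨a, c⟩, ⟨b, e⟩⟩ := i
  simp only [E, T, mem_filter, mem_product, mem_Ioc, mem_singleton] at hi
  obtain ⟨⟨⟨⟨⟨ha1, ha2⟩, hc1, hc2⟩, hac, hcc, hcop⟩, ⟨hb1, hb2⟩, he⟩, hbb, hz⟩ := hi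
  simp only at hd ⊢
  have ha0 : 1 ≤ a := by omega
  have hb0 : 1 ≤ b := by omega
  have hc0 : 1 ≤ c := by omega
  refine ⟨ha0, hb0, hc0, he, ?_⟩
  have hle : a + c ≤ 4 * a * b * c := by nlinarith [Nat.mul_le_mul ha0 hc0, Nat.mul_le_mul hb0 hc0, Nat.mul_le_mul (Nat.mul_le_mul ha0 hb0) hc0]
  -- the bound `3 (4abc) ≤ n`
  have hbig : 12 * (a * b * c) ≤ n := by
    have h1 : a * b * c ≤ U ^ 2 * V ^ 2 * U ^ 2 := Nat.mul_le_mul (Nat.mul_le_mul ha2 hb2) hc2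
    have h2 : 12 * (U ^ 2 * V ^ 2 * U ^ 2) = 12 * U ^ 4 * V ^ 2 := by ring
    calc 12 * (a * b * c) ≤ 12 * (U ^ 2 * V ^ 2 * U ^ 2) := Nat.mul_le_mul_left 12 h1
      _ ≤ n := by rw [h2]; exact hn
  have key : ∀ u : ℕ, n + 2 * b * c = (4 * a * b * c - (a + c)) * u → u % 2 = 1 → u % 2 = 1 ∧ 3 ≤ u ∧
      (n : ℤ) + 2 * b * c = u * (4 * a * b * c - a - c) := by
    intro u hu hodd
    refine ⟨hodd, ?_, ?_⟩
    · by_contra hlt
      have hu2 : u ≤ 2 := by omega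
      have h3 : (4 * a * b * c - (a + c)) * u ≤ (4 * a * b * c) * 2 := Nat.mul_le_mul (Nat.sub_le _ _) hu2
      have h4 : 4 * a * b * c = 4 * (a * b * c) := by ring
      have h5 : 1 ≤ b * c := Nat.mul_pos hb0 hc0
      have h6 : 1 ≤ a * b * c := Nat.mul_pos (Nat.mul_pos ha0 hb0) hc0
      rw [h4] at h3
      rw [h4] at hu
      omega
    · have h3 : ((n + 2 * b * c : ℕ) : ℤ) = (((4 * a * b * c - (a + c)) * u : ℕ) : ℤ) := by rw [hu]
      rw [Nat.cast_mul, Nat.cast_sub hle] at h3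
      push_cast at h3
      linarith
  rcases hty with ⟨rfl, rfl, hn2⟩ | ⟨rfl, rfl, rfl, hn4⟩ | ⟨rfl, rfl, rfl, hn4⟩
  · obtain ⟨u, hu⟩ := hd
    have hmo : mo 1 ((a, c), (b, e)) = 4 * a * b * c - (a + c) := by
      simp only [mo, Nat.div_one]
      congr 1
      ring
    rw [hmo] at hu
    refine ⟨u, key u hu ?_⟩
    have hodd : (n + 2 * b * c) % 2 = 1 := by
      have : (n + 2 * b * c) = n + 2 * (b * c) := by ring
      omega
    rw [hu] at hodd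
    rw [Nat.mul_mod] at hodd
    have : u % 2 = 0 ∨ u % 2 = 1 := by omega
    rcases this with h0 | h0
    · rw [h0] at hodd
      simp at hodd
    · exact h0
  all_goals
    obtain ⟨v, hv⟩ := hd
    have ha4 : a % 4 = 1 := hac
    have hc4 : c % 4 = 1 := hcc
    have hmo : mo 2 ((a, c), (b, e)) = 2 * a * b * c - (a + c) / 2 := by
      simp only [mo]
      congr 1
      have : 4 * a * c / 2 = 2 * a * c := by
        have : 4 * a * c = 2 * (2 * a * c) := by ring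
        omega
      rw [this]
      ring
    rw [hmo] at hv
    obtain ⟨M, hM⟩ : ∃ M, M = 2 * a * b * c - (a + c) / 2 := ⟨_, rfl⟩
    rw [← hM] at hv
    have h4 : 4 * a * b * c = 2 * (2 * a * b * c) := by ring
    have hMM : 4 * a * b * c - (a + c) = 2 * M := by
      rw [h4] at hle ⊢
      omega
    have h5 : 2 * a * b * c = 2 * (a * b * c) := by ring
    have hMle : (a + c) / 2 ≤ 2 * a * b * c := by
      rw [h4] at hle
      omega
    have hModd : M % 2 = 1 := by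
      rw [h5] at hM hMle
      omega
    have hev : (n + 2 * b * c) % 2 = 0 := by
      have : (n + 2 * b * c) = n + 2 * (b * c) := by ring
      omega
    have hv2 : v % 2 = 0 := by
      rw [hv, Nat.mul_mod, hModd] at hev
      omega
    obtain ⟨u, hu⟩ : ∃ u, v = 2 * u := ⟨v / 2, by omega⟩
    have hfin : n + 2 * b * c = (4 * a * b * c - (a + c)) * u := by
      rw [hMM, hv, hu]
      ring
    refine ⟨u, key u hfin ?_⟩
    have hhalf : n / 2 + b * c = M * u := by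
      have e1 : n + 2 * b * c = n + 2 * (b * c) := by ring
      have e2 : M * v = 2 * (M * u) := by rw [hu]; ring
      rw [e1, e2] at hv
      omega
    have hb2' : (b * c) % 2 = b % 2 := by
      rw [Nat.mul_mod]
      have : c % 2 = 1 := by omega
      rw [this]
      omega
    have hbm : b % 2 = _ := hbb
    have hodd : (n / 2 + b * c) % 2 = 1 := by
      rw [Nat.add_mod, hb2', hbm]
      omega
    rw [hhalf, Nat.mul_mod, hModd] at hodd
    omega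

theorem rowF : RowF := by
  classical
  intro U V α s β z n hU hUV hz hn hty
  have hfin := finite_row n
  have e1 : c n = hfin.toFinset.card := by
    rw [c, ← Set.ncard_eq_toFinset_card _ hfin]
    rfl
  rw [e1]
  have hco := cof U V α s β z n hU hUV hn hty
  choose! u hu using fun (i : (ℕ × ℕ) × (ℕ × ℕ)) (hi : i ∈ E U V α s β z) (hd : mo s i ∣ n + 2 * i.2.1 * i.1.2) =>
    (hco i hi hd).2.2.2.2
  refine Finset.card_le_card_of_injOn
    (fun i => (n : ℤ) - (2 * i.1.1 * i.2.1 * (u i : ℤ) - i.2.1 - ((u i / 2 : ℕ) : ℤ) - 1)) ?_ ?_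
  · intro i hi
    rw [Finset.mem_coe, Finset.mem_filter] at hi
    obtain ⟨h1, h2, h3, _⟩ := hco i hi.1 hi.2
    obtain ⟨g1, g2, g3⟩ := hu i hi.1 hi.2
    rw [Finset.mem_coe, Set.Finite.mem_toFinset]
    exact br_abc i.1.1 i.2.1 i.1.2 (u i) n h1 h2 h3 g1 g2 g3
  · intro i hi j hj hij
    rw [Finset.mem_coe, Finset.mem_filter] at hi hj
    obtain ⟨h1, h2, h3, h4, _⟩ := hco i hi.1 hi.2
    obtain ⟨g1, g2, g3⟩ := hu i hi.1 hi.2
    obtain ⟨h1', h2', h3', h4', _⟩ := hco j hj.1 hj.2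
    obtain ⟨g1', g2', g3'⟩ := hu j hj.1 hj.2
    simp only at hij
    have hh : (((u i) / 2 : ℕ) : ℤ) * 2 + 1 = u i := by
      have : (u i) / 2 * 2 + 1 = u i := by omega
      exact_mod_cast this
    have hh' : (((u j) / 2 : ℕ) : ℤ) * 2 + 1 = u j := by
      have : (u j) / 2 * 2 + 1 = u j := by omega
      exact_mod_cast this
    obtain ⟨q1, q2, q3⟩ := uniq i.1.1 i.2.1 i.1.2 (u i) j.1.1 j.2.1 j.1.2 (u j) n
      (by exact_mod_cast h1) (by exact_mod_cast h2) (by exact_mod_cast g2)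
      (by exact_mod_cast h1') (by exact_mod_cast h2') (by exact_mod_cast g2') g3 g3' (by linarith)
    have q1' : i.1.1 = j.1.1 := by exact_mod_cast q1
    have q2' : i.2.1 = j.2.1 := by exact_mod_cast q2
    have q3' : i.1.2 = j.1.2 := by exact_mod_cast q3
    obtain ⟨⟨a, c'⟩, ⟨b, e⟩⟩ := i
    obtain ⟨⟨a', c''⟩, ⟨b', e'⟩⟩ := j
    simp only at q1' q2' q3' h4 h4'
    subst q1' q2' q3' h4 h4'
    rfl

end Pool.Agent.BR3.F75
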