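import Pool.Agent.BR3.Stmts
import Pool.Agent.SPA.S92
import Pool.Agent.SPA.S13
import Pool.Agent.SPA.M20

/-!
# MP_5de915_nt, row S (helper92): the sieve from below for `A b - B`
-/

set_option autoImplicit false

namespace Pool.Agent.BR3.S92

open Finset Pool.Agent.SPA Pool.Agent.SPA.S92

/-- the parameters -/
theorem par
    (sum_le : ∃ C : ℝ, ∀ z : ℕ, 3 ≤ z →
      ∑ q ∈ (Icc 1 z).filter Nat.Prime, (1 : ℝ) / q ≤ Real.log (Real.log z) + C)
    (prod_ge : ∃ c : ℝ, 0 < c ∧ ∀ z : ℕ, 3 ≤ z →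
      c / Real.log z ≤ ∏ q ∈ (Icc 1 z).filter Nat.Prime, (1 - 1 / (q : ℝ))) :
    ∃ c K : ℝ, 0 < c ∧ c ≤ 1 ∧ 1 ≤ K ∧ ∀ (p : ℕ → Prop) [DecidablePred p] (z V : ℕ), 3 ≤ z → 3 ≤ V →
      K * Real.log z ^ 2 ≤ Real.log V →
      (∀ (N t : ℕ) (S : ℝ), V ≤ N → ∑ q ∈ (Icc 1 z).filter Nat.Prime, (1 : ℝ) / q ≤ S →
        (N : ℝ) * (∏ q ∈ (Icc 1 z).filter Nat.Prime, (1 - 1 / (q : ℝ)) - S ^ (2 * t + 2) / (2 * t + 2).factorial)
          - (1 + (z : ℝ)) ^ (2 * t + 1) ≤ (((Ioc N (2 * N)).filter p).card : ℝ)) →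
      c / Real.log z ^ 3 * Real.log V ≤ ∑ v ∈ (Ioc V (V ^ 2)).filter p, (1 : ℝ) / v := by
  obtain ⟨C, hC⟩ := sum_le
  obtain ⟨c0, hc0, hprod⟩ := prod_ge
  set D : ℝ := |C| + 1 + |Real.log (4 / c0)| with hD
  have hD1 : 1 ≤ D := by rw [hD]; have := abs_nonneg C; have := abs_nonneg (Real.log (4 / c0)); linarith
  have hDC : C ≤ D := by rw [hD]; have := le_abs_self C; have := abs_nonneg (Real.log (4 / c0)); linarith
  have hDc : Real.log (4 / c0) ≤ D := by rw [hD]; have := le_abs_self (Real.log (4 / c0)); have := abs_nonneg C; linarith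
  have hDe : Real.exp (-D) ≤ c0 / 4 := by
    have h : Real.exp (-D) ≤ Real.exp (-Real.log (4 / c0)) := Real.exp_le_exp.2 (by linarith)
    have h1 : Real.exp (-Real.log (4 / c0)) = c0 / 4 := by
      rw [Real.exp_neg, Real.exp_log (by positivity), inv_div]
    rw [h1] at h
    exact h
  refine ⟨min (c0 / 8) 1, 17 * D + 23, lt_min (by positivity) one_pos, min_le_right _ _, by linarith, ?_⟩
  intro p _ z V hz hV hKV s1
  have hz3 : (3 : ℝ) ≤ z := by exact_mod_cast hz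
  have hV3 : (3 : ℝ) ≤ V := by exact_mod_cast hV
  set Lz : ℝ := Real.log z with hLz
  have hLz1 : 1 ≤ Lz := by
    rw [hLz, Real.le_log_iff_exp_le (by linarith)]
    have := Real.exp_one_lt_d9
    linarith
  have hLz0 : 0 < Lz := by linarith
  have hll : Real.log Lz ≤ Lz := by
    have := Real.log_le_sub_one_of_pos hLz0
    linarith
  have hll0 : 0 ≤ Real.log Lz := Real.log_nonneg hLz1
  set S : ℝ := Real.log Lz + D with hS
  have hS1 : 1 ≤ S := by rw [hS]; linarith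
  set t : ℕ := ⌈4 * S⌉₊ with ht
  have ht1 : 4 * S ≤ t := Nat.le_ceil _
  have ht2 : (t : ℝ) < 4 * S + 1 := Nat.ceil_lt_add_one (by linarith)
  have hm : 8 * S ≤ ((2 * t + 2 : ℕ) : ℝ) := by push_cast; linarith
  have hfac := pf S (2 * t + 2) (by linarith) hm
  have hexpS : Real.exp (-S) ≤ c0 / (4 * Lz) := by
    rw [hS, neg_add, Real.exp_add, Real.exp_neg, Real.exp_log hLz0]
    calc Lz⁻¹ * Real.exp (-D) ≤ Lz⁻¹ * (c0 / 4) := mul_le_mul_of_nonneg_left hDe (by positivity)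
      _ = c0 / (4 * Lz) := by field_simp
  -- the error term
  have hE : (1 + (z : ℝ)) ^ (2 * t + 1) ≤ Real.exp ((16 * D + 22) * Lz ^ 2) := by
    have h1 : (1 + (z : ℝ)) = Real.exp (Real.log (1 + z)) := (Real.exp_log (by linarith)).symm
    have h2 : Real.log (1 + z) ≤ 2 * Lz := by
      have h3 : Real.log ((z : ℝ) ^ 2) = 2 * Lz := by rw [Real.log_pow, hLz]; norm_num
      rw [← h3]
      apply Real.log_le_log (by linarith)
      nlinarith
    have h20 : 0 ≤ Real.log (1 + (z : ℝ)) := Real.log_nonneg (by linarith)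
    rw [h1, ← Real.exp_nat_mul]
    apply Real.exp_le_exp.2
    push_cast
    have h4 : 2 * (t : ℝ) + 1 ≤ (8 * D + 11) * Lz := by
      have h5 : 2 * (t : ℝ) + 1 ≤ 8 * S + 3 := by linarith
      have h6 : 8 * S + 3 ≤ (8 * D + 11) * Lz := by
        rw [hS]
        nlinarith
      linarith
    have h40 : 0 ≤ 2 * (t : ℝ) + 1 := by positivity
    calc (2 * (t : ℝ) + 1) * Real.log (1 + z) ≤ ((8 * D + 11) * Lz) * (2 * Lz) :=
          mul_le_mul h4 h2 h20 (by nlinarith)
      _ = (16 * D + 22) * Lz ^ 2 := by ring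
  have hV0 : (0 : ℝ) < V := by linarith
  have hE2 : Real.exp ((16 * D + 22) * Lz ^ 2) ≤ c0 / (4 * Lz) * V := by
    have h1 : 4 * Lz / c0 ≤ Real.exp ((D + 1) * Lz ^ 2) := by
      have h2 : 4 * Lz / c0 = Real.exp (Real.log (4 / c0) + Real.log Lz) := by
        rw [Real.exp_add, Real.exp_log (by positivity), Real.exp_log hLz0]; ring
      rw [h2]
      apply Real.exp_le_exp.2
      nlinarith [mul_nonneg hLz0.le (sub_nonneg.2 hLz1)]
    have h3 : Real.exp ((17 * D + 23) * Lz ^ 2) ≤ V := by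
      rw [← Real.le_log_iff_exp_le hV0]
      exact hKV
    have h4 : Real.exp ((17 * D + 23) * Lz ^ 2) =
        Real.exp ((16 * D + 22) * Lz ^ 2) * Real.exp ((D + 1) * Lz ^ 2) := by
      rw [← Real.exp_add]; ring_nf
    have h5 : Real.exp ((16 * D + 22) * Lz ^ 2) * (4 * Lz / c0) ≤ V := by
      calc Real.exp ((16 * D + 22) * Lz ^ 2) * (4 * Lz / c0)
          ≤ Real.exp ((16 * D + 22) * Lz ^ 2) * Real.exp ((D + 1) * Lz ^ 2) :=
            mul_le_mul_of_nonneg_left h1 (Real.exp_pos _).le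
        _ = Real.exp ((17 * D + 23) * Lz ^ 2) := h4.symm
        _ ≤ V := h3
    calc Real.exp ((16 * D + 22) * Lz ^ 2) =
          c0 / (4 * Lz) * (Real.exp ((16 * D + 22) * Lz ^ 2) * (4 * Lz / c0)) := by field_simp
      _ ≤ c0 / (4 * Lz) * V := mul_le_mul_of_nonneg_left h5 (by positivity)
  have hkey := dyad p V (c0 / (2 * Lz)) (by omega) (by positivity) (by
    intro N hN
    have hNV : (V : ℝ) ≤ N := by exact_mod_cast hN
    have hN0 : (0 : ℝ) < N := by linarith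
    refine le_trans ?_ (s1 N t S hN ((hC z hz).trans (by rw [hS]; linarith)))
    have h1 := hprod z hz
    have h2 : c0 / (4 * Lz) * (V : ℝ) ≤ c0 / (4 * Lz) * N := mul_le_mul_of_nonneg_left hNV (by positivity)
    have h3 : (N : ℝ) * (c0 / Lz - c0 / (4 * Lz)) ≤
        (N : ℝ) * (∏ q ∈ (Icc 1 z).filter Nat.Prime, (1 - 1 / (q : ℝ)) - S ^ (2 * t + 2) / (2 * t + 2).factorial) := by
      apply mul_le_mul_of_nonneg_left _ hN0.le
      have h4 := hfac.trans hexpS
      linarith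
    have h5 : c0 / (2 * Lz) * N = N * (c0 / Lz - c0 / (4 * Lz)) - c0 / (4 * Lz) * N := by
      field_simp
      ring
    rw [h5]
    linarith)
  refine le_trans ?_ hkey
  have hLV : 0 ≤ Real.log V := Real.log_nonneg (by linarith)
  apply mul_le_mul_of_nonneg_right _ hLV
  have h1 : min (c0 / 8) 1 / Lz ^ 3 ≤ (c0 / 8) / Lz := by
    have h2 : Lz ≤ Lz ^ 3 := by nlinarith [mul_nonneg hLz0.le (sub_nonneg.2 hLz1), sq_nonneg Lz]
    calc min (c0 / 8) 1 / Lz ^ 3 ≤ (c0 / 8) / Lz ^ 3 := by gcongr; exact min_le_left _ _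
      _ ≤ (c0 / 8) / Lz := by gcongr
  refine h1.trans (le_of_eq ?_)
  field_simp
  norm_num


/-- the `b` in `(N, 2N]` with `b = β` modulo 2 and `A b - B` free of primes up to `z` -/
theorem s1 (A B z β N t : ℕ) (S : ℝ) (h2 : 2 ∣ A) (hA : 1 ≤ A) (hB : B ≤ A) (hAB : Nat.Coprime A B) (hz : 3 ≤ z)
    (hN : 3 ≤ N) (hS : ∑ q ∈ (Icc 1 z).filter Nat.Prime, (1 : ℝ) / q ≤ S) :
    (N : ℝ) * (∏ q ∈ (Icc 1 z).filter Nat.Prime, (1 - 1 / (q : ℝ)) - S ^ (2 * t + 2) / (2 * t + 2).factorial) -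
        (1 + (z : ℝ)) ^ (2 * t + 1)
      ≤ (((Ioc N (2 * N)).filter (fun b => b ≡ β [MOD 2] ∧ z < (A * b - B).minFac)).card : ℝ) := by
  classical
  set Pz := (Icc 1 z).filter Nat.Prime with hPz
  set P := Pz.filter (fun q => q = 2 ∨ ¬ q ∣ A) with hPd
  have hPsub : P ⊆ Pz := filter_subset _ _
  have hPp : ∀ q ∈ P, q.Prime := by
    intro q hq
    rw [hPd, mem_filter, hPz, mem_filter] at hq
    exact hq.1.2
  set F : ℕ → Finset ℕ := fun q => {if q = 2 then (β + N + 1) % 2 else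
    ((B : ZMod q) * (A : ZMod q)⁻¹ - (N : ZMod q)).val} with hFd
  have hF : ∀ q ∈ P, ∀ r ∈ F q, r < q := by
    intro q hq r hr
    rw [hFd] at hr
    simp only [mem_singleton] at hr
    haveI : NeZero q := ⟨(hPp q hq).ne_zero⟩
    rw [hr]
    split_ifs with h
    · rw [h]
      exact Nat.mod_lt _ (by norm_num)
    · exact ZMod.val_lt _
  have hcard : ∀ q, ((F q).card : ℝ) = 1 := by
    intro q
    rw [hFd]
    simp
  have key := brunlow P hPp F hF N t
  simp only [hcard] at key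
  have h2P : 2 ∈ P := by
    rw [hPd, mem_filter, hPz, mem_filter, mem_Icc]
    exact ⟨⟨⟨by norm_num, by omega⟩, Nat.prime_two⟩, Or.inl rfl⟩
  have hA2 : 2 ≤ A := Nat.le_of_dvd hA h2
  -- the map
  have hmap : ((Finset.Ioc 0 N).filter (fun k => ∀ q ∈ P, k % q ∉ F q)).card ≤
      ((Ioc N (2 * N)).filter (fun b => b ≡ β [MOD 2] ∧ z < (A * b - B).minFac)).card := by
    apply card_le_card_of_injOn (fun k => N + k)
    · intro k hk
      rw [mem_coe, mem_filter, mem_Ioc] at hk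
      obtain ⟨⟨hk0, hkN⟩, hk⟩ := hk
      rw [mem_coe, mem_filter, mem_Ioc]
      refine ⟨⟨by simp only; omega, by simp only; omega⟩, ?_, ?_⟩
      · have h3 := hk 2 h2P
        rw [hFd] at h3
        simp only [mem_singleton, if_true] at h3
        show (N + k) % 2 = β % 2
        omega
      simp only
      by_contra hcon
      push Not at hcon
      have hv : A + 2 ≤ A * (N + k) := by
        calc A + 2 ≤ A * 2 := by omega
          _ ≤ A * (N + k) := Nat.mul_le_mul_left _ (by omega)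
      have hne : A * (N + k) - B ≠ 1 := by omega
      set q := (A * (N + k) - B).minFac with hq
      have hqp : q.Prime := Nat.minFac_prime hne
      have hqd : q ∣ A * (N + k) - B := Nat.minFac_dvd _
      have hqA : ¬ q ∣ A := by
        intro hd
        have h1 : q ∣ A * (N + k) := hd.mul_right _
        have h2 : q ∣ A * (N + k) - (A * (N + k) - B) := Nat.dvd_sub h1 hqd
        have h3 : A * (N + k) - (A * (N + k) - B) = B := by omega
        rw [h3] at h2
        have h4 : q ∣ Nat.gcd A B := Nat.dvd_gcd hd h2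
        rw [hAB] at h4
        exact hqp.one_lt.ne' (Nat.dvd_one.mp h4)
      have hq2 : q ≠ 2 := by
        intro h
        rw [h] at hqA
        exact hqA h2
      have hqP : q ∈ P := by
        rw [hPd, mem_filter, hPz, mem_filter, mem_Icc]
        exact ⟨⟨⟨hqp.one_lt.le, hcon⟩, hqp⟩, Or.inr hqA⟩
      apply hk q hqP
      rw [hFd]
      simp only [mem_singleton, if_neg hq2]
      haveI : Fact q.Prime := ⟨hqp⟩
      have hA0 : (A : ZMod q) ≠ 0 := by
        rw [Ne, ZMod.natCast_eq_zero_iff]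
        exact hqA
      have h4 : ((A * (N + k) - B : ℕ) : ZMod q) = 0 := by
        rw [ZMod.natCast_eq_zero_iff]
        exact hqd
      have h5 : (A : ZMod q) * ((N : ZMod q) + k) = B := by
        have h6 : A * (N + k) = (A * (N + k) - B) + B := by omega
        have h7 := congrArg (Nat.cast : ℕ → ZMod q) h6
        rw [Nat.cast_add, h4] at h7
        push_cast at h7
        rw [h7]
        ring
      have h8 : (k : ZMod q) = (B : ZMod q) * (A : ZMod q)⁻¹ - N := by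
        have h9 : (N : ZMod q) + k = (B : ZMod q) * (A : ZMod q)⁻¹ := by
          rw [← h5]
          field_simp
        rw [← h9]
        ring
      rw [← h8, ZMod.val_natCast]
    · intro a _ b _ hab
      simp only at hab
      omega
  have hmap' : ((((Finset.Ioc 0 N).filter (fun k => ∀ q ∈ P, k % q ∉ F q)).card : ℕ) : ℝ) ≤
      ((((Ioc N (2 * N)).filter (fun b => b ≡ β [MOD 2] ∧ z < (A * b - B).minFac)).card : ℕ) : ℝ) := by
    exact_mod_cast hmap
  -- comparison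
  have hfac : ∀ q ∈ Pz, (0 : ℝ) ≤ 1 - 1 / (q : ℝ) ∧ 1 - 1 / (q : ℝ) ≤ 1 := by
    intro q hq
    rw [hPz, mem_filter] at hq
    have hq1 : (1 : ℝ) ≤ q := by exact_mod_cast hq.2.one_lt.le
    have h1 : 1 / (q : ℝ) ≤ 1 := by
      rw [div_le_one (by linarith)]
      exact hq1
    have h2 : (0 : ℝ) ≤ 1 / (q : ℝ) := by positivity
    constructor <;> linarith
  have hprod : ∏ q ∈ Pz, (1 - 1 / (q : ℝ)) ≤ ∏ q ∈ P, (1 - 1 / (q : ℝ)) := by
    rw [← prod_sdiff hPsub]
    have h1 : ∏ q ∈ Pz \ P, (1 - 1 / (q : ℝ)) ≤ 1 := by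
      apply prod_le_one
      · intro q hq
        exact (hfac q (mem_sdiff.mp hq).1).1
      · intro q hq
        exact (hfac q (mem_sdiff.mp hq).1).2
    have h2 : 0 ≤ ∏ q ∈ P, (1 - 1 / (q : ℝ)) := prod_nonneg fun q hq => (hfac q (hPsub hq)).1
    calc (∏ q ∈ Pz \ P, (1 - 1 / (q : ℝ))) * ∏ q ∈ P, (1 - 1 / (q : ℝ))
        ≤ 1 * ∏ q ∈ P, (1 - 1 / (q : ℝ)) := mul_le_mul_of_nonneg_right h1 h2
      _ = ∏ q ∈ P, (1 - 1 / (q : ℝ)) := one_mul _
  have hsum : ∑ q ∈ P, (1 : ℝ) / q ≤ S := by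
    refine le_trans ?_ hS
    apply sum_le_sum_of_subset_of_nonneg hPsub
    intro q _ _
    positivity
  have hsum0 : 0 ≤ ∑ q ∈ P, (1 : ℝ) / q := sum_nonneg fun q _ => by positivity
  have hpow : (∑ q ∈ P, (1 : ℝ) / q) ^ (2 * t + 2) / ((2 * t + 2).factorial : ℝ) ≤
      S ^ (2 * t + 2) / ((2 * t + 2).factorial : ℝ) :=
    div_le_div_of_nonneg_right (pow_le_pow_left₀ hsum0 hsum _) (by positivity)
  have hPc : (P.card : ℝ) ≤ z := by
    have : P.card ≤ z := by
      calc P.card ≤ Pz.card := card_le_card hPsub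
        _ ≤ (Icc 1 z).card := card_le_card (filter_subset _ _)
        _ = z := by simp
    exact_mod_cast this
  have hone : ∑ _q ∈ P, (1 : ℝ) = P.card := by simp
  rw [hone] at key
  have hpow2 : (1 + (P.card : ℝ)) ^ (2 * t + 1) ≤ (1 + (z : ℝ)) ^ (2 * t + 1) :=
    pow_le_pow_left₀ (by positivity) (by linarith) _
  have hN0 : (0 : ℝ) ≤ N := by positivity
  have hmul := mul_le_mul_of_nonneg_left (sub_le_sub hprod hpow) hN0
  linarith

/-- row S -/
theorem rowS92 : RowS := by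
  obtain ⟨c, K, hc, hc1, hK, h⟩ := par
    (by obtain ⟨C, _, hC⟩ := M20.sum_le
        exact ⟨C, hC⟩)
    (by obtain ⟨c, hc, _, h⟩ := M20.prod_ge
        exact ⟨c, hc, h⟩)
  refine ⟨c, K, hc, hc1, hK, fun A B z V β h2 hA hB hAB hz hV hKV => ?_⟩
  exact h (fun b => b ≡ β [MOD 2] ∧ z < (A * b - B).minFac) z V hz hV hKV
    (fun N t S hVN hS => s1 A B z β N t S h2 hA hB hAB hz (by omega) hS)

end Pool.Agent.BR3.S92
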