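import Pool.Agent.BR3.Stmts
import Pool.Agent.SPA.A46

/-!
# Row T: the coprime pairs
-/

set_option autoImplicit false

namespace Pool.Agent.BR3.T83

open Finset

/-- a residue class modulo four, from below -/
lemma low (U c : ℕ) (hU : 3 ≤ U) :
    Real.log U / 4 - 1 / U ≤ ∑ v ∈ (Ioc U (U ^ 2)).filter (fun v => v ≡ c [MOD 4]), (1 : ℝ) / v := by
  have hU0 : (0 : ℝ) < U := by
    have : 0 < U := by omega
    exact_mod_cast this
  have hUU : U + 4 ≤ U ^ 2 := by nlinarith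
  obtain ⟨v0, h1, h2, h3⟩ : ∃ v0, U < v0 ∧ v0 ≤ U + 4 ∧ v0 % 4 = c % 4 := by
    have h : (U + 1) % 4 = c % 4 ∨ (U + 2) % 4 = c % 4 ∨ (U + 3) % 4 = c % 4 ∨ (U + 4) % 4 = c % 4 := by
      omega
    rcases h with h | h | h | h
    · exact ⟨U + 1, by omega, by omega, h⟩
    · exact ⟨U + 2, by omega, by omega, h⟩
    · exact ⟨U + 3, by omega, by omega, h⟩
    · exact ⟨U + 4, by omega, by omega, h⟩
  obtain ⟨K, hK⟩ : ∃ K, K = (U ^ 2 - v0) / 4 + 1 := ⟨_, rfl⟩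
  have hK2 : U ^ 2 < v0 + 4 * K := by omega
  have hsub : (range K).image (fun k => v0 + 4 * k) ⊆
      (Ioc U (U ^ 2)).filter (fun v => v ≡ c [MOD 4]) := by
    intro v hv
    rw [mem_image] at hv
    obtain ⟨k, hk, rfl⟩ := hv
    rw [mem_range] at hk
    rw [mem_filter, mem_Ioc]
    refine ⟨⟨by omega, by omega⟩, ?_⟩
    unfold Nat.ModEq
    omega
  have hinj : Set.InjOn (fun k => v0 + 4 * k) (range K : Set ℕ) := by
    intro a _ b _ h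
    simp only at h
    omega
  have hv0 : (0 : ℝ) < v0 := by
    have : 0 < v0 := by omega
    exact_mod_cast this
  have hstep : ∀ k : ℕ, (Real.log ((v0 : ℝ) + 4 * ((k + 1 : ℕ) : ℝ)) - Real.log ((v0 : ℝ) + 4 * (k : ℝ))) / 4 ≤
      (1 : ℝ) / ((v0 + 4 * k : ℕ) : ℝ) := by
    intro k
    have hk0 : (0 : ℝ) ≤ k := Nat.cast_nonneg k
    have hw : (0 : ℝ) < (v0 : ℝ) + 4 * k := by linarith
    have hw' : (0 : ℝ) < (v0 : ℝ) + 4 * ((k + 1 : ℕ) : ℝ) := by push_cast; linarith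
    have e : ((v0 + 4 * k : ℕ) : ℝ) = (v0 : ℝ) + 4 * k := by push_cast; ring
    rw [e, ← Real.log_div hw'.ne' hw.ne']
    have h := Real.log_le_sub_one_of_pos (div_pos hw' hw)
    have e2 : ((v0 : ℝ) + 4 * ((k + 1 : ℕ) : ℝ)) / ((v0 : ℝ) + 4 * k) - 1 = 4 * (1 / ((v0 : ℝ) + 4 * k)) := by
      push_cast; field_simp; ring
    rw [e2] at h
    linarith
  have hsum : (Real.log ((v0 : ℝ) + 4 * (K : ℝ)) - Real.log v0) / 4 ≤
      ∑ k ∈ range K, (1 : ℝ) / ((v0 + 4 * k : ℕ) : ℝ) := by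
    have h := Finset.sum_range_sub (fun k : ℕ => Real.log ((v0 : ℝ) + 4 * (k : ℝ))) K
    simp only [Nat.cast_zero, mul_zero, add_zero] at h
    rw [← h, Finset.sum_div]
    exact Finset.sum_le_sum fun k _ => hstep k
  have hsum2 : ∑ k ∈ range K, (1 : ℝ) / ((v0 + 4 * k : ℕ) : ℝ) ≤
      ∑ v ∈ (Ioc U (U ^ 2)).filter (fun v => v ≡ c [MOD 4]), (1 : ℝ) / v := by
    rw [← Finset.sum_image (f := fun v : ℕ => (1 : ℝ) / (v : ℝ)) hinj]
    exact Finset.sum_le_sum_of_subset_of_nonneg hsub fun _ _ _ => by positivity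
  have hlast : 2 * Real.log U ≤ Real.log ((v0 : ℝ) + 4 * (K : ℝ)) := by
    have h : ((U ^ 2 : ℕ) : ℝ) ≤ ((v0 + 4 * K : ℕ) : ℝ) := by exact_mod_cast hK2.le
    have e : 2 * Real.log U = Real.log ((U ^ 2 : ℕ) : ℝ) := by push_cast; rw [Real.log_pow]; norm_num
    rw [e]
    have h' := Real.log_le_log (by positivity) h
    push_cast at h' ⊢
    exact h'
  have hfirst : Real.log v0 ≤ Real.log U + 4 / U := by
    have h : (v0 : ℝ) ≤ U * (1 + 4 / U) := by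
      have : (v0 : ℝ) ≤ U + 4 := by exact_mod_cast h2
      have e : (U : ℝ) * (1 + 4 / U) = U + 4 := by field_simp
      linarith
    have h' := Real.log_le_log hv0 h
    rw [Real.log_mul hU0.ne' (by positivity)] at h'
    have h'' := Real.log_le_sub_one_of_pos (show (0 : ℝ) < 1 + 4 / U by positivity)
    linarith
  have e4 : (4 : ℝ) / U = 4 * (1 / U) := by ring
  rw [e4] at hfirst
  linarith

/-- multiples of an odd number in a residue class modulo four, from above -/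
lemma up (U d α : ℕ) (hU : 1 ≤ U) (hd : d % 2 = 1) :
    ∑ v ∈ (Ioc U (U ^ 2)).filter (fun v => v ≡ α [MOD 4] ∧ d ∣ v), (1 : ℝ) / v ≤
      Real.log U / (4 * d) + 1 / U := by
  have hU0 : (0 : ℝ) < U := by exact_mod_cast hU
  have hlog : 0 ≤ Real.log U := Real.log_nonneg (by exact_mod_cast hU)
  rcases ((Ioc U (U ^ 2)).filter (fun v => v ≡ α [MOD 4] ∧ d ∣ v)).eq_empty_or_nonempty with h | ⟨a, ha⟩
  · rw [h, Finset.sum_empty]; positivity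
  · rw [mem_filter] at ha
    obtain ⟨_, ha1, ha2⟩ := ha
    have hcop : Nat.Coprime 4 d := by
      have h2 : Nat.Coprime 2 d := Nat.coprime_two_left.2 (Nat.odd_iff.2 hd)
      have h3 := Nat.Coprime.pow_left 2 h2
      norm_num at h3
      exact h3
    have hsub : (Ioc U (U ^ 2)).filter (fun v => v ≡ α [MOD 4] ∧ d ∣ v) ⊆
        (Ioc U (U ^ 2)).filter (fun v => v ≡ a [MOD 4 * d]) := by
      intro v hv
      rw [mem_filter] at hv ⊢
      refine ⟨hv.1, ?_⟩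
      rw [← Nat.modEq_and_modEq_iff_modEq_mul hcop]
      exact ⟨hv.2.1.trans ha1.symm, ((Nat.modEq_zero_iff_dvd).2 hv.2.2).trans ((Nat.modEq_zero_iff_dvd).2 ha2).symm⟩
    have h := Pool.Agent.SPA.a46 U (4 * d) a hU (by omega)
    refine (Finset.sum_le_sum_of_subset_of_nonneg hsub fun _ _ _ => by positivity).trans (h.trans ?_)
    push_cast
    exact le_rfl

lemma sq_sum (M : ℕ) :
    ∑ k ∈ Icc 1 M, (1 : ℝ) / (2 * (k : ℝ) + 1) ^ 2 ≤ 1 / 4 - 1 / (4 * ((M : ℝ) + 1)) := by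
  induction M with
  | zero => simp
  | succ M ih =>
    rw [Finset.sum_Icc_succ_top (by omega)]
    have hM : (0 : ℝ) ≤ M := Nat.cast_nonneg M
    have h : (1 : ℝ) / (2 * ((M + 1 : ℕ) : ℝ) + 1) ^ 2 ≤
        1 / (4 * ((M : ℝ) + 1)) - 1 / (4 * (((M + 1 : ℕ) : ℝ) + 1)) := by
      push_cast
      have e : (1 : ℝ) / (4 * ((M : ℝ) + 1)) - 1 / (4 * ((M : ℝ) + 1 + 1)) =
          1 / (4 * ((M : ℝ) + 1) * ((M : ℝ) + 1 + 1)) := by field_simp; ring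
      rw [e]
      apply one_div_le_one_div_of_le (by positivity)
      nlinarith
    linarith

/-- the sum over a product set -/
lemma prod_sum (A C : Finset ℕ) :
    ∑ p ∈ A ×ˢ C, (1 : ℝ) / ((p.1 : ℝ) * p.2) = (∑ a ∈ A, (1 : ℝ) / a) * ∑ c ∈ C, (1 : ℝ) / c := by
  rw [Finset.sum_product, Finset.sum_mul_sum]
  refine Finset.sum_congr rfl fun a _ => Finset.sum_congr rfl fun c _ => ?_
  rw [one_div_mul_one_div]

/-- row T -/
theorem _root_.Pool.Agent.BR3.rowT83 : RowT := by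
  obtain ⟨U₁, hU₁⟩ := exists_nat_ge (Real.exp 16)
  refine ⟨1 / 64, max U₁ 3, by norm_num, ?_⟩
  intro U α hU
  have hU3 : 3 ≤ U := (le_max_right _ _).trans hU
  have hUU1 : U₁ ≤ U := (le_max_left _ _).trans hU
  have hU0 : (0 : ℝ) < U := by
    have : 0 < U := by omega
    exact_mod_cast this
  have hU3' : (3 : ℝ) ≤ U := by exact_mod_cast hU3
  obtain ⟨L, hL⟩ : ∃ L, L = Real.log U := ⟨_, rfl⟩
  have hL16 : 16 ≤ L := by
    rw [hL, Real.le_log_iff_exp_le hU0]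
    exact hU₁.trans (by exact_mod_cast hUU1)
  have hLU : L ≤ U := by
    rw [hL]
    have := Real.log_le_sub_one_of_pos hU0
    linarith
  -- the full set
  obtain ⟨A, hA⟩ : ∃ A, A = (Ioc U (U ^ 2)).filter (fun v => v ≡ α [MOD 4]) := ⟨_, rfl⟩
  obtain ⟨C, hC⟩ : ∃ C, C = (Ioc U (U ^ 2)).filter (fun v => v ≡ 1 [MOD 4]) := ⟨_, rfl⟩
  have hAlow : L / 4 - 1 / U ≤ ∑ v ∈ A, (1 : ℝ) / v := by rw [hA, hL]; exact low U α hU3
  have hClow : L / 4 - 1 / U ≤ ∑ v ∈ C, (1 : ℝ) / v := by rw [hC, hL]; exact low U 1 hU3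
  have hinv : (1 : ℝ) / U ≤ 1 := by rw [div_le_one hU0]; linarith
  have hinv0 : (0 : ℝ) < 1 / U := by positivity
  have hpos : 0 ≤ L / 4 - 1 / U := by linarith
  have hfull : (L / 4 - 1 / U) ^ 2 ≤ ∑ p ∈ A ×ˢ C, (1 : ℝ) / ((p.1 : ℝ) * p.2) := by
    rw [prod_sum, sq]
    exact mul_le_mul hAlow hClow hpos (hpos.trans hAlow)
  -- pointwise
  have hpt : ∀ p ∈ A ×ˢ C, (1 : ℝ) / ((p.1 : ℝ) * p.2) ≤
      (if Nat.Coprime p.1 p.2 then (1 : ℝ) / ((p.1 : ℝ) * p.2) else 0) +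
      ∑ k ∈ Icc 1 (U ^ 2), if (2 * k + 1 ∣ p.1 ∧ 2 * k + 1 ∣ p.2) then (1 : ℝ) / ((p.1 : ℝ) * p.2) else 0 := by
    intro p hp
    rw [mem_product, hA, hC, mem_filter, mem_filter, mem_Ioc, mem_Ioc] at hp
    obtain ⟨⟨⟨h1, h2⟩, h3⟩, ⟨⟨h4, h5⟩, h6⟩⟩ := hp
    have hf : (0 : ℝ) ≤ (1 : ℝ) / ((p.1 : ℝ) * p.2) := by positivity
    have hs : ∀ k ∈ Icc 1 (U ^ 2), (0 : ℝ) ≤
        if (2 * k + 1 ∣ p.1 ∧ 2 * k + 1 ∣ p.2) then (1 : ℝ) / ((p.1 : ℝ) * p.2) else 0 := by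
      intro k _
      split_ifs
      · exact hf
      · exact le_rfl
    by_cases hc : Nat.Coprime p.1 p.2
    · rw [if_pos hc]
      have := Finset.sum_nonneg hs
      linarith
    · rw [if_neg hc, zero_add]
      have hd1 : Nat.gcd p.1 p.2 ∣ p.1 := Nat.gcd_dvd_left _ _
      have hd2 : Nat.gcd p.1 p.2 ∣ p.2 := Nat.gcd_dvd_right _ _
      have hd0 : 0 < Nat.gcd p.1 p.2 := Nat.gcd_pos_of_pos_left _ (by omega)
      have hne : Nat.gcd p.1 p.2 ≠ 1 := hc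
      have hodd : Nat.gcd p.1 p.2 % 2 = 1 := by
        by_contra h
        have h' : 2 ∣ Nat.gcd p.1 p.2 := by omega
        have h'' : 2 ∣ p.2 := h'.trans hd2
        unfold Nat.ModEq at h6
        omega
      have hle : Nat.gcd p.1 p.2 ≤ p.1 := Nat.le_of_dvd (by omega) hd1
      obtain ⟨k, hk⟩ : ∃ k, Nat.gcd p.1 p.2 = 2 * k + 1 := ⟨Nat.gcd p.1 p.2 / 2, by omega⟩
      have hmem : k ∈ Icc 1 (U ^ 2) := by rw [mem_Icc]; omega
      have h := Finset.single_le_sum hs hmem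
      rw [if_pos ⟨hk ▸ hd1, hk ▸ hd2⟩] at h
      exact h
  have hsplit : ∑ p ∈ A ×ˢ C, (1 : ℝ) / ((p.1 : ℝ) * p.2) ≤
      ∑ p ∈ T U α, (1 : ℝ) / ((p.1 : ℝ) * p.2) +
      ∑ k ∈ Icc 1 (U ^ 2), ∑ p ∈ (A ×ˢ C).filter (fun p => 2 * k + 1 ∣ p.1 ∧ 2 * k + 1 ∣ p.2),
        (1 : ℝ) / ((p.1 : ℝ) * p.2) := by
    refine (Finset.sum_le_sum hpt).trans ?_
    rw [Finset.sum_add_distrib, Finset.sum_comm]
    apply add_le_add
    · rw [← Finset.sum_filter]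
      apply le_of_eq
      apply Finset.sum_congr _ fun _ _ => rfl
      ext p
      rw [hA, hC]
      unfold T
      simp only [mem_filter, mem_product]
      tauto
    · apply le_of_eq
      refine Finset.sum_congr rfl fun k _ => ?_
      rw [← Finset.sum_filter]
  have hk : ∀ k ∈ Icc 1 (U ^ 2),
      ∑ p ∈ (A ×ˢ C).filter (fun p => 2 * k + 1 ∣ p.1 ∧ 2 * k + 1 ∣ p.2), (1 : ℝ) / ((p.1 : ℝ) * p.2) ≤
      L ^ 2 / 8 * (1 / (2 * (k : ℝ) + 1) ^ 2) + 2 * (1 / U) ^ 2 := by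
    intro k _
    have e : (A ×ˢ C).filter (fun p => 2 * k + 1 ∣ p.1 ∧ 2 * k + 1 ∣ p.2) =
        ((Ioc U (U ^ 2)).filter (fun v => v ≡ α [MOD 4] ∧ 2 * k + 1 ∣ v)) ×ˢ
        ((Ioc U (U ^ 2)).filter (fun v => v ≡ 1 [MOD 4] ∧ 2 * k + 1 ∣ v)) := by
      ext p
      rw [hA, hC]
      simp only [mem_filter, mem_product]
      tauto
    rw [e, prod_sum]
    have u1 := up U (2 * k + 1) α (by omega) (by omega)
    have u2 := up U (2 * k + 1) 1 (by omega) (by omega)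
    have n2 : 0 ≤ ∑ v ∈ (Ioc U (U ^ 2)).filter (fun v => v ≡ 1 [MOD 4] ∧ 2 * k + 1 ∣ v), (1 : ℝ) / v :=
      Finset.sum_nonneg fun _ _ => by positivity
    rw [← hL] at u1 u2
    push_cast at u1 u2
    have hL0 : 0 ≤ L := by linarith
    have hx : 0 ≤ L / (4 * (2 * (k : ℝ) + 1)) + 1 / U := by positivity
    refine (mul_le_mul u1 u2 n2 hx).trans ?_
    have e2 : L ^ 2 / 8 * (1 / (2 * (k : ℝ) + 1) ^ 2) = 2 * (L / (4 * (2 * (k : ℝ) + 1))) ^ 2 := by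
      field_simp; ring
    rw [e2]
    nlinarith [sq_nonneg (L / (4 * (2 * (k : ℝ) + 1)) - 1 / U)]
  have hkk := Finset.sum_le_sum hk
  rw [Finset.sum_add_distrib, ← Finset.mul_sum, Finset.sum_const, Nat.card_Icc, nsmul_eq_mul] at hkk
  have hq := sq_sum (U ^ 2)
  have hq' : ∑ k ∈ Icc 1 (U ^ 2), (1 : ℝ) / (2 * (k : ℝ) + 1) ^ 2 ≤ 1 / 4 := by
    have : (0 : ℝ) ≤ 1 / (4 * (((U ^ 2 : ℕ) : ℝ) + 1)) := by positivity
    linarith
  have hq2 : L ^ 2 / 8 * ∑ k ∈ Icc 1 (U ^ 2), (1 : ℝ) / (2 * (k : ℝ) + 1) ^ 2 ≤ L ^ 2 / 8 * (1 / 4) :=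
    mul_le_mul_of_nonneg_left hq' (by positivity)
  have hq3 : ((U ^ 2 + 1 - 1 : ℕ) : ℝ) * (2 * (1 / (U : ℝ)) ^ 2) = 2 := by
    rw [Nat.add_sub_cancel]; push_cast; field_simp
  rw [hq3] at hkk
  have hexp : (L / 4 - 1 / U) ^ 2 = L ^ 2 / 16 - L * (1 / U) / 2 + (1 / U) ^ 2 := by ring
  have hLU' : L * (1 / U) ≤ 1 := by
    rw [mul_one_div, div_le_one hU0]; exact hLU
  rw [← hL]
  nlinarith [sq_nonneg ((1 : ℝ) / U)]

end Pool.Agent.BR3.T83
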