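import Pool.Agent.BR3.Stmts

/-!
# Row Up (helper62): `∑ n ≤ N, c n ≤ 27 N (log N) ^ 3`
-/

set_option autoImplicit false

namespace Pool.Agent.BR3.Up62

open Finset Pool.Agent.Helper64.Breadth

theorem inv {l : ℕ} {x y : ℤ} (h : Br l x y) :
    (l = 0 ∧ ∃ m : ℕ, 1 ≤ m ∧ x = m ∧ y = m) ∨
    (∃ (l' : ℕ) (x' y' : ℤ) (i : ℕ), l = l' + 1 ∧ Br l' x' y' ∧ x = x' + y' + i * (2 * x' + 1) ∧
      y = y' + i * (2 * x' + 1)) := by
  induction h with
  | base => exact Or.inl ⟨rfl, 1, le_rfl, by simp, by simp⟩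
  | @G l x y h ih => exact Or.inr ⟨l, x, y, 0, rfl, h, by simp, by simp⟩
  | @S l x y h ih =>
    rcases ih with ⟨h0, m, hm, hx, hy⟩ | ⟨l', x', y', i, hl, hb, hx, hy⟩
    · refine Or.inl ⟨h0, m + 1, by omega, ?_, ?_⟩
      · rw [hx, hy]; push_cast; ring
      · rw [hx, hy]; push_cast; ring
    · refine Or.inr ⟨l', x', y', i + 1, hl, hb, ?_, ?_⟩
      · rw [hx, hy]; push_cast; ring
      · rw [hx, hy]; push_cast; ring

theorem inv0 {x y : ℤ} (h : Br 0 x y) : ∃ m : ℕ, 1 ≤ m ∧ x = m ∧ y = m := by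
  rcases inv h with ⟨-, h⟩ | ⟨l', x', y', i, hl, -⟩
  · exact h
  · omega

theorem invS {l : ℕ} {x y : ℤ} (h : Br (l + 1) x y) : ∃ (x' y' : ℤ) (i : ℕ), Br l x' y' ∧
    x = x' + y' + i * (2 * x' + 1) ∧ y = y' + i * (2 * x' + 1) := by
  rcases inv h with ⟨h, -⟩ | ⟨l', x', y', i, hl, hb, hx, hy⟩
  · omega
  · have : l = l' := by omega
    subst this
    exact ⟨x', y', i, hb, hx, hy⟩

/-- one step: `(x, y)` to `S^i G (x, y)` -/
def st (p : ℕ × ℕ) (i : ℕ) : ℕ × ℕ := (p.1 + p.2 + i * (2 * p.1 + 1), p.2 + i * (2 * p.1 + 1))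

/-- the element with the parameters `((I₁, I₂), (I₃, m))` -/
def el (q : (ℕ × ℕ) × (ℕ × ℕ)) : (_ : ℕ) × ℤ :=
  let p := st (st (st (q.2.2, q.2.2) (q.1.1 - 1)) (q.1.2 - 1)) (q.2.1 - 1)
  ⟨p.1, (p.2 : ℤ)⟩

theorem st_ge (p : ℕ × ℕ) (i : ℕ) : p.1 * (i + 1) ≤ (st p i).1 := by
  unfold st
  nlinarith [Nat.zero_le (i * p.1)]

theorem three {n : ℕ} {k : ℤ} (h : Br 3 n k) : ∃ m i₁ i₂ i₃ : ℕ, 1 ≤ m ∧
    (n : ℤ) = ((st (st (st (m, m) i₁) i₂) i₃).1 : ℕ) ∧ k = ((st (st (st (m, m) i₁) i₂) i₃).2 : ℕ) := by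
  obtain ⟨x2, y2, i3, h2, e1, e2⟩ := invS h
  obtain ⟨x1, y1, i2, h1, e3, e4⟩ := invS h2
  obtain ⟨x0, y0, i1, h0, e5, e6⟩ := invS h1
  obtain ⟨m, hm, e7, e8⟩ := inv0 h0
  refine ⟨m, i1, i2, i3, hm, ?_, ?_⟩
  · rw [e1, e3, e4, e5, e6, e7, e8]
    unfold st
    push_cast
    ring
  · rw [e2, e3, e4, e5, e6, e7, e8]
    unfold st
    push_cast
    ring

/-- the parameter set -/
def P (N : ℕ) : Finset ((ℕ × ℕ) × (ℕ × ℕ)) :=
  ((Icc 1 N ×ˢ Icc 1 N) ×ˢ (Icc 1 N ×ˢ Icc 1 N)).filter (fun q => q.2.2 * (q.1.1 * q.1.2 * q.2.1) ≤ N)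

theorem sum_c_le (N : ℕ) : ∑ n ∈ Icc 1 N, c n ≤ (P N).card := by
  classical
  have h1 : ∀ n, c n = (finite_row n).toFinset.card := by
    intro n
    rw [c, ← Set.ncard_eq_toFinset_card _ (finite_row n)]
    rfl
  rw [Finset.sum_congr rfl fun n _ => h1 n, ← Finset.card_sigma]
  refine (Finset.card_le_card (t := (P N).image el) ?_).trans Finset.card_image_le
  rintro ⟨n, k⟩ hnk
  rw [Finset.mem_sigma, mem_Icc, Set.Finite.mem_toFinset] at hnk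
  obtain ⟨⟨hn1, hnN⟩, hk⟩ := hnk
  have hk' : Br 3 n k := hk
  obtain ⟨m, i1, i2, i3, hm, e1, e2⟩ := three hk'
  have e1' : n = (st (st (st (m, m) i1) i2) i3).1 := by exact_mod_cast e1
  have g1 := st_ge (m, m) i1
  have g2 := st_ge (st (m, m) i1) i2
  have g3 := st_ge (st (st (m, m) i1) i2) i3
  have g4 : m * ((i1 + 1) * (i2 + 1) * (i3 + 1)) ≤ N := by
    calc m * ((i1 + 1) * (i2 + 1) * (i3 + 1)) = (m * (i1 + 1)) * (i2 + 1) * (i3 + 1) := by ring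
      _ ≤ (st (m, m) i1).1 * (i2 + 1) * (i3 + 1) :=
          Nat.mul_le_mul_right _ (Nat.mul_le_mul_right _ g1)
      _ ≤ (st (st (m, m) i1) i2).1 * (i3 + 1) := Nat.mul_le_mul_right _ g2
      _ ≤ (st (st (st (m, m) i1) i2) i3).1 := g3
      _ ≤ N := by
        rw [← e1']
        exact hnN
  have b1 : i1 + 1 ≤ N := by
    refine le_trans ?_ g4
    calc i1 + 1 = 1 * ((i1 + 1) * 1 * 1) := by ring
      _ ≤ m * ((i1 + 1) * (i2 + 1) * (i3 + 1)) := by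
        apply Nat.mul_le_mul hm
        apply Nat.mul_le_mul (Nat.mul_le_mul le_rfl (by omega)) (by omega)
  have b2 : i2 + 1 ≤ N := by
    refine le_trans ?_ g4
    calc i2 + 1 = 1 * (1 * (i2 + 1) * 1) := by ring
      _ ≤ m * ((i1 + 1) * (i2 + 1) * (i3 + 1)) := by
        apply Nat.mul_le_mul hm
        apply Nat.mul_le_mul (Nat.mul_le_mul (by omega) le_rfl) (by omega)
  have b3 : i3 + 1 ≤ N := by
    refine le_trans ?_ g4
    calc i3 + 1 = 1 * (1 * 1 * (i3 + 1)) := by ring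
      _ ≤ m * ((i1 + 1) * (i2 + 1) * (i3 + 1)) := by
        apply Nat.mul_le_mul hm
        apply Nat.mul_le_mul (Nat.mul_le_mul (by omega) (by omega)) le_rfl
  have b4 : m ≤ N := by
    refine le_trans ?_ g4
    calc m = m * (1 * 1 * 1) := by ring
      _ ≤ m * ((i1 + 1) * (i2 + 1) * (i3 + 1)) := by
        apply Nat.mul_le_mul le_rfl
        apply Nat.mul_le_mul (Nat.mul_le_mul (by omega) (by omega)) (by omega)
  rw [Finset.mem_image]
  refine ⟨((i1 + 1, i2 + 1), (i3 + 1, m)), ?_, ?_⟩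
  · rw [P, mem_filter, mem_product, mem_product, mem_product, mem_Icc, mem_Icc, mem_Icc, mem_Icc]
    exact ⟨⟨⟨⟨Nat.succ_le_succ (Nat.zero_le _), b1⟩, ⟨Nat.succ_le_succ (Nat.zero_le _), b2⟩⟩,
      ⟨⟨Nat.succ_le_succ (Nat.zero_le _), b3⟩, ⟨hm, b4⟩⟩⟩, g4⟩
  · unfold el
    simp only [Nat.add_sub_cancel]
    rw [← e1', ← e2]

theorem card_mul_le (N d : ℕ) (hd : 0 < d) : (((Icc 1 N).filter (fun m => m * d ≤ N)).card : ℝ) ≤ N * (1 / (d : ℝ)) := by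
  have h1 : ((Icc 1 N).filter (fun m => m * d ≤ N)).card ≤ N / d := by
    have : (Icc 1 N).filter (fun m => m * d ≤ N) ⊆ Icc 1 (N / d) := by
      intro m hm
      rw [mem_filter, mem_Icc] at hm
      rw [mem_Icc]
      exact ⟨hm.1.1, (Nat.le_div_iff_mul_le hd).2 hm.2⟩
    refine (Finset.card_le_card this).trans ?_
    rw [Nat.card_Icc]
    exact (Nat.add_sub_cancel (N / d) 1).le
  have h2 : (((Icc 1 N).filter (fun m => m * d ≤ N)).card : ℝ) ≤ ((N / d : ℕ) : ℝ) := by exact_mod_cast h1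
  refine h2.trans (Nat.cast_div_le.trans ?_)
  rw [mul_one_div]

theorem card_P (N : ℕ) : ((P N).card : ℝ) ≤ N * (∑ i ∈ Icc 1 N, (1 : ℝ) / i) ^ 3 := by
  classical
  have h1 : ((P N).card : ℝ) = ∑ a ∈ Icc 1 N, ∑ b ∈ Icc 1 N, ∑ d ∈ Icc 1 N,
      (((Icc 1 N).filter (fun m => m * (a * b * d) ≤ N)).card : ℝ) := by
    rw [P, Finset.card_filter, Nat.cast_sum, Finset.sum_product, Finset.sum_product]
    refine Finset.sum_congr rfl fun a _ => Finset.sum_congr rfl fun b _ => ?_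
    rw [Finset.sum_product]
    refine Finset.sum_congr rfl fun d _ => ?_
    rw [Finset.card_filter, Nat.cast_sum]
  rw [h1]
  have h2 : (N : ℝ) * (∑ i ∈ Icc 1 N, (1 : ℝ) / i) ^ 3 = ∑ a ∈ Icc 1 N, ∑ b ∈ Icc 1 N, ∑ d ∈ Icc 1 N,
      (N : ℝ) * (1 / ((a : ℝ) * b * d)) := by
    have e : (∑ i ∈ Icc 1 N, (1 : ℝ) / i) ^ 3 = (∑ i ∈ Icc 1 N, (1 : ℝ) / i) * ((∑ i ∈ Icc 1 N, (1 : ℝ) / i) *
        (∑ i ∈ Icc 1 N, (1 : ℝ) / i)) := by ring
    rw [e, Finset.sum_mul_sum, Finset.sum_mul_sum, Finset.mul_sum]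
    refine Finset.sum_congr rfl fun a _ => ?_
    rw [Finset.mul_sum]
    refine Finset.sum_congr rfl fun b _ => ?_
    rw [Finset.mul_sum, Finset.mul_sum]
    refine Finset.sum_congr rfl fun d _ => ?_
    rw [one_div, one_div, one_div, one_div, mul_inv, mul_inv]
    ring
  rw [h2]
  refine Finset.sum_le_sum fun a ha => Finset.sum_le_sum fun b hb => Finset.sum_le_sum fun d hd => ?_
  rw [mem_Icc] at ha hb hd
  have h3 : 0 < a * b * d := Nat.mul_pos (Nat.mul_pos (by omega) (by omega)) (by omega)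
  have h4 := card_mul_le N (a * b * d) h3
  push_cast at h4
  exact h4

theorem harm (N : ℕ) : ∑ i ∈ Icc 1 N, (1 : ℝ) / i ≤ 1 + Real.log N := by
  have h1 := harmonic_le_one_add_log N
  rw [harmonic_eq_sum_Icc] at h1
  push_cast at h1
  simpa only [one_div] using h1

/-- **Row Up.** -/
theorem up62 : RowUp := by
  refine ⟨27, by norm_num, ?_⟩
  intro N hN
  have h1 : (∑ n ∈ Icc 1 N, (c n : ℝ)) ≤ ((P N).card : ℝ) := by
    have := sum_c_le N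
    exact_mod_cast this
  refine (h1.trans (card_P N)).trans ?_
  have hN' : (2 : ℝ) ≤ (N : ℝ) := by exact_mod_cast hN
  have hlog : 0.6931 < Real.log N := by
    have h2 : Real.log 2 ≤ Real.log N := Real.log_le_log (by norm_num) hN'
    have h3 := Real.log_two_gt_d9
    linarith
  have h4 : ∑ i ∈ Icc 1 N, (1 : ℝ) / i ≤ 3 * Real.log N := by
    have := harm N
    linarith
  have h5 : 0 ≤ ∑ i ∈ Icc 1 N, (1 : ℝ) / i := Finset.sum_nonneg fun i _ => by positivity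
  calc (N : ℝ) * (∑ i ∈ Icc 1 N, (1 : ℝ) / i) ^ 3 ≤ N * (3 * Real.log N) ^ 3 :=
        mul_le_mul_of_nonneg_left (pow_le_pow_left₀ h5 h4 3) (by linarith)
    _ = 27 * N * Real.log N ^ 3 := by ring

end Pool.Agent.BR3.Up62
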