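import Pool.Agent.BR3.Stmts
import Pool.Agent.SPA.C17
import Pool.Agent.SPA.A46

/-!
# Row V0: the same pair `(a, c)`
-/

set_option autoImplicit false

namespace Pool.Agent.BR3.V089

open Finset Pool.Agent.SPA

/-- a common divisor of `A v - B` and `A w - B` divides `v - w` -/
lemma key (A B v w d : ℕ) (hc : Nat.Coprime A B) (hv : B ≤ A * v) (hw : B ≤ A * w)
    (h1 : d ∣ A * v - B) (h2 : d ∣ A * w - B) : ((d : ℕ) : ℤ) ∣ (v : ℤ) - w := by
  have e1 : ((d : ℕ) : ℤ) ∣ (A : ℤ) * v - B := by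
    have := Int.natCast_dvd_natCast.mpr h1
    rw [Nat.cast_sub hv] at this
    push_cast at this
    exact this
  have e2 : ((d : ℕ) : ℤ) ∣ (A : ℤ) * w - B := by
    have := Int.natCast_dvd_natCast.mpr h2
    rw [Nat.cast_sub hw] at this
    push_cast at this
    exact this
  have e3 : ((d : ℕ) : ℤ) ∣ (A : ℤ) * ((v : ℤ) - w) := by
    have : (A : ℤ) * ((v : ℤ) - w) = ((A : ℤ) * v - B) - ((A : ℤ) * w - B) := by ring
    rw [this]; exact dvd_sub e1 e2
  have e4 : ((d : ℕ) : ℤ) ∣ (B : ℤ) * ((v : ℤ) - w) := by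
    have : (B : ℤ) * ((v : ℤ) - w) = ((A : ℤ) * v - B) * w - ((A : ℤ) * w - B) * v := by ring
    rw [this]; exact dvd_sub (e1.mul_right _) (e2.mul_right _)
  have hco : IsCoprime (A : ℤ) (B : ℤ) := Nat.isCoprime_iff_coprime.mpr hc
  obtain ⟨p, q, hpq⟩ := hco
  have : (v : ℤ) - w = p * ((A : ℤ) * ((v : ℤ) - w)) + q * ((B : ℤ) * ((v : ℤ) - w)) := by
    linear_combination (-((v : ℤ) - w)) * hpq
  rw [this]
  exact dvd_add (e3.mul_left _) (e4.mul_left _)

/-- the class of `v` with `d ∣ A v - B` -/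
lemma cls (A B V d : ℕ) (hc : Nat.Coprime A B) (hA : 1 ≤ A) (hBA : B ≤ A) (hV : 2 ≤ V) (hd : 1 ≤ d) :
    ∑ v ∈ (Ioc V (V ^ 2)).filter (fun v => d ∣ A * v - B), (1 : ℝ) / v ≤ Real.log V / d + 1 / V := by
  rcases ((Ioc V (V ^ 2)).filter (fun v => d ∣ A * v - B)).eq_empty_or_nonempty with h | ⟨c, hcc⟩
  · rw [h, sum_empty]
    have : 0 ≤ Real.log V := Real.log_natCast_nonneg V
    positivity
  · refine le_trans (sum_le_sum_of_subset_of_nonneg ?_ (fun _ _ _ => by positivity))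
      (a46 V d c (by omega) hd)
    intro v hv
    rw [mem_filter] at hv hcc ⊢
    refine ⟨hv.1, ?_⟩
    have hv1 := mem_Ioc.mp hv.1
    have hc1 := mem_Ioc.mp hcc.1
    rw [Nat.modEq_iff_dvd]
    exact key A B c v d hc (by nlinarith) (by nlinarith) hcc.2 hv.2

/-- `∑ τ(A v - B) / v` -/
lemma tau (A B V : ℕ) (hc : Nat.Coprime A B) (hA : 1 ≤ A) (hBA : B ≤ A) (hV : 2 ≤ V) :
    ∑ v ∈ Ioc V (V ^ 2), (1 : ℝ) / v * ((A * v - B).divisors.card : ℝ) ≤
      2 * ((1 + Real.log A + Real.log V) * Real.log V + Real.sqrt A) := by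
  have hV' : (0 : ℝ) < V := by
    have : 0 < V := by omega
    exact_mod_cast this
  have hA' : (0 : ℝ) < A := by exact_mod_cast hA
  have hlV : 0 ≤ Real.log V := Real.log_natCast_nonneg V
  have hlA : 0 ≤ Real.log A := Real.log_natCast_nonneg A
  set D : ℕ := Nat.sqrt (A * V ^ 2) with hDdef
  have hD1 : 1 ≤ D := by
    rw [hDdef, Nat.le_sqrt]
    nlinarith
  have hDr : (D : ℝ) ≤ Real.sqrt A * V := by
    have h1 : ((D * D : ℕ) : ℝ) ≤ ((A * V ^ 2 : ℕ) : ℝ) := by
      exact_mod_cast Nat.sqrt_le (A * V ^ 2)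
    push_cast at h1
    have h2 : (Real.sqrt A * V) ^ 2 = A * V ^ 2 := by
      rw [mul_pow, Real.sq_sqrt hA'.le]
    have h3 : (0 : ℝ) ≤ Real.sqrt A * V := by positivity
    nlinarith [h1, h2, h3, (by positivity : (0 : ℝ) ≤ D)]
  have hlogD : Real.log D ≤ Real.log A + Real.log V := by
    have hD0 : (0 : ℝ) < D := by exact_mod_cast hD1
    have h1 : Real.log D ≤ Real.log (Real.sqrt A * V) := Real.log_le_log hD0 hDr
    rw [Real.log_mul (by positivity) (by positivity), Real.log_sqrt hA'.le] at h1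
    linarith
  have step1 : ∀ v ∈ Ioc V (V ^ 2), (1 : ℝ) / v * ((A * v - B).divisors.card : ℝ) ≤
      2 * ∑ d ∈ Icc 1 D, (if d ∣ A * v - B then (1 : ℝ) / v else 0) := by
    intro v hv
    have hv1 := mem_Ioc.mp hv
    have hv' : (0 : ℝ) < v := by
      have : 0 < v := by omega
      exact_mod_cast this
    have hAv : A * 2 ≤ A * v := Nat.mul_le_mul_left A (by omega)
    have hn : 1 ≤ A * v - B := by omega
    have hlt : A * v - B < (D + 1) * (D + 1) := by
      have h1 : A * v ≤ A * V ^ 2 := Nat.mul_le_mul_left A hv1.2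
      have h2 : A * V ^ 2 < (D + 1) * (D + 1) := Nat.lt_succ_sqrt _
      omega
    have h3 := c17_div (A * v - B) D hn hlt
    have h4 : ((A * v - B).divisors.card : ℝ) ≤
        2 * (((Icc 1 D).filter (fun d => d ∣ A * v - B)).card : ℝ) := by exact_mod_cast h3
    calc (1 : ℝ) / v * ((A * v - B).divisors.card : ℝ)
        ≤ (1 : ℝ) / v * (2 * (((Icc 1 D).filter (fun d => d ∣ A * v - B)).card : ℝ)) := by gcongr
      _ = 2 * ∑ d ∈ Icc 1 D, (if d ∣ A * v - B then (1 : ℝ) / v else 0) := by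
          rw [← sum_filter, sum_const, nsmul_eq_mul]; ring
  calc ∑ v ∈ Ioc V (V ^ 2), (1 : ℝ) / v * ((A * v - B).divisors.card : ℝ)
      ≤ ∑ v ∈ Ioc V (V ^ 2), 2 * ∑ d ∈ Icc 1 D, (if d ∣ A * v - B then (1 : ℝ) / v else 0) :=
        sum_le_sum step1
    _ = 2 * ∑ d ∈ Icc 1 D, ∑ v ∈ Ioc V (V ^ 2), (if d ∣ A * v - B then (1 : ℝ) / v else 0) := by
        rw [← mul_sum, sum_comm]
    _ = 2 * ∑ d ∈ Icc 1 D, ∑ v ∈ (Ioc V (V ^ 2)).filter (fun v => d ∣ A * v - B), (1 : ℝ) / v := by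
        congr 1
        apply sum_congr rfl
        intro d _
        rw [sum_filter]
    _ ≤ 2 * ∑ d ∈ Icc 1 D, (Real.log V * ((d : ℝ))⁻¹ + 1 / V) := by
        gcongr with d hd
        have := cls A B V d hc hA hBA hV (mem_Icc.mp hd).1
        rw [div_eq_mul_inv] at this
        exact this
    _ = 2 * (Real.log V * ∑ d ∈ Icc 1 D, ((d : ℝ))⁻¹ + D / V) := by
        rw [sum_add_distrib, ← mul_sum, sum_const, nsmul_eq_mul, Nat.card_Icc]
        simp only [Nat.add_sub_cancel]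
        ring
    _ ≤ 2 * (Real.log V * (1 + Real.log D) + Real.sqrt A) := by
        have h := harmonic_le_one_add_log D
        rw [harmonic_eq_sum_Icc] at h
        push_cast at h
        have h2 : (D : ℝ) / V ≤ Real.sqrt A := by
          rw [div_le_iff₀ hV']
          exact hDr
        gcongr
    _ ≤ 2 * ((1 + Real.log A + Real.log V) * Real.log V + Real.sqrt A) := by
        nlinarith [mul_le_mul_of_nonneg_left hlogD hlV]

/-- the pairs `v < w`, then all pairs -/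
theorem pairs (A B V : ℕ) (hc : Nat.Coprime A B) (hA : 1 ≤ A) (hBA : B ≤ A) (hV : 2 ≤ V) :
    ∑ v ∈ Ioc V (V ^ 2), ∑ w ∈ (Ioc V (V ^ 2)).filter (fun w => w ≠ v),
      ((Nat.gcd (A * v - B) (A * w - B) : ℕ) : ℝ) / ((v : ℝ) * w)
    ≤ 4 * (1 + 2 * Real.log V) * ((1 + Real.log A + Real.log V) * Real.log V + Real.sqrt A) := by
  have hV' : (0 : ℝ) < V := by
    have : 0 < V := by omega
    exact_mod_cast this
  have hlV : 0 ≤ Real.log V := Real.log_natCast_nonneg V
  have hlA : 0 ≤ Real.log A := Real.log_natCast_nonneg A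
  -- the term
  let H : ℕ → ℕ → ℝ := fun v w =>
    ((Nat.gcd (A * v - B) (A * w - B) : ℕ) : ℝ) / ((v : ℝ) * w)
  have hsymm : ∀ v w, H v w = H w v := by
    intro v w
    simp only [H]
    rw [Nat.gcd_comm, mul_comm (v : ℝ) w]
  have hsplit : ∀ v ∈ Ioc V (V ^ 2), ∑ w ∈ (Ioc V (V ^ 2)).filter (fun w => w ≠ v), H v w =
      ∑ w ∈ (Ioc V (V ^ 2)).filter (fun w => v < w), H v w +
      ∑ w ∈ (Ioc V (V ^ 2)).filter (fun w => w < v), H v w := by
    intro v _
    rw [← sum_union]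
    · congr 1
      ext w
      simp only [mem_filter, mem_union]
      constructor
      · rintro ⟨h1, h2⟩
        rcases Nat.lt_or_gt_of_ne h2 with h | h
        · exact Or.inr ⟨h1, h⟩
        · exact Or.inl ⟨h1, h⟩
      · rintro (⟨h1, h2⟩ | ⟨h1, h2⟩)
        · exact ⟨h1, by omega⟩
        · exact ⟨h1, by omega⟩
    · rw [disjoint_left]
      intro w h1 h2
      have := (mem_filter.mp h1).2
      have := (mem_filter.mp h2).2
      omega
  have hswap : ∑ v ∈ Ioc V (V ^ 2), ∑ w ∈ (Ioc V (V ^ 2)).filter (fun w => w < v), H v w =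
      ∑ v ∈ Ioc V (V ^ 2), ∑ w ∈ (Ioc V (V ^ 2)).filter (fun w => v < w), H v w := by
    have h1 : ∑ v ∈ Ioc V (V ^ 2), ∑ w ∈ (Ioc V (V ^ 2)).filter (fun w => w < v), H v w =
        ∑ v ∈ Ioc V (V ^ 2), ∑ w ∈ Ioc V (V ^ 2), (if w < v then H v w else 0) := by
      apply sum_congr rfl
      intro v _
      rw [sum_filter]
    have h2 : ∑ v ∈ Ioc V (V ^ 2), ∑ w ∈ (Ioc V (V ^ 2)).filter (fun w => v < w), H v w =
        ∑ v ∈ Ioc V (V ^ 2), ∑ w ∈ Ioc V (V ^ 2), (if v < w then H v w else 0) := by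
      apply sum_congr rfl
      intro v _
      rw [sum_filter]
    rw [h1, h2, sum_comm]
    apply sum_congr rfl
    intro w hw
    apply sum_congr rfl
    intro v hv
    rw [hsymm v w]
  have hmain : ∑ v ∈ Ioc V (V ^ 2), ∑ w ∈ (Ioc V (V ^ 2)).filter (fun w => v < w), H v w ≤
      (1 + 2 * Real.log V) * (2 * ((1 + Real.log A + Real.log V) * Real.log V + Real.sqrt A)) := by
    have h1 : ∀ v ∈ Ioc V (V ^ 2), ∑ w ∈ (Ioc V (V ^ 2)).filter (fun w => v < w), H v w ≤
        (1 + 2 * Real.log V) * ((1 : ℝ) / v * ((A * v - B).divisors.card : ℝ)) := by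
      intro v hv
      have hv1 := mem_Ioc.mp hv
      have hv' : (0 : ℝ) < v := by
        have : 0 < v := by omega
        exact_mod_cast this
      have hAv : A * 2 ≤ A * v := Nat.mul_le_mul_left A (by omega)
      have hset : (Ioc V (V ^ 2)).filter (fun w => v < w) = Ioc v (V ^ 2) := by
        ext w
        simp only [mem_filter, mem_Ioc]
        constructor
        · rintro ⟨⟨h1, h2⟩, h3⟩
          exact ⟨h3, h2⟩
        · rintro ⟨h1, h2⟩
          exact ⟨⟨by omega, h2⟩, h1⟩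
      rw [hset]
      have h2 : ∑ w ∈ Ioc v (V ^ 2), H v w ≤
          (1 : ℝ) / v * ∑ w ∈ Ioc v (V ^ 2), ((Nat.gcd (A * v - B) (w - v) : ℕ) : ℝ) / w := by
        rw [mul_sum]
        apply sum_le_sum
        intro w hw
        have hw1 := mem_Ioc.mp hw
        have hw' : (0 : ℝ) < w := by
          have : 0 < w := by omega
          exact_mod_cast this
        have hAw : A * 2 ≤ A * w := Nat.mul_le_mul_left A (by omega)
        have hd : Nat.gcd (A * v - B) (A * w - B) ∣ Nat.gcd (A * v - B) (w - v) := by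
          apply Nat.dvd_gcd (Nat.gcd_dvd_left _ _)
          have h3 := key A B w v _ hc (by omega) (by omega) (Nat.gcd_dvd_right (A * v - B) (A * w - B))
            (Nat.gcd_dvd_left (A * v - B) (A * w - B))
          have h4 : ((w : ℤ) - v) = ((w - v : ℕ) : ℤ) := by
            rw [Nat.cast_sub hw1.1.le]
          rw [h4] at h3
          exact Int.natCast_dvd_natCast.mp h3
        have hle : ((Nat.gcd (A * v - B) (A * w - B) : ℕ) : ℝ) ≤ ((Nat.gcd (A * v - B) (w - v) : ℕ) : ℝ) := by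
          have : Nat.gcd (A * v - B) (A * w - B) ≤ Nat.gcd (A * v - B) (w - v) :=
            Nat.le_of_dvd (Nat.gcd_pos_of_pos_right _ (by omega)) hd
          exact_mod_cast this
        simp only [H]
        calc ((Nat.gcd (A * v - B) (A * w - B) : ℕ) : ℝ) / ((v : ℝ) * w)
            ≤ ((Nat.gcd (A * v - B) (w - v) : ℕ) : ℝ) / ((v : ℝ) * w) := by gcongr
          _ = 1 / (v : ℝ) * (((Nat.gcd (A * v - B) (w - v) : ℕ) : ℝ) / w) := by field_simp
      refine h2.trans ?_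
      have h4 := c17_row (A * v - B) v (V ^ 2) (by omega) (by omega)
      have h5 : Real.log ((V ^ 2 : ℕ) : ℝ) = 2 * Real.log V := by
        push_cast
        rw [Real.log_pow]
        norm_num
      rw [h5] at h4
      calc (1 : ℝ) / v * ∑ w ∈ Ioc v (V ^ 2), ((Nat.gcd (A * v - B) (w - v) : ℕ) : ℝ) / w
          ≤ (1 : ℝ) / v * ((1 + 2 * Real.log V) * ((A * v - B).divisors.card : ℝ)) := by gcongr
        _ = _ := by ring
    calc _ ≤ ∑ v ∈ Ioc V (V ^ 2),
          (1 + 2 * Real.log V) * ((1 : ℝ) / v * ((A * v - B).divisors.card : ℝ)) := sum_le_sum h1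
      _ = (1 + 2 * Real.log V) *
          ∑ v ∈ Ioc V (V ^ 2), (1 : ℝ) / v * ((A * v - B).divisors.card : ℝ) := by rw [mul_sum]
      _ ≤ _ := by
          gcongr
          exact tau A B V hc hA hBA hV
  calc ∑ v ∈ Ioc V (V ^ 2), ∑ w ∈ (Ioc V (V ^ 2)).filter (fun w => w ≠ v),
      ((Nat.gcd (A * v - B) (A * w - B) : ℕ) : ℝ) / ((v : ℝ) * w)
      = ∑ v ∈ Ioc V (V ^ 2), (∑ w ∈ (Ioc V (V ^ 2)).filter (fun w => v < w), H v w +
          ∑ w ∈ (Ioc V (V ^ 2)).filter (fun w => w < v), H v w) := sum_congr rfl hsplit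
    _ = 2 * ∑ v ∈ Ioc V (V ^ 2), ∑ w ∈ (Ioc V (V ^ 2)).filter (fun w => v < w), H v w := by
        rw [sum_add_distrib, hswap]; ring
    _ ≤ 2 * ((1 + 2 * Real.log V) *
          (2 * ((1 + Real.log A + Real.log V) * Real.log V + Real.sqrt A))) := by gcongr
    _ = 4 * (1 + 2 * Real.log V) * ((1 + Real.log A + Real.log V) * Real.log V + Real.sqrt A) := by
        ring

/-- the facts on `A = 4 a c / s` and `B = (a + c) / s` -/
lemma fac (s α U a c : ℕ) (hT : Ty s α) (hU : 1 ≤ U) (ha : U < a) (hc : U < c)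
    (h1 : a ≡ α [MOD 4]) (h2 : c ≡ 1 [MOD 4]) (h3 : Nat.Coprime a c) :
    Nat.Coprime (4 * a * c / s) ((a + c) / s) ∧ (a + c) / s ≤ 4 * a * c / s ∧
      2 * (a * c) ≤ 4 * a * c / s ∧ 4 * a * c / s ≤ 4 * (a * c) := by
  have hac : a + c ≤ 2 * (a * c) := by nlinarith
  have hac1 : Nat.Coprime a (a + c) := by
    rw [Nat.coprime_self_add_right]; exact h3
  have hac2 : Nat.Coprime c (a + c) := by
    rw [Nat.coprime_add_self_right]; exact h3.symm
  rcases hT with ⟨rfl, rfl⟩ | ⟨rfl, rfl⟩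
  · have e1 : 4 * a * c / 1 = 4 * (a * c) := by rw [Nat.div_one]; ring
    have e2 : (a + c) / 1 = a + c := Nat.div_one _
    rw [e1, e2]
    refine ⟨?_, by omega, by omega, le_refl _⟩
    have h4 : Nat.Coprime 4 (a + c) := by
      have h5 : Nat.Coprime 2 (a + c) := by
        rw [Nat.coprime_two_left, Nat.odd_iff]
        have q1 : a % 4 = 0 % 4 := h1
        have q2 : c % 4 = 1 % 4 := h2
        omega
      exact Nat.Coprime.pow_left 2 h5
    exact Nat.Coprime.mul_left h4 (Nat.Coprime.mul_left hac1 hac2)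
  · have q1 : a % 4 = 1 % 4 := h1
    have q2 : c % 4 = 1 % 4 := h2
    have e1 : 4 * a * c / 2 = 2 * (a * c) := by
      have : 4 * a * c = 2 * (2 * (a * c)) := by ring
      rw [this, Nat.mul_div_cancel_left _ (by norm_num)]
    have hd : (a + c) / 2 ∣ a + c := ⟨2, by omega⟩
    rw [e1]
    refine ⟨?_, by omega, le_refl _, by omega⟩
    have h5 : Nat.Coprime 2 ((a + c) / 2) := by
      rw [Nat.coprime_two_left, Nat.odd_iff]
      omega
    exact Nat.Coprime.mul_left h5 (Nat.Coprime.mul_left (Nat.Coprime.coprime_dvd_right hd hac1)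
      (Nat.Coprime.coprime_dvd_right hd hac2))

/-- the harmonic sum over `(V, V²]` -/
lemma harm (V : ℕ) (hV : 1 ≤ V) : ∑ b ∈ Ioc V (V ^ 2), (1 : ℝ) / b ≤ Real.log V + 1 / V := by
  have h := a46 V 1 0 hV le_rfl
  have h2 : (Ioc V (V ^ 2)).filter (fun v => v ≡ 0 [MOD 1]) = Ioc V (V ^ 2) := by
    apply filter_true_of_mem
    intro v _
    exact Nat.modEq_one
  rw [h2] at h
  simpa using h

/-- one pair `(a, c)` -/
lemma one (A B V U : ℕ) (t : ℝ) (hc : Nat.Coprime A B) (hBA : B ≤ A) (hU : 2 ≤ U) (hV : U ^ 10 ≤ V)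
    (ht : 0 < t) (h2 : 2 * t ≤ A) (hU2 : (U : ℝ) ^ 2 ≤ t) (h4 : (A : ℝ) ≤ 4 * U ^ 4) :
    ∑ b ∈ Ioc V (V ^ 2), ∑ w ∈ Ioc V (V ^ 2),
      ((Nat.gcd (A * b - B) (A * w - B) : ℕ) : ℝ) / (((A * b - B : ℕ) : ℝ) * ((A * w - B : ℕ) : ℝ))
    ≤ 1 / t * (4 * Real.log V + 144 * Real.log V ^ 3 / U ^ 2 + 48 * Real.log V / U) := by
  have hA' : (0 : ℝ) < A := by linarith
  have hA : 1 ≤ A := by exact_mod_cast hA'
  have hU0 : (0 : ℝ) < U := by
    have : 0 < U := by omega
    exact_mod_cast this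
  have hU2' : (2 : ℝ) ≤ U := by exact_mod_cast hU
  have hV1024 : 1024 ≤ V := by
    calc 1024 = 2 ^ 10 := by norm_num
      _ ≤ U ^ 10 := Nat.pow_le_pow_left hU 10
      _ ≤ V := hV
  have hV' : (0 : ℝ) < V := by
    have : 0 < V := by omega
    exact_mod_cast this
  have hVr : (1024 : ℝ) ≤ V := by exact_mod_cast hV1024
  have hl1 : 1 ≤ Real.log V := by
    rw [Real.le_log_iff_exp_le hV']
    have := Real.exp_one_lt_d9
    linarith
  have hlA0 : 0 ≤ Real.log A := Real.log_natCast_nonneg A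
  have hlA : Real.log A ≤ Real.log V := by
    apply Real.log_le_log hA'
    have e1 : (4 : ℝ) * U ^ 4 ≤ (U : ℝ) ^ 10 := by
      have e2 : (4 : ℝ) ≤ (U : ℝ) ^ 6 := by
        calc (4 : ℝ) ≤ 2 ^ 6 := by norm_num
          _ ≤ (U : ℝ) ^ 6 := by gcongr
      calc (4 : ℝ) * U ^ 4 ≤ (U : ℝ) ^ 6 * U ^ 4 := by gcongr
        _ = (U : ℝ) ^ 10 := by ring
    have e3 : (U : ℝ) ^ 10 ≤ V := by exact_mod_cast hV
    linarith
  -- the lower bound of the modulus
  have hm : ∀ b ∈ Ioc V (V ^ 2), (A : ℝ) * b / 2 ≤ ((A * b - B : ℕ) : ℝ) := by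
    intro b hb
    have hb1 := mem_Ioc.mp hb
    have hb2 : (2 : ℝ) ≤ b := by
      have : 2 ≤ b := by omega
      exact_mod_cast this
    have hle : B ≤ A * b := le_trans hBA (Nat.le_mul_of_pos_right A (by omega))
    rw [Nat.cast_sub hle]
    push_cast
    have hBA' : (B : ℝ) ≤ A := by exact_mod_cast hBA
    nlinarith
  have hb0 : ∀ b ∈ Ioc V (V ^ 2), (0 : ℝ) < b := by
    intro b hb
    have : 0 < b := by have := (mem_Ioc.mp hb).1; omega
    exact_mod_cast this
  have hsp : ∀ b ∈ Ioc V (V ^ 2), ∑ w ∈ Ioc V (V ^ 2),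
      ((Nat.gcd (A * b - B) (A * w - B) : ℕ) : ℝ) / (((A * b - B : ℕ) : ℝ) * ((A * w - B : ℕ) : ℝ)) ≤
      2 / A * (1 / (b : ℝ)) + 4 / (A : ℝ) ^ 2 * ∑ w ∈ (Ioc V (V ^ 2)).filter (fun w => w ≠ b),
        ((Nat.gcd (A * b - B) (A * w - B) : ℕ) : ℝ) / ((b : ℝ) * w) := by
    intro b hb
    have hmb := hm b hb
    have hb' := hb0 b hb
    have hmb0 : (0 : ℝ) < ((A * b - B : ℕ) : ℝ) := lt_of_lt_of_le (by positivity) hmb
    rw [← sum_filter_add_sum_filter_not (Ioc V (V ^ 2)) (fun w => w = b)]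
    apply add_le_add
    · have : (Ioc V (V ^ 2)).filter (fun w => w = b) = {b} := by
        ext w
        simp only [mem_filter, mem_singleton]
        constructor
        · rintro ⟨_, h⟩; exact h
        · rintro rfl; exact ⟨hb, rfl⟩
      rw [this, sum_singleton, Nat.gcd_self]
      calc ((A * b - B : ℕ) : ℝ) / (((A * b - B : ℕ) : ℝ) * ((A * b - B : ℕ) : ℝ))
          = 1 / ((A * b - B : ℕ) : ℝ) := by field_simp
        _ ≤ 1 / ((A : ℝ) * b / 2) := one_div_le_one_div_of_le (by positivity) hmb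
        _ = 2 / A * (1 / (b : ℝ)) := by field_simp
    · rw [mul_sum]
      apply sum_le_sum
      intro w hw
      have hw1 := (mem_filter.mp hw).1
      have hmw := hm w hw1
      have hw' := hb0 w hw1
      have hmw0 : (0 : ℝ) < ((A * w - B : ℕ) : ℝ) := lt_of_lt_of_le (by positivity) hmw
      calc ((Nat.gcd (A * b - B) (A * w - B) : ℕ) : ℝ) / (((A * b - B : ℕ) : ℝ) * ((A * w - B : ℕ) : ℝ))
          ≤ ((Nat.gcd (A * b - B) (A * w - B) : ℕ) : ℝ) / (((A : ℝ) * b / 2) * ((A : ℝ) * w / 2)) := by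
            gcongr
        _ = 4 / (A : ℝ) ^ 2 * (((Nat.gcd (A * b - B) (A * w - B) : ℕ) : ℝ) / ((b : ℝ) * w)) := by
            field_simp; norm_num
  have hP := pairs A B V hc hA hBA (by omega)
  have hH := harm V (by omega)
  have h1V : 1 / (V : ℝ) ≤ 1 := by
    rw [div_le_one hV']; linarith
  have hsA : (U : ℝ) ≤ Real.sqrt A := by
    apply Real.le_sqrt_of_sq_le
    linarith
  have hsA0 : (0 : ℝ) < Real.sqrt A := Real.sqrt_pos.mpr hA'
  have hss : Real.sqrt A * Real.sqrt A = A := Real.mul_self_sqrt hA'.le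
  calc ∑ b ∈ Ioc V (V ^ 2), ∑ w ∈ Ioc V (V ^ 2),
      ((Nat.gcd (A * b - B) (A * w - B) : ℕ) : ℝ) / (((A * b - B : ℕ) : ℝ) * ((A * w - B : ℕ) : ℝ))
      ≤ ∑ b ∈ Ioc V (V ^ 2), (2 / A * (1 / (b : ℝ)) + 4 / (A : ℝ) ^ 2 *
          ∑ w ∈ (Ioc V (V ^ 2)).filter (fun w => w ≠ b),
            ((Nat.gcd (A * b - B) (A * w - B) : ℕ) : ℝ) / ((b : ℝ) * w)) := sum_le_sum hsp
    _ = 2 / A * ∑ b ∈ Ioc V (V ^ 2), 1 / (b : ℝ) + 4 / (A : ℝ) ^ 2 * ∑ b ∈ Ioc V (V ^ 2),
          ∑ w ∈ (Ioc V (V ^ 2)).filter (fun w => w ≠ b),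
            ((Nat.gcd (A * b - B) (A * w - B) : ℕ) : ℝ) / ((b : ℝ) * w) := by
        rw [sum_add_distrib, mul_sum, mul_sum]
    _ ≤ 2 / A * (2 * Real.log V) + 4 / (A : ℝ) ^ 2 *
          (4 * (3 * Real.log V) * (3 * Real.log V ^ 2 + Real.sqrt A)) := by
        have e1 : ∑ b ∈ Ioc V (V ^ 2), 1 / (b : ℝ) ≤ 2 * Real.log V := by linarith
        have e2 : 4 * (1 + 2 * Real.log V) * ((1 + Real.log A + Real.log V) * Real.log V + Real.sqrt A) ≤
            4 * (3 * Real.log V) * (3 * Real.log V ^ 2 + Real.sqrt A) := by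
          have e3 : (1 + Real.log A + Real.log V) * Real.log V ≤ 3 * Real.log V ^ 2 := by nlinarith
          have e4 : 1 + 2 * Real.log V ≤ 3 * Real.log V := by linarith
          gcongr
        have e5 := hP.trans e2
        gcongr
    _ = 4 * Real.log V * (1 / A) + 144 * Real.log V ^ 3 * (1 / (A * A)) +
          48 * Real.log V * (Real.sqrt A / (A * A)) := by
        field_simp; ring
    _ ≤ 4 * Real.log V * (1 / t) + 144 * Real.log V ^ 3 * (1 / (t * U ^ 2)) +
          48 * Real.log V * (1 / (t * U)) := by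
        have f1 : 1 / (A : ℝ) ≤ 1 / t := one_div_le_one_div_of_le ht (by linarith)
        have f2 : 1 / ((A : ℝ) * A) ≤ 1 / (t * U ^ 2) := by
          apply one_div_le_one_div_of_le (by positivity)
          have : (U : ℝ) ^ 2 ≤ A := by linarith
          have : t ≤ A := by linarith
          gcongr
        have f3 : Real.sqrt A / ((A : ℝ) * A) ≤ 1 / (t * U) := by
          have g1 : Real.sqrt A / ((A : ℝ) * A) = 1 / (A * Real.sqrt A) := by
            rw [div_eq_div_iff (by positivity) (by positivity)]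
            calc Real.sqrt A * (A * Real.sqrt A) = A * (Real.sqrt A * Real.sqrt A) := by ring
              _ = 1 * (A * A) := by rw [hss]; ring
          rw [g1]
          apply one_div_le_one_div_of_le (by positivity)
          have : t ≤ A := by linarith
          gcongr
        gcongr
    _ = 1 / t * (4 * Real.log V + 144 * Real.log V ^ 3 / U ^ 2 + 48 * Real.log V / U) := by
        field_simp

theorem v0 : RowV0 := by
  refine ⟨2496, by norm_num, ?_⟩
  intro U V α s β z hTy hU hV hz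
  have hU0 : (0 : ℝ) < U := by
    have : 0 < U := by omega
    exact_mod_cast this
  have hU2' : (2 : ℝ) ≤ U := by exact_mod_cast hU
  have hlU : 0 ≤ Real.log U := Real.log_natCast_nonneg U
  have hlU2 : 1 / (U : ℝ) ≤ Real.log U := by
    have h1 : Real.log 2 ≤ Real.log U := Real.log_le_log (by norm_num) hU2'
    have h2 : (0.69 : ℝ) < Real.log 2 := by have := Real.log_two_gt_d9; linarith
    have h3 : 1 / (U : ℝ) ≤ 1 / 2 := one_div_le_one_div_of_le (by norm_num) hU2'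
    linarith
  have hUV : U ≤ V := le_trans (Nat.le_self_pow (by norm_num) U) hV
  have hlUV : Real.log U ≤ Real.log V := Real.log_le_log hU0 (by exact_mod_cast hUV)
  have hlV : 0 ≤ Real.log V := le_trans hlU hlUV
  have hlU4 : Real.log U ^ 2 ≤ 4 * U := by
    have h1 : Real.log U = 2 * Real.log (Real.sqrt U) := by
      rw [Real.log_sqrt hU0.le]; ring
    have hs : (0 : ℝ) < Real.sqrt U := Real.sqrt_pos.mpr hU0
    have h2 : Real.log (Real.sqrt U) ≤ Real.sqrt U - 1 := Real.log_le_sub_one_of_pos hs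
    have h3 : Real.log U ≤ 2 * Real.sqrt U := by linarith
    have h4 : Real.sqrt U ^ 2 = U := Real.sq_sqrt hU0.le
    calc Real.log U ^ 2 ≤ (2 * Real.sqrt U) ^ 2 := by gcongr
      _ = 4 * (U : ℝ) := by rw [mul_pow, h4]; norm_num
  -- from `E` to the full set
  set F : ((ℕ × ℕ) × (ℕ × ℕ)) → ((ℕ × ℕ) × (ℕ × ℕ)) → ℝ := fun i j =>
    ((Nat.gcd (mo s i) (mo s j) : ℕ) : ℝ) / ((mo s i : ℝ) * mo s j) with hF
  have hF0 : ∀ i j, 0 ≤ F i j := fun i j => by simp only [hF]; positivity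
  have hin : ∀ i ∈ E U V α s β z, ∑ j ∈ (E U V α s β z).filter (fun j => j.1 = i.1), F i j ≤
      ∑ w ∈ Ioc V (V ^ 2), F i (i.1, (w, 0)) := by
    intro i _
    have hinj : Set.InjOn (fun w : ℕ => (i.1, (w, (0 : ℕ)))) (Ioc V (V ^ 2) : Finset ℕ) := by
      intro x _ y _ hxy
      simp only [Prod.mk.injEq, and_true, true_and] at hxy
      exact hxy
    rw [← sum_image (f := fun j => F i j) hinj]
    apply sum_le_sum_of_subset_of_nonneg
    · intro j hj
      rw [mem_filter] at hj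
      have h1 := (mem_filter.mp hj.1).1
      rw [mem_product, mem_product, mem_singleton] at h1
      rw [mem_image]
      exact ⟨j.2.1, h1.2.1, by rw [← hj.2, ← h1.2.2]⟩
    · intro j _ _
      exact hF0 i j
  calc ∑ i ∈ E U V α s β z, ∑ j ∈ (E U V α s β z).filter (fun j => j.1 = i.1), F i j
      ≤ ∑ i ∈ E U V α s β z, ∑ w ∈ Ioc V (V ^ 2), F i (i.1, (w, 0)) := sum_le_sum hin
    _ ≤ ∑ i ∈ (T U α) ×ˢ ((Ioc V (V ^ 2)) ×ˢ ({0} : Finset ℕ)), ∑ w ∈ Ioc V (V ^ 2), F i (i.1, (w, 0)) := by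
        apply sum_le_sum_of_subset_of_nonneg (filter_subset _ _)
        intro i _ _
        exact sum_nonneg (fun w _ => hF0 _ _)
    _ = ∑ p ∈ T U α, ∑ b ∈ Ioc V (V ^ 2), ∑ w ∈ Ioc V (V ^ 2), F (p, (b, 0)) (p, (w, 0)) := by
        rw [sum_product]
        apply sum_congr rfl
        intro p _
        rw [sum_product]
        apply sum_congr rfl
        intro b _
        rw [sum_singleton]
    _ ≤ ∑ p ∈ T U α, 1 / ((p.1 : ℝ) * p.2) *
          (4 * Real.log V + 144 * Real.log V ^ 3 / U ^ 2 + 48 * Real.log V / U) := by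
        apply sum_le_sum
        intro p hp
        have hp1 := mem_filter.mp hp
        have hp2 := mem_product.mp hp1.1
        have ha := mem_Ioc.mp hp2.1
        have hc := mem_Ioc.mp hp2.2
        obtain ⟨f1, f2, f3, f4⟩ := fac s α U p.1 p.2 hTy (by omega) ha.1 hc.1 hp1.2.1 hp1.2.2.1 hp1.2.2.2
        have ha' : (U : ℝ) < p.1 := by exact_mod_cast ha.1
        have hc' : (U : ℝ) < p.2 := by exact_mod_cast hc.1
        have ha2 : (p.1 : ℝ) ≤ (U : ℝ) ^ 2 := by exact_mod_cast ha.2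
        have hc2 : (p.2 : ℝ) ≤ (U : ℝ) ^ 2 := by exact_mod_cast hc.2
        have ha0 : (0 : ℝ) < p.1 := by linarith
        have hc0 : (0 : ℝ) < p.2 := by linarith
        apply one (4 * p.1 * p.2 / s) ((p.1 + p.2) / s) V U ((p.1 : ℝ) * p.2) f1 f2 hU hV (by positivity)
        · exact_mod_cast f3
        · nlinarith
        · have g1 : (((4 * p.1 * p.2 / s : ℕ)) : ℝ) ≤ 4 * ((p.1 : ℝ) * p.2) := by exact_mod_cast f4
          have g2 : (p.1 : ℝ) * p.2 ≤ (U : ℝ) ^ 2 * (U : ℝ) ^ 2 := by gcongr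
          calc (((4 * p.1 * p.2 / s : ℕ)) : ℝ) ≤ 4 * ((p.1 : ℝ) * p.2) := g1
            _ ≤ 4 * ((U : ℝ) ^ 2 * (U : ℝ) ^ 2) := by linarith
            _ = 4 * (U : ℝ) ^ 4 := by ring
    _ = (∑ p ∈ T U α, 1 / ((p.1 : ℝ) * p.2)) *
          (4 * Real.log V + 144 * Real.log V ^ 3 / U ^ 2 + 48 * Real.log V / U) := by rw [sum_mul]
    _ ≤ (4 * Real.log U ^ 2) *
          (4 * Real.log V + 144 * Real.log V ^ 3 / U ^ 2 + 48 * Real.log V / U) := by
        have h1 : ∑ p ∈ T U α, 1 / ((p.1 : ℝ) * p.2) ≤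
            ∑ p ∈ (Ioc U (U ^ 2)) ×ˢ (Ioc U (U ^ 2)), 1 / ((p.1 : ℝ) * p.2) :=
          sum_le_sum_of_subset_of_nonneg (filter_subset _ _) (fun _ _ _ => by positivity)
        have h2 : ∑ p ∈ (Ioc U (U ^ 2)) ×ˢ (Ioc U (U ^ 2)), 1 / ((p.1 : ℝ) * p.2) =
            (∑ a ∈ Ioc U (U ^ 2), (1 : ℝ) / a) * (∑ a ∈ Ioc U (U ^ 2), (1 : ℝ) / a) := by
          rw [sum_mul_sum, sum_product]
          apply sum_congr rfl
          intro a _
          apply sum_congr rfl
          intro c _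
          rw [one_div_mul_one_div]
        have h3 := harm U (by omega)
        have h4 : ∑ a ∈ Ioc U (U ^ 2), (1 : ℝ) / a ≤ 2 * Real.log U := by linarith
        have h5 : 0 ≤ ∑ a ∈ Ioc U (U ^ 2), (1 : ℝ) / a := sum_nonneg (fun _ _ => by positivity)
        have h6 : ∑ p ∈ T U α, 1 / ((p.1 : ℝ) * p.2) ≤ 4 * Real.log U ^ 2 := by
          calc ∑ p ∈ T U α, 1 / ((p.1 : ℝ) * p.2)
              ≤ (∑ a ∈ Ioc U (U ^ 2), (1 : ℝ) / a) * (∑ a ∈ Ioc U (U ^ 2), (1 : ℝ) / a) := by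
                rw [← h2]; exact h1
            _ ≤ (2 * Real.log U) * (2 * Real.log U) := by gcongr
            _ = 4 * Real.log U ^ 2 := by ring
        gcongr
    _ = 16 * (Real.log U ^ 2 * Real.log V) + 576 * Real.log U ^ 2 * Real.log V ^ 3 / U ^ 2 +
          192 * Real.log U ^ 2 * Real.log V / U := by ring
    _ ≤ 16 * (Real.log U ^ 2 * Real.log V) + 2304 * (Real.log V ^ 3 / U) +
          192 * (Real.log V ^ 3 / U) := by
        have k1 : 576 * Real.log U ^ 2 * Real.log V ^ 3 / U ^ 2 ≤ 2304 * (Real.log V ^ 3 / U) := by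
          calc 576 * Real.log U ^ 2 * Real.log V ^ 3 / U ^ 2
              ≤ 576 * (4 * U) * Real.log V ^ 3 / U ^ 2 := by gcongr
            _ = 2304 * (Real.log V ^ 3 / U) := by field_simp; ring
        have k2 : 192 * Real.log U ^ 2 * Real.log V / U ≤ 192 * (Real.log V ^ 3 / U) := by
          calc 192 * Real.log U ^ 2 * Real.log V / U ≤ 192 * Real.log V ^ 2 * Real.log V / U := by gcongr
            _ = 192 * (Real.log V ^ 3 / U) := by ring
        linarith
    _ ≤ 2496 * (Real.log U ^ 2 * Real.log V + Real.log V ^ 3 / U) := by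
        have k3 : 0 ≤ Real.log U ^ 2 * Real.log V := by positivity
        have k4 : 0 ≤ Real.log V ^ 3 / U := by positivity
        linarith

end Pool.Agent.BR3.V089
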