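import Pool.Agent.BR3.Stmts
import Pool.Agent.SPA.A46

/-!
# Row V1: pairs of moduli with different `(a, c)`
-/

set_option autoImplicit false

namespace Pool.Agent.BR3.V146

open Finset

lemma pair_facts {U α s : ℕ} (hty : Ty s α) (hU : 2 ≤ U) {p : ℕ × ℕ} (hp : p ∈ T U α) :
    1 ≤ s ∧ s ≤ 2 ∧ s * (4 * p.1 * p.2 / s) = 4 * p.1 * p.2 ∧ s * ((p.1 + p.2) / s) = p.1 + p.2 ∧
      U < p.1 ∧ p.1 ≤ U ^ 2 ∧ U < p.2 ∧ p.2 ≤ U ^ 2 ∧ Nat.Coprime p.1 p.2 := by
  simp only [T, mem_filter, mem_product, mem_Ioc] at hp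
  obtain ⟨⟨⟨h1, h2⟩, h3, h4⟩, h5, h6, h7⟩ := hp
  rcases hty with ⟨rfl, rfl⟩ | ⟨rfl, rfl⟩
  · refine ⟨le_rfl, by norm_num, by simp, by simp, h1, h2, h3, h4, h7⟩
  · refine ⟨by norm_num, le_rfl, ?_, ?_, h1, h2, h3, h4, h7⟩
    · rw [show 4 * p.1 * p.2 = 2 * (2 * p.1 * p.2) by ring, Nat.mul_div_cancel_left _ (by norm_num)]
    · unfold Nat.ModEq at h5 h6
      omega

lemma mo_facts {U α s : ℕ} (hty : Ty s α) (hU : 2 ≤ U) {p : ℕ × ℕ} (hp : p ∈ T U α) {b : ℕ} (hb : 1 ≤ b) :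
    s * mo s (p, (b, 0)) + (p.1 + p.2) = 4 * p.1 * p.2 * b ∧ p.1 * p.2 * b ≤ mo s (p, (b, 0)) ∧
      (p.1 + p.2) / s ≤ (4 * p.1 * p.2 / s) * b := by
  obtain ⟨hs1, hs2, hA, hB, h1, -, h2, -, -⟩ := pair_facts hty hU hp
  have ha : 1 ≤ p.1 := by omega
  have hc : 1 ≤ p.2 := by omega
  have hac : p.1 ≤ p.1 * p.2 * b := by
    calc p.1 = p.1 * 1 * 1 := by ring
      _ ≤ p.1 * p.2 * b := Nat.mul_le_mul (Nat.mul_le_mul le_rfl hc) hb
  have hca : p.2 ≤ p.1 * p.2 * b := by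
    calc p.2 = 1 * p.2 * 1 := by ring
      _ ≤ p.1 * p.2 * b := Nat.mul_le_mul (Nat.mul_le_mul ha le_rfl) hb
  have hle : (p.1 + p.2) / s ≤ (4 * p.1 * p.2 / s) * b := by
    have : s * ((p.1 + p.2) / s) ≤ s * ((4 * p.1 * p.2 / s) * b) := by
      rw [hB, ← mul_assoc, hA]
      nlinarith
    exact Nat.le_of_mul_le_mul_left this (by omega)
  have hmo : mo s (p, (b, 0)) = (4 * p.1 * p.2 / s) * b - (p.1 + p.2) / s := rfl
  have key : s * mo s (p, (b, 0)) + (p.1 + p.2) = 4 * p.1 * p.2 * b := by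
    rw [hmo, Nat.mul_sub, ← mul_assoc, hA, hB]
    have : p.1 + p.2 ≤ 4 * p.1 * p.2 * b := by nlinarith
    omega
  refine ⟨key, ?_, hle⟩
  have h3 : s * (p.1 * p.2 * b) ≤ s * mo s (p, (b, 0)) := by
    have : s * (p.1 * p.2 * b) ≤ 2 * (p.1 * p.2 * b) := Nat.mul_le_mul_right _ hs2
    have h4 : 4 * p.1 * p.2 * b = 4 * (p.1 * p.2 * b) := by ring
    omega
  exact Nat.le_of_mul_le_mul_left h3 (by omega)

/-- a divisor of a modulus is prime to `a` and `c` -/
lemma cop {U α s : ℕ} (hty : Ty s α) (hU : 2 ≤ U) {p : ℕ × ℕ} (hp : p ∈ T U α) {b : ℕ} (hb : 1 ≤ b) {g : ℕ}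
    (hg : g ∣ mo s (p, (b, 0))) : Nat.Coprime g p.1 ∧ Nat.Coprime g p.2 := by
  obtain ⟨hs1, hs2, hA, hB, h1, -, h2, -, hc⟩ := pair_facts hty hU hp
  obtain ⟨key, -, -⟩ := mo_facts hty hU hp hb
  constructor
  · refine Nat.Coprime.symm (Nat.coprime_of_dvd ?_)
    intro q hq hq1 hq2
    have h3 : q ∣ p.1 + p.2 := by
      have : q ∣ s * mo s (p, (b, 0)) := Dvd.dvd.mul_left (hq2.trans hg) s
      refine (Nat.dvd_add_right this).mp ?_
      rw [key]
      exact Dvd.dvd.mul_right (Dvd.dvd.mul_right (Dvd.dvd.mul_left hq1 4) _) _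
    have h4 : q ∣ p.2 := (Nat.dvd_add_right hq1).mp h3
    exact Nat.Prime.one_lt hq |>.ne' (Nat.dvd_one.mp (hc ▸ Nat.dvd_gcd hq1 h4))
  · refine Nat.Coprime.symm (Nat.coprime_of_dvd ?_)
    intro q hq hq1 hq2
    have h3 : q ∣ p.1 + p.2 := by
      have : q ∣ s * mo s (p, (b, 0)) := Dvd.dvd.mul_left (hq2.trans hg) s
      refine (Nat.dvd_add_right this).mp ?_
      rw [key]
      exact Dvd.dvd.mul_right (Dvd.dvd.mul_left hq1 _) _
    have h4 : q ∣ p.1 := (Nat.dvd_add_left hq1).mp h3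
    exact Nat.Prime.one_lt hq |>.ne' (Nat.dvd_one.mp (hc ▸ Nat.dvd_gcd h4 hq1))

lemma coprime_of_int {g c : ℕ} (h : Nat.Coprime g c) {x : ℤ} (hx : (g : ℤ) ∣ (c : ℤ) * x) : (g : ℤ) ∣ x := by
  have : IsCoprime (g : ℤ) (c : ℤ) := Nat.isCoprime_iff_coprime.mpr h
  exact this.dvd_of_dvd_mul_left hx

lemma bsum {U V α s g : ℕ} (hty : Ty s α) (hU : 2 ≤ U) (hV : 3 ≤ V) (hg1 : 1 ≤ g) (hgV : g ≤ V) (hodd : Nat.Coprime g 2)
    {p : ℕ × ℕ} (hp : p ∈ T U α) :
    ∑ b ∈ (Ioc V (V ^ 2)).filter (fun b => g ∣ mo s (p, (b, 0))), (1 : ℝ) / b ≤ 2 * Real.log V / g := by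
  have hV0 : (0 : ℝ) < V := by
    have : 0 < V := by omega
    exact_mod_cast this
  have hg0 : (0 : ℝ) < g := by exact_mod_cast hg1
  have hlogV : 1 ≤ Real.log V := by
    rw [Real.le_log_iff_exp_le hV0]
    have h3 : (3 : ℝ) ≤ V := by exact_mod_cast hV
    have := Real.exp_one_lt_d9
    linarith
  by_cases hne : ((Ioc V (V ^ 2)).filter (fun b => g ∣ mo s (p, (b, 0)))).Nonempty
  · obtain ⟨b₀, hb₀⟩ := hne
    simp only [mem_filter, mem_Ioc] at hb₀
    obtain ⟨⟨hb1, -⟩, hb2⟩ := hb₀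
    have hb01 : 1 ≤ b₀ := by omega
    obtain ⟨c1, c2⟩ := cop hty hU hp hb01 hb2
    obtain ⟨k0, -, -⟩ := mo_facts hty hU hp hb01
    have hsub : (Ioc V (V ^ 2)).filter (fun b => g ∣ mo s (p, (b, 0))) ⊆
        (Ioc V (V ^ 2)).filter (fun b => b ≡ b₀ [MOD g]) := by
      intro b hb
      simp only [mem_filter, mem_Ioc] at hb ⊢
      refine ⟨hb.1, ?_⟩
      have hb11 : 1 ≤ b := by omega
      obtain ⟨k1, -, -⟩ := mo_facts hty hU hp hb11
      have e0 : (s : ℤ) * (mo s (p, (b₀, 0)) : ℤ) + (p.1 + p.2) = 4 * p.1 * p.2 * b₀ := by exact_mod_cast k0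
      have e1 : (s : ℤ) * (mo s (p, (b, 0)) : ℤ) + (p.1 + p.2) = 4 * p.1 * p.2 * b := by exact_mod_cast k1
      have d0 : (g : ℤ) ∣ (mo s (p, (b₀, 0)) : ℤ) := by exact_mod_cast hb2
      have d1 : (g : ℤ) ∣ (mo s (p, (b, 0)) : ℤ) := by exact_mod_cast hb.2
      have d2 : (g : ℤ) ∣ ((4 * p.1 * p.2 : ℕ) : ℤ) * ((b₀ : ℤ) - b) := by
        have : ((4 * p.1 * p.2 : ℕ) : ℤ) * ((b₀ : ℤ) - b) =
            (s : ℤ) * (mo s (p, (b₀, 0)) : ℤ) - (s : ℤ) * (mo s (p, (b, 0)) : ℤ) := by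
          push_cast
          linear_combination e1 - e0
        rw [this]
        exact dvd_sub (Dvd.dvd.mul_left d0 _) (Dvd.dvd.mul_left d1 _)
      have c4 : Nat.Coprime g 4 := by
        have := Nat.Coprime.mul_right hodd hodd
        simpa using this
      have c3 : Nat.Coprime g (4 * p.1 * p.2) := Nat.Coprime.mul_right (Nat.Coprime.mul_right c4 c1) c2
      exact (Nat.modEq_iff_dvd).mpr (coprime_of_int c3 d2)
    calc _ ≤ ∑ b ∈ (Ioc V (V ^ 2)).filter (fun b => b ≡ b₀ [MOD g]), (1 : ℝ) / b :=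
          sum_le_sum_of_subset_of_nonneg hsub (fun i _ _ => by positivity)
      _ ≤ Real.log V / g + 1 / V := Pool.Agent.SPA.a46 V g b₀ (by omega) hg1
      _ ≤ Real.log V / g + Real.log V / g := by
          have : (1 : ℝ) / V ≤ Real.log V / g := by
            rw [div_le_div_iff₀ hV0 hg0]
            have : (g : ℝ) ≤ V := by exact_mod_cast hgV
            nlinarith
          linarith
      _ = _ := by ring
  · rw [not_nonempty_iff_eq_empty.mp hne, sum_empty]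
    positivity

lemma asum {U g a c c' : ℕ} (hU : 2 ≤ U) (hg1 : 1 ≤ g) (hc : Nat.Coprime g c) :
    ∑ a' ∈ (Ioc U (U ^ 2)).filter (fun a' : ℕ => (g : ℤ) ∣ (a : ℤ) * c' - (a' : ℤ) * c), (1 : ℝ) / a' ≤
      Real.log U / g + 1 / U := by
  have hU0 : (0 : ℝ) < U := by
    have : 0 < U := by omega
    exact_mod_cast this
  have hg0 : (0 : ℝ) < g := by exact_mod_cast hg1
  by_cases hne : ((Ioc U (U ^ 2)).filter (fun a' : ℕ => (g : ℤ) ∣ (a : ℤ) * c' - (a' : ℤ) * c)).Nonempty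
  · obtain ⟨a₀, ha₀⟩ := hne
    simp only [mem_filter, mem_Ioc] at ha₀
    have hsub : (Ioc U (U ^ 2)).filter (fun a' : ℕ => (g : ℤ) ∣ (a : ℤ) * c' - (a' : ℤ) * c) ⊆
        (Ioc U (U ^ 2)).filter (fun a' => a' ≡ a₀ [MOD g]) := by
      intro b hb
      simp only [mem_filter, mem_Ioc] at hb ⊢
      refine ⟨hb.1, ?_⟩
      have d2 : (g : ℤ) ∣ (c : ℤ) * ((a₀ : ℤ) - b) := by
        have : (c : ℤ) * ((a₀ : ℤ) - b) = ((a : ℤ) * c' - (b : ℤ) * c) - ((a : ℤ) * c' - (a₀ : ℤ) * c) := by ring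
        rw [this]
        exact dvd_sub hb.2 ha₀.2
      exact (Nat.modEq_iff_dvd).mpr (coprime_of_int hc d2)
    calc _ ≤ ∑ b ∈ (Ioc U (U ^ 2)).filter (fun b => b ≡ a₀ [MOD g]), (1 : ℝ) / b :=
          sum_le_sum_of_subset_of_nonneg hsub (fun i _ _ => by positivity)
      _ ≤ Real.log U / g + 1 / U := Pool.Agent.SPA.a46 U g a₀ (by omega) hg1
  · rw [not_nonempty_iff_eq_empty.mp hne, sum_empty]
    have : 0 ≤ Real.log U := Real.log_nonneg (by have : 1 ≤ U := by omega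
                                                 exact_mod_cast this)
    positivity

lemma hsum {U : ℕ} (hU : 2 ≤ U) : ∑ c ∈ Ioc U (U ^ 2), (1 : ℝ) / c ≤ 2 * Real.log U := by
  have h := Pool.Agent.SPA.a46 U 1 0 (by omega) le_rfl
  have h1 : (Ioc U (U ^ 2)).filter (fun v => v ≡ 0 [MOD 1]) = Ioc U (U ^ 2) := by
    apply filter_true_of_mem
    intro v _
    exact Nat.modEq_one
  rw [h1] at h
  have hU0 : (2 : ℝ) ≤ U := by exact_mod_cast hU
  have hl : 1 / 2 ≤ Real.log U := by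
    have := Real.log_le_log (by norm_num) hU0
    have := Real.log_two_gt_d9
    linarith
  have h2 : (1 : ℝ) / U ≤ 1 / 2 := one_div_le_one_div_of_le (by norm_num) hU0
  simp only [Nat.cast_one, div_one] at h
  linarith

/-- the sum over the members with a given divisor -/
lemma esum {U V α s β z g : ℕ} (hty : Ty s α) (hU : 2 ≤ U) (hV : 3 ≤ V) (hg1 : 1 ≤ g) (hgV : g ≤ V)
    (hodd : Nat.Coprime g 2) (P : ℕ × ℕ → Prop) [DecidablePred P] :
    ∑ j ∈ (E U V α s β z).filter (fun j => g ∣ mo s j ∧ P j.1), (1 : ℝ) / mo s j ≤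
      (∑ p ∈ (T U α).filter P, (1 : ℝ) / ((p.1 : ℝ) * p.2)) * (2 * Real.log V / g) := by
  classical
  have hlogV : 0 ≤ 2 * Real.log V / g := by
    have : 0 ≤ Real.log V := Real.log_nonneg (by have : 1 ≤ V := by omega
                                                 exact_mod_cast this)
    positivity
  calc ∑ j ∈ (E U V α s β z).filter (fun j => g ∣ mo s j ∧ P j.1), (1 : ℝ) / mo s j
      ≤ ∑ j ∈ ((T U α) ×ˢ ((Ioc V (V ^ 2)) ×ˢ ({0} : Finset ℕ))).filter (fun j => g ∣ mo s j ∧ P j.1),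
          (1 : ℝ) / ((j.1.1 : ℝ) * j.1.2) * (1 / (j.2.1 : ℝ)) := by
        calc _ ≤ ∑ j ∈ (E U V α s β z).filter (fun j => g ∣ mo s j ∧ P j.1),
            (1 : ℝ) / ((j.1.1 : ℝ) * j.1.2) * (1 / (j.2.1 : ℝ)) := by
              apply sum_le_sum
              intro j hj
              simp only [E, mem_filter, mem_product, mem_Ioc, mem_singleton] at hj
              obtain ⟨⟨⟨hT, hb, h0⟩, -⟩, -⟩ := hj
              obtain ⟨p, b, w⟩ := j
              simp only at h0 hT hb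
              subst h0
              obtain ⟨-, -, -, -, q1, -, q2, -, -⟩ := pair_facts hty hU hT
              obtain ⟨-, k, -⟩ := mo_facts hty hU hT (show 1 ≤ b by omega)
              have k' : ((p.1 : ℝ) * p.2) * b ≤ mo s (p, (b, 0)) := by exact_mod_cast k
              have p1 : (0 : ℝ) < p.1 := by
                have : 0 < p.1 := by omega
                exact_mod_cast this
              have p2 : (0 : ℝ) < p.2 := by
                have : 0 < p.2 := by omega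
                exact_mod_cast this
              have p3 : (0 : ℝ) < b := by
                have : 0 < b := by omega
                exact_mod_cast this
              rw [one_div_mul_one_div]
              exact one_div_le_one_div_of_le (by positivity) k'
          _ ≤ _ := by
              apply sum_le_sum_of_subset_of_nonneg
              · intro j hj
                simp only [E, mem_filter] at hj ⊢
                exact ⟨hj.1.1, hj.2⟩
              · intro i _ _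
                positivity
    _ = ∑ p ∈ T U α, ∑ b ∈ Ioc V (V ^ 2),
          (if g ∣ mo s (p, (b, 0)) ∧ P p then (1 : ℝ) / ((p.1 : ℝ) * p.2) * (1 / (b : ℝ)) else 0) := by
        rw [sum_filter, sum_product]
        apply sum_congr rfl
        intro p _
        rw [sum_product]
        apply sum_congr rfl
        intro b _
        rw [sum_singleton]
    _ ≤ ∑ p ∈ T U α, (if P p then (1 : ℝ) / ((p.1 : ℝ) * p.2) * (2 * Real.log V / g) else 0) := by
        apply sum_le_sum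
        intro p hp
        by_cases hP : P p
        · simp only [hP, and_true, if_true]
          rw [← sum_filter, ← mul_sum]
          exact mul_le_mul_of_nonneg_left (bsum hty hU hV hg1 hgV hodd hp) (by positivity)
        · simp [hP]
    _ = _ := by
        rw [← sum_filter, sum_mul]

lemma psumQ {U α g a c : ℕ} (hU : 2 ≤ U) (hg1 : 1 ≤ g) (hc : Nat.Coprime g c) :
    ∑ p ∈ (T U α).filter (fun p : ℕ × ℕ => (g : ℤ) ∣ (a : ℤ) * p.2 - (p.1 : ℤ) * c), (1 : ℝ) / ((p.1 : ℝ) * p.2) ≤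
      2 * Real.log U * (Real.log U / g + 1 / U) := by
  classical
  have hlogU : 0 ≤ Real.log U := Real.log_nonneg (by have : 1 ≤ U := by omega
                                                     exact_mod_cast this)
  calc _ ≤ ∑ p ∈ ((Ioc U (U ^ 2)) ×ˢ (Ioc U (U ^ 2))).filter
        (fun p : ℕ × ℕ => (g : ℤ) ∣ (a : ℤ) * p.2 - (p.1 : ℤ) * c), (1 : ℝ) / ((p.1 : ℝ) * p.2) := by
        apply sum_le_sum_of_subset_of_nonneg
        · intro p hp
          simp only [T, mem_filter] at hp ⊢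
          exact ⟨hp.1.1, hp.2⟩
        · intro i _ _
          positivity
    _ = ∑ c' ∈ Ioc U (U ^ 2), ∑ a' ∈ Ioc U (U ^ 2),
          (if (g : ℤ) ∣ (a : ℤ) * c' - (a' : ℤ) * c then (1 : ℝ) / ((a' : ℝ) * c') else 0) := by
        rw [sum_filter, sum_product_right]
    _ ≤ ∑ c' ∈ Ioc U (U ^ 2), (1 : ℝ) / c' * (Real.log U / g + 1 / U) := by
        apply sum_le_sum
        intro c' _
        rw [← sum_filter]
        calc _ = (1 : ℝ) / c' * ∑ a' ∈ (Ioc U (U ^ 2)).filter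
              (fun a' : ℕ => (g : ℤ) ∣ (a : ℤ) * c' - (a' : ℤ) * c), (1 : ℝ) / a' := by
              rw [mul_sum]
              apply sum_congr rfl
              intro a' _
              rw [one_div_mul_one_div, mul_comm (a' : ℝ)]
          _ ≤ _ := mul_le_mul_of_nonneg_left (asum hU hg1 hc) (by positivity)
    _ = (∑ c' ∈ Ioc U (U ^ 2), (1 : ℝ) / c') * (Real.log U / g + 1 / U) := by rw [sum_mul]
    _ ≤ _ := mul_le_mul_of_nonneg_right (hsum hU) (by positivity)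

lemma psumT {U α : ℕ} (hU : 2 ≤ U) :
    ∑ p ∈ T U α, (1 : ℝ) / ((p.1 : ℝ) * p.2) ≤ 4 * Real.log U ^ 2 := by
  classical
  have h0 : (0 : ℝ) ≤ ∑ c ∈ Ioc U (U ^ 2), (1 : ℝ) / c := sum_nonneg (fun _ _ => by positivity)
  calc _ ≤ ∑ p ∈ (Ioc U (U ^ 2)) ×ˢ (Ioc U (U ^ 2)), (1 : ℝ) / ((p.1 : ℝ) * p.2) := by
        apply sum_le_sum_of_subset_of_nonneg
        · exact filter_subset _ _
        · intro i _ _
          positivity
    _ = (∑ c ∈ Ioc U (U ^ 2), (1 : ℝ) / c) * (∑ c ∈ Ioc U (U ^ 2), (1 : ℝ) / c) := by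
        rw [sum_product, sum_mul_sum]
        apply sum_congr rfl
        intro x _
        apply sum_congr rfl
        intro y _
        rw [one_div_mul_one_div]
    _ ≤ (2 * Real.log U) * (2 * Real.log U) := mul_le_mul (hsum hU) (hsum hU) h0 (h0.trans (hsum hU))
    _ = _ := by ring

/-- the arithmetic of a pair -/
lemma pair_arith {U V α s β z : ℕ} (hty : Ty s α) (hU : 2 ≤ U) (hz : 2 ≤ z) {i j : (ℕ × ℕ) × (ℕ × ℕ)}
    (hi : i ∈ E U V α s β z) (hj : j ∈ E U V α s β z) (hne : j.1 ≠ i.1) (hg : 1 < Nat.gcd (mo s i) (mo s j))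
    (hm : 2 * i.2.1 * i.1.2 ≡ 2 * j.2.1 * j.1.2 [MOD Nat.gcd (mo s i) (mo s j)]) :
    Nat.gcd (mo s i) (mo s j) ∈ (Ioc z (U ^ 4)).filter (fun g => Nat.Coprime g 2) ∧
      ((Nat.gcd (mo s i) (mo s j) : ℕ) : ℤ) ∣ (i.1.1 : ℤ) * j.1.2 - (j.1.1 : ℤ) * i.1.2 := by
  obtain ⟨p, b, w⟩ := i
  obtain ⟨p', b', w'⟩ := j
  simp only [E, mem_filter, mem_product, mem_Ioc, mem_singleton] at hi hj
  obtain ⟨⟨hT, hb, h0⟩, -, hmin⟩ := hi
  obtain ⟨⟨hT', hb', h0'⟩, -, hmin'⟩ := hj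
  subst h0
  subst h0'
  simp only at hne hm
  have hb1 : 1 ≤ b := by omega
  have hb1' : 1 ≤ b' := by omega
  obtain ⟨hs1, hs2, hA, hB, q1, q2, q3, q4, hc⟩ := pair_facts hty hU hT
  obtain ⟨-, -, -, -, q1', q2', q3', q4', hc'⟩ := pair_facts hty hU hT'
  obtain ⟨k, kk, -⟩ := mo_facts hty hU hT hb1
  obtain ⟨k', kk', -⟩ := mo_facts hty hU hT' hb1'
  set g := Nat.gcd (mo s (p, (b, 0))) (mo s (p', (b', 0))) with hgdef
  have d : g ∣ mo s (p, (b, 0)) := Nat.gcd_dvd_left _ _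
  have d' : g ∣ mo s (p', (b', 0)) := Nat.gcd_dvd_right _ _
  have hzg : z < g := lt_of_lt_of_le hmin (Nat.minFac_le_of_dvd (by omega) d)
  have hodd : Nat.Coprime g 2 := by
    rw [Nat.coprime_comm]
    rw [Nat.Prime.coprime_iff_not_dvd Nat.prime_two]
    intro h2
    have := Nat.minFac_le_of_dvd (le_refl 2) (h2.trans d)
    omega
  have e : (s : ℤ) * (mo s (p, (b, 0)) : ℤ) + (p.1 + p.2) = 4 * p.1 * p.2 * b := by exact_mod_cast k
  have e' : (s : ℤ) * (mo s (p', (b', 0)) : ℤ) + (p'.1 + p'.2) = 4 * p'.1 * p'.2 * b' := by exact_mod_cast k'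
  have dz : (g : ℤ) ∣ (mo s (p, (b, 0)) : ℤ) := by exact_mod_cast d
  have dz' : (g : ℤ) ∣ (mo s (p', (b', 0)) : ℤ) := by exact_mod_cast d'
  have hm' : (g : ℤ) ∣ (2 * b' * p'.2 : ℤ) - 2 * b * p.2 := by
    have := (Nat.modEq_iff_dvd).mp hm
    push_cast at this
    exact this
  have hdvd : (g : ℤ) ∣ (p.1 : ℤ) * p'.2 - (p'.1 : ℤ) * p.2 := by
    have : (p.1 : ℤ) * p'.2 - (p'.1 : ℤ) * p.2 =
        p'.1 * ((s : ℤ) * (mo s (p, (b, 0)) : ℤ)) - p.1 * ((s : ℤ) * (mo s (p', (b', 0)) : ℤ))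
          + 2 * p.1 * p'.1 * ((2 * b' * p'.2 : ℤ) - 2 * b * p.2) := by
      linear_combination (-(p'.1 : ℤ)) * e + (p.1 : ℤ) * e'
    rw [this]
    exact dvd_add (dvd_sub (Dvd.dvd.mul_left (Dvd.dvd.mul_left dz _) _) (Dvd.dvd.mul_left (Dvd.dvd.mul_left dz' _) _))
      (Dvd.dvd.mul_left hm' _)
  refine ⟨?_, hdvd⟩
  simp only [mem_filter, mem_Ioc]
  refine ⟨⟨hzg, ?_⟩, hodd⟩
  have hne0 : (p.1 : ℤ) * p'.2 - (p'.1 : ℤ) * p.2 ≠ 0 := by
    intro h
    have h1 : p.1 * p'.2 = p'.1 * p.2 := by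
      have : (p.1 : ℤ) * p'.2 = (p'.1 : ℤ) * p.2 := by linarith
      exact_mod_cast this
    have h2 : p.1 ∣ p'.1 := hc.dvd_of_dvd_mul_right (h1 ▸ Dvd.intro _ rfl)
    have h3 : p'.1 ∣ p.1 := hc'.dvd_of_dvd_mul_right (h1 ▸ Dvd.intro _ rfl)
    have h4 : p.1 = p'.1 := Nat.dvd_antisymm h2 h3
    have h5 : p.2 = p'.2 := by
      rw [h4] at h1
      exact (Nat.eq_of_mul_eq_mul_left (by omega) h1).symm
    exact hne (Prod.ext h4.symm h5.symm)
  have hle : g ≤ ((p.1 : ℤ) * p'.2 - (p'.1 : ℤ) * p.2).natAbs := by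
    have := Int.natAbs_dvd_natAbs.mpr hdvd
    exact Nat.le_of_dvd (Int.natAbs_pos.mpr hne0) (by simpa using this)
  have hU4 : U ^ 4 = U ^ 2 * U ^ 2 := by ring
  have m1 : p.1 * p'.2 ≤ U ^ 4 := by
    rw [hU4]
    exact Nat.mul_le_mul q2 q4'
  have m2 : p'.1 * p.2 ≤ U ^ 4 := by
    rw [hU4]
    exact Nat.mul_le_mul q2' q4
  have m1' : (p.1 : ℤ) * p'.2 ≤ ((U ^ 4 : ℕ) : ℤ) := by exact_mod_cast m1
  have m2' : (p'.1 : ℤ) * p.2 ≤ ((U ^ 4 : ℕ) : ℤ) := by exact_mod_cast m2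
  have m3 : (0 : ℤ) ≤ (p.1 : ℤ) * p'.2 := by positivity
  have m4 : (0 : ℤ) ≤ (p'.1 : ℤ) * p.2 := by positivity
  omega

lemma gsum1 (z G : ℕ) (hz : 2 ≤ z) : ∑ g ∈ Ioc z G, (1 : ℝ) / g * (1 / g) ≤ 1 / z := by
  by_cases h : z ≤ G
  · have := sum_Ioc_inv_sq_le_sub (α := ℝ) (k := z) (n := G) (by omega) h
    have h2 : (0 : ℝ) ≤ (G : ℝ)⁻¹ := by positivity
    calc _ = ∑ g ∈ Ioc z G, (((g : ℕ) : ℝ) ^ 2)⁻¹ := by
          apply sum_congr rfl
          intro g _
          rw [one_div_mul_one_div, pow_two, one_div]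
      _ ≤ _ := this
      _ ≤ _ := by rw [one_div]; linarith
  · rw [Ioc_eq_empty (by omega), sum_empty]
    positivity

lemma gsum2 (z G : ℕ) (hG : 1 ≤ G) : ∑ g ∈ Ioc z G, (1 : ℝ) / g ≤ 1 + Real.log G := by
  have h := harmonic_le_one_add_log G
  have h2 : ((harmonic G : ℚ) : ℝ) = ∑ g ∈ Icc 1 G, (1 : ℝ) / g := by
    rw [harmonic_eq_sum_Icc]
    push_cast
    apply sum_congr rfl
    intro g _
    rw [one_div]
  rw [h2] at h
  refine le_trans (sum_le_sum_of_subset_of_nonneg ?_ (fun i _ _ => by positivity)) h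
  intro g hg
  simp only [mem_Ioc, mem_Icc] at hg ⊢
  omega

theorem rowV146 : RowV1 := by
  classical
  refine ⟨128, by norm_num, ?_⟩
  intro U V α s β z hty hU hUV hz
  have hU0 : (0 : ℝ) < U := by
    have : 0 < U := by omega
    exact_mod_cast this
  have hU4V : U ^ 4 ≤ V := (Nat.pow_le_pow_right (by omega) (by norm_num)).trans hUV
  have hV : 3 ≤ V := by
    have : 2 ^ 10 ≤ U ^ 10 := Nat.pow_le_pow_left hU 10
    omega
  have hlogU : 0 ≤ Real.log U := Real.log_nonneg (by have : 1 ≤ U := by omega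
                                                     exact_mod_cast this)
  have hlogV : 0 ≤ Real.log V := Real.log_nonneg (by have : 1 ≤ V := by omega
                                                     exact_mod_cast this)
  set Es := E U V α s β z with hEs
  set Gs := (Ioc z (U ^ 4)).filter (fun g => Nat.Coprime g 2) with hGs
  set Q : ℕ → (ℕ × ℕ) × (ℕ × ℕ) → ℕ × ℕ → Prop := fun g i p => (g : ℤ) ∣ (i.1.1 : ℤ) * p.2 - (p.1 : ℤ) * i.1.2 with hQ
  set h : ℕ → (ℕ × ℕ) × (ℕ × ℕ) → (ℕ × ℕ) × (ℕ × ℕ) → ℝ := fun g i j =>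
    if g ∣ mo s i then (if g ∣ mo s j ∧ Q g i j.1 then (g : ℝ) * ((1 : ℝ) / mo s i) * ((1 : ℝ) / mo s j) else 0) else 0
    with hh
  have hnn : ∀ g i j, 0 ≤ h g i j := by
    intro g i j
    simp only [hh]
    split_ifs <;> positivity
  have stepA : ∑ i ∈ Es, ∑ j ∈ Es.filter
        (fun j => j.1 ≠ i.1 ∧ 1 < Nat.gcd (mo s i) (mo s j) ∧
          2 * i.2.1 * i.1.2 ≡ 2 * j.2.1 * j.1.2 [MOD Nat.gcd (mo s i) (mo s j)]),
        ((Nat.gcd (mo s i) (mo s j) : ℕ) : ℝ) / ((mo s i : ℝ) * mo s j) ≤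
      ∑ i ∈ Es, ∑ j ∈ Es, ∑ g ∈ Gs, h g i j := by
    apply sum_le_sum
    intro i hi
    calc _ ≤ ∑ j ∈ Es.filter (fun j => j.1 ≠ i.1 ∧ 1 < Nat.gcd (mo s i) (mo s j) ∧
            2 * i.2.1 * i.1.2 ≡ 2 * j.2.1 * j.1.2 [MOD Nat.gcd (mo s i) (mo s j)]), ∑ g ∈ Gs, h g i j := by
          apply sum_le_sum
          intro j hj
          rw [mem_filter] at hj
          obtain ⟨hj1, hj2, hj3, hj4⟩ := hj
          obtain ⟨r1, r2⟩ := pair_arith hty hU hz hi hj1 hj2 hj3 hj4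
          have e : ((Nat.gcd (mo s i) (mo s j) : ℕ) : ℝ) / ((mo s i : ℝ) * mo s j) =
              h (Nat.gcd (mo s i) (mo s j)) i j := by
            simp only [hh, hQ]
            rw [if_pos (Nat.gcd_dvd_left _ _), if_pos ⟨Nat.gcd_dvd_right _ _, r2⟩]
            rw [mul_assoc, one_div_mul_one_div, mul_one_div]
          rw [e]
          exact single_le_sum (f := fun g => h g i j) (fun g _ => hnn g i j) r1
      _ ≤ _ := sum_le_sum_of_subset_of_nonneg (filter_subset _ _)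
          (fun j _ _ => sum_nonneg (fun g _ => hnn g i j))
  have stepC : ∑ i ∈ Es, ∑ j ∈ Es, ∑ g ∈ Gs, h g i j = ∑ g ∈ Gs, ∑ i ∈ Es, ∑ j ∈ Es, h g i j := by
    calc _ = ∑ i ∈ Es, ∑ g ∈ Gs, ∑ j ∈ Es, h g i j := by
          apply sum_congr rfl
          intro i _
          exact sum_comm
      _ = _ := sum_comm
  have stepD : ∀ g ∈ Gs, ∑ i ∈ Es, ∑ j ∈ Es, h g i j ≤
      32 * Real.log V ^ 2 * Real.log U ^ 3 * ((1 : ℝ) / g * (Real.log U / g + 1 / U)) := by
    intro g hg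
    rw [hGs, mem_filter, mem_Ioc] at hg
    obtain ⟨⟨hg1, hg2⟩, hodd⟩ := hg
    have hg0 : (0 : ℝ) < g := by
      have : 0 < g := by omega
      exact_mod_cast this
    have hgV : g ≤ V := hg2.trans hU4V
    set J : ℝ := 2 * Real.log U * (Real.log U / g + 1 / U) * (2 * Real.log V / g) with hJ
    have hJ0 : 0 ≤ J := by positivity
    have step1 : ∀ i ∈ Es, ∑ j ∈ Es, h g i j ≤ (if g ∣ mo s i ∧ True then (1 : ℝ) / mo s i else 0) * (g * J) := by
      intro i hi
      by_cases hd : g ∣ mo s i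
      · have hcop : Nat.Coprime g i.1.2 := by
          obtain ⟨p, b, w⟩ := i
          simp only [hEs, E, mem_filter, mem_product, mem_Ioc, mem_singleton] at hi
          obtain ⟨⟨hT, hb, h0⟩, -⟩ := hi
          subst h0
          exact (cop hty hU hT (show 1 ≤ b by omega) hd).2
        calc ∑ j ∈ Es, h g i j = ∑ j ∈ Es, (if g ∣ mo s j ∧ Q g i j.1 then
                (g : ℝ) * ((1 : ℝ) / mo s i) * ((1 : ℝ) / mo s j) else 0) := by
              apply sum_congr rfl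
              intro j _
              simp only [hh]
              rw [if_pos hd]
          _ = (g : ℝ) * ((1 : ℝ) / mo s i) * ∑ j ∈ Es.filter (fun j => g ∣ mo s j ∧ Q g i j.1), (1 : ℝ) / mo s j := by
              rw [← sum_filter, mul_sum]
          _ ≤ (g : ℝ) * ((1 : ℝ) / mo s i) * J := by
              apply mul_le_mul_of_nonneg_left _ (by positivity)
              refine le_trans (esum hty hU hV (by omega) hgV hodd (Q g i)) ?_
              rw [hJ]
              exact mul_le_mul_of_nonneg_right (psumQ hU (by omega) hcop) (by positivity)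
          _ = _ := by
              rw [if_pos ⟨hd, trivial⟩]
              ring
      · have : ∑ j ∈ Es, h g i j = 0 := by
          apply sum_eq_zero
          intro j _
          simp only [hh]
          rw [if_neg hd]
        rw [this]
        split_ifs <;> positivity
    calc ∑ i ∈ Es, ∑ j ∈ Es, h g i j ≤ ∑ i ∈ Es, (if g ∣ mo s i ∧ True then (1 : ℝ) / mo s i else 0) * (g * J) :=
          sum_le_sum step1
      _ = (∑ i ∈ Es.filter (fun i => g ∣ mo s i ∧ True), (1 : ℝ) / mo s i) * (g * J) := by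
          rw [← sum_mul, ← sum_filter]
      _ ≤ ((∑ p ∈ (T U α).filter (fun _ => True), (1 : ℝ) / ((p.1 : ℝ) * p.2)) * (2 * Real.log V / g)) * (g * J) := by
          apply mul_le_mul_of_nonneg_right _ (by positivity)
          exact esum hty hU hV (by omega) hgV hodd (fun _ => True)
      _ ≤ ((4 * Real.log U ^ 2) * (2 * Real.log V / g)) * (g * J) := by
          apply mul_le_mul_of_nonneg_right _ (by positivity)
          apply mul_le_mul_of_nonneg_right _ (by positivity)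
          rw [filter_true_of_mem (fun _ _ => trivial)]
          exact psumT hU
      _ = _ := by
          rw [hJ]
          field_simp
          ring
  have hUr : (1 : ℝ) ≤ ((U ^ 4 : ℕ) : ℝ) := by
    have : 1 ≤ U ^ 4 := Nat.one_le_pow _ _ (by omega)
    exact_mod_cast this
  have hz0 : (0 : ℝ) < z := by
    have : 0 < z := by omega
    exact_mod_cast this
  have stepE : ∑ g ∈ Gs, ((1 : ℝ) / g * (Real.log U / g + 1 / U)) ≤ Real.log U / z + (1 + 4 * Real.log U) / U := by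
    calc _ ≤ ∑ g ∈ Ioc z (U ^ 4), ((1 : ℝ) / g * (Real.log U / g + 1 / U)) :=
          sum_le_sum_of_subset_of_nonneg (filter_subset _ _) (fun g _ _ => by positivity)
      _ = Real.log U * ∑ g ∈ Ioc z (U ^ 4), ((1 : ℝ) / g * (1 / g)) + (1 / U) * ∑ g ∈ Ioc z (U ^ 4), (1 : ℝ) / g := by
          rw [mul_sum, mul_sum, ← sum_add_distrib]
          apply sum_congr rfl
          intro g _
          ring
      _ ≤ Real.log U * (1 / z) + (1 / U) * (1 + Real.log ((U ^ 4 : ℕ) : ℝ)) := by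
          apply add_le_add
          · exact mul_le_mul_of_nonneg_left (gsum1 z _ hz) hlogU
          · exact mul_le_mul_of_nonneg_left (gsum2 z _ (Nat.one_le_pow _ _ (by omega))) (by positivity)
      _ = _ := by
          have : Real.log ((U ^ 4 : ℕ) : ℝ) = 4 * Real.log U := by
            push_cast
            rw [Real.log_pow]
            norm_num
          rw [this]
          ring
  calc _ ≤ ∑ i ∈ Es, ∑ j ∈ Es, ∑ g ∈ Gs, h g i j := stepA
    _ = ∑ g ∈ Gs, ∑ i ∈ Es, ∑ j ∈ Es, h g i j := stepC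
    _ ≤ ∑ g ∈ Gs, 32 * Real.log V ^ 2 * Real.log U ^ 3 * ((1 : ℝ) / g * (Real.log U / g + 1 / U)) := sum_le_sum stepD
    _ = 32 * Real.log V ^ 2 * Real.log U ^ 3 * ∑ g ∈ Gs, ((1 : ℝ) / g * (Real.log U / g + 1 / U)) := by rw [mul_sum]
    _ ≤ 32 * Real.log V ^ 2 * Real.log U ^ 3 * (Real.log U / z + (1 + 4 * Real.log U) / U) :=
        mul_le_mul_of_nonneg_left stepE (by positivity)
    _ ≤ 32 * Real.log V ^ 2 * Real.log U ^ 3 * (4 * (Real.log U / z + (1 + Real.log U) / U)) := by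
        apply mul_le_mul_of_nonneg_left _ (by positivity)
        have h1 : 0 ≤ Real.log U / z := by positivity
        have h2 : (1 + 4 * Real.log U) / U ≤ 4 * ((1 + Real.log U) / U) := by
          rw [← mul_div_assoc]
          exact div_le_div_of_nonneg_right (by linarith) hU0.le
        linarith
    _ = _ := by ring

end Pool.Agent.BR3.V146
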