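import Pool.Agent.BR3.Main46
import Pool.Agent.BR3.V146
import Pool.Agent.BR3.V089
import Pool.Agent.BR3.T83
import Pool.Agent.BR3.S92
import Pool.Agent.BR3.F75
import Pool.Agent.BR3.Up62

/-!
# The order of `c n` for almost all `n`: composition from the last row
-/

set_option autoImplicit false

namespace Pool.Agent.BR3.Comp46

theorem main_of_low (h : RowLow) : Main :=
  Main46.main_of (h rowT83 S92.rowS92 V146.rowV146 V089.v0 F75.rowF) Up62.up62

end Pool.Agent.BR3.Comp46
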