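import Pool.Agent.BR3.UniFin34

/-!
# MP_5de915_nt: the uniform form contains the order of `c n` for almost all `n` (`Main`)
-/

set_option autoImplicit false

namespace Pool.Agent.BR3.Cont34

open Finset Pool.Agent.BR3 Pool.Agent.Helper64.Breadth

/-- the uniform form implies `Main` (the earlier hand-in LogCubedRows) -/
theorem main_of_uni (h : ∃ d B : ℝ, 0 < d ∧ ∀ N z : ℕ, 2 ≤ N → 3 ≤ z →
    (((Icc 1 N).filter (fun n : ℕ => ¬ (d * (Real.log N / Real.log z) ^ 3 ≤ (c n : ℝ) ∧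
      (c n : ℝ) ≤ z * Real.log N ^ 3))).card : ℝ) ≤
      B * N * Real.log z ^ 6 * (1 / z + 1 / Real.log N ^ 3)) : Main := by
  intro ε hε
  obtain ⟨d, B₀, hd, hmain₀⟩ := h
  -- a positive constant
  obtain ⟨B, hB⟩ : ∃ B : ℝ, B = |B₀| + 1 := ⟨_, rfl⟩
  have hB0 : 0 < B := by rw [hB]; positivity
  have hBB : B₀ ≤ B := by rw [hB]; linarith [le_abs_self B₀]
  -- choice of z
  obtain ⟨z, hz3, hzb⟩ : ∃ z : ℕ, 3 ≤ z ∧ B * Real.log z ^ 6 * (1 / z) ≤ ε / 4 := by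
    have h1 := (Asymptotics.isLittleO_iff.1 (Real.isLittleO_pow_log_id_atTop (n := 6)))
      (show (0 : ℝ) < ε / 4 / B by positivity)
    have h2 := tendsto_natCast_atTop_atTop (R := ℝ) |>.eventually h1
    obtain ⟨z, hz, hz'⟩ := (h2.and (Filter.eventually_ge_atTop 3)).exists
    refine ⟨z, hz', ?_⟩
    have hzp : (0 : ℝ) < z := by
      have : 0 < z := by omega
      exact_mod_cast this
    rw [Real.norm_eq_abs, Real.norm_eq_abs, id, abs_of_pos hzp] at hz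
    have h3 := (le_abs_self _).trans hz
    rw [mul_one_div, div_le_iff₀ hzp]
    calc B * Real.log z ^ 6 ≤ B * (ε / 4 / B * z) := mul_le_mul_of_nonneg_left h3 hB0.le
      _ = ε / 4 * z := by field_simp
  have hz0 : (0 : ℝ) < z := by
    have : 0 < z := by omega
    exact_mod_cast this
  obtain ⟨ℓ, hℓ⟩ : ∃ ℓ : ℝ, ℓ = Real.log z := ⟨_, rfl⟩
  have hℓ0 : 0 < ℓ := by
    rw [hℓ]
    apply Real.log_pos
    have : (3 : ℝ) ≤ z := by exact_mod_cast hz3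
    linarith
  rw [← hℓ] at hzb
  obtain ⟨δ, hδdef⟩ : ∃ δ : ℝ, δ = min (d / ℓ ^ 3) (1 / (8 * z)) := ⟨_, rfl⟩
  have hδ : 0 < δ := by rw [hδdef]; exact lt_min (by positivity) (by positivity)
  have hδa : δ ≤ d / ℓ ^ 3 := by rw [hδdef]; exact min_le_left _ _
  have hδb : δ ≤ 1 / (8 * z) := by rw [hδdef]; exact min_le_right _ _
  -- large N
  have hlog : Filter.Tendsto (fun N : ℕ => Real.log (N : ℝ)) Filter.atTop Filter.atTop :=
    Real.tendsto_log_atTop.comp tendsto_natCast_atTop_atTop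
  have hNev : ∀ᶠ N : ℕ in Filter.atTop, 3 ≤ N ∧ 1 ≤ Real.log (N : ℝ) ∧ B * ℓ ^ 6 * 4 / ε ≤ Real.log (N : ℝ) ∧
      (2 / ε) ^ 2 ≤ (N : ℝ) := by
    have hc : Filter.Tendsto (fun U : ℕ => (U : ℝ)) Filter.atTop Filter.atTop := tendsto_natCast_atTop_atTop
    filter_upwards [Filter.eventually_ge_atTop 3, hlog.eventually_ge_atTop 1,
      hlog.eventually_ge_atTop (B * ℓ ^ 6 * 4 / ε), hc.eventually_ge_atTop ((2 / ε) ^ 2)] with N a1 a2 a3 a4
    exact ⟨a1, a2, a3, a4⟩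
  obtain ⟨N₀, hN₀⟩ := Filter.eventually_atTop.1 hNev
  refine ⟨δ, hδ, N₀, ?_⟩
  intro N hN
  obtain ⟨hN3, hL1, hLb, hsq⟩ := hN₀ N hN
  have hNr : (3 : ℝ) ≤ N := by exact_mod_cast hN3
  have hN0 : (0 : ℝ) < N := by linarith
  obtain ⟨L, hL⟩ : ∃ L : ℝ, L = Real.log N := ⟨_, rfl⟩
  rw [← hL] at hL1 hLb
  have hL0 : 0 < L := by linarith
  have hr : (Nat.sqrt N : ℝ) ≤ ε / 2 * N := by
    have h1 : (Nat.sqrt N : ℝ) ≤ Real.sqrt N := Real.nat_sqrt_le_real_sqrt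
    have h2 : 2 / ε ≤ Real.sqrt N := Real.le_sqrt_of_sq_le hsq
    have h3 : 0 ≤ Real.sqrt N := Real.sqrt_nonneg _
    have h4 : Real.sqrt N * Real.sqrt N = N := Real.mul_self_sqrt hN0.le
    have h5 : 1 ≤ ε / 2 * Real.sqrt N := by
      have h6 := mul_le_mul_of_nonneg_left h2 (show 0 ≤ ε / 2 by positivity)
      have h7 : ε / 2 * (2 / ε) = 1 := by field_simp
      linarith
    have h8 : Real.sqrt N * 1 ≤ Real.sqrt N * (ε / 2 * Real.sqrt N) :=
      mul_le_mul_of_nonneg_left h5 h3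
    have h9 : Real.sqrt N * (ε / 2 * Real.sqrt N) = ε / 2 * N := by
      calc Real.sqrt N * (ε / 2 * Real.sqrt N) = ε / 2 * (Real.sqrt N * Real.sqrt N) := by ring
        _ = ε / 2 * N := by rw [h4]
    linarith
  obtain ⟨A, hA⟩ : ∃ A, A = (Icc 1 N).filter (fun n : ℕ => ¬ (d * (L / ℓ) ^ 3 ≤ (c n : ℝ) ∧
      (c n : ℝ) ≤ z * L ^ 3)) := ⟨_, rfl⟩
  have hAc : (A.card : ℝ) ≤ ε / 2 * N := by
    have h1 := hmain₀ N z (by omega) hz3
    rw [← hL, ← hℓ, ← hA] at h1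
    have h2 : 1 / L ^ 3 ≤ 1 / L := by
      apply one_div_le_one_div_of_le hL0
      calc L = L ^ 1 := (pow_one _).symm
        _ ≤ L ^ 3 := pow_le_pow_right₀ hL1 (by norm_num)
    have h3 : B * ℓ ^ 6 * (1 / L) ≤ ε / 4 := by
      rw [div_le_iff₀ hε] at hLb
      rw [mul_one_div, div_le_iff₀ hL0]
      linarith
    have h4 : B₀ * N * ℓ ^ 6 * (1 / z + 1 / L ^ 3) ≤ B * N * ℓ ^ 6 * (1 / z + 1 / L ^ 3) := by gcongr
    have h5 : B * N * ℓ ^ 6 * (1 / z + 1 / L ^ 3) ≤ B * N * ℓ ^ 6 * (1 / z + 1 / L) := by gcongr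
    have h6 : B * N * ℓ ^ 6 * (1 / z + 1 / L) = N * (B * ℓ ^ 6 * (1 / z) + B * ℓ ^ 6 * (1 / L)) := by ring
    have h7 : N * (B * ℓ ^ 6 * (1 / z) + B * ℓ ^ 6 * (1 / L)) ≤ N * (ε / 4 + ε / 4) := by gcongr
    linarith
  have hsub : (Icc 1 N).filter (fun n : ℕ => ¬ (δ * Real.log n ^ 3 ≤ (c n : ℝ) ∧
      (c n : ℝ) ≤ Real.log n ^ 3 / δ)) ⊆ A ∪ Icc 1 (Nat.sqrt N) := by
    intro n hn
    obtain ⟨hnI, hnb⟩ := Finset.mem_filter.1 hn
    obtain ⟨hn1, hnN⟩ := Finset.mem_Icc.1 hnI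
    by_cases hs : n ≤ Nat.sqrt N
    · exact Finset.mem_union_right _ (Finset.mem_Icc.2 ⟨hn1, hs⟩)
    · apply Finset.mem_union_left
      rw [hA]
      refine Finset.mem_filter.2 ⟨hnI, ?_⟩
      rintro ⟨hlo, hhi⟩
      apply hnb
      have hs' : N < n * n := Nat.sqrt_lt.1 (not_le.1 hs)
      have hn1r : (1 : ℝ) ≤ n := by exact_mod_cast hn1
      have hnNr : (n : ℝ) ≤ N := by exact_mod_cast hnN
      have hln : 0 ≤ Real.log n := Real.log_nonneg hn1r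
      have hlnN : Real.log n ≤ L := by rw [hL]; exact Real.log_le_log (by linarith) hnNr
      have hp : Real.log n ^ 3 ≤ L ^ 3 := pow_le_pow_left₀ hln hlnN 3
      have h2n : L ≤ 2 * Real.log n := by
        have h1 : (N : ℝ) ≤ (n : ℝ) * n := by exact_mod_cast hs'.le
        have h2 := Real.log_le_log hN0 h1
        rw [Real.log_mul (by positivity) (by positivity)] at h2
        linarith
      have hp2 : L ^ 3 ≤ 8 * Real.log n ^ 3 := by
        have h := pow_le_pow_left₀ hL0.le h2n 3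
        calc L ^ 3 ≤ (2 * Real.log n) ^ 3 := h
          _ = 8 * Real.log n ^ 3 := by ring
      constructor
      · have hq : 0 ≤ Real.log n ^ 3 := by positivity
        calc δ * Real.log n ^ 3 ≤ d / ℓ ^ 3 * Real.log n ^ 3 := mul_le_mul_of_nonneg_right hδa hq
          _ ≤ d / ℓ ^ 3 * L ^ 3 := mul_le_mul_of_nonneg_left hp (by positivity)
          _ = d * (L / ℓ) ^ 3 := by rw [div_pow]; ring
          _ ≤ _ := hlo
      · rw [le_div_iff₀ hδ]
        have hq : (0 : ℝ) ≤ c n := Nat.cast_nonneg _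
        calc (c n : ℝ) * δ ≤ c n * (1 / (8 * z)) := mul_le_mul_of_nonneg_left hδb hq
          _ ≤ (z * L ^ 3) * (1 / (8 * z)) := mul_le_mul_of_nonneg_right hhi (by positivity)
          _ = L ^ 3 / 8 := by field_simp
          _ ≤ Real.log n ^ 3 := by linarith
  have hcard := Finset.card_le_card hsub
  have hu1 := Finset.card_union_le A (Icc 1 (Nat.sqrt N))
  have hd' : (Icc 1 (Nat.sqrt N)).card = Nat.sqrt N := by simp
  have hfin : ((Icc 1 N).filter (fun n : ℕ => ¬ (δ * Real.log n ^ 3 ≤ (c n : ℝ) ∧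
      (c n : ℝ) ≤ Real.log n ^ 3 / δ))).card ≤ A.card + Nat.sqrt N := by
    omega
  have hfin' : (((Icc 1 N).filter (fun n : ℕ => ¬ (δ * Real.log n ^ 3 ≤ (c n : ℝ) ∧
      (c n : ℝ) ≤ Real.log n ^ 3 / δ))).card : ℝ) ≤ A.card + Nat.sqrt N := by
    exact_mod_cast hfin
  linarith

end Pool.Agent.BR3.Cont34
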