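import Pool.Agent.BR3.Defs
import Pool.Agent.Helper3.FJ.Met

/-!
# The complex of a dual Garside group of rank three
-/

set_option autoImplicit false

namespace Pool.Agent.BR3

open Pool.Agent.Helper29.BA Pool.Agent.Helper29.PA Pool.Agent.Helper3.FJ

variable {A : Type} {F : A → A → A → Prop} {φ : Equiv.Perm A} {W : Type} [Group W] {w : A → W}

theorem dg_induction {P : DG F → Prop} (of : ∀ a, P (at' F a)) (one : P 1)
    (mul : ∀ x y, P x → P y → P (x * y)) (inv : ∀ x, P x → P x⁻¹) (x : DG F) : P x := by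
  have h : x ∈ Subgroup.closure (Set.range (PresentedGroup.of (rels := dualRels F))) := by
    rw [PresentedGroup.closure_range_of]
    trivial
  induction h using Subgroup.closure_induction with
  | mem x hx =>
    obtain ⟨s, rfl⟩ := hx
    exact of s
  | one => exact one
  | mul x y _ _ hx hy => exact mul x y hx hy
  | inv x _ hx => exact inv x hx

theorem rtg_symm {V : Type} (X : Cpx V) {u v : V} (h : Relation.ReflTransGen X.adj u v) :
    Relation.ReflTransGen X.adj v u := by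
  induction h with
  | refl => exact Relation.ReflTransGen.refl
  | tail _ h2 ih => exact (Relation.ReflTransGen.single (X.adj_symm _ _ h2)).trans ih

/-- The degree. -/
def dg : DG F →* Multiplicative ℤ := dualLift (fun _ => Multiplicative.ofAdd 1) (by
  intros
  rfl)

theorem dg_at (a : A) : dg (at' F a) = Multiplicative.ofAdd 1 := dualLift_at _ _ a

noncomputable section

namespace Dual3

variable (h : Dual3 F φ w)

include h in
theorem exists_dl : ∃ δ : DG F, ∀ a b c, F a b c → at' F a * at' F b * at' F c = δ := by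
  obtain ⟨a, b, c, habc⟩ := h.ne
  exact ⟨_, fun a' b' c' h' => at_prod h' habc⟩

/-- The Garside element. -/
def dl : DG F := h.exists_dl.choose

theorem dl_eq {a b c : A} (hF : F a b c) : at' F a * at' F b * at' F c = h.dl :=
  h.exists_dl.choose_spec a b c hF

theorem at_dl (a : A) : at' F a * h.dl = h.dl * at' F (φ a) := by
  obtain ⟨b, c, hF⟩ := h.first a
  have h1 := h.dl_eq ((h.rot a b c).1 hF)
  conv_lhs => rw [← h1]
  conv_rhs => rw [← h.dl_eq hF]
  group

include h in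
theorem at_inj {a b : A} (hab : at' F a = at' F b) : a = b := by
  have h1 := congrArg (dualLift w h.prod) hab
  rw [dualLift_at, dualLift_at] at h1
  exact h.inj h1

theorem dg_dl : dg h.dl = Multiplicative.ofAdd 3 := by
  obtain ⟨a, b, c, habc⟩ := h.ne
  rw [← h.dl_eq habc, map_mul, map_mul, dg_at, dg_at, dg_at]
  rfl

theorem dg_zpow (k : ℤ) : (dg (h.dl ^ k)).toAdd = 3 * k := by
  rw [map_zpow, h.dg_dl, ← ofAdd_zsmul, toAdd_ofAdd, smul_eq_mul, mul_comm]

theorem eq_one_of_zpow {x : DG F} (hx : x ∈ Subgroup.zpowers h.dl) (h1 : (dg x).toAdd = 0) :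
    x = 1 := by
  obtain ⟨k, rfl⟩ := hx
  have h2 := h.dg_zpow k
  have h3 : k = 0 := by
    change (dg (h.dl ^ k)).toAdd = 0 at h1
    omega
  simp [h3]

/-- The vertices. -/
abbrev V : Type := DG F ⧸ Subgroup.zpowers h.dl

/-- The vertex of an element. -/
abbrev vt (g : DG F) : h.V := (g : DG F ⧸ Subgroup.zpowers h.dl)

theorem vt_dl (g : DG F) : h.vt (g * h.dl) = h.vt g := by
  rw [vt, vt, eq_comm, QuotientGroup.eq, inv_mul_cancel_left]
  exact Subgroup.mem_zpowers _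

theorem vt_zpow (g : DG F) (k : ℤ) : h.vt (g * h.dl ^ k) = h.vt g := by
  rw [vt, vt, eq_comm, QuotientGroup.eq, inv_mul_cancel_left]
  exact ⟨k, rfl⟩

/-- Triangles with their cyclic orientation. -/
def P (u v x : h.V) : Prop := ∃ (g : DG F) (a b c : A), F a b c ∧ u = h.vt g ∧
  v = h.vt (g * at' F a) ∧ x = h.vt (g * at' F a * at' F b)

variable {h} in
theorem P.rot {u v x : h.V} (hP : h.P u v x) : h.P v x u := by
  obtain ⟨g, a, b, c, hF, rfl, rfl, rfl⟩ := hP
  refine ⟨g * at' F a, b, c, φ a, (h.rot a b c).1 hF, rfl, rfl, ?_⟩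
  have e : g * at' F a * at' F b * at' F c = g * h.dl := by
    rw [← h.dl_eq hF]
    group
  rw [e, h.vt_dl]

/-- The degree modulo three. -/
def dz : h.V → ZMod 3 := Quotient.lift (fun g : DG F => (((dg g).toAdd : ℤ) : ZMod 3)) (by
  intro g g' hgg
  have h1 : g⁻¹ * g' ∈ Subgroup.zpowers h.dl := QuotientGroup.leftRel_apply.1 hgg
  obtain ⟨k, hk⟩ := h1
  have h2 : g' = g * h.dl ^ k := by
    change h.dl ^ k = g⁻¹ * g' at hk
    rw [hk, mul_inv_cancel_left]
  change (((dg g).toAdd : ℤ) : ZMod 3) = (((dg g').toAdd : ℤ) : ZMod 3)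
  rw [h2, map_mul, toAdd_mul, h.dg_zpow]
  push_cast
  have h3 : (3 : ZMod 3) = 0 := by decide
  rw [h3, zero_mul, add_zero])

theorem dz_vt (g : DG F) : h.dz (h.vt g) = (((dg g).toAdd : ℤ) : ZMod 3) := rfl

theorem dz_at (g : DG F) (a : A) : h.dz (h.vt (g * at' F a)) = h.dz (h.vt g) + 1 := by
  rw [dz_vt, dz_vt, map_mul, toAdd_mul, dg_at, toAdd_ofAdd]
  push_cast
  rfl

variable {h} in
theorem P.dz {u v x : h.V} (hP : h.P u v x) : h.dz v = h.dz u + 1 ∧ h.dz x = h.dz u + 2 := by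
  obtain ⟨g, a, b, c, hF, rfl, rfl, rfl⟩ := hP
  rw [h.dz_at, h.dz_at, h.dz_at, add_assoc]
  exact ⟨rfl, rfl⟩

/-- The complex. -/
def cx : Cpx h.V where
  adj u v := ∃ (g : DG F) (a : A), (u = h.vt g ∧ v = h.vt (g * at' F a)) ∨
    (v = h.vt g ∧ u = h.vt (g * at' F a))
  tri u v x := h.P u v x ∨ h.P v u x
  adj_symm := by
    rintro u v ⟨g, a, h1⟩
    exact ⟨g, a, h1.symm⟩
  adj_irrefl := by
    have key : ∀ (g : DG F) (a : A), h.vt g ≠ h.vt (g * at' F a) := by
      intro g a h1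
      have h2 := congrArg h.dz h1
      rw [h.dz_at] at h2
      have h3 : (1 : ZMod 3) = 0 := add_eq_left.1 h2.symm
      exact absurd h3 (by decide)
    rintro u ⟨g, a, ⟨rfl, h2⟩ | ⟨rfl, h2⟩⟩
    · exact key g a h2
    · exact key g a h2
  tri_rot := by
    rintro u v x (h1 | h1)
    · exact Or.inl h1.rot
    · exact Or.inr h1.rot.rot
  tri_flip := by
    rintro u v x (h1 | h1)
    · exact Or.inr h1
    · exact Or.inl h1
  tri_adj := by
    rintro u v x (⟨g, a, b, c, -, h1, h2, -⟩ | ⟨g, a, b, c, -, h1, h2, -⟩)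
    · exact ⟨g, a, Or.inl ⟨h1, h2⟩⟩
    · exact ⟨g, a, Or.inr ⟨h1, h2⟩⟩

theorem smul_vt (x g : DG F) : x • h.vt g = h.vt (x * g) := rfl

theorem acts : h.cx.Acts (DG F) := by
  have hP : ∀ (x : DG F) u v y, h.P u v y → h.P (x • u) (x • v) (x • y) := by
    rintro x u v y ⟨g, a, b, c, hF, rfl, rfl, rfl⟩
    refine ⟨x * g, a, b, c, hF, rfl, ?_, ?_⟩
    · rw [smul_vt, mul_assoc]
    · rw [smul_vt]
      simp only [mul_assoc]
  constructor
  · rintro x u v ⟨g, a, ⟨rfl, rfl⟩ | ⟨rfl, rfl⟩⟩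
    · exact ⟨x * g, a, Or.inl ⟨rfl, by rw [smul_vt, mul_assoc]⟩⟩
    · exact ⟨x * g, a, Or.inr ⟨rfl, by rw [smul_vt, mul_assoc]⟩⟩
  · rintro x u v y (h1 | h1)
    · exact Or.inl (hP x _ _ _ h1)
    · exact Or.inr (hP x _ _ _ h1)

/-! ### Simple connectivity -/

section cocycle

variable {H : Type} [Group H] (c : h.V → h.V → H)

/-- The permutation of `DG F × H` defined by the atom `a`. -/
def pa (a : A) : Equiv.Perm (DG F × H) where
  toFun p := (p.1 * at' F a, p.2 * c (h.vt p.1) (h.vt (p.1 * at' F a)))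
  invFun p := (p.1 * (at' F a)⁻¹, p.2 * (c (h.vt (p.1 * (at' F a)⁻¹)) (h.vt p.1))⁻¹)
  left_inv := by
    rintro ⟨g, x⟩
    simp only [mul_inv_cancel_right]
  right_inv := by
    rintro ⟨g, x⟩
    simp only [inv_mul_cancel_right]

theorem pa_apply (a : A) (g : DG F) (x : H) :
    h.pa c a (g, x) = (g * at' F a, x * c (h.vt g) (h.vt (g * at' F a))) := rfl

variable {c}

theorem pa_prod (hc : h.cx.Cocycle c) {a b d : A} (hF : F a b d) (g : DG F) (x : H) :
    h.pa c d (h.pa c b (h.pa c a (g, x))) = (g * h.dl, x) := by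
  have e : g * at' F a * at' F b * at' F d = g * h.dl := by
    rw [← h.dl_eq hF]
    group
  rw [pa_apply, pa_apply, pa_apply, e, h.vt_dl]
  have h1 := hc.2 (h.vt g) (h.vt (g * at' F a)) (h.vt (g * at' F a * at' F b))
    (Or.inl ⟨g, a, b, d, hF, rfl, rfl, rfl⟩)
  rw [mul_assoc x, mul_assoc x, h1, mul_one]

/-- The right action on `DG F × H`. -/
def ra (hc : h.cx.Cocycle c) : DG F →* (Equiv.Perm (DG F × H))ᵐᵒᵖ :=
  dualLift (fun a => MulOpposite.op (h.pa c a)) (by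
    intro a b d a' b' d' h1 h2
    rw [← MulOpposite.op_mul, ← MulOpposite.op_mul, ← MulOpposite.op_mul, ← MulOpposite.op_mul]
    refine congrArg MulOpposite.op (Equiv.ext fun p => ?_)
    obtain ⟨g, x⟩ := p
    exact (h.pa_prod hc h1 g x).trans (h.pa_prod hc h2 g x).symm)

/-- The right action on `DG F × H`. -/
def rp (hc : h.cx.Cocycle c) (x : DG F) : Equiv.Perm (DG F × H) := (h.ra hc x).unop

theorem rp_mul (hc : h.cx.Cocycle c) (x y : DG F) (p : DG F × H) :
    h.rp hc (x * y) p = h.rp hc y (h.rp hc x p) := by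
  rw [rp, map_mul]
  rfl

theorem rp_one (hc : h.cx.Cocycle c) (p : DG F × H) : h.rp hc 1 p = p := by
  rw [rp, map_one]
  rfl

theorem rp_at (hc : h.cx.Cocycle c) (a : A) : h.rp hc (at' F a) = h.pa c a := by
  rw [rp, ra, dualLift_at]
  rfl

theorem rp_fst (hc : h.cx.Cocycle c) (x : DG F) (p : DG F × H) :
    (h.rp hc x p).1 = p.1 * x := by
  induction x using dg_induction generalizing p with
  | of a =>
    rw [rp_at]
    rfl
  | one => rw [rp_one, mul_one]
  | mul x y ihx ihy => rw [rp_mul, ihy, ihx, mul_assoc]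
  | inv x ih =>
    have h1 := ih (h.rp hc x⁻¹ p)
    rw [← rp_mul, inv_mul_cancel, rp_one] at h1
    rw [h1, mul_inv_cancel_right]

theorem exists_pot (hc : h.cx.Cocycle c) : ∃ f : h.V → H, ∀ (g : DG F) (a : A),
    c (h.vt g) (h.vt (g * at' F a)) = (f (h.vt g))⁻¹ * f (h.vt (g * at' F a)) := by
  have hdl : ∀ g : DG F, (h.rp hc (g * h.dl) (1, 1)).2 = (h.rp hc g (1, 1)).2 := by
    intro g
    obtain ⟨a, b, d, hF⟩ := h.ne
    rw [← h.dl_eq hF, rp_mul, rp_mul, rp_mul, rp_at, rp_at, rp_at]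
    obtain ⟨g', x⟩ := h.rp hc g (1, 1)
    rw [h.pa_prod hc hF]
  have hzp : ∀ (k : ℤ) (g : DG F), (h.rp hc (g * h.dl ^ k) (1, 1)).2 =
      (h.rp hc g (1, 1)).2 := by
    intro k
    induction k using Int.induction_on with
    | zero =>
      intro g
      rw [zpow_zero, mul_one]
    | succ k ih =>
      intro g
      rw [zpow_add_one, ← mul_assoc, hdl, ih]
    | pred k ih =>
      intro g
      rw [← hdl (g * _), mul_assoc, ← zpow_add_one, sub_add_cancel, ih]
  refine ⟨Quotient.lift (fun g : DG F => (h.rp hc g (1, 1)).2) ?_, fun g a => ?_⟩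
  · intro g g' hgg
    have h1 : g⁻¹ * g' ∈ Subgroup.zpowers h.dl := QuotientGroup.leftRel_apply.1 hgg
    obtain ⟨k, hk⟩ := h1
    have h2 : g' = g * h.dl ^ k := by
      change h.dl ^ k = g⁻¹ * g' at hk
      rw [hk, mul_inv_cancel_left]
    change (h.rp hc g (1, 1)).2 = (h.rp hc g' (1, 1)).2
    rw [h2, hzp]
  · change _ = ((h.rp hc g (1, 1)).2)⁻¹ * (h.rp hc (g * at' F a) (1, 1)).2
    rw [rp_mul, rp_at]
    have h1 := h.rp_fst hc g (1, 1)
    rw [one_mul] at h1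
    change _ = _ * ((h.rp hc g (1, 1)).2 * c (h.vt (h.rp hc g (1, 1)).1)
      (h.vt ((h.rp hc g (1, 1)).1 * at' F a)))
    rw [h1, inv_mul_cancel_left]

end cocycle

theorem simplyConn : h.cx.SimplyConn := by
  refine ⟨⟨h.vt 1⟩, ?_, ?_⟩
  · have key : ∀ (x g : DG F), Relation.ReflTransGen h.cx.adj (h.vt g) (h.vt (g * x)) := by
      intro x
      induction x using dg_induction with
      | of a => exact fun g => Relation.ReflTransGen.single ⟨g, a, Or.inl ⟨rfl, rfl⟩⟩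
      | one =>
        intro g
        rw [mul_one]
      | mul x y ihx ihy =>
        intro g
        rw [← mul_assoc]
        exact (ihx g).trans (ihy (g * x))
      | inv x ih =>
        intro g
        have h1 := ih (g * x⁻¹)
        rw [inv_mul_cancel_right] at h1
        exact rtg_symm h.cx h1
    intro u v
    obtain ⟨g, rfl⟩ := QuotientGroup.mk_surjective u
    obtain ⟨g', rfl⟩ := QuotientGroup.mk_surjective v
    have h1 := key (g⁻¹ * g') g
    rwa [mul_inv_cancel_left] at h1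
  · intro H _ c hc
    obtain ⟨f, hf⟩ := h.exists_pot hc
    refine ⟨f, ?_⟩
    rintro u v ⟨g, a, ⟨rfl, rfl⟩ | ⟨rfl, rfl⟩⟩
    · exact hf g a
    · have h1 := hc.1 (h.vt (g * at' F a)) (h.vt g) ⟨g, a, Or.inr ⟨rfl, rfl⟩⟩
      rw [eq_inv_of_mul_eq_one_left h1, hf, mul_inv_rev, inv_inv]

/-! ### Links -/

include h in
theorem F_phi {a b c : A} : F a b c ↔ F (φ a) (φ b) (φ c) := by
  rw [h.rot a b c, h.rot b c (φ a), h.rot c (φ a) (φ b)]

theorem dl_at (a : A) : h.dl * at' F a = at' F (φ.symm a) * h.dl := by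
  rw [h.at_dl, Equiv.apply_symm_apply]

theorem dlinv_at (a : A) : h.dl⁻¹ * at' F a = at' F (φ a) * h.dl⁻¹ := by
  rw [inv_mul_eq_iff_eq_mul, ← mul_assoc, ← h.at_dl, mul_inv_cancel_right]

/-- Moving powers of the Garside element. -/
theorem zpow_at (k : ℤ) : ∃ ψ : Equiv.Perm A, (∀ a, h.dl ^ k * at' F a = at' F (ψ a) * h.dl ^ k) ∧
    ∀ a b c, F a b c → F (ψ a) (ψ b) (ψ c) := by
  induction k using Int.induction_on with
  | zero => exact ⟨Equiv.refl A, fun a => by simp, fun a b c hF => hF⟩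
  | succ k ih =>
    obtain ⟨ψ, h1, h2⟩ := ih
    refine ⟨φ.symm * ψ, fun a => ?_, fun a b c hF => ?_⟩
    · have e : h.dl ^ ((k : ℤ) + 1) = h.dl * h.dl ^ (k : ℤ) := by rw [add_comm, zpow_one_add]
      rw [e, mul_assoc, h1, ← mul_assoc, h.dl_at, mul_assoc]
      rfl
    · rw [h.F_phi]
      simp only [Equiv.Perm.mul_apply, Equiv.apply_symm_apply]
      exact h2 a b c hF
  | pred k ih =>
    obtain ⟨ψ, h1, h2⟩ := ih
    refine ⟨φ * ψ, fun a => ?_, fun a b c hF => ?_⟩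
    · have e : h.dl ^ (-(k : ℤ) - 1) = h.dl⁻¹ * h.dl ^ (-(k : ℤ)) := by
        rw [sub_eq_add_neg, add_comm, zpow_add, zpow_neg_one]
      rw [e, mul_assoc, h1, ← mul_assoc, h.dlinv_at, mul_assoc]
      rfl
    · exact h.F_phi.1 (h2 a b c hF)

theorem vt_eq_iff {g g' : DG F} : h.vt g = h.vt g' ↔ ∃ k : ℤ, g' = g * h.dl ^ k := by
  rw [vt, vt, QuotientGroup.eq]
  constructor
  · rintro ⟨k, hk⟩
    refine ⟨k, ?_⟩
    change h.dl ^ k = g⁻¹ * g' at hk
    rw [hk, mul_inv_cancel_left]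
  · rintro ⟨k, rfl⟩
    exact ⟨k, by group⟩

/-- Triangles at a vertex, in terms of a representative. -/
theorem P_at {g : DG F} {x y : h.V} (hP : h.P (h.vt g) x y) :
    ∃ a b c, F a b c ∧ x = h.vt (g * at' F a) ∧ y = h.vt (g * h.dl * (at' F c)⁻¹) := by
  obtain ⟨g', a, b, c, hF, h1, rfl, rfl⟩ := hP
  obtain ⟨k, rfl⟩ := h.vt_eq_iff.1 h1
  obtain ⟨ψ, h2, h3⟩ := h.zpow_at k
  refine ⟨ψ a, ψ b, ψ c, h3 a b c hF, ?_, ?_⟩
  · rw [mul_assoc, h2, ← mul_assoc, h.vt_zpow]
  · rw [mul_assoc g, h2, ← mul_assoc, mul_assoc (g * at' F (ψ a)), h2, ← mul_assoc, h.vt_zpow,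
      ← h.dl_eq (h3 a b c hF)]
    congr 1
    group

theorem at_unique {g : DG F} {a a' : A} (h1 : h.vt (g * at' F a) = h.vt (g * at' F a')) :
    a = a' := by
  obtain ⟨k, hk⟩ := h.vt_eq_iff.1 h1
  rw [mul_assoc, mul_right_inj] at hk
  have h2 := congrArg (fun x => (dg x).toAdd) hk
  simp only [map_mul, toAdd_mul, dg_at, h.dg_zpow, toAdd_ofAdd] at h2
  have h3 : k = 0 := by omega
  rw [h3, zpow_zero, mul_one] at hk
  exact (h.at_inj hk).symm

theorem co_unique {g : DG F} {a a' : A}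
    (h1 : h.vt (g * h.dl * (at' F a)⁻¹) = h.vt (g * h.dl * (at' F a')⁻¹)) : a = a' := by
  obtain ⟨k, hk⟩ := h.vt_eq_iff.1 h1
  rw [mul_assoc (g * h.dl), mul_right_inj] at hk
  have h2 := congrArg (fun x => (dg x).toAdd) hk
  simp only [map_mul, map_inv, toAdd_mul, toAdd_inv, dg_at, h.dg_zpow, toAdd_ofAdd] at h2
  have h3 : k = 0 := by omega
  rw [h3, zpow_zero, mul_one, inv_inj] at hk
  exact (h.at_inj hk).symm

theorem no_square {v x₀ y₁ x₂ y₃ : h.V} (h1 : h.P v x₀ y₁) (h2 : h.P v x₂ y₁) (h3 : h.P v x₂ y₃)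
    (h4 : h.P v x₀ y₃) : x₀ = x₂ ∨ y₁ = y₃ := by
  obtain ⟨g, rfl⟩ := QuotientGroup.mk_surjective v
  obtain ⟨a1, b1, c1, f1, e1, e1'⟩ := h.P_at h1
  obtain ⟨a2, b2, c2, f2, e2, e2'⟩ := h.P_at h2
  obtain ⟨a3, b3, c3, f3, e3, e3'⟩ := h.P_at h3
  obtain ⟨a4, b4, c4, f4, e4, e4'⟩ := h.P_at h4
  obtain rfl := h.at_unique (e1.symm.trans e4)
  obtain rfl := h.at_unique (e2.symm.trans e3)
  obtain rfl := h.co_unique (e1'.symm.trans e2')
  obtain rfl := h.co_unique (e3'.symm.trans e4')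
  rcases h.girth _ _ _ _ _ _ _ _ f1 f4 f2 f3 with rfl | rfl
  · exact Or.inl (e1.trans e2.symm)
  · exact Or.inr (e1'.trans e3'.symm)

theorem linkGirth : h.cx.LinkGirth := by
  intro v k hk hk' u hu htri
  -- the two kinds of triangles
  have key : ∀ x y, h.cx.tri v x y → (h.dz x = h.dz v + 1 ∧ h.dz y = h.dz v + 2 ∧ h.P v x y) ∨
      (h.dz x = h.dz v + 2 ∧ h.dz y = h.dz v + 1 ∧ h.P v y x) := by
    rintro x y (hP | hP)
    · exact Or.inl ⟨hP.dz.1, hP.dz.2, hP⟩
    · exact Or.inr ⟨hP.rot.dz.2, hP.rot.dz.1, hP.rot⟩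
  have h12 : ∀ z : ZMod 3, z + 1 ≠ z + 2 := by decide
  interval_cases k
  · rcases key _ _ (htri 0) with ⟨a0, b0, -⟩ | ⟨a0, b0, -⟩ <;>
      rcases key _ _ (htri 1) with ⟨a1, b1, -⟩ | ⟨a1, b1, -⟩ <;>
      rcases key _ _ (htri 2) with ⟨a2, b2, -⟩ | ⟨a2, b2, -⟩ <;>
      first
      | exact h12 _ (b0.symm.trans a1)
      | exact h12 _ (a1.symm.trans b0)
      | exact h12 _ (b1.symm.trans a2)
      | exact h12 _ (a2.symm.trans b1)
      | exact h12 _ (b2.symm.trans a0)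
      | exact h12 _ (a0.symm.trans b2)
  · rcases key _ _ (htri 0) with ⟨a0, b0, p0⟩ | ⟨a0, b0, p0⟩ <;>
      rcases key _ _ (htri 1) with ⟨a1, b1, p1⟩ | ⟨a1, b1, p1⟩ <;>
      rcases key _ _ (htri 2) with ⟨a2, b2, p2⟩ | ⟨a2, b2, p2⟩ <;>
      rcases key _ _ (htri 3) with ⟨a3, b3, p3⟩ | ⟨a3, b3, p3⟩ <;>
      first
      | exact h12 _ (b0.symm.trans a1)
      | exact h12 _ (a1.symm.trans b0)
      | exact h12 _ (b1.symm.trans a2)
      | exact h12 _ (a2.symm.trans b1)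
      | exact h12 _ (b2.symm.trans a3)
      | exact h12 _ (a3.symm.trans b2)
      | exact h12 _ (b3.symm.trans a0)
      | exact h12 _ (a0.symm.trans b3)
      | (rcases h.no_square p0 p1 p2 p3 with e | e
         · exact absurd (hu e) (by decide)
         · exact absurd (hu e) (by decide))
      | (rcases h.no_square p1 p2 p3 p0 with e | e
         · exact absurd (hu e) (by decide)
         · exact absurd (hu e) (by decide))
  · rcases key _ _ (htri 0) with ⟨a0, b0, -⟩ | ⟨a0, b0, -⟩ <;>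
      rcases key _ _ (htri 1) with ⟨a1, b1, -⟩ | ⟨a1, b1, -⟩ <;>
      rcases key _ _ (htri 2) with ⟨a2, b2, -⟩ | ⟨a2, b2, -⟩ <;>
      rcases key _ _ (htri 3) with ⟨a3, b3, -⟩ | ⟨a3, b3, -⟩ <;>
      rcases key _ _ (htri 4) with ⟨a4, b4, -⟩ | ⟨a4, b4, -⟩ <;>
      first
      | exact h12 _ (b0.symm.trans a1)
      | exact h12 _ (a1.symm.trans b0)
      | exact h12 _ (b1.symm.trans a2)
      | exact h12 _ (a2.symm.trans b1)
      | exact h12 _ (b2.symm.trans a3)
      | exact h12 _ (a3.symm.trans b2)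
      | exact h12 _ (b3.symm.trans a4)
      | exact h12 _ (a4.symm.trans b3)
      | exact h12 _ (b4.symm.trans a0)
      | exact h12 _ (a0.symm.trans b4)

include h in
/-- **Dual Garside groups of rank three.** -/
theorem mem {C : ∀ (G : Type) [Group G], Prop} (hC : TriClass C) : C (DG F) := by
  refine Cpx.main hC h.acts h.simplyConn h.linkGirth fun K =>
    ⟨Multiplicative ℤ, inferInstance, dg, hC.int, fun v _ x hx h1 => ?_⟩
  obtain ⟨g, rfl⟩ := QuotientGroup.mk_surjective v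
  have h2 : h.vt (x * g) = h.vt g := hx
  obtain ⟨k, hk⟩ := h.vt_eq_iff.1 h2
  have h3 := congrArg (fun x => (dg x).toAdd) hk
  simp only [map_mul, toAdd_mul, h.dg_zpow, h1, toAdd_one] at h3
  have h4 : k = 0 := by omega
  rw [h4, zpow_zero, mul_one] at hk
  exact (mul_eq_right.1 hk.symm)

end Dual3

end

end Pool.Agent.BR3
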