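import Pool.Agent.Helper3.FJ.Main2
import Pool.Agent.Helper54.LA.Lim

/-!
# Dual Garside structures of rank three

`F a b c`: the product of the atoms `a`, `b`, `c` is the Garside element.
-/

set_option autoImplicit false

namespace Pool.Agent.BR3

open Pool.Agent.Helper29.BA Pool.Agent.Helper29.PA Pool.Agent.Helper3.FJ

variable {A : Type} (F : A → A → A → Prop)

/-- The relations: all products `a b c` with `F a b c` are equal. -/
def dualRels : Set (FreeGroup A) :=
  {r | ∃ a b c a' b' c', F a b c ∧ F a' b' c' ∧
    r = FreeGroup.of a * FreeGroup.of b * FreeGroup.of c *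
      (FreeGroup.of a' * FreeGroup.of b' * FreeGroup.of c')⁻¹}

/-- The group generated by the atoms. -/
abbrev DG : Type := PresentedGroup (dualRels F)

/-- The generators. -/
def at' (a : A) : DG F := PresentedGroup.of a

/-- Dual Garside data of rank three: rotation with a permutation `φ` of the atoms, a quotient `W`
which separates the atoms, and two rank two elements have at most one common atom. -/
structure Dual3 (F : A → A → A → Prop) (φ : Equiv.Perm A) {W : Type} [Group W] (w : A → W) :
    Prop where
  ne : ∃ a b c, F a b c
  first : ∀ a, ∃ b c, F a b c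
  rot : ∀ a b c, F a b c ↔ F b c (φ a)
  inj : Function.Injective w
  prod : ∀ a b c a' b' c', F a b c → F a' b' c' → w a * w b * w c = w a' * w b' * w c'
  girth : ∀ a a' c c' b₁ b₂ b₃ b₄, F a b₁ c → F a b₂ c' → F a' b₃ c → F a' b₄ c' → a = a' ∨ c = c'

variable {F}

/-- Relations in the dual group. -/
theorem at_prod {a b c a' b' c' : A} (h : F a b c) (h' : F a' b' c') :
    at' F a * at' F b * at' F c = at' F a' * at' F b' * at' F c' := by
  rw [← mul_inv_eq_one]
  exact PresentedGroup.one_of_mem ⟨a, b, c, a', b', c', h, h', rfl⟩

/-- Homomorphisms of the dual group. -/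
def dualLift {G : Type} [Group G] (f : A → G)
    (h : ∀ a b c a' b' c', F a b c → F a' b' c' → f a * f b * f c = f a' * f b' * f c') :
    DG F →* G :=
  PresentedGroup.toGroup (f := f) (by
    rintro w ⟨a, b, c, a', b', c', h1, h2, rfl⟩
    simp only [map_mul, map_inv, FreeGroup.lift_apply_of]
    rw [mul_inv_eq_one]
    exact h a b c a' b' c' h1 h2)

theorem dualLift_at {G : Type} [Group G] (f : A → G)
    (h : ∀ a b c a' b' c', F a b c → F a' b' c' → f a * f b * f c = f a' * f b' * f c') (a : A) :
    dualLift f h (at' F a) = f a := PresentedGroup.toGroup.of _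

end Pool.Agent.BR3
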