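import Pool.Agent.BR3.Stmts

/-!
# Row F: the injection of the divisors into row `n`
-/

set_option autoImplicit false

namespace Pool.Agent.BR3.F77

open Finset Pool.Agent.Helper64.Breadth

/-- the family of elements of breadth three with parameters `a, b, c, X = 2 j + 1` -/
theorem br (a b c j : ℕ) (ha : 1 ≤ a) (hb : 1 ≤ b) (hc : 1 ≤ c) (hj : 1 ≤ j) (n : ℤ)
    (hn : n = (4 * a * b * c - a - c) * (2 * j + 1) - 2 * b * c) :
    Br 3 n (n - (b * (2 * a * (2 * j + 1) - 1) - j - 1)) := by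
  obtain ⟨a, rfl⟩ : ∃ i, a = i + 1 := ⟨a - 1, by omega⟩
  obtain ⟨b, rfl⟩ : ∃ i, b = i + 1 := ⟨b - 1, by omega⟩
  obtain ⟨c, rfl⟩ : ∃ i, c = i + 1 := ⟨c - 1, by omega⟩
  have h := ((((((Br.diag j hj).G).pow a).G).pow b).G).pow c
  convert h using 1
  · rw [hn]; push_cast; ring
  · rw [hn]; push_cast; ring

/-- the recursion `E' = 2 I E - E''` determines `I` and `E''` -/
theorem uniq {I I' E A B : ℤ} (hA : 0 < A) (hA' : A < E) (hB : 0 < B) (hB' : B < E)
    (h : 2 * I * E - A = 2 * I' * E - B) : I = I' ∧ A = B := by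
  have hE : 0 < E := hA.trans hA'
  have h1 : 2 * (I - I') * E = A - B := by linarith
  have h2 : I = I' := by
    rcases lt_trichotomy I I' with h3 | h3 | h3
    · have : I - I' ≤ -1 := by omega
      nlinarith
    · exact h3
    · have : 1 ≤ I - I' := by omega
      nlinarith
  subst h2
  exact ⟨rfl, by linarith⟩

/-- the four parameters are determined by `n` and the value -/
theorem inj {a b c j a' b' c' j' : ℤ} (ha : 1 ≤ a) (hb : 1 ≤ b) (hj : 1 ≤ j)
    (ha' : 1 ≤ a') (hb' : 1 ≤ b') (hj' : 1 ≤ j') {n : ℤ}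
    (hn : n = (4 * a * b * c - a - c) * (2 * j + 1) - 2 * b * c)
    (hn' : n = (4 * a' * b' * c' - a' - c') * (2 * j' + 1) - 2 * b' * c')
    (h : n - (b * (2 * a * (2 * j + 1) - 1) - j - 1) = n - (b' * (2 * a' * (2 * j' + 1) - 1) - j' - 1)) :
    a = a' ∧ b = b' ∧ c = c' := by
  have e1 : 2 * j + 1 < 2 * a * (2 * j + 1) - 1 := by nlinarith
  have e1' : 2 * j' + 1 < 2 * a' * (2 * j' + 1) - 1 := by nlinarith
  have e2 : 2 * a * (2 * j + 1) - 1 < 2 * b * (2 * a * (2 * j + 1) - 1) - (2 * j + 1) := by nlinarith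
  have e2' : 2 * a' * (2 * j' + 1) - 1 < 2 * b' * (2 * a' * (2 * j' + 1) - 1) - (2 * j' + 1) := by nlinarith
  have e3 : 2 * b * (2 * a * (2 * j + 1) - 1) - (2 * j + 1) =
      2 * b' * (2 * a' * (2 * j' + 1) - 1) - (2 * j' + 1) := by linarith
  have k1 := uniq (I := c) (I' := c') (E := 2 * b * (2 * a * (2 * j + 1) - 1) - (2 * j + 1))
    (A := 2 * a * (2 * j + 1) - 1) (B := 2 * a' * (2 * j' + 1) - 1) (by linarith) e2 (by linarith)
    (by rw [e3]; exact e2') (by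
      have q1 : 2 * c * (2 * b * (2 * a * (2 * j + 1) - 1) - (2 * j + 1)) - (2 * a * (2 * j + 1) - 1) = 2 * n + 1 := by
        rw [hn]; ring
      have q2 : 2 * c' * (2 * b' * (2 * a' * (2 * j' + 1) - 1) - (2 * j' + 1)) - (2 * a' * (2 * j' + 1) - 1)
          = 2 * n + 1 := by
        rw [hn']; ring
      rw [q1, e3, q2])
  obtain ⟨k1, k2⟩ := k1
  have k3 := uniq (I := b) (I' := b') (E := 2 * a * (2 * j + 1) - 1) (A := 2 * j + 1) (B := 2 * j' + 1)
    (by linarith) e1 (by linarith) (by rw [k2]; exact e1') (by rw [e3, k2])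
  obtain ⟨k3, k4⟩ := k3
  have k5 : a = a' := by
    have : 2 * a * (2 * j + 1) = 2 * a' * (2 * j + 1) := by
      have := k2; rw [← k4] at this; linarith
    have h3 : (2 * j + 1) ≠ 0 := by omega
    have := mul_right_cancel₀ h3 this
    linarith
  exact ⟨k5, k3, k1⟩

/-- the odd quotient -/
theorem quot {a b c n s α β : ℕ} (ha : 1 ≤ a) (hb : 1 ≤ b) (hc : 1 ≤ c) (haα : a % 4 = α) (hc1 : c % 4 = 1)
    (hβ : b % 2 = β % 2)
    (hty : (s = 1 ∧ α = 0 ∧ n % 2 = 1) ∨ (s = 2 ∧ α = 1 ∧ β = 1 ∧ n % 4 = 0) ∨ (s = 2 ∧ α = 1 ∧ β = 0 ∧ n % 4 = 2))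
    (h : (4 * a * c / s) * b - (a + c) / s ∣ n + 2 * b * c) :
    ∃ X : ℕ, X % 2 = 1 ∧ n + 2 * b * c = (4 * a * c * b - (a + c)) * X := by
  have hbig : a + c ≤ 2 * (a * c * b) := by
    have h1 : a ≤ a * c * b := by nlinarith [Nat.mul_le_mul hc hb, Nat.mul_le_mul ha (Nat.mul_le_mul hc hb)]
    have h2 : c ≤ a * c * b := by nlinarith [Nat.mul_le_mul ha hb, Nat.mul_le_mul hc (Nat.mul_le_mul ha hb)]
    omega
  rcases hty with ⟨rfl, rfl, hn⟩ | ⟨rfl, rfl, rfl, hn⟩ | ⟨rfl, rfl, rfl, hn⟩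
  · rw [Nat.div_one, Nat.div_one] at h
    obtain ⟨X, hX⟩ := h
    refine ⟨X, ?_, hX⟩
    have h3 : ((4 * a * c * b - (a + c)) * X) % 2 = 1 := by
      rw [← hX, show 2 * b * c = 2 * (b * c) by ring]; omega
    rcases Nat.mod_two_eq_zero_or_one X with h4 | h4
    · rw [Nat.mul_mod, h4, Nat.mul_zero, Nat.zero_mod] at h3; exact absurd h3 (by decide)
    · exact h4
  all_goals
    obtain ⟨q, hq⟩ := h
    have h1 : 4 * a * c / 2 = 2 * (a * c) := by
      rw [show 4 * a * c = 2 * (2 * (a * c)) by ring, Nat.mul_div_cancel_left _ (by norm_num)]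
    rw [h1] at hq
    have hp : (b * c) % 2 = b % 2 := by
      rw [Nat.mul_mod, show c % 2 = 1 by omega, Nat.mul_one, Nat.mod_mod]
    have e0 : 2 * (a * c) * b = 2 * (a * c * b) := by ring
    have e1 : 4 * a * c * b = 4 * (a * c * b) := by ring
    have e2 : 2 * b * c = 2 * (b * c) := by ring
    rw [e0, e2] at hq
    rw [e1, e2]
    generalize a * c * b = t at *
    generalize b * c = p at *
    obtain ⟨m, hm⟩ : ∃ m, m = 2 * t - (a + c) / 2 := ⟨_, rfl⟩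
    rw [← hm] at hq
    have hm1 : m % 2 = 1 := by omega
    have hm2 : 4 * t - (a + c) = 2 * m := by omega
    have hq2 : q % 2 = 0 := by
      have h3 : (m * q) % 2 = 0 := by rw [← hq]; omega
      rcases Nat.mod_two_eq_zero_or_one q with h4 | h4
      · exact h4
      · rw [Nat.mul_mod, hm1, h4] at h3; exact absurd h3 (by decide)
    obtain ⟨X, rfl⟩ : ∃ X, q = 2 * X := ⟨q / 2, by omega⟩
    refine ⟨X, ?_, by rw [hm2, hq]; ring⟩
    have h5 : n + 2 * p = 2 * (m * X) := by rw [hq]; ring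
    have h6 : (m * X) % 2 = 1 := by omega
    rcases Nat.mod_two_eq_zero_or_one X with h4 | h4
    · rw [Nat.mul_mod, h4, Nat.mul_zero, Nat.zero_mod] at h6; exact absurd h6 (by decide)
    · exact h4

theorem rowF77 : RowF := by
  intro U V α s β z n hU hUV hz hn hty
  have hfin := finite_row n
  have e1 : Pool.Agent.Helper64.Breadth.c n = hfin.toFinset.card := by
    rw [c, ← Set.ncard_eq_toFinset_card _ hfin]
    rfl
  -- the parameters
  have key : ∀ i ∈ (E U V α s β z).filter (fun i => mo s i ∣ n + 2 * i.2.1 * i.1.2),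
      1 ≤ i.1.1 ∧ 1 ≤ i.2.1 ∧ 1 ≤ i.1.2 ∧ i.2.2 = 0 ∧
      ∃ j : ℕ, 1 ≤ j ∧ j = ((n + 2 * i.2.1 * i.1.2) / (4 * i.1.1 * i.1.2 * i.2.1 - (i.1.1 + i.1.2))) / 2 ∧
      (n : ℤ) = (4 * i.1.1 * i.2.1 * i.1.2 - i.1.1 - i.1.2) * (2 * j + 1) - 2 * i.2.1 * i.1.2 := by
    rintro ⟨⟨a, c⟩, b, d⟩ hi
    simp only [E, T, mo, Finset.mem_filter, Finset.mem_product, Finset.mem_Ioc, Finset.mem_singleton] at hi
    obtain ⟨⟨⟨⟨⟨⟨ha1, ha2⟩, hc1, hc2⟩, haα, hcα, -⟩, ⟨hb1, hb2⟩, hd⟩, hβ, -⟩, hdv⟩ := hi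
    dsimp only
    have ha : 1 ≤ a := by omega
    have hc : 1 ≤ c := by omega
    have hb : 1 ≤ b := by omega
    refine ⟨ha, hb, hc, hd, ?_⟩
    have hα4 : a % 4 = α := by
      have := haα
      rw [Nat.ModEq] at this
      rcases hty with ⟨-, h, -⟩ | ⟨-, h, -⟩ | ⟨-, h, -⟩ <;> subst h <;> simpa using this
    obtain ⟨X, hX1, hX2⟩ := quot (s := s) (β := β) ha hb hc hα4 (by simpa [Nat.ModEq] using hcα)
      (by simpa [Nat.ModEq] using hβ) hty hdv
    have hbig : a + c < 4 * a * c * b := by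
      have h1 : a ≤ a * c * b := by nlinarith [Nat.mul_le_mul hc hb, Nat.mul_le_mul ha (Nat.mul_le_mul hc hb)]
      have h2 : c ≤ a * c * b := by nlinarith [Nat.mul_le_mul ha hb, Nat.mul_le_mul hc (Nat.mul_le_mul ha hb)]
      have h3 : 4 * a * c * b = 4 * (a * c * b) := by ring
      omega
    have hM : 0 < 4 * a * c * b - (a + c) := by omega
    have hX3 : 3 ≤ X := by
      by_contra hlt
      have h1 : X ≤ 2 := by omega
      have h2 : a * c * b ≤ U ^ 4 * V ^ 2 := by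
        calc a * c * b ≤ U ^ 2 * U ^ 2 * V ^ 2 := Nat.mul_le_mul (Nat.mul_le_mul ha2 hc2) hb2
          _ = U ^ 4 * V ^ 2 := by ring
      have h3 : (4 * a * c * b - (a + c)) * X ≤ 4 * a * c * b * 2 := Nat.mul_le_mul (Nat.sub_le _ _) h1
      have h4 : 4 * a * c * b * 2 = 8 * (a * c * b) := by ring
      have h5 : 0 < a * c * b := by positivity
      have h6 : 0 < 2 * b * c := by positivity
      have h7 : 12 * U ^ 4 * V ^ 2 = 12 * (U ^ 4 * V ^ 2) := by ring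
      omega
    refine ⟨X / 2, by omega, ?_, ?_⟩
    · rw [hX2, Nat.mul_div_cancel_left _ hM]
    · have h8 : ((n + 2 * b * c : ℕ) : ℤ) = (((4 * a * c * b - (a + c)) * X : ℕ) : ℤ) := by rw [hX2]
      push_cast [Nat.cast_sub hbig.le] at h8
      have h9 : (2 * ((X / 2 : ℕ) : ℤ) + 1) = X := by omega
      rw [h9]
      linarith
  rw [e1]
  refine Finset.card_le_card_of_injOn (fun i => (n : ℤ) - ((i.2.1 : ℤ) * (2 * i.1.1 *
    (2 * ((((n + 2 * i.2.1 * i.1.2) / (4 * i.1.1 * i.1.2 * i.2.1 - (i.1.1 + i.1.2))) / 2 : ℕ) : ℤ) + 1) - 1) -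
      ((((n + 2 * i.2.1 * i.1.2) / (4 * i.1.1 * i.1.2 * i.2.1 - (i.1.1 + i.1.2))) / 2 : ℕ) : ℤ) - 1)) ?_ ?_
  · intro i hi
    obtain ⟨ha, hb, hc, -, j, hj, hj', hn'⟩ := key i hi
    rw [Finset.mem_coe, Set.Finite.mem_toFinset]
    dsimp only
    rw [← hj']
    exact br _ _ _ j ha hb hc hj n hn'
  · intro i hi i' hi' h
    obtain ⟨ha, hb, hc, hd, j, hj, hj', hn'⟩ := key i hi
    obtain ⟨ka, kb, kc, kd, l, kl, kl', kn'⟩ := key i' hi'
    dsimp only at h
    rw [← hj', ← kl'] at h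
    obtain ⟨r1, r2, r3⟩ := inj (by exact_mod_cast ha) (by exact_mod_cast hb) (by exact_mod_cast hj)
      (by exact_mod_cast ka) (by exact_mod_cast kb) (by exact_mod_cast kl) hn' kn' h
    have r1' : i.1.1 = i'.1.1 := by exact_mod_cast r1
    have r2' : i.2.1 = i'.2.1 := by exact_mod_cast r2
    have r3' : i.1.2 = i'.1.2 := by exact_mod_cast r3
    exact Prod.ext (Prod.ext r1' r3') (Prod.ext r2' (hd.trans kd.symm))

end Pool.Agent.BR3.F77
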