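import Pool.Agent.Helper13.LT.Defs

/-!
# Certificates for equalities of positive words in Artin groups

`ev x l` is the value of the word `l` at `x`. A certificate is a list of braid moves
`(position, a, b)`: at the given position the word `a b a ...` is replaced by `b a b ...`.
-/

set_option autoImplicit false

namespace Pool.Agent.BR3

open Pool.Agent.Helper13.LT

variable {G : Type} [Group G] {n : ℕ}

/-- The value of a word. -/
def ev (x : Fin n → G) : List (Fin n) → G
  | [] => 1
  | a :: l => x a * ev x l

@[simp] theorem ev_nil (x : Fin n → G) : ev x [] = 1 := rfl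

@[simp] theorem ev_cons (x : Fin n → G) (a : Fin n) (l : List (Fin n)) :
    ev x (a :: l) = x a * ev x l := rfl

theorem ev_append (x : Fin n → G) (l l' : List (Fin n)) : ev x (l ++ l') = ev x l * ev x l' := by
  induction l with
  | nil => simp
  | cons a l ih => simp [ih, mul_assoc]

/-- The word `a b a ...` of length `k`. -/
def alw (a b : Fin n) : ℕ → List (Fin n)
  | 0 => []
  | k + 1 => a :: alw b a k

theorem ev_alw (x : Fin n → G) (a b : Fin n) (k : ℕ) : ev x (alw a b k) = alt (x a) (x b) k := by
  induction k generalizing a b with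
  | zero => rfl
  | succ k ih => rw [alw, ev_cons, ih, alt]

/-- A braid move. -/
def mv (m : Fin n → Fin n → ℕ) (k : ℕ) (a b : Fin n) (l : List (Fin n)) : List (Fin n) :=
  if (l.drop k).take (m a b) = alw a b (m a b) then
    l.take k ++ (alw b a (m a b) ++ (l.drop k).drop (m a b))
  else l

theorem ev_mv {m : Fin n → Fin n → ℕ} {x : Fin n → G}
    (hx : ∀ a b, alt (x a) (x b) (m a b) = alt (x b) (x a) (m a b)) (k : ℕ) (a b : Fin n)
    (l : List (Fin n)) : ev x (mv m k a b l) = ev x l := by
  unfold mv
  split_ifs with h
  · have h1 : ev x l = ev x (l.take k ++ ((l.drop k).take (m a b) ++ (l.drop k).drop (m a b))) := by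
      rw [List.take_append_drop, List.take_append_drop]
    rw [h1, h, ev_append, ev_append, ev_append, ev_append, ev_alw, ev_alw, hx]
  · rfl

/-- A sequence of braid moves. -/
def mvs (m : Fin n → Fin n → ℕ) : List (ℕ × Fin n × Fin n) → List (Fin n) → List (Fin n)
  | [], l => l
  | (k, a, b) :: c, l => mvs m c (mv m k a b l)

/-- The certificate. -/
theorem ev_eq {m : Fin n → Fin n → ℕ} {x : Fin n → G}
    (hx : ∀ a b, alt (x a) (x b) (m a b) = alt (x b) (x a) (m a b))
    (c : List (ℕ × Fin n × Fin n)) {l l' : List (Fin n)} (h : mvs m c l = l') :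
    ev x l = ev x l' := by
  subst h
  induction c generalizing l with
  | nil => rfl
  | cons p c ih =>
    obtain ⟨k, a, b⟩ := p
    rw [mvs, ← ih, ev_mv hx]

end Pool.Agent.BR3
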