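import Pool.Agent.BR3.Defs
import Pool.Agent.BR3.Word
import Pool.Agent.Helper29.BA.Closure

/-!
# From the dual group to the Artin group
-/

set_option autoImplicit false

namespace Pool.Agent.BR3

open Pool.Agent.Helper29.BA Pool.Agent.Helper54.LA Pool.Agent.Helper13.LT

/-- An Artin group with three generators and the labels `m` is in the class if a dual group is:
`x` are the simple atoms; the dual group maps to each group with the braid relations. -/
theorem mem_of_dual {C : ∀ (G : Type) [Group G], Prop} (hC : ClosedClass C) {A : Type}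
    {F : A → A → A → Prop} {S : Type} (M : CoxeterMatrix S) (s t u : S)
    (hS : ∀ x, x = s ∨ x = t ∨ x = u) (hst : s ≠ t) (htu : t ≠ u) (hsu : s ≠ u)
    (m : Fin 3 → Fin 3 → ℕ) (m0 : M s t = m 0 1) (m1 : M t u = m 1 2) (m2 : M s u = m 0 2)
    (hms : ∀ a b, m a b = m b a) (hmd : ∀ a, m a a = 1) (x : Fin 3 → DG F)
    (hx : ∀ a b, alt (x a) (x b) (m a b) = alt (x b) (x a) (m a b))
    (hθ : ∀ {G : Type} [Group G] (y : Fin 3 → G),
      (∀ a b, alt (y a) (y b) (m a b) = alt (y b) (y a) (m a b)) →
        ∃ f : DG F →* G, ∀ a, f (x a) = y a) (h : C (DG F)) : C (ArtinGroup M) := by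
  classical
  have hM : ∀ a b : Fin 3, M (![s, t, u] a) (![s, t, u] b) = m a b := by
    intro a b
    fin_cases a <;> fin_cases b <;>
      simp [m0, m1, m2, hmd, M.symmetric t s, M.symmetric u t, M.symmetric u s, hms 1 0, hms 2 1,
        hms 2 0]
  obtain ⟨e, he⟩ : ∃ e : S → Fin 3, ∀ a, ![s, t, u] (e a) = a := by
    refine ⟨fun a => if a = s then 0 else if a = t then 1 else 2, fun a => ?_⟩
    rcases hS a with rfl | rfl | rfl
    · simp
    · simp [hst.symm]
    · simp [hsu.symm, htu.symm]
  have he' : ∀ a : Fin 3, e (![s, t, u] a) = a := by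
    intro a
    have h1 := he (![s, t, u] a)
    have hi : Function.Injective (![s, t, u] : Fin 3 → S) := by
      intro a b hab
      fin_cases a <;> fin_cases b <;> simp_all
    exact hi h1
  have key : ∀ a b : S, M a b ≠ 0 → alt (x (e a)) (x (e b)) (M a b) =
      alt (x (e b)) (x (e a)) (M a b) := by
    intro a b _
    rw [← he a, ← he b, hM, he', he']
    exact hx _ _
  obtain ⟨f, hf⟩ := hθ (fun a => (PresentedGroup.of (![s, t, u] a) : ArtinGroup M)) (by
    intro a b
    by_cases h0 : m a b = 0
    · rw [h0]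
      rfl
    · have := artin_braid M (![s, t, u] a) (![s, t, u] b) (by rwa [hM])
      rwa [hM] at this)
  refine hC.inj (artinLift M (fun a => x (e a)) key) ?_ h
  have hcomp : (f.comp (artinLift M (fun a => x (e a)) key)) = MonoidHom.id _ := by
    refine PresentedGroup.ext fun a => ?_
    rw [MonoidHom.comp_apply, artinLift_of, hf, he]
    rfl
  intro a b hab
  have h1 := congrArg f hab
  have h2 := fun z => DFunLike.congr_fun hcomp z
  simp only [MonoidHom.comp_apply, MonoidHom.id_apply] at h2
  rwa [h2, h2] at h1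

end Pool.Agent.BR3
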