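import Pool.Agent.BR3.Low54

/-!
# MP_5de915_nt, the lower half: choice of the parameters (helper64)
-/

set_option autoImplicit false
set_option maxHeartbeats 2000000

namespace Pool.Agent.BR3.LowFin64

open Finset Pool.Agent.BR3 Pool.Agent.BR3.Low54

/-- one class modulo four -/
lemma cls {U α s β z κ N : ℕ} (hz : 2 ≤ z) {m0 Q η : ℝ} (hm0 : 0 < m0)
    (hμ : m0 ≤ ∑ i ∈ E U (U ^ 10) α s β z, (1 : ℝ) / mo s i)
    (h1 : ∑ i ∈ E U (U ^ 10) α s β z, ∑ j ∈ (E U (U ^ 10) α s β z).filter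
        (fun j => j.1 ≠ i.1 ∧ 1 < Nat.gcd (mo s i) (mo s j) ∧
          2 * i.2.1 * i.1.2 ≡ 2 * j.2.1 * j.1.2 [MOD Nat.gcd (mo s i) (mo s j)]),
        ((Nat.gcd (mo s i) (mo s j) : ℕ) : ℝ) / ((mo s i : ℝ) * mo s j) +
      ∑ i ∈ E U (U ^ 10) α s β z, ∑ j ∈ (E U (U ^ 10) α s β z).filter (fun j => j.1 = i.1),
        ((Nat.gcd (mo s i) (mo s j) : ℕ) : ℝ) / ((mo s i : ℝ) * mo s j) ≤ Q)
    (hQ : 4 * Q ≤ η * m0 ^ 2) (hU : 12 * (U : ℝ) ^ 48 ≤ η * N * m0 ^ 2) :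
    (((Ioc 0 N).filter (fun k => ((((E U (U ^ 10) α s β z).filter
      (fun i => mo s i ∣ 4 * k + κ + 2 * i.2.1 * i.1.2)).card : ℕ) : ℝ) < m0 / 2)).card : ℝ) ≤
      2 * η * N := by
  classical
  obtain ⟨μ, hμd⟩ : ∃ μ, μ = ∑ i ∈ E U (U ^ 10) α s β z, (1 : ℝ) / mo s i := ⟨_, rfl⟩
  rw [← hμd] at hμ
  have hμ0 : 0 < μ := hm0.trans_le hμ
  have h2 := cheb U (U ^ 10) α s β z κ N hz μ Q hμd hμ0 h1
  have h3 : (((Ioc 0 N).filter (fun k => ((((E U (U ^ 10) α s β z).filter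
      (fun i => mo s i ∣ 4 * k + κ + 2 * i.2.1 * i.1.2)).card : ℕ) : ℝ) < m0 / 2)).card : ℝ) ≤
      (((Ioc 0 N).filter (fun k => ((((E U (U ^ 10) α s β z).filter
      (fun i => mo s i ∣ 4 * k + κ + 2 * i.2.1 * i.1.2)).card : ℕ) : ℝ) < μ / 2)).card : ℝ) := by
    have : ((Ioc 0 N).filter (fun k => ((((E U (U ^ 10) α s β z).filter
      (fun i => mo s i ∣ 4 * k + κ + 2 * i.2.1 * i.1.2)).card : ℕ) : ℝ) < m0 / 2)).card ≤
      ((Ioc 0 N).filter (fun k => ((((E U (U ^ 10) α s β z).filter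
      (fun i => mo s i ∣ 4 * k + κ + 2 * i.2.1 * i.1.2)).card : ℕ) : ℝ) < μ / 2)).card := by
      apply card_le_card
      intro k hk
      rw [mem_filter] at hk ⊢
      exact ⟨hk.1, by linarith [hk.2]⟩
    exact_mod_cast this
  set c1 : ℝ := (((Ioc 0 N).filter (fun k => ((((E U (U ^ 10) α s β z).filter
      (fun i => mo s i ∣ 4 * k + κ + 2 * i.2.1 * i.1.2)).card : ℕ) : ℝ) < m0 / 2)).card : ℝ) with hc1
  set c2 : ℝ := (((Ioc 0 N).filter (fun k => ((((E U (U ^ 10) α s β z).filter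
      (fun i => mo s i ∣ 4 * k + κ + 2 * i.2.1 * i.1.2)).card : ℕ) : ℝ) < μ / 2)).card : ℝ) with hc2
  have hc10 : 0 ≤ c1 := by positivity
  have h4 : ((E U (U ^ 10) α s β z).card : ℝ) ^ 2 ≤ (U : ℝ) ^ 48 := by
    have h5 := card_E U (U ^ 10) α s β z
    have h6 : ((E U (U ^ 10) α s β z).card : ℝ) ≤ (U : ℝ) ^ 24 := by
      have h7 : (((E U (U ^ 10) α s β z).card : ℕ) : ℝ) ≤ ((U ^ 4 * (U ^ 10) ^ 2 : ℕ) : ℝ) := by
        exact_mod_cast h5
      refine h7.trans (le_of_eq ?_)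
      push_cast; ring
    calc ((E U (U ^ 10) α s β z).card : ℝ) ^ 2 ≤ ((U : ℝ) ^ 24) ^ 2 :=
          pow_le_pow_left₀ (by positivity) h6 2
      _ = (U : ℝ) ^ 48 := by ring
  have h5 : c1 * (m0 / 2) ^ 2 ≤ c2 * (μ / 2) ^ 2 := by
    apply mul_le_mul h3 _ (by positivity) (by positivity)
    apply pow_le_pow_left₀ (by positivity)
    linarith
  have h6 : c1 * m0 ^ 2 ≤ (2 * η * N) * m0 ^ 2 := by
    have hN : (0 : ℝ) ≤ N := Nat.cast_nonneg N
    have h7 := mul_le_mul_of_nonneg_left hQ hN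
    nlinarith [h2, h5, h4, hU, h7]
  exact le_of_mul_le_mul_right h6 (by positivity)

lemma root (N : ℕ) : ∃ U : ℕ, U ^ 60 ≤ N ∧ N < (U + 1) ^ 60 := by
  classical
  have h : ∃ U : ℕ, N < (U + 1) ^ 60 := ⟨N, by
    have : N + 1 ≤ (N + 1) ^ 60 := Nat.le_self_pow (by norm_num) _
    omega⟩
  refine ⟨Nat.find h, ?_, Nat.find_spec h⟩
  rcases Nat.eq_zero_or_pos (Nat.find h) with h0 | h0
  · rw [h0]; simp
  · have h1 := Nat.find_min h (m := Nat.find h - 1) (by omega)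
    rw [show Nat.find h - 1 + 1 = Nat.find h by omega] at h1
    omega

lemma logroot {N U : ℕ} (hU : 3 ≤ U) (h1 : (U : ℝ) ^ 60 ≤ N) (h2 : (N : ℝ) ≤ ((U : ℝ) + 1) ^ 60) :
    Real.log N ≤ 120 * Real.log U := by
  have hUr : (3 : ℝ) ≤ U := by exact_mod_cast hU
  have hUr0 : (0 : ℝ) < U := lt_of_lt_of_le (by norm_num) hUr
  have hN0 : (0 : ℝ) < N := lt_of_lt_of_le (pow_pos hUr0 60) h1
  have h3 := Real.log_le_log hN0 h2
  rw [Real.log_pow] at h3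
  have h4 : (U : ℝ) + 1 ≤ (U : ℝ) ^ 2 := by
    clear h1 h2 h3
    nlinarith
  have h5 := Real.log_le_log (show (0 : ℝ) < (U : ℝ) + 1 from add_pos hUr0 one_pos) h4
  rw [Real.log_pow] at h5
  clear h1 h2
  calc Real.log N ≤ ((60 : ℕ) : ℝ) * Real.log ((U : ℝ) + 1) := h3
    _ ≤ ((60 : ℕ) : ℝ) * (((2 : ℕ) : ℝ) * Real.log U) := mul_le_mul_of_nonneg_left h5 (by positivity)
    _ = 120 * Real.log U := by push_cast; ring

lemma root2 {U₂ N : ℕ} (h : (U₂ + 4) ^ 60 ≤ N) :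
    ∃ U : ℕ, U₂ ≤ U ∧ (U : ℝ) ^ 60 ≤ N ∧ Real.log N ≤ 120 * Real.log U := by
  obtain ⟨U, h1, h2⟩ := root N
  have h3 : U₂ + 3 ≤ U := by
    by_contra hcon
    have h4 : (U + 1) ^ 60 ≤ (U₂ + 4) ^ 60 := Nat.pow_le_pow_left (by clear h h1 h2; omega) 60
    exact absurd (lt_of_lt_of_le h2 h4) (not_lt.2 h)
  have h5 : (U : ℝ) ^ 60 ≤ N := by
    have h6 : ((U ^ 60 : ℕ) : ℝ) ≤ N := (Nat.cast_le (α := ℝ)).2 h1
    rw [Nat.cast_pow] at h6
    exact h6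
  have h7 : (N : ℝ) ≤ ((U : ℝ) + 1) ^ 60 := by
    have h6 : (N : ℝ) ≤ (((U + 1) ^ 60 : ℕ) : ℝ) := (Nat.cast_le (α := ℝ)).2 h2.le
    rw [Nat.cast_pow, Nat.cast_add, Nat.cast_one] at h6
    exact h6
  refine ⟨U, ?_, h5, logroot ?_ h5 h7⟩
  · clear h h1 h2 h5 h7; omega
  · clear h h1 h2 h5 h7; omega

/-- the parity type of a class modulo four -/
def par (κ : ℕ) : ℕ × ℕ × ℕ := if κ % 2 = 1 then (1, 0, 0) else if κ = 0 then (2, 1, 1) else (2, 1, 0)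

lemma par_ty (κ : ℕ) : Ty (par κ).1 (par κ).2.1 := by
  unfold par Ty
  split_ifs <;> simp

theorem rowLow : RowLow := by
  classical
  rintro ⟨cT, U₀, hcT, hT⟩ ⟨cS, K, hcS, -, hK1, hS⟩ ⟨C1, hC1, hV1⟩ ⟨C0, hC0, hV0⟩ hF ε hε
  obtain ⟨η, hη⟩ : ∃ η : ℝ, η = ε / 16 := ⟨_, rfl⟩
  have hη0 : 0 < η := by rw [hη]; positivity
  obtain ⟨c2, hc2⟩ : ∃ c2 : ℝ, c2 = cT * cS / 4 * 10 := ⟨_, rfl⟩
  have hc20 : 0 < c2 := by rw [hc2]; positivity
  -- choice of z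
  obtain ⟨z, hz3, hzb⟩ : ∃ z : ℕ, 3 ≤ z ∧ 100 * C1 * (4 * Real.log z ^ 6 / c2 ^ 2) / z ≤ η / 3 := by
    have h1 := (Asymptotics.isLittleO_iff.1 (Real.isLittleO_pow_log_id_atTop (n := 6)))
      (show (0 : ℝ) < η / 3 * c2 ^ 2 / (400 * C1) by positivity)
    have h2 := tendsto_natCast_atTop_atTop (R := ℝ) |>.eventually h1
    obtain ⟨z, hz, hz'⟩ := (h2.and (Filter.eventually_ge_atTop 3)).exists
    refine ⟨z, hz', ?_⟩
    have hzp : (0 : ℝ) < z := by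
      have : 0 < z := by omega
      exact_mod_cast this
    rw [Real.norm_eq_abs, Real.norm_eq_abs, id, abs_of_pos hzp] at hz
    have h3 := (le_abs_self _).trans hz
    rw [div_le_iff₀ hzp]
    have h4 : 100 * C1 * (4 * Real.log z ^ 6 / c2 ^ 2) = 400 * C1 / c2 ^ 2 * Real.log z ^ 6 := by ring
    rw [h4]
    calc 400 * C1 / c2 ^ 2 * Real.log z ^ 6 ≤ 400 * C1 / c2 ^ 2 * (η / 3 * c2 ^ 2 / (400 * C1) * z) :=
          mul_le_mul_of_nonneg_left h3 (by positivity)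
      _ = η / 3 * z := by field_simp
  obtain ⟨ℓ, hℓ⟩ : ∃ ℓ : ℝ, ℓ = Real.log z := ⟨_, rfl⟩
  have hℓ0 : 0 < ℓ := by
    rw [hℓ]
    apply Real.log_pos
    have : (3 : ℝ) ≤ z := by exact_mod_cast hz3
    linarith
  obtain ⟨A, hA⟩ : ∃ A : ℝ, A = 4 * ℓ ^ 6 / c2 ^ 2 := ⟨_, rfl⟩
  have hA0 : 0 < A := by rw [hA]; positivity
  rw [← hℓ, ← hA] at hzb
  -- choice of δ
  refine ⟨c2 / ℓ ^ 3 / 2 / 120 ^ 3, by positivity, ?_⟩
  -- large U
  have hlog : Filter.Tendsto (fun U : ℕ => Real.log (U : ℝ)) Filter.atTop Filter.atTop :=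
    Real.tendsto_log_atTop.comp tendsto_natCast_atTop_atTop
  have hUev : ∀ᶠ U : ℕ in Filter.atTop, U₀ ≤ U ∧ 3 ≤ U ∧ 1 ≤ Real.log (U : ℝ) ∧ K * ℓ ^ 2 ≤ Real.log (U : ℝ) ∧
      ℓ ^ 3 / c2 ≤ Real.log (U : ℝ) ∧ 1010 * C0 * A / (η / 3) ≤ Real.log (U : ℝ) ∧
      200 * C1 * A / (η / 3) ≤ (U : ℝ) ∧ 12 / η ≤ (U : ℝ) ∧ 48 / ε ≤ (U : ℝ) := by
    have hc : Filter.Tendsto (fun U : ℕ => (U : ℝ)) Filter.atTop Filter.atTop := tendsto_natCast_atTop_atTop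
    filter_upwards [Filter.eventually_ge_atTop U₀, Filter.eventually_ge_atTop 3,
      hlog.eventually_ge_atTop 1, hlog.eventually_ge_atTop (K * ℓ ^ 2),
      hlog.eventually_ge_atTop (ℓ ^ 3 / c2), hlog.eventually_ge_atTop (1010 * C0 * A / (η / 3)),
      hc.eventually_ge_atTop (200 * C1 * A / (η / 3)), hc.eventually_ge_atTop (12 / η),
      hc.eventually_ge_atTop (48 / ε)] with U a1 a2 a3 a4 a5 a6 a7 a8 a9
    exact ⟨a1, a2, a3, a4, a5, a6, a7, a8, a9⟩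
  obtain ⟨U₂, hU₂⟩ := Filter.eventually_atTop.1 hUev
  refine ⟨(U₂ + 4) ^ 60, fun N hN => ?_⟩
  obtain ⟨U, hUU, hNr, hlN'⟩ := root2 hN
  clear hN
  obtain ⟨b1, b2, b3, b4, b5, b6, b7, b8, b9⟩ := hU₂ U hUU
  obtain ⟨L, hL⟩ : ∃ L : ℝ, L = Real.log (U : ℝ) := ⟨_, rfl⟩
  rw [← hL] at b3 b4 b5 b6
  have hL0 : 0 < L := by linarith
  have hUr : (3 : ℝ) ≤ U := by exact_mod_cast b2
  have hUr0 : (0 : ℝ) < U := by linarith
  have hlV : Real.log ((U ^ 10 : ℕ) : ℝ) = 10 * L := by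
    push_cast
    rw [Real.log_pow, hL]; norm_num
  have hlN : Real.log N ≤ 120 * L := by rw [hL]; exact hlN'
  have hlN0 : 0 ≤ Real.log N := Real.log_natCast_nonneg N
  obtain ⟨m0, hm0⟩ : ∃ m0 : ℝ, m0 = c2 / ℓ ^ 3 * L ^ 3 := ⟨_, rfl⟩
  have hm0p : 0 < m0 := by rw [hm0]; positivity
  have hL3 : L ≤ L ^ 3 := by nlinarith [mul_pos hL0 hL0]
  have hm01 : 1 ≤ m0 := by
    rw [hm0]
    have h1 : 1 ≤ c2 / ℓ ^ 3 * L := by
      rw [div_mul_eq_mul_div, le_div_iff₀ (by positivity)]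
      rw [div_le_iff₀ hc20] at b5
      linarith
    calc (1 : ℝ) ≤ c2 / ℓ ^ 3 * L := h1
      _ ≤ c2 / ℓ ^ 3 * L ^ 3 := mul_le_mul_of_nonneg_left hL3 (by positivity)
  obtain ⟨Q, hQ⟩ : ∃ Q : ℝ, Q = C1 * (10 * L) ^ 2 * L ^ 3 * (L / z + (1 + L) / U) +
      C0 * (L ^ 2 * (10 * L) + (10 * L) ^ 3 / U) := ⟨_, rfl⟩
  have hzr : (0 : ℝ) < z := by
    have : 0 < z := by omega
    exact_mod_cast this
  -- 4 Q ≤ η m0²
  have hQ4 : 4 * Q ≤ η * m0 ^ 2 := by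
    have hAQ : A * Q ≤ η * L ^ 6 := by
      have t1 : A * (C1 * (10 * L) ^ 2 * L ^ 3 * (L / z)) ≤ η / 3 * L ^ 6 := by
        have : A * (C1 * (10 * L) ^ 2 * L ^ 3 * (L / z)) = 100 * C1 * A / z * L ^ 6 := by ring
        rw [this]
        exact mul_le_mul_of_nonneg_right hzb (by positivity)
      have t2 : A * (C1 * (10 * L) ^ 2 * L ^ 3 * ((1 + L) / U)) ≤ η / 3 * L ^ 6 := by
        have e1 : A * (C1 * (10 * L) ^ 2 * L ^ 3 * ((1 + L) / U)) = 100 * C1 * A / U * (L ^ 5 * (1 + L)) := by ring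
        rw [e1]
        have e2 : L ^ 5 * (1 + L) ≤ 2 * L ^ 6 := by
          have : L ^ 5 * (1 + L) ≤ L ^ 5 * (L + L) := mul_le_mul_of_nonneg_left (by linarith) (by positivity)
          refine this.trans (le_of_eq (by ring))
        have e3 : 200 * C1 * A / U ≤ η / 3 := by
          rw [div_le_iff₀ hUr0]
          rw [div_le_iff₀ (by positivity)] at b7
          linarith
        calc 100 * C1 * A / U * (L ^ 5 * (1 + L)) ≤ 100 * C1 * A / U * (2 * L ^ 6) :=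
              mul_le_mul_of_nonneg_left e2 (by positivity)
          _ = 200 * C1 * A / U * L ^ 6 := by ring
          _ ≤ η / 3 * L ^ 6 := mul_le_mul_of_nonneg_right e3 (by positivity)
      have t3 : A * (C0 * (L ^ 2 * (10 * L) + (10 * L) ^ 3 / U)) ≤ η / 3 * L ^ 6 := by
        have e1 : (10 * L) ^ 3 / U ≤ 1000 * L ^ 3 := by
          rw [div_le_iff₀ hUr0]
          have : 0 < L ^ 3 := by positivity
          nlinarith
        have e2 : L ^ 2 * (10 * L) + (10 * L) ^ 3 / U ≤ 1010 * L ^ 3 := by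
          have : L ^ 2 * (10 * L) = 10 * L ^ 3 := by ring
          rw [this]; linarith
        have e3 : 1010 * C0 * A ≤ η / 3 * L := by
          rw [div_le_iff₀ (by positivity)] at b6
          linarith
        have e4 : L * L ^ 3 ≤ L ^ 6 := by
          have h5 : (1 : ℝ) ≤ L ^ 2 := one_le_pow₀ b3
          have h6 : L * L ^ 3 * 1 ≤ L * L ^ 3 * L ^ 2 := mul_le_mul_of_nonneg_left h5 (by positivity)
          calc L * L ^ 3 = L * L ^ 3 * 1 := by ring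
            _ ≤ L * L ^ 3 * L ^ 2 := h6
            _ = L ^ 6 := by ring
        calc A * (C0 * (L ^ 2 * (10 * L) + (10 * L) ^ 3 / U)) ≤ A * (C0 * (1010 * L ^ 3)) := by
              apply mul_le_mul_of_nonneg_left _ hA0.le
              exact mul_le_mul_of_nonneg_left e2 hC0.le
          _ = 1010 * C0 * A * L ^ 3 := by ring
          _ ≤ η / 3 * L * L ^ 3 := mul_le_mul_of_nonneg_right e3 (by positivity)
          _ = η / 3 * (L * L ^ 3) := by ring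
          _ ≤ η / 3 * L ^ 6 := mul_le_mul_of_nonneg_left e4 (by positivity)
      have e : A * Q = A * (C1 * (10 * L) ^ 2 * L ^ 3 * (L / z)) + A * (C1 * (10 * L) ^ 2 * L ^ 3 * ((1 + L) / U)) +
          A * (C0 * (L ^ 2 * (10 * L) + (10 * L) ^ 3 / U)) := by rw [hQ]; ring
      rw [e]; linarith
    have h1 : 4 * Q = (c2 / ℓ ^ 3) ^ 2 * (A * Q) := by
      rw [hA]; field_simp
    have h2 : η * m0 ^ 2 = (c2 / ℓ ^ 3) ^ 2 * (η * L ^ 6) := by rw [hm0]; ring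
    rw [h1, h2]
    exact mul_le_mul_of_nonneg_left hAQ (by positivity)
  have hU48 : 12 * (U : ℝ) ^ 48 ≤ η * N * m0 ^ 2 := by
    have h1 : 12 ≤ η * (U : ℝ) ^ 12 := by
      rw [div_le_iff₀ hη0] at b8
      have h2 : (U : ℝ) ≤ (U : ℝ) ^ 12 := by
        calc (U : ℝ) = (U : ℝ) ^ 1 := (pow_one _).symm
          _ ≤ (U : ℝ) ^ 12 := pow_le_pow_right₀ (by linarith) (by norm_num)
      nlinarith
    have h3 : 12 * (U : ℝ) ^ 48 ≤ η * N := by
      calc 12 * (U : ℝ) ^ 48 ≤ η * (U : ℝ) ^ 12 * (U : ℝ) ^ 48 :=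
            mul_le_mul_of_nonneg_right h1 (by positivity)
        _ = η * (U : ℝ) ^ 60 := by ring
        _ ≤ η * N := mul_le_mul_of_nonneg_left hNr hη0.le
    have h4 : (1 : ℝ) ≤ m0 ^ 2 := one_le_pow₀ hm01
    have h5 : 0 ≤ η * N := by positivity
    nlinarith
  have hcls : ∀ κ : ℕ, (((Ioc 0 N).filter (fun k => ((((E U (U ^ 10) (par κ).2.1 (par κ).1 (par κ).2.2 z).filter
      (fun i => mo (par κ).1 i ∣ 4 * k + κ + 2 * i.2.1 * i.1.2)).card : ℕ) : ℝ) < m0 / 2)).card : ℝ) ≤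
      2 * η * N := by
    intro κ
    have hty := par_ty κ
    have hV3 : 3 ≤ U ^ 10 := by
      calc 3 ≤ U := b2
        _ ≤ U ^ 10 := Nat.le_self_pow (by norm_num) U
    have g1 := mu_low (V := U ^ 10) (β := (par κ).2.2) hcS hT hS hty b1 hz3 hV3 (by
      rw [hlV, ← hℓ]; linarith)
    have g2 := hV1 U (U ^ 10) (par κ).2.1 (par κ).1 (par κ).2.2 z hty (by omega) le_rfl (by omega)
    have g3 := hV0 U (U ^ 10) (par κ).2.1 (par κ).1 (par κ).2.2 z hty (by omega) le_rfl (by omega)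
    rw [hlV, ← hL] at g2 g3
    rw [hlV, ← hL, ← hℓ] at g1
    refine cls (by omega : 2 ≤ z) hm0p ?_ ?_ hQ4 hU48
    · refine le_trans (le_of_eq ?_) g1
      rw [hm0, hc2]; ring
    · rw [hQ]
      exact add_le_add g2 g3
  -- the bad set
  have hsub : (Icc 1 N).filter (fun n : ℕ => (Pool.Agent.Helper64.Breadth.c n : ℝ) <
      c2 / ℓ ^ 3 / 2 / 120 ^ 3 * Real.log N ^ 3) ⊆
      Icc 1 (12 * U ^ 24) ∪ (range 4).biUnion (fun κ =>
        ((Ioc 0 N).filter (fun k => ((((E U (U ^ 10) (par κ).2.1 (par κ).1 (par κ).2.2 z).filter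
      (fun i => mo (par κ).1 i ∣ 4 * k + κ + 2 * i.2.1 * i.1.2)).card : ℕ) : ℝ) < m0 / 2)).image
        (fun k => 4 * k + κ)) := by
    intro n hn
    rw [mem_filter, mem_Icc] at hn
    obtain ⟨⟨hn1, hnN⟩, hnc⟩ := hn
    rw [mem_union, mem_Icc, mem_biUnion]
    rcases Nat.lt_or_ge (12 * U ^ 24) n with h | h
    · right
      refine ⟨n % 4, mem_range.2 (Nat.mod_lt _ (by norm_num)), ?_⟩
      rw [mem_image]
      have hU24 : 1 ≤ U ^ 24 := Nat.one_le_pow _ _ (by omega)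
      refine ⟨n / 4, ?_, by omega⟩
      rw [mem_filter, mem_Ioc]
      refine ⟨⟨by omega, by omega⟩, ?_⟩
      have hn4 : 4 * (n / 4) + n % 4 = n := by omega
      rw [hn4]
      have hbound := hF U (U ^ 10) (par (n % 4)).2.1 (par (n % 4)).1 (par (n % 4)).2.2 z n (by omega)
        (Nat.le_self_pow (by norm_num) U) (by omega) (by
          have : 12 * U ^ 4 * (U ^ 10) ^ 2 = 12 * U ^ 24 := by ring
          omega) (by
          unfold par
          have h4 : n % 4 < 4 := Nat.mod_lt _ (by norm_num)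
          have h5 : n % 4 % 2 = n % 2 := by omega
          split_ifs with q1 q2
          · left; simp; omega
          · right; left; simp; omega
          · right; right; simp; omega)
      have hb2 : ((((E U (U ^ 10) (par (n % 4)).2.1 (par (n % 4)).1 (par (n % 4)).2.2 z).filter
          (fun i => mo (par (n % 4)).1 i ∣ n + 2 * i.2.1 * i.1.2)).card : ℕ) : ℝ) ≤
          (Pool.Agent.Helper64.Breadth.c n : ℝ) := by exact_mod_cast hbound
      refine lt_of_le_of_lt hb2 (lt_of_lt_of_le hnc ?_)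
      have h6 : Real.log N ^ 3 ≤ (120 * L) ^ 3 := pow_le_pow_left₀ hlN0 hlN 3
      calc c2 / ℓ ^ 3 / 2 / 120 ^ 3 * Real.log N ^ 3 ≤ c2 / ℓ ^ 3 / 2 / 120 ^ 3 * (120 * L) ^ 3 :=
            mul_le_mul_of_nonneg_left h6 (by positivity)
        _ = m0 / 2 := by rw [hm0]; ring
    · left; exact ⟨hn1, h⟩
  have hcard := card_le_card hsub
  have h1 : ((Icc 1 (12 * U ^ 24) ∪ (range 4).biUnion (fun κ =>
        ((Ioc 0 N).filter (fun k => ((((E U (U ^ 10) (par κ).2.1 (par κ).1 (par κ).2.2 z).filter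
      (fun i => mo (par κ).1 i ∣ 4 * k + κ + 2 * i.2.1 * i.1.2)).card : ℕ) : ℝ) < m0 / 2)).image
        (fun k => 4 * k + κ))).card : ℝ) ≤ 12 * (U : ℝ) ^ 24 + 4 * (2 * η * N) := by
    have h2 : ((Icc 1 (12 * U ^ 24) ∪ (range 4).biUnion (fun κ =>
        ((Ioc 0 N).filter (fun k => ((((E U (U ^ 10) (par κ).2.1 (par κ).1 (par κ).2.2 z).filter
      (fun i => mo (par κ).1 i ∣ 4 * k + κ + 2 * i.2.1 * i.1.2)).card : ℕ) : ℝ) < m0 / 2)).image
        (fun k => 4 * k + κ))).card) ≤ 12 * U ^ 24 + ∑ κ ∈ range 4,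
        ((Ioc 0 N).filter (fun k => ((((E U (U ^ 10) (par κ).2.1 (par κ).1 (par κ).2.2 z).filter
      (fun i => mo (par κ).1 i ∣ 4 * k + κ + 2 * i.2.1 * i.1.2)).card : ℕ) : ℝ) < m0 / 2)).card := by
      refine (card_union_le _ _).trans ?_
      apply add_le_add
      · simp
      · refine card_biUnion_le.trans ?_
        apply sum_le_sum
        intro κ _
        exact card_image_le
    have h3 : (∑ κ ∈ range 4,
        (((Ioc 0 N).filter (fun k => ((((E U (U ^ 10) (par κ).2.1 (par κ).1 (par κ).2.2 z).filter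
      (fun i => mo (par κ).1 i ∣ 4 * k + κ + 2 * i.2.1 * i.1.2)).card : ℕ) : ℝ) < m0 / 2)).card : ℝ)) ≤
        ∑ _κ ∈ range 4, 2 * η * N := sum_le_sum fun κ _ => hcls κ
    rw [sum_const, card_range, nsmul_eq_mul] at h3
    have h4 := (Nat.cast_le (α := ℝ)).2 h2
    push_cast at h4
    push_cast at h3
    linarith
  have h2 := (Nat.cast_le (α := ℝ)).2 hcard
  have h3 : 12 * (U : ℝ) ^ 24 ≤ ε / 4 * N := by
    have h4 : 12 ≤ ε / 4 * (U : ℝ) ^ 36 := by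
      rw [div_le_iff₀ hε] at b9
      have h5 : (U : ℝ) ≤ (U : ℝ) ^ 36 := by
        calc (U : ℝ) = (U : ℝ) ^ 1 := (pow_one _).symm
          _ ≤ (U : ℝ) ^ 36 := pow_le_pow_right₀ (by linarith) (by norm_num)
      nlinarith
    calc 12 * (U : ℝ) ^ 24 ≤ ε / 4 * (U : ℝ) ^ 36 * (U : ℝ) ^ 24 :=
          mul_le_mul_of_nonneg_right h4 (by positivity)
      _ = ε / 4 * (U : ℝ) ^ 60 := by ring
      _ ≤ ε / 4 * N := mul_le_mul_of_nonneg_left hNr (by positivity)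
  have h5 : 4 * (2 * η * N) = ε / 2 * N := by rw [hη]; ring
  have hN0 : (0 : ℝ) ≤ N := Nat.cast_nonneg N
  have h6 : 0 ≤ ε * N := by positivity
  refine h2.trans (h1.trans ?_)
  rw [h5]
  linarith

end Pool.Agent.BR3.LowFin64
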