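import Pool.Agent.BR3.Comp46
import Pool.Agent.BR3.LowFin64

/-!
# MP_5de915_nt: the order of `c n` for almost all `n`
-/

set_option autoImplicit false

namespace Pool.Agent.BR3.Final64

theorem final : Main := Comp46.main_of_low LowFin64.rowLow

end Pool.Agent.BR3.Final64
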