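import Pool.Agent.BR3.Stmts
import Pool.Agent.SPA.D3

/-!
# MP_5de915_nt, the lower half from the rows (helper54)
-/

set_option autoImplicit false
set_option maxHeartbeats 2000000

namespace Pool.Agent.BR3.Low54

open Finset Pool.Agent.BR3

lemma odd_of {z m : ℕ} (hz : 2 ≤ z) (h : z < m.minFac) : m % 2 = 1 ∧ 3 ≤ m := by
  have h2 : ¬ 2 ∣ m := fun h2 => by
    have := Nat.minFac_le_of_dvd le_rfl h2
    omega
  have hm1 : m ≠ 1 := by
    rintro rfl
    simp at h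
    omega
  omega

lemma four {m : ℕ} (hm : m % 2 = 1) (q : ℕ) : 4 * (q * ((m + 1) / 2) ^ 2) = q + m * (q * (m + 2)) := by
  obtain ⟨h, hh⟩ : ∃ h, m = 2 * h + 1 := ⟨m / 2, by omega⟩
  have h1 : (m + 1) / 2 = h + 1 := by omega
  rw [h1, hh]; ring

lemma dvd_iff_four {m : ℕ} (hm : m % 2 = 1) (k q : ℕ) : m ∣ k + q * ((m + 1) / 2) ^ 2 ↔ m ∣ 4 * k + q := by
  have h1 : 4 * (k + q * ((m + 1) / 2) ^ 2) = 4 * k + q + m * (q * (m + 2)) := by
    rw [mul_add, four hm]; ring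
  have hc : Nat.Coprime m 4 := by
    have : Nat.Coprime m (2 ^ 2) := Nat.Coprime.pow_right 2
      ((Nat.coprime_two_right).2 (Nat.odd_iff.2 hm))
    exact this
  constructor
  · intro h
    have h2 : m ∣ 4 * k + q + m * (q * (m + 2)) := by rw [← h1]; exact Dvd.dvd.mul_left h 4
    exact (Nat.dvd_add_left (Dvd.intro _ rfl)).1 h2
  · intro h
    have h2 : m ∣ 4 * (k + q * ((m + 1) / 2) ^ 2) := by
      rw [h1]; exact dvd_add h (Dvd.intro _ rfl)
    exact hc.dvd_of_dvd_mul_left h2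

lemma compat {m m' g q q' κ : ℕ} (hm : m % 2 = 1) (hm' : m' % 2 = 1) (hg : g ∣ m) (hg' : g ∣ m')
    (h : (κ + q) * ((m + 1) / 2) ^ 2 ≡ (κ + q') * ((m' + 1) / 2) ^ 2 [MOD g]) : q ≡ q' [MOD g] := by
  have h1 := Nat.ModEq.mul_left 4 h
  rw [four hm, four hm'] at h1
  have e : ∀ a b c : ℕ, g ∣ b → a + b * c ≡ a [MOD g] := by
    intro a b c hb
    have := Nat.ModEq.add_left a ((Nat.modEq_zero_iff_dvd).2 (Dvd.dvd.mul_right hb c))
    simpa using this
  have h2 : κ + q ≡ κ + q' [MOD g] := ((e _ _ _ hg).symm.trans h1).trans (e _ _ _ hg')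
  exact Nat.ModEq.add_left_cancel' κ h2

/-- Chebyshev for one class modulo four -/
lemma cheb (U V α s β z κ x : ℕ) (hz : 2 ≤ z) (μ Q : ℝ) (hμ : μ = ∑ i ∈ E U V α s β z, (1 : ℝ) / mo s i)
    (hμ0 : 0 < μ)
    (h1 : ∑ i ∈ E U V α s β z, ∑ j ∈ (E U V α s β z).filter
        (fun j => j.1 ≠ i.1 ∧ 1 < Nat.gcd (mo s i) (mo s j) ∧
          2 * i.2.1 * i.1.2 ≡ 2 * j.2.1 * j.1.2 [MOD Nat.gcd (mo s i) (mo s j)]),
        ((Nat.gcd (mo s i) (mo s j) : ℕ) : ℝ) / ((mo s i : ℝ) * mo s j) +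
      ∑ i ∈ E U V α s β z, ∑ j ∈ (E U V α s β z).filter (fun j => j.1 = i.1),
        ((Nat.gcd (mo s i) (mo s j) : ℕ) : ℝ) / ((mo s i : ℝ) * mo s j) ≤ Q) :
    (((Ioc 0 x).filter (fun k => ((((E U V α s β z).filter
      (fun i => mo s i ∣ 4 * k + κ + 2 * i.2.1 * i.1.2)).card : ℕ) : ℝ) < μ / 2)).card : ℝ) * (μ / 2) ^ 2 ≤
      x * Q + 3 * ((E U V α s β z).card : ℝ) ^ 2 := by
  classical
  obtain ⟨EE, hEE⟩ : ∃ EE, EE = E U V α s β z := ⟨_, rfl⟩
  rw [← hEE] at hμ h1 ⊢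
  have hodd : ∀ i ∈ EE, mo s i % 2 = 1 ∧ 3 ≤ mo s i := by
    intro i hi
    rw [hEE, E, mem_filter] at hi
    exact odd_of hz hi.2.2
  have hD := Pool.Agent.SPA.D3.d EE (mo s)
    (fun i => (κ + 2 * i.2.1 * i.1.2) * ((mo s i + 1) / 2) ^ 2) x
    (fun i hi => by have := (hodd i hi).2; omega)
  rw [← hμ] at hD
  have hcard : ∀ k, (EE.filter (fun i => mo s i ∣ k + (κ + 2 * i.2.1 * i.1.2) * ((mo s i + 1) / 2) ^ 2)) =
      EE.filter (fun i => mo s i ∣ 4 * k + κ + 2 * i.2.1 * i.1.2) := by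
    intro k
    apply filter_congr
    intro i hi
    rw [dvd_iff_four (hodd i hi).1, add_assoc]
  simp only [hcard] at hD
  have hQ : ∑ i ∈ EE, ∑ j ∈ EE.filter (fun j => 1 < Nat.gcd (mo s i) (mo s j) ∧
      (κ + 2 * i.2.1 * i.1.2) * ((mo s i + 1) / 2) ^ 2 ≡ (κ + 2 * j.2.1 * j.1.2) * ((mo s j + 1) / 2) ^ 2
        [MOD Nat.gcd (mo s i) (mo s j)]),
        ((Nat.gcd (mo s i) (mo s j) : ℕ) : ℝ) / ((mo s i : ℝ) * mo s j) ≤ Q := by
    refine le_trans ?_ h1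
    rw [← sum_add_distrib]
    apply sum_le_sum
    intro i hi
    have hnn : ∀ j, 0 ≤ ((Nat.gcd (mo s i) (mo s j) : ℕ) : ℝ) / ((mo s i : ℝ) * mo s j) := fun j => by positivity
    rw [← sum_filter_add_sum_filter_not (EE.filter (fun j => 1 < Nat.gcd (mo s i) (mo s j) ∧
      (κ + 2 * i.2.1 * i.1.2) * ((mo s i + 1) / 2) ^ 2 ≡ (κ + 2 * j.2.1 * j.1.2) * ((mo s j + 1) / 2) ^ 2
        [MOD Nat.gcd (mo s i) (mo s j)])) (fun j => j.1 ≠ i.1)]
    apply add_le_add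
    · apply sum_le_sum_of_subset_of_nonneg
      · intro j hj
        rw [mem_filter, mem_filter] at hj
        rw [mem_filter]
        exact ⟨hj.1.1, hj.2, hj.1.2.1, compat (hodd i hi).1 (hodd j hj.1.1).1 (Nat.gcd_dvd_left _ _)
          (Nat.gcd_dvd_right _ _) hj.1.2.2⟩
      · intro j _ _; exact hnn j
    · apply sum_le_sum_of_subset_of_nonneg
      · intro j hj
        rw [mem_filter, mem_filter] at hj
        rw [mem_filter]
        exact ⟨hj.1.1, not_not.1 hj.2⟩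
      · intro j _ _; exact hnn j
  have hx0 : (0 : ℝ) ≤ x := Nat.cast_nonneg x
  have hb : x * Q + 3 * (EE.card : ℝ) ^ 2 ≥
      ∑ k ∈ Ioc 0 x, ((((EE.filter (fun i => mo s i ∣ 4 * k + κ + 2 * i.2.1 * i.1.2)).card : ℕ) : ℝ) - μ) ^ 2 := by
    refine le_trans hD ?_
    have := mul_le_mul_of_nonneg_left hQ hx0
    linarith
  refine le_trans ?_ hb
  rw [← nsmul_eq_mul, ← sum_const]
  calc ∑ _k ∈ (Ioc 0 x).filter (fun k => ((((EE).filter
      (fun i => mo s i ∣ 4 * k + κ + 2 * i.2.1 * i.1.2)).card : ℕ) : ℝ) < μ / 2), (μ / 2) ^ 2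
      ≤ ∑ k ∈ (Ioc 0 x).filter (fun k => ((((EE).filter
      (fun i => mo s i ∣ 4 * k + κ + 2 * i.2.1 * i.1.2)).card : ℕ) : ℝ) < μ / 2),
        ((((EE.filter (fun i => mo s i ∣ 4 * k + κ + 2 * i.2.1 * i.1.2)).card : ℕ) : ℝ) - μ) ^ 2 := by
        apply sum_le_sum
        intro k hk
        have h2 := (mem_filter.1 hk).2
        nlinarith
    _ ≤ _ := by
        apply sum_le_sum_of_subset_of_nonneg (filter_subset _ _)
        intro k _ _; positivity

lemma card_E (U V α s β z : ℕ) : (E U V α s β z).card ≤ U ^ 4 * V ^ 2 := by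
  unfold E
  refine (card_filter_le _ _).trans ?_
  rw [card_product, card_product, card_singleton, mul_one, Nat.card_Ioc]
  apply Nat.mul_le_mul
  · unfold T
    refine (card_filter_le _ _).trans ?_
    rw [card_product, Nat.card_Ioc]
    calc (U ^ 2 - U) * (U ^ 2 - U) ≤ U ^ 2 * U ^ 2 := Nat.mul_le_mul (Nat.sub_le _ _) (Nat.sub_le _ _)
      _ = U ^ 4 := by ring
  · exact Nat.sub_le _ _

/-- the linear form of a pair -/
lemma form {U α s : ℕ} (hs : Ty s α) {p : ℕ × ℕ} (hp : p ∈ T U α) :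
    2 ∣ 4 * p.1 * p.2 / s ∧ 1 ≤ 4 * p.1 * p.2 / s ∧ (p.1 + p.2) / s ≤ 4 * p.1 * p.2 / s ∧
      Nat.Coprime (4 * p.1 * p.2 / s) ((p.1 + p.2) / s) ∧ 4 * p.1 * p.2 / s ≤ 4 * p.1 * p.2 := by
  rw [T, mem_filter, mem_product, mem_Ioc, mem_Ioc] at hp
  obtain ⟨⟨⟨h1, _⟩, h3, _⟩, h5, h6, h7⟩ := hp
  obtain ⟨a, c⟩ := p
  simp only at *
  have ha : 1 ≤ a := by omega
  have hc : 1 ≤ c := by omega
  have hac : a + c ≤ 2 * (a * c) := by nlinarith
  have hcop : Nat.Coprime (a * c) (a + c) := by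
    apply Nat.Coprime.mul_left
    · exact (Nat.coprime_self_add_right).2 h7
    · exact (Nat.coprime_add_self_right).2 h7.symm
  rcases hs with ⟨rfl, rfl⟩ | ⟨rfl, rfl⟩
  · simp only [Nat.div_one]
    have h8 : a % 4 = 0 := h5
    have h9 : c % 4 = 1 := h6
    refine ⟨⟨2 * a * c, by ring⟩, by nlinarith, by nlinarith, ?_, le_rfl⟩
    have h10 : Nat.Coprime 4 (a + c) := by
      have : Nat.Coprime (2 ^ 2) (a + c) := Nat.Coprime.pow_left 2
        ((Nat.coprime_two_left).2 (Nat.odd_iff.2 (by omega)))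
      exact this
    rw [mul_assoc]
    exact Nat.Coprime.mul_left h10 hcop
  · have h8 : a % 4 = 1 := h5
    have h9 : c % 4 = 1 := h6
    have e1 : 4 * a * c / 2 = 2 * (a * c) := by
      rw [show 4 * a * c = 2 * (2 * (a * c)) by ring, Nat.mul_div_cancel_left _ (by norm_num)]
    rw [e1]
    refine ⟨⟨a * c, rfl⟩, by nlinarith, by omega, ?_, by nlinarith⟩
    have h10 : (a + c) / 2 ∣ a + c := ⟨2, by omega⟩
    have h11 : Nat.Coprime 2 ((a + c) / 2) := (Nat.coprime_two_left).2 (Nat.odd_iff.2 (by omega))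
    exact Nat.Coprime.mul_left h11 (Nat.Coprime.coprime_dvd_right h10 hcop)

/-- the lower bound for the mean -/
lemma mu_low {cT cS K : ℝ} {U₀ : ℕ} (hcS : 0 < cS)
    (hT : ∀ U α : ℕ, U₀ ≤ U → cT * Real.log U ^ 2 ≤ ∑ p ∈ T U α, (1 : ℝ) / ((p.1 : ℝ) * p.2))
    (hS : ∀ A B z V β : ℕ, 2 ∣ A → 1 ≤ A → B ≤ A → Nat.Coprime A B →
      3 ≤ z → 3 ≤ V → K * Real.log z ^ 2 ≤ Real.log V →
      cS / Real.log z ^ 3 * Real.log V ≤
        ∑ b ∈ (Ioc V (V ^ 2)).filter (fun b => b ≡ β [MOD 2] ∧ z < (A * b - B).minFac), (1 : ℝ) / b)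
    {U V α s β z : ℕ} (hs : Ty s α) (hU : U₀ ≤ U) (hz : 3 ≤ z) (hV : 3 ≤ V)
    (hK : K * Real.log z ^ 2 ≤ Real.log V) :
    cT * cS / 4 * (Real.log U ^ 2 * Real.log V / Real.log z ^ 3) ≤ ∑ i ∈ E U V α s β z, (1 : ℝ) / mo s i := by
  classical
  have hlz : 0 < Real.log z := Real.log_pos (by
    have : (3 : ℝ) ≤ z := by exact_mod_cast hz
    linarith)
  have hlV : 0 < Real.log V := Real.log_pos (by
    have : (3 : ℝ) ≤ V := by exact_mod_cast hV
    linarith)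
  have h1 : ∑ i ∈ E U V α s β z, (1 : ℝ) / mo s i = ∑ p ∈ T U α, ∑ b ∈ (Ioc V (V ^ 2)).filter
      (fun b => b ≡ β [MOD 2] ∧ z < ((4 * p.1 * p.2 / s) * b - (p.1 + p.2) / s).minFac),
        (1 : ℝ) / (((4 * p.1 * p.2 / s) * b - (p.1 + p.2) / s : ℕ) : ℝ) := by
    unfold E
    rw [sum_filter, sum_product]
    refine sum_congr rfl fun p _ => ?_
    rw [sum_product, sum_filter]
    refine sum_congr rfl fun b _ => ?_
    rw [sum_singleton]
    rfl
  rw [h1]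
  have h2 : ∀ p ∈ T U α, (1 : ℝ) / ((p.1 : ℝ) * p.2) * (cS / 4 * (Real.log V / Real.log z ^ 3)) ≤
      ∑ b ∈ (Ioc V (V ^ 2)).filter
      (fun b => b ≡ β [MOD 2] ∧ z < ((4 * p.1 * p.2 / s) * b - (p.1 + p.2) / s).minFac),
        (1 : ℝ) / (((4 * p.1 * p.2 / s) * b - (p.1 + p.2) / s : ℕ) : ℝ) := by
    intro p hp
    obtain ⟨f1, f2, f3, f4, f5⟩ := form hs hp
    have hp' := hp
    rw [T, mem_filter, mem_product, mem_Ioc, mem_Ioc] at hp'
    have hp1 : (0 : ℝ) < p.1 := by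
      have : 0 < p.1 := by omega
      exact_mod_cast this
    have hp2 : (0 : ℝ) < p.2 := by
      have : 0 < p.2 := by omega
      exact_mod_cast this
    have h3 := hS _ _ z V β f1 f2 f3 f4 hz hV hK
    calc (1 : ℝ) / ((p.1 : ℝ) * p.2) * (cS / 4 * (Real.log V / Real.log z ^ 3))
        = 1 / (4 * ((p.1 : ℝ) * p.2)) * (cS / Real.log z ^ 3 * Real.log V) := by
          field_simp
      _ ≤ 1 / (4 * ((p.1 : ℝ) * p.2)) * ∑ b ∈ (Ioc V (V ^ 2)).filter
          (fun b => b ≡ β [MOD 2] ∧ z < ((4 * p.1 * p.2 / s) * b - (p.1 + p.2) / s).minFac), (1 : ℝ) / b :=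
          mul_le_mul_of_nonneg_left h3 (by positivity)
      _ ≤ _ := by
          rw [mul_sum]
          apply sum_le_sum
          intro b hb
          rw [mem_filter, mem_Ioc] at hb
          have hm := (odd_of (by omega : 2 ≤ z) hb.2.2).2
          have hb0 : (0 : ℝ) < b := by
            have : 0 < b := by omega
            exact_mod_cast this
          rw [one_div_mul_one_div]
          apply one_div_le_one_div_of_le
          · have : 0 < (4 * p.1 * p.2 / s) * b - (p.1 + p.2) / s := by omega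
            exact_mod_cast this
          · have h5 : (4 * p.1 * p.2 / s) * b - (p.1 + p.2) / s ≤ 4 * p.1 * p.2 * b :=
              (Nat.sub_le _ _).trans (Nat.mul_le_mul_right _ f5)
            have h6 : (((4 * p.1 * p.2 / s) * b - (p.1 + p.2) / s : ℕ) : ℝ) ≤ ((4 * p.1 * p.2 * b : ℕ) : ℝ) := by
              exact_mod_cast h5
            refine h6.trans (le_of_eq ?_)
            push_cast; ring
  refine le_trans ?_ (sum_le_sum h2)
  rw [← sum_mul]
  have h3 := mul_le_mul_of_nonneg_right (hT U α hU)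
    (show 0 ≤ cS / 4 * (Real.log V / Real.log z ^ 3) by positivity)
  refine le_trans (le_of_eq ?_) h3
  ring

end Pool.Agent.BR3.Low54
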