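import Pool.Agent.BR3.LowFin64

/-!
# MP_5de915_nt, the lower half, uniform in `N` and `z`
-/

set_option autoImplicit false
set_option maxHeartbeats 2000000

namespace Pool.Agent.BR3.LowUni34

open Finset Pool.Agent.BR3 Pool.Agent.BR3.Low54 Pool.Agent.BR3.LowFin64

/-- the counting part: all parameters given -/
theorem count {U N z : ℕ} {c2 ℓ L m0 η : ℝ} (hF : RowF) (b2 : 3 ≤ U) (hz3 : 3 ≤ z) (hc20 : 0 < c2) (hℓ0 : 0 < ℓ)
    (hL0 : 0 < L) (hm0 : m0 = c2 / ℓ ^ 3 * L ^ 3) (hlN0 : 0 ≤ Real.log N) (hlN : Real.log N ≤ 120 * L)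
    (hcls : ∀ κ : ℕ, (((Ioc 0 N).filter (fun k => ((((E U (U ^ 10) (par κ).2.1 (par κ).1 (par κ).2.2 z).filter
      (fun i => mo (par κ).1 i ∣ 4 * k + κ + 2 * i.2.1 * i.1.2)).card : ℕ) : ℝ) < m0 / 2)).card : ℝ) ≤
      2 * η * N) :
    (((Icc 1 N).filter (fun n : ℕ => (Pool.Agent.Helper64.Breadth.c n : ℝ) <
      c2 / 2 / 120 ^ 3 * (Real.log N / ℓ) ^ 3)).card : ℝ) ≤ 12 * (U : ℝ) ^ 24 + 8 * η * N := by
  classical
  have hsub : (Icc 1 N).filter (fun n : ℕ => (Pool.Agent.Helper64.Breadth.c n : ℝ) <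
      c2 / 2 / 120 ^ 3 * (Real.log N / ℓ) ^ 3) ⊆
      Icc 1 (12 * U ^ 24) ∪ (range 4).biUnion (fun κ =>
        ((Ioc 0 N).filter (fun k => ((((E U (U ^ 10) (par κ).2.1 (par κ).1 (par κ).2.2 z).filter
      (fun i => mo (par κ).1 i ∣ 4 * k + κ + 2 * i.2.1 * i.1.2)).card : ℕ) : ℝ) < m0 / 2)).image
        (fun k => 4 * k + κ)) := by
    intro n hn
    rw [mem_filter, mem_Icc] at hn
    obtain ⟨⟨hn1, hnN⟩, hnc⟩ := hn
    rw [mem_union, mem_Icc, mem_biUnion]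
    rcases Nat.lt_or_ge (12 * U ^ 24) n with h | h
    · right
      refine ⟨n % 4, mem_range.2 (Nat.mod_lt _ (by norm_num)), ?_⟩
      rw [mem_image]
      have hU24 : 1 ≤ U ^ 24 := Nat.one_le_pow _ _ (by omega)
      refine ⟨n / 4, ?_, by omega⟩
      rw [mem_filter, mem_Ioc]
      refine ⟨⟨by omega, by omega⟩, ?_⟩
      have hn4 : 4 * (n / 4) + n % 4 = n := by omega
      rw [hn4]
      have hbound := hF U (U ^ 10) (par (n % 4)).2.1 (par (n % 4)).1 (par (n % 4)).2.2 z n (by omega)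
        (Nat.le_self_pow (by norm_num) U) (by omega) (by
          have : 12 * U ^ 4 * (U ^ 10) ^ 2 = 12 * U ^ 24 := by ring
          omega) (by
          unfold par
          have h4 : n % 4 < 4 := Nat.mod_lt _ (by norm_num)
          have h5 : n % 4 % 2 = n % 2 := by omega
          split_ifs with q1 q2
          · left; simp; omega
          · right; left; simp; omega
          · right; right; simp; omega)
      have hb2 : ((((E U (U ^ 10) (par (n % 4)).2.1 (par (n % 4)).1 (par (n % 4)).2.2 z).filter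
          (fun i => mo (par (n % 4)).1 i ∣ n + 2 * i.2.1 * i.1.2)).card : ℕ) : ℝ) ≤
          (Pool.Agent.Helper64.Breadth.c n : ℝ) := by exact_mod_cast hbound
      refine lt_of_le_of_lt hb2 (lt_of_lt_of_le hnc ?_)
      have h6 : Real.log N ^ 3 ≤ (120 * L) ^ 3 := pow_le_pow_left₀ hlN0 hlN 3
      calc c2 / 2 / 120 ^ 3 * (Real.log N / ℓ) ^ 3 = c2 / ℓ ^ 3 / 2 / 120 ^ 3 * Real.log N ^ 3 := by
            rw [div_pow]; ring
        _ ≤ c2 / ℓ ^ 3 / 2 / 120 ^ 3 * (120 * L) ^ 3 :=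
            mul_le_mul_of_nonneg_left h6 (by positivity)
        _ = m0 / 2 := by rw [hm0]; ring
    · left; exact ⟨hn1, h⟩
  have hcard := card_le_card hsub
  have h1 : ((Icc 1 (12 * U ^ 24) ∪ (range 4).biUnion (fun κ =>
        ((Ioc 0 N).filter (fun k => ((((E U (U ^ 10) (par κ).2.1 (par κ).1 (par κ).2.2 z).filter
      (fun i => mo (par κ).1 i ∣ 4 * k + κ + 2 * i.2.1 * i.1.2)).card : ℕ) : ℝ) < m0 / 2)).image
        (fun k => 4 * k + κ))).card : ℝ) ≤ 12 * (U : ℝ) ^ 24 + 4 * (2 * η * N) := by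
    have h2 : ((Icc 1 (12 * U ^ 24) ∪ (range 4).biUnion (fun κ =>
        ((Ioc 0 N).filter (fun k => ((((E U (U ^ 10) (par κ).2.1 (par κ).1 (par κ).2.2 z).filter
      (fun i => mo (par κ).1 i ∣ 4 * k + κ + 2 * i.2.1 * i.1.2)).card : ℕ) : ℝ) < m0 / 2)).image
        (fun k => 4 * k + κ))).card) ≤ 12 * U ^ 24 + ∑ κ ∈ range 4,
        ((Ioc 0 N).filter (fun k => ((((E U (U ^ 10) (par κ).2.1 (par κ).1 (par κ).2.2 z).filter
      (fun i => mo (par κ).1 i ∣ 4 * k + κ + 2 * i.2.1 * i.1.2)).card : ℕ) : ℝ) < m0 / 2)).card := by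
      refine (card_union_le _ _).trans ?_
      apply add_le_add
      · simp
      · refine card_biUnion_le.trans ?_
        apply sum_le_sum
        intro κ _
        exact card_image_le
    have h3 : (∑ κ ∈ range 4,
        (((Ioc 0 N).filter (fun k => ((((E U (U ^ 10) (par κ).2.1 (par κ).1 (par κ).2.2 z).filter
      (fun i => mo (par κ).1 i ∣ 4 * k + κ + 2 * i.2.1 * i.1.2)).card : ℕ) : ℝ) < m0 / 2)).card : ℝ)) ≤
        ∑ _κ ∈ range 4, 2 * η * N := sum_le_sum fun κ _ => hcls κ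
    rw [sum_const, card_range, nsmul_eq_mul] at h3
    have h4 := (Nat.cast_le (α := ℝ)).2 h2
    push_cast at h4
    push_cast at h3
    linarith
  have h2 := (Nat.cast_le (α := ℝ)).2 hcard
  linarith

/-- the arithmetic of the error terms -/
theorem arith {c2 ℓ L m0 η Q C1 C0 N U z : ℝ} (hc20 : 0 < c2) (hℓ1 : 1 ≤ ℓ) (hL1 : 1 ≤ L) (hC1 : 0 < C1)
    (hC0 : 0 < C0) (hz0 : 0 < z) (hU3 : 3 ≤ U) (hLU : L ^ 3 ≤ 6 * U) (hNU : U ^ 60 ≤ N)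
    (hm0 : m0 = c2 / ℓ ^ 3 * L ^ 3)
    (hQ : Q = C1 * (10 * L) ^ 2 * L ^ 3 * (L / z + (1 + L) / U) + C0 * (L ^ 2 * (10 * L) + (10 * L) ^ 3 / U))
    (hη : η = 4 * Q / m0 ^ 2 + 12 * U ^ 48 / (N * m0 ^ 2)) :
    12 * U ^ 24 + 8 * η * N ≤ N * ℓ ^ 6 * ((3200 * C1 / c2 ^ 2) / z +
      (72 + (32 * (1200 * C1 + 1010 * C0) + 96) / c2 ^ 2) / L ^ 3) := by
  have hL0 : 0 < L := by linarith
  have hℓ0 : 0 < ℓ := by linarith
  have hU0 : 0 < U := by linarith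
  have hN0 : 0 < N := lt_of_lt_of_le (by positivity) hNU
  have hm2 : m0 ^ 2 = c2 ^ 2 * L ^ 6 / ℓ ^ 6 := by rw [hm0]; field_simp
  have hℓ6 : 1 ≤ ℓ ^ 6 := one_le_pow₀ hℓ1
  have h1U : 1 / U ≤ 6 / L ^ 3 := by
    rw [div_le_div_iff₀ hU0 (by positivity)]
    linarith
  -- Q
  have hQ6 : Q ≤ L ^ 6 * (100 * C1 / z + (1200 * C1 + 1010 * C0) / L ^ 3) := by
    have t1 : C1 * (10 * L) ^ 2 * L ^ 3 * (L / z) = L ^ 6 * (100 * C1 / z) := by ring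
    have t2 : C1 * (10 * L) ^ 2 * L ^ 3 * ((1 + L) / U) ≤ L ^ 6 * (1200 * C1 / L ^ 3) := by
      calc C1 * (10 * L) ^ 2 * L ^ 3 * ((1 + L) / U) = 100 * C1 * L ^ 5 * (1 + L) * (1 / U) := by ring
        _ ≤ 100 * C1 * L ^ 5 * (L + L) * (6 / L ^ 3) := by gcongr
        _ = L ^ 6 * (1200 * C1 / L ^ 3) := by ring
    have t3 : C0 * (L ^ 2 * (10 * L) + (10 * L) ^ 3 / U) ≤ L ^ 6 * (1010 * C0 / L ^ 3) := by
      have e1 : (10 * L) ^ 3 / U ≤ 1000 * L ^ 3 := by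
        rw [div_le_iff₀ hU0]
        have h3 : 0 < L ^ 3 := by positivity
        nlinarith
      calc C0 * (L ^ 2 * (10 * L) + (10 * L) ^ 3 / U) ≤ C0 * (L ^ 2 * (10 * L) + 1000 * L ^ 3) := by gcongr
        _ = L ^ 6 * (1010 * C0 / L ^ 3) := by field_simp; ring
    have e : L ^ 6 * (100 * C1 / z + (1200 * C1 + 1010 * C0) / L ^ 3) =
        L ^ 6 * (100 * C1 / z) + L ^ 6 * (1200 * C1 / L ^ 3) + L ^ 6 * (1010 * C0 / L ^ 3) := by ring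
    rw [e, hQ]
    linarith
  have hA : 8 * (4 * Q / m0 ^ 2) * N ≤ N * ℓ ^ 6 * ((3200 * C1 / c2 ^ 2) / z +
      (32 * (1200 * C1 + 1010 * C0) / c2 ^ 2) / L ^ 3) := by
    have e1 : 8 * (4 * Q / m0 ^ 2) * N = 32 * N * ℓ ^ 6 / (c2 ^ 2 * L ^ 6) * Q := by
      rw [hm2]; field_simp; ring
    rw [e1]
    calc 32 * N * ℓ ^ 6 / (c2 ^ 2 * L ^ 6) * Q
        ≤ 32 * N * ℓ ^ 6 / (c2 ^ 2 * L ^ 6) * (L ^ 6 * (100 * C1 / z + (1200 * C1 + 1010 * C0) / L ^ 3)) :=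
          mul_le_mul_of_nonneg_left hQ6 (by positivity)
      _ = N * ℓ ^ 6 * ((3200 * C1 / c2 ^ 2) / z + (32 * (1200 * C1 + 1010 * C0) / c2 ^ 2) / L ^ 3) := by
          field_simp
          ring
  have hB : 8 * (12 * U ^ 48 / (N * m0 ^ 2)) * N ≤ N * ℓ ^ 6 * ((96 / c2 ^ 2) / L ^ 3) := by
    have e1 : 8 * (12 * U ^ 48 / (N * m0 ^ 2)) * N = 96 * ℓ ^ 6 / (c2 ^ 2 * L ^ 6) * U ^ 48 := by
      rw [hm2]; field_simp; ring
    rw [e1]
    have h3 : U ^ 48 ≤ N := by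
      refine le_trans ?_ hNU
      exact pow_le_pow_right₀ (by linarith) (by norm_num)
    have h4 : L ^ 3 ≤ L ^ 6 := pow_le_pow_right₀ hL1 (by norm_num)
    calc 96 * ℓ ^ 6 / (c2 ^ 2 * L ^ 6) * U ^ 48 ≤ 96 * ℓ ^ 6 / (c2 ^ 2 * L ^ 3) * N := by gcongr
      _ = N * ℓ ^ 6 * ((96 / c2 ^ 2) / L ^ 3) := by field_simp
  have hC : 12 * U ^ 24 ≤ N * ℓ ^ 6 * (72 / L ^ 3) := by
    have h3 : U ^ 25 ≤ N := by
      refine le_trans ?_ hNU
      exact pow_le_pow_right₀ (by linarith) (by norm_num)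
    have h4 : 12 * U ^ 24 = 12 * U ^ 25 * (1 / U) := by field_simp
    calc 12 * U ^ 24 = 12 * U ^ 25 * (1 / U) := h4
      _ ≤ 12 * N * (6 / L ^ 3) := by gcongr
      _ = N * (72 / L ^ 3) := by ring
      _ = N * 1 * (72 / L ^ 3) := by ring
      _ ≤ N * ℓ ^ 6 * (72 / L ^ 3) := by gcongr
  have hsum : 12 * U ^ 24 + 8 * η * N = 12 * U ^ 24 + 8 * (4 * Q / m0 ^ 2) * N +
      8 * (12 * U ^ 48 / (N * m0 ^ 2)) * N := by rw [hη]; ring
  rw [hsum]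
  have e : N * ℓ ^ 6 * ((3200 * C1 / c2 ^ 2) / z + (72 + (32 * (1200 * C1 + 1010 * C0) + 96) / c2 ^ 2) / L ^ 3) =
      N * ℓ ^ 6 * (72 / L ^ 3) + N * ℓ ^ 6 * ((3200 * C1 / c2 ^ 2) / z +
      (32 * (1200 * C1 + 1010 * C0) / c2 ^ 2) / L ^ 3) + N * ℓ ^ 6 * ((96 / c2 ^ 2) / L ^ 3) := by ring
  rw [e]
  linarith

/-- the lower half, uniform -/
theorem lowUni (rT : RowT) (rS : RowS) (rV1 : RowV1) (rV0 : RowV0) (hF : RowF) :
    ∃ d B : ℝ, 0 < d ∧ ∀ N z : ℕ, 2 ≤ N → 3 ≤ z →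
      (((Icc 1 N).filter (fun n : ℕ => (Pool.Agent.Helper64.Breadth.c n : ℝ) <
        d * (Real.log N / Real.log z) ^ 3)).card : ℝ) ≤
        B * N * Real.log z ^ 6 * (1 / z + 1 / Real.log N ^ 3) := by
  classical
  obtain ⟨cT, U₀, hcT, hT⟩ := rT
  obtain ⟨cS, K, hcS, -, hK1, hS⟩ := rS
  obtain ⟨C1, hC1, hV1⟩ := rV1
  obtain ⟨C0, hC0, hV0⟩ := rV0
  obtain ⟨c2, hc2⟩ : ∃ c2 : ℝ, c2 = cT * cS / 4 * 10 := ⟨_, rfl⟩
  have hc20 : 0 < c2 := by rw [hc2]; positivity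
  obtain ⟨B1, hB1⟩ : ∃ B1 : ℝ, B1 = 3200 * C1 / c2 ^ 2 := ⟨_, rfl⟩
  obtain ⟨B2, hB2⟩ : ∃ B2 : ℝ, B2 = 72 + (32 * (1200 * C1 + 1010 * C0) + 96) / c2 ^ 2 := ⟨_, rfl⟩
  have hB10 : 0 ≤ B1 := by rw [hB1]; positivity
  have hB20 : 0 ≤ B2 := by rw [hB2]; positivity
  obtain ⟨W, hW⟩ : ∃ W : ℝ, W = Real.log (((U₀ + 3 + 4) ^ 60 : ℕ) : ℝ) := ⟨_, rfl⟩
  have hW0 : 0 ≤ W := by rw [hW]; exact Real.log_natCast_nonneg _
  have hK0 : 0 < K := by linarith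
  refine ⟨c2 / 2 / 120 ^ 3, B1 + 120 ^ 3 * B2 + W ^ 3 + (12 * K) ^ 3, by positivity, ?_⟩
  intro N z hN hz3
  have hNr : (2 : ℝ) ≤ N := by exact_mod_cast hN
  have hN0 : (0 : ℝ) < N := by linarith
  have hzr : (3 : ℝ) ≤ z := by exact_mod_cast hz3
  have hz0 : (0 : ℝ) < z := by linarith
  obtain ⟨ℓ, hℓ⟩ : ∃ ℓ : ℝ, ℓ = Real.log z := ⟨_, rfl⟩
  have hℓ1 : 1 ≤ ℓ := by
    rw [hℓ, Real.le_log_iff_exp_le hz0]
    have := Real.exp_one_lt_d9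
    linarith
  have hℓ0 : 0 < ℓ := by linarith
  have hℓ6 : 1 ≤ ℓ ^ 6 := one_le_pow₀ hℓ1
  obtain ⟨Λ, hΛ⟩ : ∃ Λ : ℝ, Λ = Real.log N := ⟨_, rfl⟩
  have hΛ0 : 0 < Λ := by rw [hΛ]; exact Real.log_pos (by linarith)
  have htriv : (((Icc 1 N).filter (fun n : ℕ => (Pool.Agent.Helper64.Breadth.c n : ℝ) <
        c2 / 2 / 120 ^ 3 * (Real.log N / Real.log z) ^ 3)).card : ℝ) ≤ N := by
    have h := card_filter_le (Icc 1 N) (fun n : ℕ => (Pool.Agent.Helper64.Breadth.c n : ℝ) <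
        c2 / 2 / 120 ^ 3 * (Real.log N / Real.log z) ^ 3)
    rw [Nat.card_Icc, Nat.add_sub_cancel] at h
    exact_mod_cast h
  rw [← hℓ, ← hΛ] at htriv ⊢
  have hz1 : (0 : ℝ) ≤ 1 / z := by positivity
  have hBnn : 0 ≤ B1 + 120 ^ 3 * B2 := by positivity
  -- a trivial case is enough when one of the constants wins
  have htr : ∀ D : ℝ, 0 ≤ D → D ≤ B1 + 120 ^ 3 * B2 + W ^ 3 + (12 * K) ^ 3 → Λ ^ 3 ≤ D * ℓ ^ 6 →
      (N : ℝ) ≤ (B1 + 120 ^ 3 * B2 + W ^ 3 + (12 * K) ^ 3) * N * ℓ ^ 6 * (1 / z + 1 / Λ ^ 3) := by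
    intro D hD0 hD hDΛ
    have h1 : 1 ≤ D * ℓ ^ 6 * (1 / Λ ^ 3) := by
      rw [mul_one_div, le_div_iff₀ (by positivity)]
      linarith
    calc (N : ℝ) = N * 1 := by ring
      _ ≤ N * (D * ℓ ^ 6 * (1 / Λ ^ 3)) := by gcongr
      _ ≤ N * (D * ℓ ^ 6 * (1 / z + 1 / Λ ^ 3)) := by
          apply mul_le_mul_of_nonneg_left _ hN0.le
          apply mul_le_mul_of_nonneg_left _ (by positivity)
          linarith
      _ = D * (N * ℓ ^ 6 * (1 / z + 1 / Λ ^ 3)) := by ring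
      _ ≤ (B1 + 120 ^ 3 * B2 + W ^ 3 + (12 * K) ^ 3) * (N * ℓ ^ 6 * (1 / z + 1 / Λ ^ 3)) :=
          mul_le_mul_of_nonneg_right hD (by positivity)
      _ = _ := by ring
  rcases Nat.lt_or_ge N ((U₀ + 3 + 4) ^ 60) with hNs | hNl
  · -- small N
    refine htriv.trans (htr (W ^ 3) (by positivity) (by
      have : 0 ≤ (12 * K) ^ 3 := by positivity
      linarith) ?_)
    have h1 : Λ ≤ W := by
      rw [hΛ, hW]
      exact Real.log_le_log hN0 ((Nat.cast_le (α := ℝ)).2 hNs.le)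
    calc Λ ^ 3 ≤ W ^ 3 := pow_le_pow_left₀ hΛ0.le h1 3
      _ = W ^ 3 * 1 := by ring
      _ ≤ W ^ 3 * ℓ ^ 6 := by gcongr
  · obtain ⟨U, hUU, hNr', hlN'⟩ := root2 hNl
    have b1 : U₀ ≤ U := by omega
    have b2 : 3 ≤ U := by omega
    obtain ⟨L, hL⟩ : ∃ L : ℝ, L = Real.log (U : ℝ) := ⟨_, rfl⟩
    have hUr : (3 : ℝ) ≤ U := by exact_mod_cast b2
    have hUr0 : (0 : ℝ) < U := by linarith
    have hL1 : 1 ≤ L := by
      rw [hL, Real.le_log_iff_exp_le hUr0]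
      have := Real.exp_one_lt_d9
      linarith
    have hL0 : 0 < L := by linarith
    rw [← hL, ← hΛ] at hlN'
    rcases le_or_gt (K * ℓ ^ 2) (10 * L) with hKl | hKl
    · -- the main case
      have hlV : Real.log ((U ^ 10 : ℕ) : ℝ) = 10 * L := by
        push_cast
        rw [Real.log_pow, hL]; norm_num
      obtain ⟨m0, hm0⟩ : ∃ m0 : ℝ, m0 = c2 / ℓ ^ 3 * L ^ 3 := ⟨_, rfl⟩
      have hm0p : 0 < m0 := by rw [hm0]; positivity
      obtain ⟨Q, hQ⟩ : ∃ Q : ℝ, Q = C1 * (10 * L) ^ 2 * L ^ 3 * (L / z + (1 + L) / U) +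
        C0 * (L ^ 2 * (10 * L) + (10 * L) ^ 3 / U) := ⟨_, rfl⟩
      obtain ⟨η, hη⟩ : ∃ η : ℝ, η = 4 * Q / m0 ^ 2 + 12 * (U : ℝ) ^ 48 / (N * m0 ^ 2) := ⟨_, rfl⟩
      have hQ0 : 0 ≤ Q := by rw [hQ]; positivity
      have hη1 : η * m0 ^ 2 = 4 * Q + 12 * (U : ℝ) ^ 48 / N := by rw [hη]; field_simp
      have hη2 : η * N * m0 ^ 2 = 4 * Q * N + 12 * (U : ℝ) ^ 48 := by rw [hη]; field_simp
      have hQ4 : 4 * Q ≤ η * m0 ^ 2 := by
        rw [hη1]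
        have : 0 ≤ 12 * (U : ℝ) ^ 48 / N := by positivity
        linarith
      have hU48 : 12 * (U : ℝ) ^ 48 ≤ η * N * m0 ^ 2 := by
        rw [hη2]
        have : 0 ≤ 4 * Q * N := by positivity
        linarith
      have hcls : ∀ κ : ℕ, (((Ioc 0 N).filter (fun k => ((((E U (U ^ 10) (par κ).2.1 (par κ).1 (par κ).2.2 z).filter
          (fun i => mo (par κ).1 i ∣ 4 * k + κ + 2 * i.2.1 * i.1.2)).card : ℕ) : ℝ) < m0 / 2)).card : ℝ) ≤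
          2 * η * N := by
        intro κ
        have hty := par_ty κ
        have hV3 : 3 ≤ U ^ 10 := by
          calc 3 ≤ U := b2
            _ ≤ U ^ 10 := Nat.le_self_pow (by norm_num) U
        have g1 := mu_low (V := U ^ 10) (β := (par κ).2.2) hcS hT hS hty b1 hz3 hV3 (by
          rw [hlV, ← hℓ]; linarith)
        have g2 := hV1 U (U ^ 10) (par κ).2.1 (par κ).1 (par κ).2.2 z hty (by omega) le_rfl (by omega)
        have g3 := hV0 U (U ^ 10) (par κ).2.1 (par κ).1 (par κ).2.2 z hty (by omega) le_rfl (by omega)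
        rw [hlV, ← hL] at g2 g3
        rw [hlV, ← hL, ← hℓ] at g1
        refine cls (by omega : 2 ≤ z) hm0p ?_ ?_ hQ4 hU48
        · refine le_trans (le_of_eq ?_) g1
          rw [hm0, hc2]; ring
        · rw [hQ]
          exact add_le_add g2 g3
      have hlog3 : L ^ 3 ≤ 6 * U := by
        have h := Real.pow_div_factorial_le_exp L hL0.le 3
        rw [hL, Real.exp_log hUr0, ← hL] at h
        have h6 : ((Nat.factorial 3 : ℕ) : ℝ) = 6 := by norm_num [Nat.factorial]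
        rw [h6, div_le_iff₀ (by norm_num)] at h
        linarith
      have hcount := count (U := U) (N := N) (z := z) (η := η) hF b2 hz3 hc20 hℓ0 hL0 hm0
        (by rw [← hΛ]; exact hΛ0.le) (by rw [← hΛ]; exact hlN') hcls
      rw [← hΛ] at hcount
      have har := arith (z := (z : ℝ)) hc20 hℓ1 hL1 hC1 hC0 hz0 hUr hlog3 hNr' hm0 hQ hη
      rw [← hB1, ← hB2] at har
      refine hcount.trans (har.trans ?_)
      have h3 : B2 / L ^ 3 ≤ 120 ^ 3 * B2 / Λ ^ 3 := by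
        rw [div_le_div_iff₀ (by positivity) (by positivity)]
        have h4 : Λ ^ 3 ≤ (120 * L) ^ 3 := pow_le_pow_left₀ hΛ0.le hlN' 3
        calc B2 * Λ ^ 3 ≤ B2 * (120 * L) ^ 3 := mul_le_mul_of_nonneg_left h4 hB20
          _ = 120 ^ 3 * B2 * L ^ 3 := by ring
      have hΛ3 : 0 ≤ 1 / Λ ^ 3 := by positivity
      have h4 : B1 / z + B2 / L ^ 3 ≤ (B1 + 120 ^ 3 * B2 + W ^ 3 + (12 * K) ^ 3) * (1 / z + 1 / Λ ^ 3) := by
        have e1 : (B1 + 120 ^ 3 * B2) * (1 / z + 1 / Λ ^ 3) =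
            B1 / z + 120 ^ 3 * B2 / Λ ^ 3 + (B1 * (1 / Λ ^ 3) + 120 ^ 3 * B2 * (1 / z)) := by ring
        have e2 : 0 ≤ B1 * (1 / Λ ^ 3) + 120 ^ 3 * B2 * (1 / z) := by positivity
        have e3 : 0 ≤ (W ^ 3 + (12 * K) ^ 3) * (1 / z + 1 / Λ ^ 3) := by positivity
        have e4 : (B1 + 120 ^ 3 * B2 + W ^ 3 + (12 * K) ^ 3) * (1 / z + 1 / Λ ^ 3) =
            (B1 + 120 ^ 3 * B2) * (1 / z + 1 / Λ ^ 3) + (W ^ 3 + (12 * K) ^ 3) * (1 / z + 1 / Λ ^ 3) := by ring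
        rw [e4, e1]
        linarith
      calc (N : ℝ) * ℓ ^ 6 * (B1 / z + B2 / L ^ 3)
          ≤ N * ℓ ^ 6 * ((B1 + 120 ^ 3 * B2 + W ^ 3 + (12 * K) ^ 3) * (1 / z + 1 / Λ ^ 3)) :=
            mul_le_mul_of_nonneg_left h4 (by positivity)
        _ = (B1 + 120 ^ 3 * B2 + W ^ 3 + (12 * K) ^ 3) * N * ℓ ^ 6 * (1 / z + 1 / Λ ^ 3) := by ring
    · -- z large
      refine htriv.trans (htr ((12 * K) ^ 3) (by positivity) (by
        have : 0 ≤ W ^ 3 := by positivity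
        linarith) ?_)
      have h1 : Λ ≤ 12 * K * ℓ ^ 2 := by linarith
      calc Λ ^ 3 ≤ (12 * K * ℓ ^ 2) ^ 3 := pow_le_pow_left₀ hΛ0.le h1 3
        _ = (12 * K) ^ 3 * ℓ ^ 6 := by ring

end Pool.Agent.BR3.LowUni34
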