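import Pool.Agent.BR3.Merge
import Pool.Agent.BR3.A3
import Pool.Agent.BR3.B3
import Pool.Agent.Helper13.BR.H3Mem

/-!
# The main theorem with all groups of three generators
-/

set_option autoImplicit false

namespace Pool.Agent.BR3

open Pool.Agent.Helper54.LA Pool.Agent.Helper13.LT Pool.Agent.Helper3.FJ
  Pool.Agent.Helper29.BA Pool.Agent.Helper29.PA Pool.Agent.Helper9.EV Pool.Agent.AIR

open scoped MatrixGroups

variable {C : ∀ (G : Type) [Group G], Prop}

/-- The Artin groups of types `A₃`, `B₃`, `H₃`. -/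
theorem three (hC : TriClass C) {S : Type} (M : CoxeterMatrix S) (s t u : S)
    (hS : ∀ x, x = s ∨ x = t ∨ x = u) (hst : s ≠ t) (htu : t ≠ u) (hsu : s ≠ u)
    (h1 : M s t = 3 ∨ M s t = 4 ∨ M s t = 5) (h2 : M t u = 3) (h3 : M s u = 2) :
    C (ArtinGroup M) := by
  rcases h1 with h1 | h1 | h1
  · exact A3.mem hC.toClosedClass M s t u hS hst htu hsu h1 h2 h3 (dual_mem hC A3.dual)
  · refine B3.mem hC.toClosedClass M u t s (fun x => ?_) htu.symm hst.symm hsu.symm
      ((M.symmetric u t).trans h2) ((M.symmetric t s).trans h1) ((M.symmetric u s).trans h3)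
      (dual_mem hC B3.dual)
    rcases hS x with h | h | h <;> simp [h]
  · exact Pool.Agent.Helper13.BR.h3_mem hC M hS hst htu hsu h1 h2 h3

/-- **The main theorem.** -/
theorem artin_main4 (hE : ExtClass C) (hC : CatClass C) (hGL : ∀ n, C (GL (Fin n) ℤ)) {S : Type}
    (M : CoxeterMatrix S) (h : Good4 C M) : C (ArtinGroup M) :=
  artin_main hE hC hGL M (h.good (three (triClass_of hE hC)))

/-- Artin groups such that each set of four generators has an infinite label. -/
theorem artin_three (hE : ExtClass C) (hC : CatClass C) (hGL : ∀ n, C (GL (Fin n) ℤ)) {S : Type}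
    (M : CoxeterMatrix S)
    (h : ∀ T : Set S, T.Finite → T.ncard = 4 → ∃ s ∈ T, ∃ t ∈ T, M s t = 0) :
    C (ArtinGroup M) := by
  refine artin_main4 hE hC hGL M fun T hT hc hirr h0 => ?_
  exfalso
  obtain ⟨U, hU, hU4⟩ := Set.exists_subset_card_eq hc
  obtain ⟨s, hs, t, ht, h1⟩ := h U (hT.subset hU) hU4
  exact h0 s (hU hs) t (hU ht) h1

end Pool.Agent.BR3
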