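import Pool.Agent.BR3.Stmts

/-!
# MP_5de915_nt: `Main` from the lower half and the mean (Markov)
-/

set_option autoImplicit false

namespace Pool.Agent.BR3.Main34

open Finset Pool.Agent.BR3 Pool.Agent.Helper64.Breadth

theorem markov (N : ℕ) (f : ℕ → ℝ) (hf : ∀ n, 0 ≤ f n) (t S : ℝ)
    (hS : ∑ n ∈ Icc 1 N, f n ≤ S) :
    (((Icc 1 N).filter (fun n : ℕ => t ≤ f n)).card : ℝ) * t ≤ S := by
  have h1 : (((Icc 1 N).filter (fun n : ℕ => t ≤ f n)).card : ℝ) * t
      = ∑ _n ∈ (Icc 1 N).filter (fun n : ℕ => t ≤ f n), t := by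
    rw [Finset.sum_const, nsmul_eq_mul]
  rw [h1]
  refine le_trans (Finset.sum_le_sum (g := f) ?_) ?_
  · intro n hn
    exact (Finset.mem_filter.1 hn).2
  · refine le_trans (Finset.sum_le_sum_of_subset_of_nonneg (Finset.filter_subset _ _) ?_) hS
    intro n _ _
    exact hf n

/-- the composition -/
theorem main_of
    (hlow : ∀ ε : ℝ, 0 < ε → ∃ δ : ℝ, 0 < δ ∧ ∃ N₀ : ℕ, ∀ N : ℕ, N₀ ≤ N →
      (((Icc 1 N).filter (fun n : ℕ => (c n : ℝ) < δ * Real.log N ^ 3)).card : ℝ) ≤ ε * N)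
    (hup : RowUp) : Main := by
  intro ε hε
  have hε3 : 0 < ε / 3 := by positivity
  obtain ⟨δ₁, hδ₁, N₁, h₁⟩ := hlow (ε / 3) hε3
  obtain ⟨C, hC, hU⟩ := hup
  have h24 : 0 < ε / (24 * C) := by positivity
  obtain ⟨δ, hδdef⟩ : ∃ δ : ℝ, δ = min δ₁ (ε / (24 * C)) := ⟨_, rfl⟩
  have hδ : 0 < δ := by rw [hδdef]; exact lt_min hδ₁ h24
  have hδa : δ ≤ δ₁ := by rw [hδdef]; exact min_le_left _ _
  have hδb : δ ≤ ε / (24 * C) := by rw [hδdef]; exact min_le_right _ _
  have hδC : 8 * δ * C ≤ ε / 3 := by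
    have h := mul_le_mul_of_nonneg_right hδb (by positivity : (0 : ℝ) ≤ 8 * C)
    have h2 : ε / (24 * C) * (8 * C) = ε / 3 := by
      field_simp
      ring
    linarith
  refine ⟨δ, hδ, max N₁ (max 3 ⌈(3 / ε) ^ 2⌉₊), ?_⟩
  intro N hN
  have hN1 : N₁ ≤ N := le_trans (le_max_left _ _) hN
  have hN3 : 3 ≤ N := le_trans (le_trans (le_max_left _ _) (le_max_right _ _)) hN
  have hNc : ⌈(3 / ε) ^ 2⌉₊ ≤ N := le_trans (le_trans (le_max_right _ _) (le_max_right _ _)) hN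
  have hNr : (3 : ℝ) ≤ N := by exact_mod_cast hN3
  have hN0 : (0 : ℝ) < N := by linarith
  have hlogN : 0 < Real.log N := Real.log_pos (by linarith)
  have hsq : (3 / ε) ^ 2 ≤ (N : ℝ) := le_trans (Nat.le_ceil _) (by exact_mod_cast hNc)
  -- the square root
  have hr : (Nat.sqrt N : ℝ) ≤ ε / 3 * N := by
    have h1 : (Nat.sqrt N : ℝ) ≤ Real.sqrt N := Real.nat_sqrt_le_real_sqrt
    have h2 : 3 / ε ≤ Real.sqrt N := Real.le_sqrt_of_sq_le hsq
    have h3 : 0 ≤ Real.sqrt N := Real.sqrt_nonneg _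
    have h4 : Real.sqrt N * Real.sqrt N = N := Real.mul_self_sqrt hN0.le
    have h5 : 1 ≤ ε / 3 * Real.sqrt N := by
      have h6 := mul_le_mul_of_nonneg_left h2 hε3.le
      have h7 : ε / 3 * (3 / ε) = 1 := by field_simp
      linarith
    have h8 : Real.sqrt N * 1 ≤ Real.sqrt N * (ε / 3 * Real.sqrt N) :=
      mul_le_mul_of_nonneg_left h5 h3
    have h9 : Real.sqrt N * (ε / 3 * Real.sqrt N) = ε / 3 * N := by
      calc Real.sqrt N * (ε / 3 * Real.sqrt N) = ε / 3 * (Real.sqrt N * Real.sqrt N) := by ring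
        _ = ε / 3 * N := by rw [h4]
    linarith
  -- three sets
  obtain ⟨A, hA⟩ : ∃ A, A = (Icc 1 N).filter (fun n : ℕ => (c n : ℝ) < δ₁ * Real.log N ^ 3) := ⟨_, rfl⟩
  obtain ⟨B, hB⟩ : ∃ B, B = (Icc 1 N).filter
    (fun n : ℕ => Real.log N ^ 3 / (8 * δ) ≤ (c n : ℝ)) := ⟨_, rfl⟩
  have hAc : (A.card : ℝ) ≤ ε / 3 * N := by rw [hA]; exact h₁ N hN1
  have hBc : (B.card : ℝ) ≤ ε / 3 * N := by
    have h1 := markov N (fun n => (c n : ℝ)) (fun n => Nat.cast_nonneg _)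
      (Real.log N ^ 3 / (8 * δ)) _ (hU N (by omega))
    rw [← hB] at h1
    have h3 : 0 < Real.log N ^ 3 := by positivity
    have h2 : (B.card : ℝ) * Real.log N ^ 3 ≤ (8 * δ * C * N) * Real.log N ^ 3 := by
      have h4 := mul_le_mul_of_nonneg_right h1 (by positivity : (0 : ℝ) ≤ 8 * δ)
      have h5 : (B.card : ℝ) * (Real.log N ^ 3 / (8 * δ)) * (8 * δ) = (B.card : ℝ) * Real.log N ^ 3 := by
        field_simp
      have h6 : C * N * Real.log N ^ 3 * (8 * δ) = (8 * δ * C * N) * Real.log N ^ 3 := by ring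
      linarith
    have h7 : (B.card : ℝ) ≤ 8 * δ * C * N := le_of_mul_le_mul_right h2 h3
    have h8 : 8 * δ * C * N ≤ ε / 3 * N := mul_le_mul_of_nonneg_right hδC hN0.le
    linarith
  have hsub : (Icc 1 N).filter (fun n : ℕ => ¬ (δ * Real.log n ^ 3 ≤ (c n : ℝ) ∧
      (c n : ℝ) ≤ Real.log n ^ 3 / δ)) ⊆ (A ∪ B) ∪ Icc 1 (Nat.sqrt N) := by
    intro n hn
    obtain ⟨hnI, hnb⟩ := Finset.mem_filter.1 hn
    obtain ⟨hn1, hnN⟩ := Finset.mem_Icc.1 hnI
    by_cases hs : n ≤ Nat.sqrt N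
    · exact Finset.mem_union_right _ (Finset.mem_Icc.2 ⟨hn1, hs⟩)
    · apply Finset.mem_union_left
      have hs' : N < n * n := Nat.sqrt_lt.1 (not_le.1 hs)
      have hn1r : (1 : ℝ) ≤ n := by exact_mod_cast hn1
      have hnNr : (n : ℝ) ≤ N := by exact_mod_cast hnN
      have hln : 0 ≤ Real.log n := Real.log_nonneg hn1r
      have hlnN : Real.log n ≤ Real.log N := Real.log_le_log (by linarith) hnNr
      have hp : Real.log n ^ 3 ≤ Real.log N ^ 3 := pow_le_pow_left₀ hln hlnN 3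
      have h2n : Real.log N ≤ 2 * Real.log n := by
        have h1 : (N : ℝ) ≤ (n : ℝ) * n := by exact_mod_cast hs'.le
        have h2 := Real.log_le_log hN0 h1
        rw [Real.log_mul (by positivity) (by positivity)] at h2
        linarith
      have hp2 : Real.log N ^ 3 ≤ 8 * Real.log n ^ 3 := by
        have h := pow_le_pow_left₀ hlogN.le h2n 3
        calc Real.log N ^ 3 ≤ (2 * Real.log n) ^ 3 := h
          _ = 8 * Real.log n ^ 3 := by ring
      by_cases hlo : (c n : ℝ) < δ₁ * Real.log N ^ 3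
      · apply Finset.mem_union_left
        rw [hA]
        exact Finset.mem_filter.2 ⟨hnI, hlo⟩
      · apply Finset.mem_union_right
        rw [hB]
        refine Finset.mem_filter.2 ⟨hnI, ?_⟩
        by_contra hhi
        apply hnb
        have hlo' := not_lt.1 hlo
        have hhi' := not_le.1 hhi
        constructor
        · have hq : 0 ≤ Real.log n ^ 3 := by positivity
          calc δ * Real.log n ^ 3 ≤ δ₁ * Real.log n ^ 3 := mul_le_mul_of_nonneg_right hδa hq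
            _ ≤ δ₁ * Real.log N ^ 3 := mul_le_mul_of_nonneg_left hp hδ₁.le
            _ ≤ _ := hlo'
        · refine le_trans hhi'.le ?_
          rw [div_le_div_iff₀ (by positivity) hδ]
          have h := mul_le_mul_of_nonneg_right hp2 hδ.le
          linarith
  have hcard := Finset.card_le_card hsub
  have hu1 := Finset.card_union_le (A ∪ B) (Icc 1 (Nat.sqrt N))
  have hu2 := Finset.card_union_le A B
  have hd : (Icc 1 (Nat.sqrt N)).card = Nat.sqrt N := by simp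
  have hfin : ((Icc 1 N).filter (fun n : ℕ => ¬ (δ * Real.log n ^ 3 ≤ (c n : ℝ) ∧
      (c n : ℝ) ≤ Real.log n ^ 3 / δ))).card ≤ A.card + B.card + Nat.sqrt N := by
    omega
  have hfin' : (((Icc 1 N).filter (fun n : ℕ => ¬ (δ * Real.log n ^ 3 ≤ (c n : ℝ) ∧
      (c n : ℝ) ≤ Real.log n ^ 3 / δ))).card : ℝ) ≤ A.card + B.card + Nat.sqrt N := by
    exact_mod_cast hfin
  linarith

/-- the composition with all rows as hypotheses -/
theorem main34 (hL : RowLow) (hT : RowT) (hS : RowS) (h1 : RowV1) (h0 : RowV0) (hF : RowF)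
    (hup : RowUp) : Main :=
  main_of (hL hT hS h1 h0 hF) hup

end Pool.Agent.BR3.Main34
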