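import Pool.Agent.BR3.Stmts

/-!
# The order of `c n` for almost all `n`: both halves together
-/

set_option autoImplicit false

namespace Pool.Agent.BR3.Main46

open Finset

theorem main_of (hL : ∀ ε : ℝ, 0 < ε → ∃ δ : ℝ, 0 < δ ∧ ∃ N₀ : ℕ, ∀ N : ℕ, N₀ ≤ N →
    (((Icc 1 N).filter (fun n : ℕ => (Pool.Agent.Helper64.Breadth.c n : ℝ) < δ * Real.log N ^ 3)).card : ℝ) ≤ ε * N)
    (hU : RowUp) : Main := by
  classical
  intro ε hε
  obtain ⟨C, hC, hUp⟩ := hU
  obtain ⟨δ₁, hδ₁, N₁, hLow⟩ := hL (ε / 3) (by positivity)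
  set δ : ℝ := min δ₁ (ε / (24 * C)) with hδ
  have hδ0 : 0 < δ := lt_min hδ₁ (by positivity)
  have hδa : δ ≤ δ₁ := min_le_left _ _
  have hδb : δ ≤ ε / (24 * C) := min_le_right _ _
  obtain ⟨M, hM⟩ := exists_nat_gt (9 / ε ^ 2)
  refine ⟨δ, hδ0, max N₁ (max 3 M), fun N hN => ?_⟩
  have hN1 : N₁ ≤ N := (le_max_left _ _).trans hN
  have hN3 : 3 ≤ N := (le_max_left _ _).trans ((le_max_right _ _).trans hN)
  have hNM : M ≤ N := (le_max_right _ _).trans ((le_max_right _ _).trans hN)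
  have hN0 : (0 : ℝ) < N := by
    have : 0 < N := by omega
    exact_mod_cast this
  have hNr : (3 : ℝ) ≤ N := by exact_mod_cast hN3
  have hlog : 1 ≤ Real.log N := by
    rw [Real.le_log_iff_exp_le hN0]
    have := Real.exp_one_lt_d9
    linarith
  have hsub : (Icc 1 N).filter (fun n : ℕ => ¬ (δ * Real.log n ^ 3 ≤ (Pool.Agent.Helper64.Breadth.c n : ℝ) ∧
        (Pool.Agent.Helper64.Breadth.c n : ℝ) ≤ Real.log n ^ 3 / δ)) ⊆
      ((Icc 1 N).filter (fun n : ℕ => (Pool.Agent.Helper64.Breadth.c n : ℝ) < δ₁ * Real.log N ^ 3) ∪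
        Icc 1 (Nat.sqrt N)) ∪
      (Icc 1 N).filter (fun n : ℕ => Real.log N ^ 3 / (8 * δ) < (Pool.Agent.Helper64.Breadth.c n : ℝ)) := by
    intro n hn
    simp only [mem_filter, mem_union, mem_Icc] at hn ⊢
    obtain ⟨⟨h1, h2⟩, h3⟩ := hn
    have hn0 : (0 : ℝ) < n := by
      have : 0 < n := by omega
      exact_mod_cast this
    have hl0 : 0 ≤ Real.log n := Real.log_nonneg (by exact_mod_cast h1)
    have hl : Real.log n ≤ Real.log N := Real.log_le_log hn0 (by exact_mod_cast h2)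
    by_cases hs : n ≤ Nat.sqrt N
    · exact Or.inl (Or.inr ⟨h1, hs⟩)
    · push Not at hs
      have hsq : N < n ^ 2 := by
        have := Nat.sqrt_lt'.mp hs
        exact this
      have hl2 : Real.log N ≤ 2 * Real.log n := by
        have h5 : Real.log N ≤ Real.log ((n : ℝ) ^ 2) := by
          apply Real.log_le_log hN0
          exact_mod_cast hsq.le
        rw [Real.log_pow] at h5
        exact_mod_cast h5
      by_cases hlow : (Pool.Agent.Helper64.Breadth.c n : ℝ) < δ * Real.log n ^ 3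
      · left
        left
        refine ⟨⟨h1, h2⟩, lt_of_lt_of_le hlow ?_⟩
        have : Real.log n ^ 3 ≤ Real.log N ^ 3 := pow_le_pow_left₀ hl0 hl 3
        exact mul_le_mul hδa this (by positivity) hδ₁.le
      · right
        refine ⟨⟨h1, h2⟩, ?_⟩
        have h6 : Real.log n ^ 3 / δ < (Pool.Agent.Helper64.Breadth.c n : ℝ) := by
          by_contra hcon
          exact h3 ⟨not_lt.mp hlow, not_lt.mp hcon⟩
        refine lt_of_le_of_lt ?_ h6
        have h7 : Real.log N ^ 3 ≤ 8 * Real.log n ^ 3 := by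
          calc Real.log N ^ 3 ≤ (2 * Real.log n) ^ 3 := pow_le_pow_left₀ (by linarith) hl2 3
            _ = _ := by ring
        rw [div_le_div_iff₀ (by positivity) hδ0]
        nlinarith
  have c1 : (((Icc 1 N).filter (fun n : ℕ => (Pool.Agent.Helper64.Breadth.c n : ℝ) < δ₁ * Real.log N ^ 3)).card : ℝ) ≤
      ε / 3 * N := hLow N hN1
  have c2 : ((Icc 1 (Nat.sqrt N)).card : ℝ) ≤ ε / 3 * N := by
    rw [Nat.card_Icc, Nat.add_sub_cancel]
    have h1 : ((Nat.sqrt N : ℕ) : ℝ) ≤ Real.sqrt N := Real.nat_sqrt_le_real_sqrt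
    have h2 : 9 / ε ^ 2 ≤ N := hM.le.trans (by exact_mod_cast hNM)
    have h3 : Real.sqrt N * Real.sqrt N = N := Real.mul_self_sqrt hN0.le
    have h4 : 3 / ε ≤ Real.sqrt N := by
      apply Real.le_sqrt_of_sq_le
      rw [div_pow]
      norm_num
      exact h2
    have h5 : 0 < Real.sqrt N := Real.sqrt_pos.mpr hN0
    have h6 : 3 ≤ Real.sqrt N * ε := by
      rw [div_le_iff₀ hε] at h4
      exact h4
    nlinarith
  have c3 : (((Icc 1 N).filter (fun n : ℕ => Real.log N ^ 3 / (8 * δ) <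
      (Pool.Agent.Helper64.Breadth.c n : ℝ))).card : ℝ) ≤ ε / 3 * N := by
    set F := (Icc 1 N).filter (fun n : ℕ => Real.log N ^ 3 / (8 * δ) < (Pool.Agent.Helper64.Breadth.c n : ℝ)) with hF
    have h1 : (F.card : ℝ) * (Real.log N ^ 3 / (8 * δ)) ≤ C * N * Real.log N ^ 3 := by
      calc (F.card : ℝ) * (Real.log N ^ 3 / (8 * δ)) = ∑ _n ∈ F, Real.log N ^ 3 / (8 * δ) := by
            rw [sum_const, nsmul_eq_mul]
        _ ≤ ∑ n ∈ F, (Pool.Agent.Helper64.Breadth.c n : ℝ) := by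
            apply sum_le_sum
            intro n hn
            rw [hF, mem_filter] at hn
            exact hn.2.le
        _ ≤ ∑ n ∈ Icc 1 N, (Pool.Agent.Helper64.Breadth.c n : ℝ) :=
            sum_le_sum_of_subset_of_nonneg (filter_subset _ _) (fun _ _ _ => by positivity)
        _ ≤ _ := hUp N (by omega)
    have hl3 : 0 < Real.log N ^ 3 := by positivity
    have h2 : (F.card : ℝ) ≤ 8 * δ * (C * N) := by
      have e : (F.card : ℝ) * (Real.log N ^ 3 / (8 * δ)) = (F.card : ℝ) / (8 * δ) * Real.log N ^ 3 := by ring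
      rw [e] at h1
      have h3 : (F.card : ℝ) / (8 * δ) ≤ C * N := le_of_mul_le_mul_right h1 hl3
      rw [div_le_iff₀ (by positivity)] at h3
      linarith
    have h4 : δ * (24 * C) ≤ ε := by
      rw [le_div_iff₀ (by positivity)] at hδb
      exact hδb
    nlinarith
  calc _ ≤ ((((Icc 1 N).filter (fun n : ℕ => (Pool.Agent.Helper64.Breadth.c n : ℝ) < δ₁ * Real.log N ^ 3) ∪
        Icc 1 (Nat.sqrt N)) ∪
      (Icc 1 N).filter (fun n : ℕ => Real.log N ^ 3 / (8 * δ) <
        (Pool.Agent.Helper64.Breadth.c n : ℝ))).card : ℝ) := by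
        exact_mod_cast card_le_card hsub
    _ ≤ (((Icc 1 N).filter (fun n : ℕ => (Pool.Agent.Helper64.Breadth.c n : ℝ) < δ₁ * Real.log N ^ 3)).card : ℝ) +
        ((Icc 1 (Nat.sqrt N)).card : ℝ) +
        (((Icc 1 N).filter (fun n : ℕ => Real.log N ^ 3 / (8 * δ) <
          (Pool.Agent.Helper64.Breadth.c n : ℝ))).card : ℝ) := by
        have h1 := card_union_le ((Icc 1 N).filter (fun n : ℕ => (Pool.Agent.Helper64.Breadth.c n : ℝ) < δ₁ * Real.log N ^ 3) ∪
          Icc 1 (Nat.sqrt N)) ((Icc 1 N).filter (fun n : ℕ => Real.log N ^ 3 / (8 * δ) <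
          (Pool.Agent.Helper64.Breadth.c n : ℝ)))
        have h2 := card_union_le ((Icc 1 N).filter (fun n : ℕ => (Pool.Agent.Helper64.Breadth.c n : ℝ) < δ₁ * Real.log N ^ 3))
          (Icc 1 (Nat.sqrt N))
        exact_mod_cast h1.trans (Nat.add_le_add_right h2 _)
    _ ≤ ε / 3 * N + ε / 3 * N + ε / 3 * N := add_le_add (add_le_add c1 c2) c3
    _ = _ := by ring

end Pool.Agent.BR3.Main46
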