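import Pool.Agent.BR3.Stmts

/-!
# Composition (helper62, double): lower half + row Up give `Main`
-/

set_option autoImplicit false

namespace Pool.Agent.BR3.Main62

open Finset Pool.Agent.Helper64.Breadth

theorem main62 (hL : ∀ ε : ℝ, 0 < ε → ∃ δ : ℝ, 0 < δ ∧ ∃ N₀ : ℕ, ∀ N : ℕ, N₀ ≤ N →
      (((Icc 1 N).filter (fun n : ℕ => (c n : ℝ) < δ * Real.log N ^ 3)).card : ℝ) ≤ ε * N)
    (hU : RowUp) : Main := by
  classical
  intro ε hε
  obtain ⟨C, hC, hU⟩ := hU
  obtain ⟨δ1, hδ1, N1, hL⟩ := hL (ε / 4) (by positivity)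
  set δ : ℝ := min δ1 (ε / (32 * C)) with hδdef
  have hδ : 0 < δ := lt_min hδ1 (by positivity)
  refine ⟨δ, hδ, max (max N1 2) (Nat.ceil (16 / ε ^ 2)), ?_⟩
  intro N hN
  have hN1 : N1 ≤ N := le_trans (le_trans (le_max_left _ _) (le_max_left _ _)) hN
  have hN2 : 2 ≤ N := le_trans (le_trans (le_max_right _ _) (le_max_left _ _)) hN
  have hN3 : 16 / ε ^ 2 ≤ (N : ℝ) := (Nat.le_ceil _).trans (by exact_mod_cast le_trans (le_max_right _ _) hN)
  have hN2' : (2 : ℝ) ≤ (N : ℝ) := by exact_mod_cast hN2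
  have hlog : 0 < Real.log N := Real.log_pos (by linarith)
  have hU' := hU N hN2
  have hL' := hL N hN1
  set A := (Icc 1 N).filter (fun n : ℕ => (c n : ℝ) < δ1 * Real.log N ^ 3) with hA
  set B := Icc 1 (Nat.sqrt N) with hB
  set D := (Icc 1 N).filter (fun n : ℕ => Real.log N ^ 3 / (8 * δ) < (c n : ℝ)) with hD
  have hsub : (Icc 1 N).filter (fun n : ℕ => ¬ (δ * Real.log n ^ 3 ≤ (c n : ℝ) ∧ (c n : ℝ) ≤ Real.log n ^ 3 / δ)) ⊆
      (A ∪ B) ∪ D := by
    intro n hn
    rw [mem_filter, mem_Icc] at hn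
    obtain ⟨⟨hn1, hn2⟩, hn3⟩ := hn
    by_cases hb : n ≤ Nat.sqrt N
    · refine mem_union_left _ (mem_union_right _ ?_)
      rw [hB, mem_Icc]
      exact ⟨hn1, hb⟩
    by_cases hd : Real.log N ^ 3 / (8 * δ) < (c n : ℝ)
    · refine mem_union_right _ ?_
      rw [hD, mem_filter, mem_Icc]
      exact ⟨⟨hn1, hn2⟩, hd⟩
    refine mem_union_left _ (mem_union_left _ ?_)
    rw [hA, mem_filter, mem_Icc]
    refine ⟨⟨hn1, hn2⟩, ?_⟩
    by_contra hcon
    apply hn3
    have hn1' : (1 : ℝ) ≤ (n : ℝ) := by exact_mod_cast hn1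
    have hlogn0 : 0 ≤ Real.log n := Real.log_nonneg hn1'
    have hlogn1 : Real.log n ≤ Real.log N := Real.log_le_log (by linarith) (by exact_mod_cast hn2)
    have hNn : N ≤ n * n := (Nat.sqrt_lt.1 (not_le.1 hb)).le
    have hlogn2 : Real.log N ≤ 2 * Real.log n := by
      have h1 : Real.log N ≤ Real.log ((n : ℝ) * n) :=
        Real.log_le_log (by linarith) (by exact_mod_cast hNn)
      rw [Real.log_mul (by positivity) (by positivity)] at h1
      linarith
    constructor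
    · push Not at hcon
      refine le_trans ?_ hcon
      exact mul_le_mul (min_le_left _ _) (pow_le_pow_left₀ hlogn0 hlogn1 3) (by positivity) hδ1.le
    · rw [not_lt] at hd
      refine hd.trans ?_
      rw [div_le_div_iff₀ (by positivity) hδ]
      have h2 : Real.log N ^ 3 ≤ (2 * Real.log n) ^ 3 := pow_le_pow_left₀ hlog.le hlogn2 3
      nlinarith [h2]
  have c1 : (((Icc 1 N).filter (fun n : ℕ => ¬ (δ * Real.log n ^ 3 ≤ (c n : ℝ) ∧
      (c n : ℝ) ≤ Real.log n ^ 3 / δ))).card : ℝ) ≤ (A.card : ℝ) + B.card + D.card := by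
    have h1 := (card_le_card hsub).trans (card_union_le _ _)
    have h2 := card_union_le A B
    have h3 : ((Icc 1 N).filter (fun n : ℕ => ¬ (δ * Real.log n ^ 3 ≤ (c n : ℝ) ∧
      (c n : ℝ) ≤ Real.log n ^ 3 / δ))).card ≤ A.card + B.card + D.card := by omega
    exact_mod_cast h3
  have c2 : (B.card : ℝ) ≤ ε / 4 * N := by
    have h1 : B.card = Nat.sqrt N := by
      rw [hB, Nat.card_Icc]
      exact Nat.add_sub_cancel _ _
    rw [h1]
    have h2 : ((Nat.sqrt N : ℕ) : ℝ) ^ 2 ≤ N := by exact_mod_cast Nat.sqrt_le' N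
    have h3 : (N : ℝ) ≤ (ε / 4 * N) ^ 2 := by
      have h4 : 16 ≤ (N : ℝ) * ε ^ 2 := by
        rw [div_le_iff₀ (by positivity)] at hN3
        exact hN3
      nlinarith [h4, hN2']
    have h5 : ((Nat.sqrt N : ℕ) : ℝ) ^ 2 ≤ (ε / 4 * N) ^ 2 := h2.trans h3
    exact (pow_le_pow_iff_left₀ (by positivity) (by positivity) (by norm_num)).1 h5
  have c3 : (D.card : ℝ) ≤ ε / 4 * N := by
    have h1 : (D.card : ℝ) * (Real.log N ^ 3 / (8 * δ)) ≤ ∑ n ∈ Icc 1 N, (c n : ℝ) := by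
      calc (D.card : ℝ) * (Real.log N ^ 3 / (8 * δ)) = ∑ n ∈ D, Real.log N ^ 3 / (8 * δ) := by
            rw [sum_const, nsmul_eq_mul]
        _ ≤ ∑ n ∈ D, (c n : ℝ) := by
            refine sum_le_sum fun n hn => ?_
            rw [hD, mem_filter] at hn
            exact hn.2.le
        _ ≤ ∑ n ∈ Icc 1 N, (c n : ℝ) :=
            sum_le_sum_of_subset_of_nonneg (filter_subset _ _) fun _ _ _ => Nat.cast_nonneg _
    have h2 := h1.trans hU'
    have h3 : 0 < Real.log N ^ 3 := by positivity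
    have h4 : (D.card : ℝ) ≤ 8 * δ * C * N := by
      rw [mul_div_assoc', div_le_iff₀ (by positivity)] at h2
      have h5 : Real.log N ^ 3 * (D.card : ℝ) ≤ Real.log N ^ 3 * (8 * δ * C * N) := by nlinarith [h2]
      exact le_of_mul_le_mul_left h5 h3
    have h6 : δ ≤ ε / (32 * C) := min_le_right _ _
    rw [le_div_iff₀ (by positivity)] at h6
    have h7 : 8 * δ * C ≤ ε / 4 := by linarith
    exact h4.trans (mul_le_mul_of_nonneg_right h7 (by positivity))
  have : 0 ≤ ε / 4 * N := by positivity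
  linarith

/-- `Main` from the rows. -/
theorem main_of_rows (hLow : RowLow) (hT : RowT) (hS : RowS) (hV1 : RowV1) (hV0 : RowV0) (hF : RowF)
    (hUp : RowUp) : Main :=
  main62 (hLow hT hS hV1 hV0 hF) hUp

end Pool.Agent.BR3.Main62
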