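import Pool.Agent.AIR.Main

/-!
# The base case of at most three generators
-/

set_option autoImplicit false

namespace Pool.Agent.BR3

open Pool.Agent.Helper54.LA Pool.Agent.Helper13.LT Pool.Agent.Helper3.FJ
  Pool.Agent.Helper29.BA Pool.Agent.Helper29.PA Pool.Agent.Helper9.EV Pool.Agent.AIR

open scoped MatrixGroups

/-- Labels of irreducible spherical triples. -/
theorem labels {a b c : ℕ} (ha : 2 ≤ a) (hb : 2 ≤ b) (hc : 2 ≤ c)
    (h : (1 : ℚ) < 1 / a + 1 / b + 1 / c)
    (hn : ¬ ((a = 2 ∧ b = 2) ∨ (b = 2 ∧ c = 2) ∨ (a = 2 ∧ c = 2))) :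
    ∃ p, (p = 3 ∨ p = 4 ∨ p = 5) ∧
      ((a = 2 ∧ b = 3 ∧ c = p) ∨ (a = 2 ∧ b = p ∧ c = 3) ∨ (b = 2 ∧ a = 3 ∧ c = p) ∨
        (b = 2 ∧ a = p ∧ c = 3) ∨ (c = 2 ∧ a = 3 ∧ b = p) ∨ (c = 2 ∧ a = p ∧ b = 3)) := by
  have inv : ∀ {n k : ℕ}, 0 < k → k ≤ n → (1 : ℚ) / n ≤ 1 / k := by
    intro n k hk hn
    have h1 : (k : ℚ) ≤ n := by exact_mod_cast hn
    have h2 : (0 : ℚ) < k := by exact_mod_cast hk
    exact one_div_le_one_div_of_le h2 h1
  -- the case where the first label is two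
  have key : ∀ x y : ℕ, 3 ≤ x → 3 ≤ y → (1 : ℚ) / 2 < 1 / x + 1 / y →
      ∃ p, (p = 3 ∨ p = 4 ∨ p = 5) ∧ ((x = 3 ∧ y = p) ∨ (x = p ∧ y = 3)) := by
    intro x y hx hy hxy
    have h3 : ∀ y : ℕ, 3 ≤ y → (1 : ℚ) / 2 < 1 / 3 + 1 / y → y = 3 ∨ y = 4 ∨ y = 5 := by
      intro y hy h4
      by_contra hne
      have h6 : 6 ≤ y := by omega
      have := inv (n := y) (k := 6) (by norm_num) h6
      norm_num at this h4
      linarith
    rcases Nat.lt_or_ge x 4 with h4 | h4
    · obtain rfl : x = 3 := by omega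
      exact ⟨y, h3 y hy (by exact_mod_cast hxy), Or.inl ⟨rfl, rfl⟩⟩
    · rcases Nat.lt_or_ge y 4 with h5 | h5
      · obtain rfl : y = 3 := by omega
        refine ⟨x, h3 x hx ?_, Or.inr ⟨rfl, rfl⟩⟩
        rw [add_comm] at hxy
        exact_mod_cast hxy
      · exfalso
        have h6 := inv (n := x) (k := 4) (by norm_num) h4
        have h7 := inv (n := y) (k := 4) (by norm_num) h5
        norm_num at h6 h7 hxy
        linarith
  by_cases h2a : a = 2
  · have hb3 : 3 ≤ b := by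
      by_contra hlt
      exact hn (Or.inl ⟨h2a, by omega⟩)
    have hc3 : 3 ≤ c := by
      by_contra hlt
      exact hn (Or.inr (Or.inr ⟨h2a, by omega⟩))
    obtain ⟨p, hp, h5⟩ := key b c hb3 hc3 (by
      rw [h2a] at h
      norm_num at h ⊢
      linarith)
    refine ⟨p, hp, ?_⟩
    rcases h5 with ⟨h5, h6⟩ | ⟨h5, h6⟩
    · exact Or.inl ⟨h2a, h5, h6⟩
    · exact Or.inr (Or.inl ⟨h2a, h5, h6⟩)
  · by_cases h2b : b = 2
    · have ha3 : 3 ≤ a := by omega
      have hc3 : 3 ≤ c := by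
        by_contra hlt
        exact hn (Or.inr (Or.inl ⟨h2b, by omega⟩))
      obtain ⟨p, hp, h5⟩ := key a c ha3 hc3 (by
        rw [h2b] at h
        norm_num at h ⊢
        linarith)
      refine ⟨p, hp, ?_⟩
      rcases h5 with ⟨h5, h6⟩ | ⟨h5, h6⟩
      · exact Or.inr (Or.inr (Or.inl ⟨h2b, h5, h6⟩))
      · exact Or.inr (Or.inr (Or.inr (Or.inl ⟨h2b, h5, h6⟩)))
    · by_cases h2c : c = 2
      · obtain ⟨p, hp, h5⟩ := key a b (by omega) (by omega) (by
          rw [h2c] at h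
          norm_num at h ⊢
          linarith)
        refine ⟨p, hp, ?_⟩
        rcases h5 with ⟨h5, h6⟩ | ⟨h5, h6⟩
        · exact Or.inr (Or.inr (Or.inr (Or.inr (Or.inl ⟨h2c, h5, h6⟩))))
        · exact Or.inr (Or.inr (Or.inr (Or.inr (Or.inr ⟨h2c, h5, h6⟩))))
      · exfalso
        have h6 := inv (n := a) (k := 3) (by norm_num) (by omega)
        have h7 := inv (n := b) (k := 3) (by norm_num) (by omega)
        have h8 := inv (n := c) (k := 3) (by norm_num) (by omega)
        norm_num at h6 h7 h8 h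
        linarith

/-- All irreducible parabolic subgroups without infinite labels of rank at least four are in the
class or locally reducible. -/
def Good4 (C : ∀ (G : Type) [Group G], Prop) {S : Type} (M : CoxeterMatrix S) : Prop :=
  ∀ T : Set S, T.Finite → 4 ≤ T.ncard → Irr M T → (∀ s ∈ T, ∀ t ∈ T, M s t ≠ 0) →
    C (ArtinGroup (res M T)) ∨ LR (res M T)

theorem Good4.good {C : ∀ (G : Type) [Group G], Prop}
    (three : ∀ {S : Type} (M : CoxeterMatrix S) (s t u : S), (∀ x, x = s ∨ x = t ∨ x = u) →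
      s ≠ t → t ≠ u → s ≠ u → (M s t = 3 ∨ M s t = 4 ∨ M s t = 5) → M t u = 3 → M s u = 2 →
      C (ArtinGroup M))
    {S : Type} {M : CoxeterMatrix S} (h : Good4 C M) : Good C M := by
  intro T hT hirr h0
  by_cases hc : 4 ≤ T.ncard
  · exact h T hT hc hirr h0
  by_cases hLR : LR (res M T)
  · exact Or.inr hLR
  left
  rw [LR] at hLR
  push Not at hLR
  obtain ⟨s, t, u, hst, htu, hsu, hsp, h1, h2, h3⟩ := hLR
  have hS : ∀ x : T, x = s ∨ x = t ∨ x = u := by
    intro x
    by_contra hx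
    push Not at hx
    apply hc
    have h4 : ({x, s, t, u} : Set T).ncard = 4 := by
      rw [Set.ncard_insert_of_notMem, Set.ncard_eq_three.2 ⟨s, t, u, hst, hsu, htu, rfl⟩]
      simp only [Set.mem_insert_iff, Set.mem_singleton_iff, not_or]
      exact hx
    have h5 : (Subtype.val '' ({x, s, t, u} : Set T)).ncard ≤ T.ncard := by
      refine Set.ncard_le_ncard ?_ hT
      rintro _ ⟨y, -, rfl⟩
      exact y.2
    rwa [Set.ncard_image_of_injective _ Subtype.val_injective, h4] at h5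
  have hge : ∀ x y : T, x ≠ y → 2 ≤ res M T x y := by
    intro x y hxy
    have h6 := (res M T).off_diagonal x y hxy
    have h7 : res M T x y ≠ 0 := h0 x.1 x.2 y.1 y.2
    change res M T x y ≠ 1 at h6
    omega
  obtain ⟨p, hp, h8⟩ := labels (hge s t hst) (hge t u htu) (hge s u hsu) hsp.2.2.2 (by
    rintro (⟨h9, h10⟩ | ⟨h9, h10⟩ | ⟨h9, h10⟩)
    · exact h1 h9 h10
    · exact h2 h9 h10
    · exact h3 h9 h10)
  have sy : ∀ x y : T, res M T x y = res M T y x := fun x y => (res M T).symmetric x y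
  rcases h8 with ⟨e1, e2, e3⟩ | ⟨e1, e2, e3⟩ | ⟨e1, e2, e3⟩ | ⟨e1, e2, e3⟩ | ⟨e1, e2, e3⟩ |
    ⟨e1, e2, e3⟩
  · exact three (res M T) s u t (fun x => by rcases hS x with h | h | h <;> simp [h]) hsu htu.symm
      hst (by rw [e3]; exact hp) (by rw [sy]; exact e2) e1
  · exact three (res M T) t u s (fun x => by rcases hS x with h | h | h <;> simp [h]) htu hsu.symm
      hst.symm (by rw [e2]; exact hp) (by rw [sy]; exact e3) (by rw [sy]; exact e1)
  · exact three (res M T) u s t (fun x => by rcases hS x with h | h | h <;> simp [h]) hsu.symm hst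
      htu.symm (by rw [sy, e3]; exact hp) e2 (by rw [sy]; exact e1)
  · exact three (res M T) t s u (fun x => by rcases hS x with h | h | h <;> simp [h]) hst.symm hsu
      htu (by rw [sy, e2]; exact hp) e3 e1
  · exact three (res M T) u t s (fun x => by rcases hS x with h | h | h <;> simp [h]) htu.symm
      hst.symm hsu.symm (by rw [sy, e3]; exact hp) (by rw [sy]; exact e2) (by rw [sy]; exact e1)
  · exact three (res M T) s t u hS hst htu hsu (by rw [e2]; exact hp) e3 e1

end Pool.Agent.BR3
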