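import Pool.Agent.BR3.LowFin64

/-!
# MP_5de915_nt: many elements of breadth three outside a small set (helper64)

The level `z = (log U) ^ 4` in the rows of `LowFin64`.
-/

set_option autoImplicit false
set_option maxHeartbeats 2000000

namespace Pool.Agent.BR3.NC64

open Finset Pool.Agent.BR3 Pool.Agent.BR3.Low54 Pool.Agent.BR3.LowFin64

/-- the statement -/
def Near : Prop := ∃ δ C : ℝ, 0 < δ ∧ ∃ N₀ : ℕ, ∀ N : ℕ, N₀ ≤ N →
    (((Icc 1 N).filter (fun n : ℕ => (Pool.Agent.Helper64.Breadth.c n : ℝ) <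
      δ * Real.log N ^ 3 / Real.log (Real.log N) ^ 3)).card : ℝ) ≤
      C * N * Real.log (Real.log N) ^ 6 / Real.log N ^ 3

lemma ev6 (C : ℝ) {s : ℝ} (hs : 0 < s) : ∀ᶠ L : ℝ in Filter.atTop, C * Real.log L ^ 6 ≤ L ^ s := by
  have h1 := (Asymptotics.isLittleO_iff.1 (isLittleO_log_rpow_rpow_atTop (6 : ℝ) hs))
    (show (0 : ℝ) < 1 / (|C| + 1) by positivity)
  filter_upwards [h1, Filter.eventually_ge_atTop 1] with L hL hL1
  have hl : 0 ≤ Real.log L := Real.log_nonneg hL1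
  have hLs : 0 ≤ L ^ s := Real.rpow_nonneg (by linarith) s
  rw [Real.norm_eq_abs, Real.norm_eq_abs, abs_of_nonneg (Real.rpow_nonneg hl _), abs_of_nonneg hLs] at hL
  have h2 : Real.log L ^ (6 : ℝ) = Real.log L ^ 6 := by
    rw [← Real.rpow_natCast]; norm_num
  rw [h2, div_mul_eq_mul_div, one_mul, le_div_iff₀ (by positivity)] at hL
  have h3 : C ≤ |C| + 1 := by
    have := le_abs_self C
    linarith
  have h4 : 0 ≤ Real.log L ^ 6 := by positivity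
  nlinarith

/-- the inequalities for `L` -/
lemma evL (K : ℝ) (hK : 0 ≤ K) :
    ∀ᶠ L : ℝ in Filter.atTop, 3 ≤ L ∧ K * (5 * Real.log L) ^ 2 ≤ L := by
  filter_upwards [Filter.eventually_ge_atTop 3, ev6 (K * 25) one_pos] with L a1 a2
  refine ⟨a1, ?_⟩
  rw [Real.rpow_one] at a2
  have h1 : 1 ≤ Real.log L := by
    rw [Real.le_log_iff_exp_le (by linarith)]
    have := Real.exp_one_lt_d9
    linarith
  have h2 : Real.log L ^ 2 ≤ Real.log L ^ 6 := pow_le_pow_right₀ h1 (by norm_num)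
  have h3 : K * 25 * Real.log L ^ 2 ≤ K * 25 * Real.log L ^ 6 :=
    mul_le_mul_of_nonneg_left h2 (by positivity)
  calc K * (5 * Real.log L) ^ 2 = K * 25 * Real.log L ^ 2 := by ring
    _ ≤ L := h3.trans a2

theorem near_of : RowT → RowS → RowV1 → RowV0 → RowF → Near := by
  classical
  rintro ⟨cT, U₀, hcT, hT⟩ ⟨cS, K, hcS, -, hK1, hS⟩ ⟨C1, hC1, hV1⟩ ⟨C0, hC0, hV0⟩ hF
  obtain ⟨c2, hc2⟩ : ∃ c2 : ℝ, c2 = cT * cS / 4 * 10 := ⟨_, rfl⟩
  have hc20 : 0 < c2 := by rw [hc2]; positivity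
  obtain ⟨C3, hC3⟩ : ∃ C3 : ℝ, C3 = 300 * C1 + 1010 * C0 := ⟨_, rfl⟩
  have hC30 : 0 < C3 := by rw [hC3]; positivity
  obtain ⟨E1, hE1⟩ : ∃ E1 : ℝ, E1 = 4 * C3 * 5 ^ 6 * 120 ^ 3 / c2 ^ 2 := ⟨_, rfl⟩
  have hE10 : 0 < E1 := by rw [hE1]; positivity
  refine ⟨c2 / (2 * 125 * 120 ^ 3), 1 + 8 * E1, by positivity, ?_⟩
  have hlog : Filter.Tendsto (fun U : ℕ => Real.log (U : ℝ)) Filter.atTop Filter.atTop :=
    Real.tendsto_log_atTop.comp tendsto_natCast_atTop_atTop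
  have hcub : ∀ᶠ U : ℕ in Filter.atTop, 192 * (120 * Real.log (U : ℝ)) ^ 3 ≤ (U : ℝ) := by
    have h1 := (Asymptotics.isLittleO_iff.1 (Real.isLittleO_pow_log_id_atTop (n := 3)))
      (show (0 : ℝ) < 1 / (192 * 120 ^ 3) by positivity)
    have h2 := tendsto_natCast_atTop_atTop (R := ℝ) |>.eventually h1
    filter_upwards [h2, Filter.eventually_ge_atTop 3] with U hU hU3
    have hp : (0 : ℝ) < U := by exact_mod_cast (show 0 < U by omega)
    rw [Real.norm_eq_abs, Real.norm_eq_abs, id, abs_of_pos hp] at hU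
    have h3 := (le_abs_self _).trans hU
    rw [div_mul_eq_mul_div, one_mul, le_div_iff₀ (by positivity)] at h3
    have h4 : 192 * (120 * Real.log (U : ℝ)) ^ 3 = Real.log (U : ℝ) ^ 3 * (192 * 120 ^ 3) := by ring
    rw [h4]
    exact h3
  have hUev : ∀ᶠ U : ℕ in Filter.atTop, U₀ ≤ U ∧ 3 ≤ U ∧ 192 * (120 * Real.log (U : ℝ)) ^ 3 ≤ (U : ℝ) ∧
      (3 ≤ Real.log (U : ℝ) ∧ K * (5 * Real.log (Real.log (U : ℝ))) ^ 2 ≤ Real.log (U : ℝ)) ∧
      3 / C3 ≤ (U : ℝ) := by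
    have hc : Filter.Tendsto (fun U : ℕ => (U : ℝ)) Filter.atTop Filter.atTop := tendsto_natCast_atTop_atTop
    filter_upwards [Filter.eventually_ge_atTop U₀, Filter.eventually_ge_atTop 3, hcub,
      hlog.eventually (evL K (by linarith)), hc.eventually_ge_atTop (3 / C3)] with U a1 a2 a3 a4 a5
    exact ⟨a1, a2, a3, a4, a5⟩
  obtain ⟨U₂, hU₂⟩ := Filter.eventually_atTop.1 hUev
  refine ⟨(U₂ + 4) ^ 60, fun N hN => ?_⟩
  obtain ⟨U, hUU, hNr, hlN'⟩ := root2 hN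
  clear hN
  obtain ⟨b1, b2, b3, ⟨b4, b5⟩, b6⟩ := hU₂ U hUU
  obtain ⟨L, hL⟩ : ∃ L : ℝ, L = Real.log (U : ℝ) := ⟨_, rfl⟩
  rw [← hL] at b3 b4 b5
  have hL0 : 0 < L := by linarith
  have hUr : (3 : ℝ) ≤ U := by exact_mod_cast b2
  have hUr0 : (0 : ℝ) < U := by linarith
  have hlV : Real.log ((U ^ 10 : ℕ) : ℝ) = 10 * L := by
    push_cast
    rw [Real.log_pow, hL]; norm_num
  have hlN : Real.log N ≤ 120 * L := by rw [hL]; exact hlN'
  have hlN0 : 0 ≤ Real.log N := Real.log_natCast_nonneg N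
  have hUN : (U : ℝ) ≤ N := by
    refine le_trans ?_ hNr
    calc (U : ℝ) = (U : ℝ) ^ 1 := (pow_one _).symm
      _ ≤ (U : ℝ) ^ 60 := pow_le_pow_right₀ (by linarith) (by norm_num)
  have hLN : L ≤ Real.log N := by rw [hL]; exact Real.log_le_log hUr0 hUN
  have hlNp : 0 < Real.log N := by linarith
  obtain ⟨W, hW⟩ : ∃ W : ℝ, W = Real.log (Real.log N) := ⟨_, rfl⟩
  have hLW : Real.log L ≤ W := by rw [hW]; exact Real.log_le_log hL0 hLN
  have hlL1 : 1 ≤ Real.log L := by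
    rw [Real.le_log_iff_exp_le hL0]
    have := Real.exp_one_lt_d9
    linarith
  have hW1 : 1 ≤ W := by linarith
  have hW0 : 0 < W := by linarith
  -- the level
  obtain ⟨z, hz⟩ : ∃ z : ℕ, z = ⌈L ^ 4⌉₊ := ⟨_, rfl⟩
  have hz1 : L ^ 4 ≤ z := by rw [hz]; exact Nat.le_ceil _
  have hz2 : (z : ℝ) < L ^ 4 + 1 := by rw [hz]; exact Nat.ceil_lt_add_one (by positivity)
  have hL4 : (81 : ℝ) ≤ L ^ 4 := by
    calc (81 : ℝ) = 3 ^ 4 := by norm_num
      _ ≤ L ^ 4 := pow_le_pow_left₀ (by norm_num) b4 4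
  have hz3 : 3 ≤ z := by
    have : (3 : ℝ) ≤ z := by linarith
    exact_mod_cast this
  have hzr : (0 : ℝ) < z := by linarith
  have hz5 : (z : ℝ) ≤ L ^ 5 := by
    have h1 : L ^ 5 = L ^ 4 * L := by ring
    nlinarith
  obtain ⟨ℓ, hℓ⟩ : ∃ ℓ : ℝ, ℓ = Real.log z := ⟨_, rfl⟩
  have hℓ1 : 1 ≤ ℓ := by
    rw [hℓ, Real.le_log_iff_exp_le hzr]
    have := Real.exp_one_lt_d9
    linarith
  have hℓ0 : 0 < ℓ := by linarith
  have hℓ5 : ℓ ≤ 5 * Real.log L := by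
    rw [hℓ]
    have h1 := Real.log_le_log hzr hz5
    rw [Real.log_pow] at h1
    push_cast at h1
    exact h1
  have hℓW : ℓ ≤ 5 * W := by linarith
  have b4' : K * ℓ ^ 2 ≤ L :=
    le_trans (mul_le_mul_of_nonneg_left (pow_le_pow_left₀ hℓ0.le hℓ5 2) (by linarith)) b5
  obtain ⟨m0, hm0⟩ : ∃ m0 : ℝ, m0 = c2 / ℓ ^ 3 * L ^ 3 := ⟨_, rfl⟩
  have hm0p : 0 < m0 := by rw [hm0]; positivity
  have hthr : c2 / (2 * 125 * 120 ^ 3) * Real.log N ^ 3 / Real.log (Real.log N) ^ 3 ≤ m0 / 2 := by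
    rw [← hW, hm0]
    have h1 : Real.log N ^ 3 ≤ (120 * L) ^ 3 := pow_le_pow_left₀ hlN0 hlN 3
    have h2 : ℓ ^ 3 ≤ (5 * W) ^ 3 := pow_le_pow_left₀ hℓ0.le hℓW 3
    rw [div_mul_eq_mul_div, div_mul_eq_mul_div, div_div, div_div, div_le_div_iff₀ (by positivity) (by positivity)]
    calc c2 * Real.log N ^ 3 * (ℓ ^ 3 * 2) ≤ c2 * (120 * L) ^ 3 * ((5 * W) ^ 3 * 2) := by gcongr
      _ = c2 * L ^ 3 * (2 * 125 * 120 ^ 3 * W ^ 3) := by ring
  obtain ⟨η, hη⟩ : ∃ η : ℝ, η = 4 * C3 * ℓ ^ 6 / (c2 ^ 2 * L ^ 3) := ⟨_, rfl⟩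
  have hη0 : 0 < η := by rw [hη]; positivity
  have hηm : η * m0 ^ 2 = 4 * C3 * L ^ 3 := by
    rw [hη, hm0]
    field_simp
  have hηW : η ≤ E1 * W ^ 6 / Real.log N ^ 3 := by
    rw [hη, hE1, div_mul_eq_mul_div, div_div, div_le_div_iff₀ (by positivity) (by positivity)]
    have h1 : Real.log N ^ 3 ≤ (120 * L) ^ 3 := pow_le_pow_left₀ hlN0 hlN 3
    have h2 : ℓ ^ 6 ≤ (5 * W) ^ 6 := pow_le_pow_left₀ hℓ0.le hℓW 6
    calc 4 * C3 * ℓ ^ 6 * (c2 ^ 2 * Real.log N ^ 3) ≤ 4 * C3 * (5 * W) ^ 6 * (c2 ^ 2 * (120 * L) ^ 3) := by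
          gcongr
      _ = 4 * C3 * 5 ^ 6 * 120 ^ 3 * W ^ 6 * (c2 ^ 2 * L ^ 3) := by ring
  obtain ⟨Q, hQ⟩ : ∃ Q : ℝ, Q = C1 * (10 * L) ^ 2 * L ^ 3 * (L / z + (1 + L) / U) +
      C0 * (L ^ 2 * (10 * L) + (10 * L) ^ 3 / U) := ⟨_, rfl⟩
  have hLU : L ^ 3 ≤ U := by
    refine le_trans ?_ b3
    have : 192 * (120 * L) ^ 3 = (192 * 120 ^ 3) * L ^ 3 := by ring
    rw [this]
    have : 0 ≤ L ^ 3 := by positivity
    nlinarith
  have hQC : Q ≤ C3 * L ^ 3 := by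
    have t1 : C1 * (10 * L) ^ 2 * L ^ 3 * (L / z) ≤ 100 * C1 * L ^ 3 := by
      have h1 : L ^ 6 / z ≤ L ^ 3 := by
        rw [div_le_iff₀ hzr]
        calc L ^ 6 ≤ L ^ 7 := pow_le_pow_right₀ (by linarith) (by norm_num)
          _ = L ^ 3 * L ^ 4 := by ring
          _ ≤ L ^ 3 * z := mul_le_mul_of_nonneg_left hz1 (by positivity)
      calc C1 * (10 * L) ^ 2 * L ^ 3 * (L / z) = 100 * C1 * (L ^ 6 / z) := by ring
        _ ≤ 100 * C1 * L ^ 3 := mul_le_mul_of_nonneg_left h1 (by positivity)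
    have t2 : C1 * (10 * L) ^ 2 * L ^ 3 * ((1 + L) / U) ≤ 200 * C1 * L ^ 3 := by
      have h1 : L ^ 5 * (1 + L) / U ≤ 2 * L ^ 3 := by
        rw [div_le_iff₀ hUr0]
        calc L ^ 5 * (1 + L) ≤ L ^ 5 * (2 * L) := mul_le_mul_of_nonneg_left (by linarith) (by positivity)
          _ = 2 * L ^ 3 * L ^ 3 := by ring
          _ ≤ 2 * L ^ 3 * U := mul_le_mul_of_nonneg_left hLU (by positivity)
      calc C1 * (10 * L) ^ 2 * L ^ 3 * ((1 + L) / U) = 100 * C1 * (L ^ 5 * (1 + L) / U) := by ring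
        _ ≤ 100 * C1 * (2 * L ^ 3) := mul_le_mul_of_nonneg_left h1 (by positivity)
        _ = 200 * C1 * L ^ 3 := by ring
    have t3 : C0 * (L ^ 2 * (10 * L) + (10 * L) ^ 3 / U) ≤ 1010 * C0 * L ^ 3 := by
      have e1 : (10 * L) ^ 3 / U ≤ 1000 * L ^ 3 := by
        rw [div_le_iff₀ hUr0]
        have : 0 < L ^ 3 := by positivity
        nlinarith
      have e2 : L ^ 2 * (10 * L) + (10 * L) ^ 3 / U ≤ 1010 * L ^ 3 := by
        have : L ^ 2 * (10 * L) = 10 * L ^ 3 := by ring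
        rw [this]; linarith
      calc C0 * (L ^ 2 * (10 * L) + (10 * L) ^ 3 / U) ≤ C0 * (1010 * L ^ 3) :=
            mul_le_mul_of_nonneg_left e2 hC0.le
        _ = 1010 * C0 * L ^ 3 := by ring
    have e : Q = C1 * (10 * L) ^ 2 * L ^ 3 * (L / z) + C1 * (10 * L) ^ 2 * L ^ 3 * ((1 + L) / U) +
          C0 * (L ^ 2 * (10 * L) + (10 * L) ^ 3 / U) := by rw [hQ]; ring
    have e' : C3 * L ^ 3 = 100 * C1 * L ^ 3 + 200 * C1 * L ^ 3 + 1010 * C0 * L ^ 3 := by rw [hC3]; ring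
    rw [e, e']
    linarith
  -- 4 Q ≤ η m0²
  have hQ4 : 4 * Q ≤ η * m0 ^ 2 := by
    rw [hηm]
    linarith
  have hU48 : 12 * (U : ℝ) ^ 48 ≤ η * N * m0 ^ 2 := by
    have h0 : η * N * m0 ^ 2 = 4 * C3 * L ^ 3 * N := by rw [← hηm]; ring
    rw [h0]
    have h1 : 3 ≤ C3 * U := by
      rw [div_le_iff₀ hC30] at b6
      linarith
    have h2 : (1 : ℝ) ≤ L ^ 3 := one_le_pow₀ (by linarith)
    have h3 : (U : ℝ) ^ 49 ≤ N := by
      refine le_trans ?_ hNr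
      exact pow_le_pow_right₀ (by linarith) (by norm_num)
    calc 12 * (U : ℝ) ^ 48 = 4 * 3 * (U : ℝ) ^ 48 := by ring
      _ ≤ 4 * (C3 * U) * (U : ℝ) ^ 48 := by gcongr
      _ = 4 * C3 * 1 * (U : ℝ) ^ 49 := by ring
      _ ≤ 4 * C3 * L ^ 3 * N := by gcongr
  have hcls : ∀ κ : ℕ, (((Ioc 0 N).filter (fun k => ((((E U (U ^ 10) (par κ).2.1 (par κ).1 (par κ).2.2 z).filter
      (fun i => mo (par κ).1 i ∣ 4 * k + κ + 2 * i.2.1 * i.1.2)).card : ℕ) : ℝ) < m0 / 2)).card : ℝ) ≤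
      2 * η * N := by
    intro κ
    have hty := par_ty κ
    have hV3 : 3 ≤ U ^ 10 := by
      calc 3 ≤ U := b2
        _ ≤ U ^ 10 := Nat.le_self_pow (by norm_num) U
    have g1 := mu_low (V := U ^ 10) (β := (par κ).2.2) hcS hT hS hty b1 hz3 hV3 (by
      rw [hlV, ← hℓ]; linarith)
    have g2 := hV1 U (U ^ 10) (par κ).2.1 (par κ).1 (par κ).2.2 z hty (by omega) le_rfl (by omega)
    have g3 := hV0 U (U ^ 10) (par κ).2.1 (par κ).1 (par κ).2.2 z hty (by omega) le_rfl (by omega)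
    rw [hlV, ← hL] at g2 g3
    rw [hlV, ← hL, ← hℓ] at g1
    refine cls (by omega : 2 ≤ z) hm0p ?_ ?_ hQ4 hU48
    · refine le_trans (le_of_eq ?_) g1
      rw [hm0, hc2]; ring
    · rw [hQ]
      exact add_le_add g2 g3
  -- the bad set
  have hsub : (Icc 1 N).filter (fun n : ℕ => (Pool.Agent.Helper64.Breadth.c n : ℝ) <
      c2 / (2 * 125 * 120 ^ 3) * Real.log N ^ 3 / Real.log (Real.log N) ^ 3) ⊆
      Icc 1 (12 * U ^ 24) ∪ (range 4).biUnion (fun κ =>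
        ((Ioc 0 N).filter (fun k => ((((E U (U ^ 10) (par κ).2.1 (par κ).1 (par κ).2.2 z).filter
      (fun i => mo (par κ).1 i ∣ 4 * k + κ + 2 * i.2.1 * i.1.2)).card : ℕ) : ℝ) < m0 / 2)).image
        (fun k => 4 * k + κ)) := by
    intro n hn
    rw [mem_filter, mem_Icc] at hn
    obtain ⟨⟨hn1, hnN⟩, hnc⟩ := hn
    rw [mem_union, mem_Icc, mem_biUnion]
    rcases Nat.lt_or_ge (12 * U ^ 24) n with h | h
    · right
      refine ⟨n % 4, mem_range.2 (Nat.mod_lt _ (by norm_num)), ?_⟩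
      rw [mem_image]
      have hU24 : 1 ≤ U ^ 24 := Nat.one_le_pow _ _ (by omega)
      refine ⟨n / 4, ?_, by omega⟩
      rw [mem_filter, mem_Ioc]
      refine ⟨⟨by omega, by omega⟩, ?_⟩
      have hn4 : 4 * (n / 4) + n % 4 = n := by omega
      rw [hn4]
      have hbound := hF U (U ^ 10) (par (n % 4)).2.1 (par (n % 4)).1 (par (n % 4)).2.2 z n (by omega)
        (Nat.le_self_pow (by norm_num) U) (by omega) (by
          have : 12 * U ^ 4 * (U ^ 10) ^ 2 = 12 * U ^ 24 := by ring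
          omega) (by
          unfold par
          have h4 : n % 4 < 4 := Nat.mod_lt _ (by norm_num)
          have h5 : n % 4 % 2 = n % 2 := by omega
          split_ifs with q1 q2
          · left; simp; omega
          · right; left; simp; omega
          · right; right; simp; omega)
      have hb2 : ((((E U (U ^ 10) (par (n % 4)).2.1 (par (n % 4)).1 (par (n % 4)).2.2 z).filter
          (fun i => mo (par (n % 4)).1 i ∣ n + 2 * i.2.1 * i.1.2)).card : ℕ) : ℝ) ≤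
          (Pool.Agent.Helper64.Breadth.c n : ℝ) := by exact_mod_cast hbound
      refine lt_of_le_of_lt hb2 (lt_of_lt_of_le hnc ?_)
      exact hthr
    · left; exact ⟨hn1, h⟩
  have hcard := card_le_card hsub
  have h1 : ((Icc 1 (12 * U ^ 24) ∪ (range 4).biUnion (fun κ =>
        ((Ioc 0 N).filter (fun k => ((((E U (U ^ 10) (par κ).2.1 (par κ).1 (par κ).2.2 z).filter
      (fun i => mo (par κ).1 i ∣ 4 * k + κ + 2 * i.2.1 * i.1.2)).card : ℕ) : ℝ) < m0 / 2)).image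
        (fun k => 4 * k + κ))).card : ℝ) ≤ 12 * (U : ℝ) ^ 24 + 4 * (2 * η * N) := by
    have h2 : ((Icc 1 (12 * U ^ 24) ∪ (range 4).biUnion (fun κ =>
        ((Ioc 0 N).filter (fun k => ((((E U (U ^ 10) (par κ).2.1 (par κ).1 (par κ).2.2 z).filter
      (fun i => mo (par κ).1 i ∣ 4 * k + κ + 2 * i.2.1 * i.1.2)).card : ℕ) : ℝ) < m0 / 2)).image
        (fun k => 4 * k + κ))).card) ≤ 12 * U ^ 24 + ∑ κ ∈ range 4,
        ((Ioc 0 N).filter (fun k => ((((E U (U ^ 10) (par κ).2.1 (par κ).1 (par κ).2.2 z).filter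
      (fun i => mo (par κ).1 i ∣ 4 * k + κ + 2 * i.2.1 * i.1.2)).card : ℕ) : ℝ) < m0 / 2)).card := by
      refine (card_union_le _ _).trans ?_
      apply add_le_add
      · simp
      · refine card_biUnion_le.trans ?_
        apply sum_le_sum
        intro κ _
        exact card_image_le
    have h3 : (∑ κ ∈ range 4,
        (((Ioc 0 N).filter (fun k => ((((E U (U ^ 10) (par κ).2.1 (par κ).1 (par κ).2.2 z).filter
      (fun i => mo (par κ).1 i ∣ 4 * k + κ + 2 * i.2.1 * i.1.2)).card : ℕ) : ℝ) < m0 / 2)).card : ℝ)) ≤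
        ∑ _κ ∈ range 4, 2 * η * N := sum_le_sum fun κ _ => hcls κ
    rw [sum_const, card_range, nsmul_eq_mul] at h3
    have h4 := (Nat.cast_le (α := ℝ)).2 h2
    push_cast at h4
    push_cast at h3
    linarith
  have h2 := (Nat.cast_le (α := ℝ)).2 hcard
  have hN0 : (0 : ℝ) ≤ N := Nat.cast_nonneg N
  have h3 : 12 * (U : ℝ) ^ 24 ≤ N * W ^ 6 / Real.log N ^ 3 := by
    rw [le_div_iff₀ (by positivity)]
    have h4 : Real.log N ^ 3 ≤ U / 192 := by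
      have h5 : Real.log N ^ 3 ≤ (120 * L) ^ 3 := pow_le_pow_left₀ hlN0 hlN 3
      rw [le_div_iff₀ (by norm_num)]
      linarith
    have h6 : (1 : ℝ) ≤ W ^ 6 := one_le_pow₀ hW1
    calc 12 * (U : ℝ) ^ 24 * Real.log N ^ 3 ≤ 12 * (U : ℝ) ^ 24 * (U / 192) :=
          mul_le_mul_of_nonneg_left h4 (by positivity)
      _ = (U : ℝ) ^ 25 / 16 := by ring
      _ ≤ (U : ℝ) ^ 25 := div_le_self (by positivity) (by norm_num)
      _ ≤ (U : ℝ) ^ 60 := pow_le_pow_right₀ (by linarith) (by norm_num)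
      _ ≤ N := hNr
      _ = N * 1 := (mul_one _).symm
      _ ≤ N * W ^ 6 := mul_le_mul_of_nonneg_left h6 hN0
  have h5 : 4 * (2 * η * N) ≤ 8 * (E1 * W ^ 6 / Real.log N ^ 3) * N := by
    have := mul_le_mul_of_nonneg_right hηW hN0
    linarith
  have h6 : (1 + 8 * E1) * N * W ^ 6 / Real.log N ^ 3 = N * W ^ 6 / Real.log N ^ 3 +
      8 * (E1 * W ^ 6 / Real.log N ^ 3) * N := by ring
  rw [← hW, h6]
  rw [← hW] at h2
  refine h2.trans (h1.trans ?_)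
  linarith

end Pool.Agent.BR3.NC64
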