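import Pool.Agent.BR3.LowFin64

/-!
# MP_5de915_nt: almost cubic rows, with a rate
-/

set_option autoImplicit false
set_option maxHeartbeats 2000000

namespace Pool.Agent.BR3.NC75

open Finset Pool.Agent.BR3 Pool.Agent.BR3.Low54 Pool.Agent.BR3.LowFin64

/-- `c n` is at least `c (log N) ^ 3 / (log log N) ^ 3` outside a small set -/
def NC : Prop := ∃ c C : ℝ, 0 < c ∧ 0 < C ∧ ∀ N : ℕ, 16 ≤ N →
  (((Icc 1 N).filter (fun n : ℕ => (Pool.Agent.Helper64.Breadth.c n : ℝ) <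
      c * Real.log N ^ 3 / Real.log (Real.log N) ^ 3)).card : ℝ) ≤
    C * N * Real.log (Real.log N) ^ 6 / Real.log N ^ 3

lemma ll16 {N : ℕ} (hN : 16 ≤ N) : 1 ≤ Real.log (Real.log N) := by
  have h1 : (2.7725 : ℝ) ≤ Real.log N := by
    have h2 : Real.log 16 ≤ Real.log N := Real.log_le_log (by norm_num) (by exact_mod_cast hN)
    have h3 : Real.log 16 = 4 * Real.log 2 := by
      rw [show (16 : ℝ) = 2 ^ 4 by norm_num, Real.log_pow]; norm_num
    have h4 := Real.log_two_gt_d9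
    linarith
  have h5 : Real.exp 1 ≤ Real.log N := by
    have := Real.exp_one_lt_d9
    linarith
  have h6 : 0 < Real.log N := by linarith
  rw [Real.le_log_iff_exp_le h6]
  exact h5

theorem nc : RowT → RowS → RowV1 → RowV0 → RowF → NC := by
  classical
  rintro ⟨cT, U₀, hcT, hT⟩ ⟨cS, K, hcS, -, hK1, hS⟩ ⟨C1, hC1, hV1⟩ ⟨C0, hC0, hV0⟩ hF
  obtain ⟨c2, hc2⟩ : ∃ c2 : ℝ, c2 = cT * cS / 4 * 10 := ⟨_, rfl⟩
  have hc20 : 0 < c2 := by rw [hc2]; positivity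
  obtain ⟨C3, hC3⟩ : ∃ C3 : ℝ, C3 = 200 * C1 + 1010 * C0 := ⟨_, rfl⟩
  have hC30 : 0 < C3 := by rw [hC3]; positivity
  -- large U
  have hc : Filter.Tendsto (fun U : ℕ => (U : ℝ)) Filter.atTop Filter.atTop := tendsto_natCast_atTop_atTop
  have hlog : Filter.Tendsto (fun U : ℕ => Real.log (U : ℝ)) Filter.atTop Filter.atTop :=
    Real.tendsto_log_atTop.comp hc
  have e4 : ∀ᶠ L : ℝ in Filter.atTop, K * (5 * Real.log L) ^ 2 ≤ 10 * L := by
    have h1 := (Asymptotics.isLittleO_iff.1 (Real.isLittleO_pow_log_id_atTop (n := 2)))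
      (show (0 : ℝ) < 10 / (25 * K) by positivity)
    filter_upwards [h1, Filter.eventually_ge_atTop (1 : ℝ)] with L h2 h3
    rw [Real.norm_eq_abs, Real.norm_eq_abs, id, abs_of_pos (show 0 < L by linarith)] at h2
    have h4 := (le_abs_self _).trans h2
    have hK0 : 0 < K := by linarith
    calc K * (5 * Real.log L) ^ 2 = 25 * K * Real.log L ^ 2 := by ring
      _ ≤ 25 * K * (10 / (25 * K) * L) := mul_le_mul_of_nonneg_left h4 (by positivity)
      _ = 10 * L := by field_simp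
  have e6 : ∀ᶠ L : ℝ in Filter.atTop, (5 * Real.log L) ^ 3 ≤ c2 * L := by
    have h1 := (Asymptotics.isLittleO_iff.1 (Real.isLittleO_pow_log_id_atTop (n := 3)))
      (show (0 : ℝ) < c2 / 125 by positivity)
    filter_upwards [h1, Filter.eventually_ge_atTop (1 : ℝ)] with L h2 h3
    rw [Real.norm_eq_abs, Real.norm_eq_abs, id, abs_of_pos (show 0 < L by linarith)] at h2
    have h4 := (le_abs_self _).trans h2
    calc (5 * Real.log L) ^ 3 = 125 * Real.log L ^ 3 := by ring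
      _ ≤ 125 * (c2 / 125 * L) := mul_le_mul_of_nonneg_left h4 (by norm_num)
      _ = c2 * L := by ring
  have e5 : ∀ᶠ U : ℝ in Filter.atTop, Real.log U ^ 6 ≤ 1 / 2 * U := by
    have h1 := (Asymptotics.isLittleO_iff.1 (Real.isLittleO_pow_log_id_atTop (n := 6)))
      (show (0 : ℝ) < 1 / 2 by norm_num)
    filter_upwards [h1, Filter.eventually_ge_atTop (1 : ℝ)] with L h2 h3
    rw [Real.norm_eq_abs, Real.norm_eq_abs, id, abs_of_pos (show 0 < L by linarith)] at h2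
    exact (le_abs_self _).trans h2
  have hUev : ∀ᶠ U : ℕ in Filter.atTop, U₀ ≤ U ∧ 3 ≤ U ∧ 3 ≤ Real.log (U : ℝ) ∧
      K * (5 * Real.log (Real.log (U : ℝ))) ^ 2 ≤ 10 * Real.log (U : ℝ) ∧
      (5 * Real.log (Real.log (U : ℝ))) ^ 3 ≤ c2 * Real.log (U : ℝ) ∧ Real.log (U : ℝ) ^ 6 ≤ 1 / 2 * U ∧
      3 / C3 ≤ (U : ℝ) := by
    filter_upwards [Filter.eventually_ge_atTop U₀, Filter.eventually_ge_atTop 3,
      hlog.eventually_ge_atTop 3, hlog.eventually e4, hlog.eventually e6, hc.eventually e5,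
      hc.eventually_ge_atTop (3 / C3)] with U a1 a2 a3 a4 a5 a6 a7
    exact ⟨a1, a2, a3, a4, a5, a6, a7⟩
  obtain ⟨U₂, hU₂⟩ := Filter.eventually_atTop.1 hUev
  obtain ⟨N₀, hN₀⟩ : ∃ N₀ : ℕ, N₀ = (U₂ + 4) ^ 60 := ⟨_, rfl⟩
  obtain ⟨C4, hC4⟩ : ∃ C4 : ℝ, C4 = 4 * C3 * 5 ^ 6 * 120 ^ 3 / c2 ^ 2 := ⟨_, rfl⟩
  have hC40 : 0 < C4 := by rw [hC4]; positivity
  refine ⟨c2 / (2 * 125 * 120 ^ 3), 1 + 8 * C4 + Real.log N₀ ^ 3, by positivity, ?_, fun N hN16 => ?_⟩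
  · have : 0 ≤ Real.log N₀ ^ 3 := pow_nonneg (Real.log_natCast_nonneg _) 3
    linarith
  have hll := ll16 hN16
  have hN16r : (16 : ℝ) ≤ N := by exact_mod_cast hN16
  have hNp : (0 : ℝ) < N := by linarith
  have hlNp : 0 < Real.log N := Real.log_pos (by linarith)
  obtain ⟨ll, hlldef⟩ : ∃ ll : ℝ, ll = Real.log (Real.log N) := ⟨_, rfl⟩
  rw [← hlldef] at hll ⊢
  have hl6 : (1 : ℝ) ≤ ll ^ 6 := one_le_pow₀ hll
  rcases Nat.lt_or_ge N N₀ with hsm | hN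
  · -- small N
    have h1 : (((Icc 1 N).filter (fun n : ℕ => (Pool.Agent.Helper64.Breadth.c n : ℝ) <
      c2 / (2 * 125 * 120 ^ 3) * Real.log N ^ 3 / ll ^ 3)).card : ℝ) ≤ N := by
      have : ((Icc 1 N).filter (fun n : ℕ => (Pool.Agent.Helper64.Breadth.c n : ℝ) <
        c2 / (2 * 125 * 120 ^ 3) * Real.log N ^ 3 / ll ^ 3)).card ≤ N := by
        refine (card_filter_le _ _).trans ?_
        rw [Nat.card_Icc]
        omega
      exact_mod_cast this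
    refine h1.trans ?_
    rw [le_div_iff₀ (by positivity)]
    have h2 : Real.log N ^ 3 ≤ Real.log N₀ ^ 3 :=
      pow_le_pow_left₀ hlNp.le (Real.log_le_log hNp (by exact_mod_cast hsm.le)) 3
    have h3 : (0 : ℝ) ≤ 1 + 8 * C4 + Real.log N₀ ^ 3 := by
      have : 0 ≤ Real.log N₀ ^ 3 := pow_nonneg (Real.log_natCast_nonneg _) 3
      linarith
    calc (N : ℝ) * Real.log N ^ 3 ≤ N * (1 + 8 * C4 + Real.log N₀ ^ 3) := by
          apply mul_le_mul_of_nonneg_left _ hNp.le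
          linarith
      _ = (1 + 8 * C4 + Real.log N₀ ^ 3) * N * 1 := by ring
      _ ≤ (1 + 8 * C4 + Real.log N₀ ^ 3) * N * ll ^ 6 :=
          mul_le_mul_of_nonneg_left hl6 (mul_nonneg h3 hNp.le)
  -- large N
  rw [hN₀] at hN
  obtain ⟨U, hUU, hNr, hlN'⟩ := root2 hN
  clear hN hN₀
  obtain ⟨b1, b2, b3, b4, b5, b6, b7⟩ := hU₂ U hUU
  obtain ⟨L, hL⟩ : ∃ L : ℝ, L = Real.log (U : ℝ) := ⟨_, rfl⟩
  rw [← hL] at b3 b4 b5 b6
  have hL0 : 0 < L := by linarith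
  have hUr : (3 : ℝ) ≤ U := by exact_mod_cast b2
  have hUr0 : (0 : ℝ) < U := by linarith
  have hlogL : 1 ≤ Real.log L := by
    rw [Real.le_log_iff_exp_le hL0]
    have := Real.exp_one_lt_d9
    linarith
  have hLlN : L ≤ Real.log N := by
    have h1 := Real.log_le_log (pow_pos hUr0 60) hNr
    rw [Real.log_pow, ← hL, Nat.cast_ofNat] at h1
    linarith
  have hlLll : Real.log L ≤ ll := by
    rw [hlldef]
    exact Real.log_le_log hL0 hLlN
  have hlV : Real.log ((U ^ 10 : ℕ) : ℝ) = 10 * L := by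
    push_cast
    rw [Real.log_pow, hL]; norm_num
  have hlN : Real.log N ≤ 120 * L := by rw [hL]; exact hlN'
  have hlN0 : 0 ≤ Real.log N := hlNp.le
  -- z
  obtain ⟨z, hzdef⟩ : ∃ z : ℕ, z = ⌈L ^ 4⌉₊ := ⟨_, rfl⟩
  have hz1 : L ^ 4 ≤ z := by rw [hzdef]; exact Nat.le_ceil _
  have hL4 : (81 : ℝ) ≤ L ^ 4 := by
    calc (81 : ℝ) = 3 ^ 4 := by norm_num
      _ ≤ L ^ 4 := pow_le_pow_left₀ (by norm_num) b3 4
  have hz2 : (z : ℝ) ≤ L ^ 5 := by
    have h1 : (z : ℝ) < L ^ 4 + 1 := by rw [hzdef]; exact Nat.ceil_lt_add_one (by positivity)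
    have h2 : L ^ 5 = L ^ 4 * L := by ring
    rw [h2]
    nlinarith
  have hz3 : 3 ≤ z := by
    have : (3 : ℝ) ≤ z := by linarith
    exact_mod_cast this
  have hzr : (0 : ℝ) < z := by linarith
  obtain ⟨ℓ, hℓ⟩ : ∃ ℓ : ℝ, ℓ = Real.log z := ⟨_, rfl⟩
  have hℓ0 : 0 < ℓ := by
    rw [hℓ]
    apply Real.log_pos
    linarith
  have hℓ5 : ℓ ≤ 5 * Real.log L := by
    have h1 := Real.log_le_log hzr hz2
    rw [Real.log_pow] at h1
    rw [hℓ]
    exact_mod_cast h1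
  have hℓll : ℓ ≤ 5 * ll := by linarith
  obtain ⟨m0, hm0⟩ : ∃ m0 : ℝ, m0 = c2 / ℓ ^ 3 * L ^ 3 := ⟨_, rfl⟩
  have hm0p : 0 < m0 := by rw [hm0]; positivity
  have hℓ3 : ℓ ^ 3 ≤ c2 * L := (pow_le_pow_left₀ hℓ0.le hℓ5 3).trans b5
  have hQL : (1 : ℝ) ≤ L ^ 2 := one_le_pow₀ (by linarith)
  obtain ⟨Q, hQ⟩ : ∃ Q : ℝ, Q = C1 * (10 * L) ^ 2 * L ^ 3 * (L / z + (1 + L) / U) +
      C0 * (L ^ 2 * (10 * L) + (10 * L) ^ 3 / U) := ⟨_, rfl⟩
  have hQ3 : Q ≤ C3 * L ^ 3 := by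
    have t1 : L ^ 5 * (L / z) ≤ L ^ 3 := by
      rw [mul_div_assoc', div_le_iff₀ hzr]
      have h1 : L ^ 5 * L = L ^ 2 * L ^ 4 := by ring
      have h2 : L ^ 2 ≤ L ^ 3 := pow_le_pow_right₀ (by linarith) (by norm_num)
      rw [h1]
      exact mul_le_mul h2 hz1 (by positivity) (by positivity)
    have t2 : L ^ 5 * ((1 + L) / U) ≤ L ^ 3 := by
      rw [mul_div_assoc', div_le_iff₀ hUr0]
      have h1 : L ^ 5 * (1 + L) ≤ 2 * L ^ 6 := by
        have : L ^ 5 * (1 + L) ≤ L ^ 5 * (L + L) := mul_le_mul_of_nonneg_left (by linarith) (by positivity)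
        refine this.trans (le_of_eq (by ring))
      have h2 : (1 : ℝ) ≤ L ^ 3 := one_le_pow₀ (by linarith)
      nlinarith
    have t3 : L ^ 2 * (10 * L) + (10 * L) ^ 3 / U ≤ 1010 * L ^ 3 := by
      have e1 : (10 * L) ^ 3 / U ≤ 1000 * L ^ 3 := by
        rw [div_le_iff₀ hUr0]
        have : 0 < L ^ 3 := by positivity
        nlinarith
      have : L ^ 2 * (10 * L) = 10 * L ^ 3 := by ring
      rw [this]; linarith
    have t4 : C1 * (10 * L) ^ 2 * L ^ 3 * (L / z + (1 + L) / U) =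
        100 * C1 * (L ^ 5 * (L / z) + L ^ 5 * ((1 + L) / U)) := by ring
    have t5 : 100 * C1 * (L ^ 5 * (L / z) + L ^ 5 * ((1 + L) / U)) ≤ 100 * C1 * (L ^ 3 + L ^ 3) :=
      mul_le_mul_of_nonneg_left (add_le_add t1 t2) (by positivity)
    have t6 : C0 * (L ^ 2 * (10 * L) + (10 * L) ^ 3 / U) ≤ C0 * (1010 * L ^ 3) :=
      mul_le_mul_of_nonneg_left t3 hC0.le
    rw [hQ, t4, hC3]
    linarith
  obtain ⟨η, hη⟩ : ∃ η : ℝ, η = 4 * C3 * L ^ 3 / m0 ^ 2 := ⟨_, rfl⟩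
  have hη0 : 0 < η := by rw [hη]; positivity
  have hηm : η * m0 ^ 2 = 4 * C3 * L ^ 3 := by rw [hη]; field_simp
  have hQ4 : 4 * Q ≤ η * m0 ^ 2 := by rw [hηm]; linarith
  have hU48 : 12 * (U : ℝ) ^ 48 ≤ η * N * m0 ^ 2 := by
    have h1 : η * N * m0 ^ 2 = 4 * C3 * L ^ 3 * N := by
      calc η * N * m0 ^ 2 = (η * m0 ^ 2) * N := by ring
        _ = _ := by rw [hηm]
    rw [h1]
    have h2 : 3 ≤ C3 * U := by
      rw [div_le_iff₀ hC30] at b7
      linarith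
    have h3 : (1 : ℝ) ≤ L ^ 3 := one_le_pow₀ (by linarith)
    have h4 : (U : ℝ) ≤ (U : ℝ) ^ 12 := by
      calc (U : ℝ) = (U : ℝ) ^ 1 := (pow_one _).symm
        _ ≤ (U : ℝ) ^ 12 := pow_le_pow_right₀ (by linarith) (by norm_num)
    have h5 : 3 ≤ C3 * (U : ℝ) ^ 12 := h2.trans (mul_le_mul_of_nonneg_left h4 hC30.le)
    calc 12 * (U : ℝ) ^ 48 ≤ 4 * (C3 * (U : ℝ) ^ 12) * (U : ℝ) ^ 48 := by
          apply mul_le_mul_of_nonneg_right _ (by positivity)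
          linarith
      _ = 4 * C3 * (1 * (U : ℝ) ^ 60) := by ring
      _ ≤ 4 * C3 * (L ^ 3 * N) := by
          apply mul_le_mul_of_nonneg_left _ (by positivity)
          exact mul_le_mul h3 hNr (by positivity) (by positivity)
      _ = 4 * C3 * L ^ 3 * N := by ring
  have hcls : ∀ κ : ℕ, (((Ioc 0 N).filter (fun k => ((((E U (U ^ 10) (par κ).2.1 (par κ).1 (par κ).2.2 z).filter
      (fun i => mo (par κ).1 i ∣ 4 * k + κ + 2 * i.2.1 * i.1.2)).card : ℕ) : ℝ) < m0 / 2)).card : ℝ) ≤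
      2 * η * N := by
    intro κ
    have hty := par_ty κ
    have hV3 : 3 ≤ U ^ 10 := by
      calc 3 ≤ U := b2
        _ ≤ U ^ 10 := Nat.le_self_pow (by norm_num) U
    have hK0 : 0 ≤ K := by linarith
    have g1 := mu_low (V := U ^ 10) (β := (par κ).2.2) hcS hT hS hty b1 hz3 hV3 (by
      rw [hlV, ← hℓ]
      calc K * ℓ ^ 2 ≤ K * (5 * Real.log L) ^ 2 :=
            mul_le_mul_of_nonneg_left (pow_le_pow_left₀ hℓ0.le hℓ5 2) hK0
        _ ≤ 10 * L := b4)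
    have g2 := hV1 U (U ^ 10) (par κ).2.1 (par κ).1 (par κ).2.2 z hty (by omega) le_rfl (by omega)
    have g3 := hV0 U (U ^ 10) (par κ).2.1 (par κ).1 (par κ).2.2 z hty (by omega) le_rfl (by omega)
    rw [hlV, ← hL] at g2 g3
    rw [hlV, ← hL, ← hℓ] at g1
    refine cls (by omega : 2 ≤ z) hm0p ?_ ?_ hQ4 hU48
    · refine le_trans (le_of_eq ?_) g1
      rw [hm0, hc2]; ring
    · rw [hQ]
      exact add_le_add g2 g3
  -- the threshold
  have hthr : c2 / (2 * 125 * 120 ^ 3) * Real.log N ^ 3 / ll ^ 3 ≤ m0 / 2 := by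
    have h6 : Real.log N ^ 3 ≤ (120 * L) ^ 3 := pow_le_pow_left₀ hlN0 hlN 3
    have h7 : ℓ ^ 3 ≤ (5 * ll) ^ 3 := pow_le_pow_left₀ hℓ0.le hℓll 3
    have hll0 : 0 < ll := by linarith
    have h8 : m0 / 2 = c2 * L ^ 3 / (2 * ℓ ^ 3) := by
      rw [hm0]; field_simp
    rw [h8, div_le_div_iff₀ (by positivity) (by positivity)]
    calc c2 / (2 * 125 * 120 ^ 3) * Real.log N ^ 3 * (2 * ℓ ^ 3)
        ≤ c2 / (2 * 125 * 120 ^ 3) * (120 * L) ^ 3 * (2 * (5 * ll) ^ 3) := by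
          apply mul_le_mul _ _ (by positivity) (by positivity)
          · exact mul_le_mul_of_nonneg_left h6 (by positivity)
          · linarith
      _ = c2 * L ^ 3 * ll ^ 3 := by ring
  -- the bad set
  have hsub : (Icc 1 N).filter (fun n : ℕ => (Pool.Agent.Helper64.Breadth.c n : ℝ) <
      c2 / (2 * 125 * 120 ^ 3) * Real.log N ^ 3 / ll ^ 3) ⊆
      Icc 1 (12 * U ^ 24) ∪ (range 4).biUnion (fun κ =>
        ((Ioc 0 N).filter (fun k => ((((E U (U ^ 10) (par κ).2.1 (par κ).1 (par κ).2.2 z).filter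
      (fun i => mo (par κ).1 i ∣ 4 * k + κ + 2 * i.2.1 * i.1.2)).card : ℕ) : ℝ) < m0 / 2)).image
        (fun k => 4 * k + κ)) := by
    intro n hn
    rw [mem_filter, mem_Icc] at hn
    obtain ⟨⟨hn1, hnN⟩, hnc⟩ := hn
    rw [mem_union, mem_Icc, mem_biUnion]
    rcases Nat.lt_or_ge (12 * U ^ 24) n with h | h
    · right
      refine ⟨n % 4, mem_range.2 (Nat.mod_lt _ (by norm_num)), ?_⟩
      rw [mem_image]
      have hU24 : 1 ≤ U ^ 24 := Nat.one_le_pow _ _ (by omega)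
      refine ⟨n / 4, ?_, by omega⟩
      rw [mem_filter, mem_Ioc]
      refine ⟨⟨by omega, by omega⟩, ?_⟩
      have hn4 : 4 * (n / 4) + n % 4 = n := by omega
      rw [hn4]
      have hbound := hF U (U ^ 10) (par (n % 4)).2.1 (par (n % 4)).1 (par (n % 4)).2.2 z n (by omega)
        (Nat.le_self_pow (by norm_num) U) (by omega) (by
          have : 12 * U ^ 4 * (U ^ 10) ^ 2 = 12 * U ^ 24 := by ring
          omega) (by
          unfold par
          have h4 : n % 4 < 4 := Nat.mod_lt _ (by norm_num)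
          have h5 : n % 4 % 2 = n % 2 := by omega
          split_ifs with q1 q2
          · left; simp; omega
          · right; left; simp; omega
          · right; right; simp; omega)
      have hb2 : ((((E U (U ^ 10) (par (n % 4)).2.1 (par (n % 4)).1 (par (n % 4)).2.2 z).filter
          (fun i => mo (par (n % 4)).1 i ∣ n + 2 * i.2.1 * i.1.2)).card : ℕ) : ℝ) ≤
          (Pool.Agent.Helper64.Breadth.c n : ℝ) := by exact_mod_cast hbound
      exact lt_of_le_of_lt hb2 (lt_of_lt_of_le hnc hthr)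
    · left; exact ⟨hn1, h⟩
  have hcard := card_le_card hsub
  have h1 : ((Icc 1 (12 * U ^ 24) ∪ (range 4).biUnion (fun κ =>
        ((Ioc 0 N).filter (fun k => ((((E U (U ^ 10) (par κ).2.1 (par κ).1 (par κ).2.2 z).filter
      (fun i => mo (par κ).1 i ∣ 4 * k + κ + 2 * i.2.1 * i.1.2)).card : ℕ) : ℝ) < m0 / 2)).image
        (fun k => 4 * k + κ))).card : ℝ) ≤ 12 * (U : ℝ) ^ 24 + 4 * (2 * η * N) := by
    have h2 : ((Icc 1 (12 * U ^ 24) ∪ (range 4).biUnion (fun κ =>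
        ((Ioc 0 N).filter (fun k => ((((E U (U ^ 10) (par κ).2.1 (par κ).1 (par κ).2.2 z).filter
      (fun i => mo (par κ).1 i ∣ 4 * k + κ + 2 * i.2.1 * i.1.2)).card : ℕ) : ℝ) < m0 / 2)).image
        (fun k => 4 * k + κ))).card) ≤ 12 * U ^ 24 + ∑ κ ∈ range 4,
        ((Ioc 0 N).filter (fun k => ((((E U (U ^ 10) (par κ).2.1 (par κ).1 (par κ).2.2 z).filter
      (fun i => mo (par κ).1 i ∣ 4 * k + κ + 2 * i.2.1 * i.1.2)).card : ℕ) : ℝ) < m0 / 2)).card := by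
      refine (card_union_le _ _).trans ?_
      apply add_le_add
      · simp
      · refine card_biUnion_le.trans ?_
        apply sum_le_sum
        intro κ _
        exact card_image_le
    have h3 : (∑ κ ∈ range 4,
        (((Ioc 0 N).filter (fun k => ((((E U (U ^ 10) (par κ).2.1 (par κ).1 (par κ).2.2 z).filter
      (fun i => mo (par κ).1 i ∣ 4 * k + κ + 2 * i.2.1 * i.1.2)).card : ℕ) : ℝ) < m0 / 2)).card : ℝ)) ≤
        ∑ _κ ∈ range 4, 2 * η * N := sum_le_sum fun κ _ => hcls κ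
    rw [sum_const, card_range, nsmul_eq_mul] at h3
    have h4 := (Nat.cast_le (α := ℝ)).2 h2
    push_cast at h4
    push_cast at h3
    linarith
  have h2 := (Nat.cast_le (α := ℝ)).2 hcard
  refine h2.trans (h1.trans ?_)
  -- the two terms
  have hlN3 : 0 < Real.log N ^ 3 := by positivity
  have k1 : 12 * (U : ℝ) ^ 24 ≤ 1 * N * ll ^ 6 / Real.log N ^ 3 := by
    rw [le_div_iff₀ hlN3]
    have hLU : L ≤ U := by rw [hL]; exact Real.log_le_self hUr0.le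
    have h3 : Real.log N ^ 3 ≤ (120 * (U : ℝ)) ^ 3 :=
      pow_le_pow_left₀ hlN0 (hlN.trans (mul_le_mul_of_nonneg_left hLU (by norm_num))) 3
    have h4 : (12 * 120 ^ 3 : ℝ) ≤ (U : ℝ) ^ 33 := by
      calc (12 * 120 ^ 3 : ℝ) ≤ 3 ^ 33 := by norm_num
        _ ≤ (U : ℝ) ^ 33 := pow_le_pow_left₀ (by norm_num) hUr 33
    calc 12 * (U : ℝ) ^ 24 * Real.log N ^ 3 ≤ 12 * (U : ℝ) ^ 24 * (120 * (U : ℝ)) ^ 3 :=
          mul_le_mul_of_nonneg_left h3 (by positivity)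
      _ = (12 * 120 ^ 3) * (U : ℝ) ^ 27 := by ring
      _ ≤ (U : ℝ) ^ 33 * (U : ℝ) ^ 27 := mul_le_mul_of_nonneg_right h4 (by positivity)
      _ = (U : ℝ) ^ 60 := by ring
      _ ≤ N := hNr
      _ = 1 * N * 1 := by ring
      _ ≤ 1 * N * ll ^ 6 := mul_le_mul_of_nonneg_left hl6 (by positivity)
  have k2 : η ≤ C4 * ll ^ 6 / Real.log N ^ 3 := by
    have h3 : η = 4 * C3 * ℓ ^ 6 / (c2 ^ 2 * L ^ 3) := by
      rw [hη, hm0]; field_simp
    rw [h3, div_le_div_iff₀ (by positivity) hlN3]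
    have h6 : Real.log N ^ 3 ≤ (120 * L) ^ 3 := pow_le_pow_left₀ hlN0 hlN 3
    have h7 : ℓ ^ 6 ≤ (5 * ll) ^ 6 := pow_le_pow_left₀ hℓ0.le hℓll 6
    calc 4 * C3 * ℓ ^ 6 * Real.log N ^ 3 ≤ 4 * C3 * (5 * ll) ^ 6 * (120 * L) ^ 3 := by
          apply mul_le_mul _ h6 (by positivity) (by positivity)
          exact mul_le_mul_of_nonneg_left h7 (by positivity)
      _ = C4 * ll ^ 6 * (c2 ^ 2 * L ^ 3) := by
          rw [hC4]
          field_simp
  have k3 : 4 * (2 * η * N) ≤ 8 * C4 * N * ll ^ 6 / Real.log N ^ 3 := by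
    have h3 : 8 * C4 * N * ll ^ 6 / Real.log N ^ 3 = 8 * N * (C4 * ll ^ 6 / Real.log N ^ 3) := by ring
    rw [h3]
    have h4 : 8 * N * η ≤ 8 * N * (C4 * ll ^ 6 / Real.log N ^ 3) :=
      mul_le_mul_of_nonneg_left k2 (by positivity)
    linarith
  have k4 : (1 + 8 * C4 + Real.log N₀ ^ 3) * N * ll ^ 6 / Real.log N ^ 3 =
      1 * N * ll ^ 6 / Real.log N ^ 3 + 8 * C4 * N * ll ^ 6 / Real.log N ^ 3 +
      Real.log N₀ ^ 3 * N * ll ^ 6 / Real.log N ^ 3 := by ring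
  have k5 : 0 ≤ Real.log N₀ ^ 3 * N * ll ^ 6 / Real.log N ^ 3 := by
    have : 0 ≤ Real.log N₀ ^ 3 := pow_nonneg (Real.log_natCast_nonneg _) 3
    positivity
  rw [k4]
  linarith

end Pool.Agent.BR3.NC75
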