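import Pool.Agent.BR3.Fin3

/-!
# Rotation of the factorizations
-/

set_option autoImplicit false

namespace Pool.Agent.BR3

open Pool.Agent.Helper13.LT

variable {n : ℕ}

/-- Rotation. -/
def rt (φ : Fin n → Fin n) (f : Fin n × Fin n × Fin n) : Fin n × Fin n × Fin n :=
  (f.2.1, f.2.2, φ f.1)

theorem rel_of_rot {G : Type} [Group G] (φ : Fin n → Fin n) (v : Fin n → G) (δ : G)
    (hφ : ∀ a, δ * v (φ a) = v a * δ) (k : ℕ) (f : Fin n × Fin n × Fin n)
    (h : v f.1 * v f.2.1 * v f.2.2 = δ) :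
    v ((rt φ)^[k] f).1 * v ((rt φ)^[k] f).2.1 * v ((rt φ)^[k] f).2.2 = δ := by
  induction k with
  | zero => exact h
  | succ k ih =>
    rw [Function.iterate_succ_apply']
    generalize (rt φ)^[k] f = g at ih ⊢
    change v g.2.1 * v g.2.2 * v (φ g.1) = δ
    have h1 : v g.2.1 * v g.2.2 = (v g.1)⁻¹ * δ := by
      rw [← ih]
      group
    rw [h1, mul_assoc, hφ, inv_mul_cancel_left]

/-- A homomorphism of the dual group from the relations for the representatives. -/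
theorem exists_dualLift {G : Type} [Group G] (L : List (Fin n × Fin n × Fin n)) (φ : Fin n → Fin n)
    (reps : List (Fin n × Fin n × Fin n)) (K : ℕ)
    (hL : ∀ f ∈ L, ∃ g ∈ reps, ∃ k < K, (rt φ)^[k] g = f) (v : Fin n → G) (δ : G)
    (hφ : ∀ a, δ * v (φ a) = v a * δ) (h0 : ∀ f ∈ reps, v f.1 * v f.2.1 * v f.2.2 = δ) :
    ∃ F : DG (fun a b c => (a, b, c) ∈ L) →* G, ∀ a, F (at' _ a) = v a := by
  have key : ∀ a b c, (a, b, c) ∈ L → v a * v b * v c = δ := by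
    intro a b c h
    obtain ⟨g, hg, k, _, hk⟩ := hL _ h
    have h1 := rel_of_rot φ v δ hφ k g (h0 g hg)
    rw [hk] at h1
    exact h1
  exact ⟨dualLift v fun a b c a' b' c' h h' => (key _ _ _ h).trans (key _ _ _ h').symm,
    fun a => dualLift_at v _ a⟩

/-- The dual data from tables. -/
theorem dual3_of {W : Type} [Group W] (L : List (Fin n × Fin n × Fin n)) (φ : Equiv.Perm (Fin n))
    (w : Fin n → W) (d : W) (hne : L ≠ []) (hfirst : ∀ a, ∃ f ∈ L, f.1 = a)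
    (hrot : ∀ f ∈ L, rt φ f ∈ L) (hrot' : ∀ f ∈ L, (φ.symm f.2.2, f.1, f.2.1) ∈ L)
    (hinj : Function.Injective w) (hprod : ∀ f ∈ L, w f.1 * w f.2.1 * w f.2.2 = d)
    (hg : ∀ f ∈ L, ∀ g ∈ L, f.1 = g.1 → f.2.2 ≠ g.2.2 → ∀ h ∈ L, h.2.2 = f.2.2 → h.1 ≠ f.1 →
      ∀ b, (h.1, b, g.2.2) ∉ L) : Dual3 (fun a b c => (a, b, c) ∈ L) φ w where
  ne := by
    obtain ⟨f, hf⟩ := List.exists_mem_of_ne_nil L hne
    exact ⟨f.1, f.2.1, f.2.2, hf⟩
  first a := by
    obtain ⟨f, hf, rfl⟩ := hfirst a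
    exact ⟨f.2.1, f.2.2, hf⟩
  rot a b c := by
    refine ⟨fun h => hrot _ h, fun h => ?_⟩
    have := hrot' _ h
    simpa using this
  inj := hinj
  prod a b c a' b' c' h h' := (hprod _ h).trans (hprod _ h').symm
  girth a a' c c' b₁ b₂ b₃ b₄ h1 h2 h3 h4 := by
    by_contra hc
    push Not at hc
    exact hg _ h1 _ h2 rfl hc.2 _ h3 rfl hc.1.symm _ h4

end Pool.Agent.BR3
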