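import Pool.Agent.SPA.Stmts
import Pool.Agent.Helper64.Breadth.Defs

/-!
# MP_5de915_nt: the order of `c n` for almost all `n` (statements of the rows)

`n = (4 a b c - a - c) X - 2 b c`. Index `i = ((a, c), (b, 0))`. `s = 1, α = 0` for odd `n`,
`s = 2, α = 1` for even `n`.
-/

set_option autoImplicit false

namespace Pool.Agent.BR3

open Finset

/-- the pairs `(a, c)` -/
def T (U α : ℕ) : Finset (ℕ × ℕ) :=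
  ((Ioc U (U ^ 2)) ×ˢ (Ioc U (U ^ 2))).filter
    (fun p => p.1 ≡ α [MOD 4] ∧ p.2 ≡ 1 [MOD 4] ∧ Nat.Coprime p.1 p.2)

/-- the modulus `(4 a b c - a - c) / s`, written `A b - B` -/
def mo (s : ℕ) (i : (ℕ × ℕ) × (ℕ × ℕ)) : ℕ := (4 * i.1.1 * i.1.2 / s) * i.2.1 - (i.1.1 + i.1.2) / s

/-- the index set -/
def E (U V α s β z : ℕ) : Finset ((ℕ × ℕ) × (ℕ × ℕ)) :=
  ((T U α) ×ˢ ((Ioc V (V ^ 2)) ×ˢ ({0} : Finset ℕ))).filter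
    (fun i => i.2.1 ≡ β [MOD 2] ∧ z < (mo s i).minFac)

/-- the two parity types -/
def Ty (s α : ℕ) : Prop := (s = 1 ∧ α = 0) ∨ (s = 2 ∧ α = 1)

/-- row T: the coprime pairs -/
def RowT : Prop := ∃ c : ℝ, ∃ U₀ : ℕ, 0 < c ∧ ∀ U α : ℕ, U₀ ≤ U →
    c * Real.log U ^ 2 ≤ ∑ p ∈ T U α, (1 : ℝ) / ((p.1 : ℝ) * p.2)

/-- row S: the sieve from below for `A b - B` -/
def RowS : Prop := ∃ c K : ℝ, 0 < c ∧ c ≤ 1 ∧ 1 ≤ K ∧ ∀ A B z V β : ℕ, 2 ∣ A → 1 ≤ A → B ≤ A → Nat.Coprime A B →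
    3 ≤ z → 3 ≤ V → K * Real.log z ^ 2 ≤ Real.log V →
    c / Real.log z ^ 3 * Real.log V ≤
      ∑ b ∈ (Ioc V (V ^ 2)).filter (fun b => b ≡ β [MOD 2] ∧ z < (A * b - B).minFac), (1 : ℝ) / b

/-- row V1: different `(a, c)` -/
def RowV1 : Prop := ∃ C : ℝ, 0 < C ∧ ∀ U V α s β z : ℕ, Ty s α → 2 ≤ U → U ^ 10 ≤ V → 2 ≤ z →
    ∑ i ∈ E U V α s β z, ∑ j ∈ (E U V α s β z).filter
        (fun j => j.1 ≠ i.1 ∧ 1 < Nat.gcd (mo s i) (mo s j) ∧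
          2 * i.2.1 * i.1.2 ≡ 2 * j.2.1 * j.1.2 [MOD Nat.gcd (mo s i) (mo s j)]),
        ((Nat.gcd (mo s i) (mo s j) : ℕ) : ℝ) / ((mo s i : ℝ) * mo s j)
    ≤ C * Real.log V ^ 2 * Real.log U ^ 3 * (Real.log U / z + (1 + Real.log U) / U)

/-- row V0: the same `(a, c)` -/
def RowV0 : Prop := ∃ C : ℝ, 0 < C ∧ ∀ U V α s β z : ℕ, Ty s α → 2 ≤ U → U ^ 10 ≤ V → 2 ≤ z →
    ∑ i ∈ E U V α s β z, ∑ j ∈ (E U V α s β z).filter (fun j => j.1 = i.1),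
        ((Nat.gcd (mo s i) (mo s j) : ℕ) : ℝ) / ((mo s i : ℝ) * mo s j)
    ≤ C * (Real.log U ^ 2 * Real.log V + Real.log V ^ 3 / U)

/-- row F: each divisor gives an element of row `n` -/
def RowF : Prop := ∀ U V α s β z n : ℕ, 2 ≤ U → U ≤ V → 2 ≤ z → 12 * U ^ 4 * V ^ 2 ≤ n →
    ((s = 1 ∧ α = 0 ∧ n % 2 = 1) ∨ (s = 2 ∧ α = 1 ∧ β = 1 ∧ n % 4 = 0) ∨ (s = 2 ∧ α = 1 ∧ β = 0 ∧ n % 4 = 2)) →
    ((E U V α s β z).filter (fun i => mo s i ∣ n + 2 * i.2.1 * i.1.2)).card ≤ Pool.Agent.Helper64.Breadth.c n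

/-- row Up: the upper bound on average -/
def RowUp : Prop := ∃ C : ℝ, 0 < C ∧ ∀ N : ℕ, 2 ≤ N →
    ∑ n ∈ Icc 1 N, (Pool.Agent.Helper64.Breadth.c n : ℝ) ≤ C * N * Real.log N ^ 3

/-- the order of `c n` for almost all `n` -/
def Main : Prop := ∀ ε : ℝ, 0 < ε → ∃ δ : ℝ, 0 < δ ∧ ∃ N₀ : ℕ, ∀ N : ℕ, N₀ ≤ N →
    (((Icc 1 N).filter (fun n : ℕ => ¬ (δ * Real.log n ^ 3 ≤ (Pool.Agent.Helper64.Breadth.c n : ℝ) ∧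
        (Pool.Agent.Helper64.Breadth.c n : ℝ) ≤ Real.log n ^ 3 / δ))).card : ℝ) ≤ ε * N

/-- the lower half (uses `RowD` of SPA with `k`, `n = 4 k + κ`, `r = (κ + 2 b c) ((m + 1) / 2)²`) -/
def RowLow : Prop := RowT → RowS → RowV1 → RowV0 → RowF → ∀ ε : ℝ, 0 < ε → ∃ δ : ℝ, 0 < δ ∧ ∃ N₀ : ℕ, ∀ N : ℕ, N₀ ≤ N →
    (((Icc 1 N).filter (fun n : ℕ => (Pool.Agent.Helper64.Breadth.c n : ℝ) < δ * Real.log N ^ 3)).card : ℝ) ≤ ε * N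

end Pool.Agent.BR3
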