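import Pool.Agent.BR3.Stmts
import Pool.Agent.SPA.A46

/-!
# MP_5de915_nt, row T (helper92): the coprime pairs
-/

set_option autoImplicit false

namespace Pool.Agent.BR3.T92

open Finset

theorem rowA : Pool.Agent.SPA.RowA := Pool.Agent.SPA.a46

/-- all reciprocals in `(U, U²]` -/
theorem all (U : ℕ) (hU : 1 ≤ U) : Real.log U - 1 / U ≤ ∑ v ∈ Ioc U (U ^ 2), (1 : ℝ) / v := by
  have key : ∀ M : ℕ, U ≤ M → Real.log (M + 1) - Real.log (U + 1) ≤ ∑ v ∈ Ioc U M, (1 : ℝ) / v := by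
    intro M hM
    induction M, hM using Nat.le_induction with
    | base => simp
    | succ M hM ih =>
      rw [← Finset.insert_Ioc_right_eq_Ioc_add_one (by omega), sum_insert (by simp)]
      have hM0 : (0 : ℝ) < (M : ℝ) + 1 := by positivity
      have h1 : Real.log ((M : ℝ) + 1 + 1) - Real.log (M + 1) ≤ 1 / (M + 1) := by
        rw [← Real.log_div (by positivity) (by positivity)]
        have h2 := Real.log_le_sub_one_of_pos (show 0 < ((M : ℝ) + 1 + 1) / (M + 1) by positivity)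
        have h3 : ((M : ℝ) + 1 + 1) / (M + 1) - 1 = 1 / (M + 1) := by field_simp; ring
        linarith
      push_cast
      linarith
  have h := key (U ^ 2) (by nlinarith)
  have hU0 : (0 : ℝ) < U := by exact_mod_cast hU
  have h1 : Real.log (((U ^ 2 : ℕ) : ℝ)) ≤ Real.log (((U ^ 2 : ℕ) : ℝ) + 1) :=
    Real.log_le_log (by positivity) (by linarith)
  have h2 : Real.log (((U ^ 2 : ℕ) : ℝ)) = 2 * Real.log U := by push_cast; rw [Real.log_pow]; norm_num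
  have h3 : Real.log ((U : ℝ) + 1) - Real.log U ≤ 1 / U := by
    rw [← Real.log_div (by positivity) (by positivity)]
    have h4 := Real.log_le_sub_one_of_pos (show 0 < ((U : ℝ) + 1) / U by positivity)
    have h5 : ((U : ℝ) + 1) / U - 1 = 1 / U := by field_simp; ring
    linarith
  linarith

/-- a class modulo 4 from below -/
theorem low (U α : ℕ) (hU : 1 ≤ U) :
    Real.log U / 4 - 4 / U ≤ ∑ v ∈ (Ioc U (U ^ 2)).filter (fun v => v ≡ α [MOD 4]), (1 : ℝ) / v := by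
  have h0 := all U hU
  have hsplit : ∑ v ∈ Ioc U (U ^ 2), (1 : ℝ) / v =
      ∑ v ∈ (Ioc U (U ^ 2)).filter (fun v => v ≡ α [MOD 4]), (1 : ℝ) / v +
      ∑ v ∈ (Ioc U (U ^ 2)).filter (fun v => ¬ v ≡ α [MOD 4]), (1 : ℝ) / v :=
    (sum_filter_add_sum_filter_not _ _ _).symm
  have hsub : (Ioc U (U ^ 2)).filter (fun v => ¬ v ≡ α [MOD 4]) ⊆
      ((Ioc U (U ^ 2)).filter (fun v => v ≡ α + 1 [MOD 4]) ∪ (Ioc U (U ^ 2)).filter (fun v => v ≡ α + 2 [MOD 4])) ∪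
        (Ioc U (U ^ 2)).filter (fun v => v ≡ α + 3 [MOD 4]) := by
    intro v hv
    simp only [mem_filter, mem_union] at hv ⊢
    obtain ⟨h1, h2⟩ := hv
    have h3 : ¬ v % 4 = α % 4 := h2
    have h4 : v ≡ α + 1 [MOD 4] ∨ v ≡ α + 2 [MOD 4] ∨ v ≡ α + 3 [MOD 4] := by
      show v % 4 = (α + 1) % 4 ∨ v % 4 = (α + 2) % 4 ∨ v % 4 = (α + 3) % 4
      omega
    tauto
  have h1 := rowA U 4 (α + 1) hU (by norm_num)
  have h2 := rowA U 4 (α + 2) hU (by norm_num)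
  have h3 := rowA U 4 (α + 3) hU (by norm_num)
  have hle : ∑ v ∈ (Ioc U (U ^ 2)).filter (fun v => ¬ v ≡ α [MOD 4]), (1 : ℝ) / v ≤
      3 * (Real.log U / 4 + 1 / U) := by
    refine (sum_le_sum_of_subset_of_nonneg hsub fun i _ _ => by positivity).trans ?_
    have hn : ∀ s t : Finset ℕ, ∑ v ∈ s ∪ t, (1 : ℝ) / v ≤ ∑ v ∈ s, (1 : ℝ) / v + ∑ v ∈ t, (1 : ℝ) / v := by
      intro s t
      have h := sum_union_inter (s₁ := s) (s₂ := t) (f := fun v : ℕ => (1 : ℝ) / v)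
      have h' : 0 ≤ ∑ v ∈ s ∩ t, (1 : ℝ) / v := sum_nonneg fun i _ => by positivity
      linarith
    have e1 := hn ((Ioc U (U ^ 2)).filter (fun v => v ≡ α + 1 [MOD 4]) ∪
      (Ioc U (U ^ 2)).filter (fun v => v ≡ α + 2 [MOD 4])) ((Ioc U (U ^ 2)).filter (fun v => v ≡ α + 3 [MOD 4]))
    have e2 := hn ((Ioc U (U ^ 2)).filter (fun v => v ≡ α + 1 [MOD 4]))
      ((Ioc U (U ^ 2)).filter (fun v => v ≡ α + 2 [MOD 4]))
    push_cast at h1 h2 h3
    linarith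
  have e3 : (4 : ℝ) / U = 4 * (1 / U) := by ring
  rw [e3]
  linarith

/-- multiples of an odd `d` in a class modulo 4 -/
theorem up (U α d : ℕ) (hU : 1 ≤ U) (hd : Odd d) :
    ∑ v ∈ (Ioc U (U ^ 2)).filter (fun v => v ≡ α [MOD 4] ∧ d ∣ v), (1 : ℝ) / v ≤
      Real.log U / (4 * d) + 1 / U := by
  have hd0 : 0 < d := hd.pos
  have hco : Nat.Coprime 4 d := by
    have h : Nat.Coprime 2 d := Nat.coprime_two_left.2 hd
    exact Nat.Coprime.pow_left 2 h
  obtain ⟨r, hr1, hr2⟩ := Nat.chineseRemainder hco α 0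
  have h := rowA U (4 * d) r hU (by omega)
  push_cast at h
  refine le_trans (sum_le_sum_of_subset_of_nonneg ?_ fun i _ _ => by positivity) h
  intro v hv
  simp only [mem_filter] at hv ⊢
  refine ⟨hv.1, ?_⟩
  rw [← Nat.modEq_and_modEq_iff_modEq_mul hco]
  refine ⟨hv.2.1.trans hr1.symm, ?_⟩
  have h1 : v ≡ 0 [MOD d] := (Nat.modEq_zero_iff_dvd).2 hv.2.2
  exact h1.trans hr2.symm

/-- odd squares -/
theorem sqs (n : ℕ) : ∑ d ∈ (Icc 3 n).filter Odd, (1 : ℝ) / (d : ℝ) ^ 2 ≤ 1 / 4 := by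
  have key : ∀ k : ℕ, ∑ d ∈ (Icc 3 (2 * k + 2)).filter Odd, (1 : ℝ) / (d : ℝ) ^ 2 ≤ 1 / 4 - 1 / (4 * (k + 1)) := by
    intro k
    induction k with
    | zero =>
      have : (Icc 3 (2 * 0 + 2)).filter Odd = ∅ := by decide
      rw [this]
      norm_num
    | succ k ih =>
      have e : (Icc 3 (2 * (k + 1) + 2)).filter Odd = insert (2 * k + 3) ((Icc 3 (2 * k + 2)).filter Odd) := by
        ext d
        simp only [mem_filter, mem_Icc, mem_insert, Nat.odd_iff]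
        omega
      rw [e, sum_insert (by simp)]
      have hk : (0 : ℝ) ≤ k := Nat.cast_nonneg k
      have h1 : 1 / (((2 * k + 3 : ℕ) : ℝ)) ^ 2 ≤ 1 / (4 * ((k : ℝ) + 1)) - 1 / (4 * (((k + 1 : ℕ) : ℝ) + 1)) := by
        push_cast
        rw [div_sub_div _ _ (by positivity) (by positivity), div_le_div_iff₀ (by positivity) (by positivity)]
        nlinarith
      linarith
  have h := key n
  have h1 : ∑ d ∈ (Icc 3 n).filter Odd, (1 : ℝ) / (d : ℝ) ^ 2 ≤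
      ∑ d ∈ (Icc 3 (2 * n + 2)).filter Odd, (1 : ℝ) / (d : ℝ) ^ 2 := by
    apply sum_le_sum_of_subset_of_nonneg _ fun i _ _ => by positivity
    intro d hd
    simp only [mem_filter, mem_Icc] at hd ⊢
    exact ⟨⟨hd.1.1, by omega⟩, hd.2⟩
  have h2 : 0 ≤ 1 / (4 * ((n : ℝ) + 1)) := by positivity
  linarith

/-- row T -/
theorem rowT92 : RowT := by
  classical
  refine ⟨1 / 64, 2 ^ 24, by norm_num, fun U α hU => ?_⟩
  have hU1 : 1 ≤ U := le_trans (by norm_num) hU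
  have hUR : ((2 : ℝ) ^ 24) ≤ U := by exact_mod_cast hU
  have hU0 : (0 : ℝ) < U := by linarith [show (0 : ℝ) < 2 ^ 24 by norm_num]
  obtain ⟨L, hL⟩ : ∃ L, L = Real.log U := ⟨_, rfl⟩
  have hL16 : 16 ≤ L := by
    have h1 : Real.log ((2 : ℝ) ^ 24) ≤ L := by rw [hL]; exact Real.log_le_log (by norm_num) hUR
    rw [Real.log_pow] at h1
    have := Real.log_two_gt_d9
    push_cast at h1
    linarith
  have hLU : L ≤ U := by
    have := Real.log_le_sub_one_of_pos hU0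
    linarith
  rw [← hL]
  obtain ⟨A, hA⟩ : ∃ A, A = (Ioc U (U ^ 2)).filter (fun v => v ≡ α [MOD 4]) := ⟨_, rfl⟩
  obtain ⟨Cc, hC⟩ : ∃ Cc, Cc = (Ioc U (U ^ 2)).filter (fun v => v ≡ 1 [MOD 4]) := ⟨_, rfl⟩
  obtain ⟨w, hw⟩ : ∃ w : ℕ × ℕ → ℝ, w = fun p => (1 : ℝ) / ((p.1 : ℝ) * p.2) := ⟨_, rfl⟩
  have hw0 : ∀ p, 0 ≤ w p := fun p => by rw [hw]; positivity
  have hT : T U α = (A ×ˢ Cc).filter (fun p => Nat.Coprime p.1 p.2) := by
    rw [hA, hC]
    ext p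
    simp only [T, mem_filter, mem_product]
    tauto
  have hfull : ∑ p ∈ A ×ˢ Cc, w p = (∑ a ∈ A, (1 : ℝ) / a) * (∑ c ∈ Cc, (1 : ℝ) / c) := by
    rw [sum_mul_sum, sum_product]
    refine sum_congr rfl fun a _ => sum_congr rfl fun c _ => ?_
    rw [hw]
    simp only
    rw [one_div_mul_one_div]
  obtain ⟨D, hD⟩ : ∃ D, D = (Icc 3 (U ^ 2)).filter Odd := ⟨_, rfl⟩
  -- the pairs with a common factor
  have hnot : ∑ p ∈ (A ×ˢ Cc).filter (fun p => ¬ Nat.Coprime p.1 p.2), w p ≤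
      ∑ d ∈ D, (L / (4 * d) + 1 / U) ^ 2 := by
    have h1 : ∀ p ∈ (A ×ˢ Cc).filter (fun p => ¬ Nat.Coprime p.1 p.2),
        w p ≤ ∑ d ∈ D, if d ∣ p.1 ∧ d ∣ p.2 then w p else 0 := by
      intro p hp
      rw [mem_filter, mem_product, hA, hC, mem_filter, mem_filter, mem_Ioc, mem_Ioc] at hp
      obtain ⟨⟨⟨hp1, -⟩, hp2, hp3⟩, hp4⟩ := hp
      obtain ⟨q, hq⟩ : ∃ q, q = (Nat.gcd p.1 p.2).minFac := ⟨_, rfl⟩
      have hqp : q.Prime := by rw [hq]; exact Nat.minFac_prime hp4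
      have hq1 : q ∣ p.1 := by rw [hq]; exact (Nat.minFac_dvd _).trans (Nat.gcd_dvd_left _ _)
      have hq2 : q ∣ p.2 := by rw [hq]; exact (Nat.minFac_dvd _).trans (Nat.gcd_dvd_right _ _)
      have hne : q ≠ 2 := by
        intro h
        rw [h] at hq2
        have h3 : p.2 % 4 = 1 % 4 := hp3
        omega
      have hodd : Odd q := hqp.odd_of_ne_two hne
      have hqD : q ∈ D := by
        rw [hD, mem_filter, mem_Icc]
        refine ⟨⟨?_, ?_⟩, hodd⟩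
        · have := hqp.two_le
          omega
        · exact (Nat.le_of_dvd (by omega) hq1).trans hp1.2
      have h5 := single_le_sum (f := fun d => if d ∣ p.1 ∧ d ∣ p.2 then w p else 0)
        (fun d _ => by split_ifs; exacts [hw0 p, le_rfl]) hqD
      rw [if_pos ⟨hq1, hq2⟩] at h5
      exact h5
    refine (sum_le_sum h1).trans ?_
    refine (sum_le_sum_of_subset_of_nonneg (filter_subset _ _) fun p _ _ =>
      sum_nonneg fun d _ => by split_ifs; exacts [hw0 p, le_rfl]).trans ?_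
    rw [sum_comm]
    refine sum_le_sum fun d hd => ?_
    rw [hD, mem_filter, mem_Icc] at hd
    have e1 : ∑ p ∈ A ×ˢ Cc, (if d ∣ p.1 ∧ d ∣ p.2 then w p else 0) =
        (∑ a ∈ (Ioc U (U ^ 2)).filter (fun v => v ≡ α [MOD 4] ∧ d ∣ v), (1 : ℝ) / a) *
          (∑ c ∈ (Ioc U (U ^ 2)).filter (fun v => v ≡ 1 [MOD 4] ∧ d ∣ v), (1 : ℝ) / c) := by
      rw [sum_mul_sum, ← sum_product', ← sum_filter]
      refine sum_congr ?_ fun p _ => ?_
      · rw [hA, hC]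
        ext p
        simp only [mem_filter, mem_product]
        tauto
      · rw [hw]
        simp only
        rw [one_div_mul_one_div]
    rw [e1, pow_two (L / (4 * (d : ℝ)) + 1 / (U : ℝ))]
    have h2 := up U α d hU1 hd.2
    have h3 := up U 1 d hU1 hd.2
    rw [← hL] at h2 h3
    exact mul_le_mul h2 h3 (sum_nonneg fun i _ => by positivity)
      ((sum_nonneg fun i _ => by positivity).trans h2)
  have hDsum : ∑ d ∈ D, (L / (4 * d) + 1 / U) ^ 2 ≤ L ^ 2 / 32 + 2 := by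
    have h1 : ∀ d ∈ D, (L / (4 * d) + 1 / U) ^ 2 ≤ L ^ 2 / 8 * (1 / (d : ℝ) ^ 2) + 2 * (1 / (U : ℝ) ^ 2) := by
      intro d hd
      have h2 : (L / (4 * d) + 1 / U) ^ 2 ≤ 2 * (L / (4 * d)) ^ 2 + 2 * (1 / (U : ℝ)) ^ 2 := by
        nlinarith [sq_nonneg (L / (4 * d) - 1 / (U : ℝ))]
      refine h2.trans (le_of_eq ?_)
      rw [div_pow, mul_pow, div_pow]
      ring
    refine (sum_le_sum h1).trans ?_
    rw [sum_add_distrib, ← mul_sum, sum_const, nsmul_eq_mul]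
    have h3 : ∑ d ∈ D, (1 : ℝ) / (d : ℝ) ^ 2 ≤ 1 / 4 := by rw [hD]; exact sqs _
    have h4 : (D.card : ℝ) ≤ (U : ℝ) ^ 2 := by
      have h5 : D.card ≤ U ^ 2 := by
        rw [hD]
        refine (card_filter_le _ _).trans ?_
        rw [Nat.card_Icc]
        omega
      exact_mod_cast h5
    have h5 : (D.card : ℝ) * (2 * (1 / (U : ℝ) ^ 2)) ≤ 2 := by
      calc (D.card : ℝ) * (2 * (1 / (U : ℝ) ^ 2)) ≤ (U : ℝ) ^ 2 * (2 * (1 / (U : ℝ) ^ 2)) :=
            mul_le_mul_of_nonneg_right h4 (by positivity)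
        _ = 2 := by field_simp
    have h6 := mul_le_mul_of_nonneg_left h3 (show 0 ≤ L ^ 2 / 8 by positivity)
    linarith
  have hmain : L ^ 2 / 16 - 2 ≤ ∑ p ∈ A ×ˢ Cc, w p := by
    rw [hfull]
    have h1 := low U α hU1
    have h2 := low U 1 hU1
    rw [← hL, ← hA] at h1
    rw [← hL, ← hC] at h2
    have h3 : 0 ≤ L / 4 - 4 / U := by
      have : (4 : ℝ) / U ≤ 4 := by
        rw [div_le_iff₀ hU0]
        linarith [show (1 : ℝ) ≤ 2 ^ 24 by norm_num]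
      linarith
    refine le_trans ?_ (mul_le_mul h1 h2 h3 (h3.trans h1))
    have h4 : (L / 4 - 4 / U) * (L / 4 - 4 / U) = L ^ 2 / 16 - 2 * (L / U) + (4 / U) ^ 2 := by ring
    rw [h4]
    have h5 : L / U ≤ 1 := by rw [div_le_one hU0]; exact hLU
    have h6 : 0 ≤ (4 / (U : ℝ)) ^ 2 := by positivity
    linarith
  have hsplit : ∑ p ∈ A ×ˢ Cc, w p = ∑ p ∈ T U α, w p +
      ∑ p ∈ (A ×ˢ Cc).filter (fun p => ¬ Nat.Coprime p.1 p.2), w p := by
    rw [hT]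
    exact (sum_filter_add_sum_filter_not _ _ _).symm
  have hgoal : ∑ p ∈ T U α, (1 : ℝ) / ((p.1 : ℝ) * p.2) = ∑ p ∈ T U α, w p := by rw [hw]
  rw [hgoal]
  nlinarith

end Pool.Agent.BR3.T92
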