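import Pool.Agent.BR3.Main34

/-!
# MP_5de915_nt: the two sided uniform form from the lower half and the mean
-/

set_option autoImplicit false

namespace Pool.Agent.BR3.Uni34

open Finset Pool.Agent.BR3 Pool.Agent.Helper64.Breadth

/-- the composition: the lower half for all `N ≥ 2`, `z ≥ 3`, and Markov -/
theorem uni_of
    (hlow : ∃ d B : ℝ, 0 < d ∧ ∀ N z : ℕ, 2 ≤ N → 3 ≤ z →
      (((Icc 1 N).filter (fun n : ℕ => (c n : ℝ) < d * (Real.log N / Real.log z) ^ 3)).card : ℝ) ≤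
        B * N * Real.log z ^ 6 * (1 / z + 1 / Real.log N ^ 3))
    (hup : RowUp) :
    ∃ d B : ℝ, 0 < d ∧ ∀ N z : ℕ, 2 ≤ N → 3 ≤ z →
      (((Icc 1 N).filter (fun n : ℕ => ¬ (d * (Real.log N / Real.log z) ^ 3 ≤ (c n : ℝ) ∧
        (c n : ℝ) ≤ z * Real.log N ^ 3))).card : ℝ) ≤
        B * N * Real.log z ^ 6 * (1 / z + 1 / Real.log N ^ 3) := by
  obtain ⟨d, B, hd, hlow⟩ := hlow
  obtain ⟨C, hC, hU⟩ := hup
  refine ⟨d, B + C, hd, ?_⟩
  intro N z hN hz
  have hNr : (2 : ℝ) ≤ N := by exact_mod_cast hN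
  have hN0 : (0 : ℝ) < N := by linarith
  have hzr : (3 : ℝ) ≤ z := by exact_mod_cast hz
  have hz0 : (0 : ℝ) < z := by linarith
  have hlogN : 0 < Real.log N := Real.log_pos (by linarith)
  have hlz : 1 ≤ Real.log z := by
    rw [Real.le_log_iff_exp_le hz0]
    have := Real.exp_one_lt_d9
    linarith
  have hlz6 : 1 ≤ Real.log z ^ 6 := one_le_pow₀ hlz
  obtain ⟨A, hA⟩ : ∃ A, A = (Icc 1 N).filter
    (fun n : ℕ => (c n : ℝ) < d * (Real.log N / Real.log z) ^ 3) := ⟨_, rfl⟩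
  obtain ⟨D, hD⟩ : ∃ D, D = (Icc 1 N).filter
    (fun n : ℕ => z * Real.log N ^ 3 ≤ (c n : ℝ)) := ⟨_, rfl⟩
  have hAc : (A.card : ℝ) ≤ B * N * Real.log z ^ 6 * (1 / z + 1 / Real.log N ^ 3) := by
    rw [hA]; exact hlow N z hN hz
  have hDc : (D.card : ℝ) ≤ C * N * Real.log z ^ 6 * (1 / z + 1 / Real.log N ^ 3) := by
    have h1 := Main34.markov N (fun n => (c n : ℝ)) (fun n => Nat.cast_nonneg _)
      (z * Real.log N ^ 3) _ (hU N hN)
    rw [← hD] at h1
    have h3 : 0 < Real.log N ^ 3 := by positivity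
    have h2 : ((D.card : ℝ) * z) * Real.log N ^ 3 ≤ (C * N) * Real.log N ^ 3 := by
      calc ((D.card : ℝ) * z) * Real.log N ^ 3 = (D.card : ℝ) * (z * Real.log N ^ 3) := by ring
        _ ≤ C * N * Real.log N ^ 3 := h1
    have h4 : (D.card : ℝ) * z ≤ C * N := le_of_mul_le_mul_right h2 h3
    have h5 : (D.card : ℝ) ≤ C * N * (1 / z) := by
      rw [mul_one_div, le_div_iff₀ hz0]
      exact h4
    have h6 : (0 : ℝ) ≤ 1 / Real.log N ^ 3 := by positivity
    have h7 : C * N * (1 / z) ≤ C * N * (1 / z + 1 / Real.log N ^ 3) := by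
      apply mul_le_mul_of_nonneg_left _ (by positivity)
      linarith
    have h8 : C * N * (1 / z + 1 / Real.log N ^ 3) ≤ C * N * (1 / z + 1 / Real.log N ^ 3) * Real.log z ^ 6 :=
      le_mul_of_one_le_right (by positivity) hlz6
    calc (D.card : ℝ) ≤ C * N * (1 / z) := h5
      _ ≤ C * N * (1 / z + 1 / Real.log N ^ 3) := h7
      _ ≤ C * N * (1 / z + 1 / Real.log N ^ 3) * Real.log z ^ 6 := h8
      _ = C * N * Real.log z ^ 6 * (1 / z + 1 / Real.log N ^ 3) := by ring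
  have hsub : (Icc 1 N).filter (fun n : ℕ => ¬ (d * (Real.log N / Real.log z) ^ 3 ≤ (c n : ℝ) ∧
      (c n : ℝ) ≤ z * Real.log N ^ 3)) ⊆ A ∪ D := by
    intro n hn
    obtain ⟨hnI, hnb⟩ := Finset.mem_filter.1 hn
    by_cases hlo : (c n : ℝ) < d * (Real.log N / Real.log z) ^ 3
    · apply Finset.mem_union_left
      rw [hA]
      exact Finset.mem_filter.2 ⟨hnI, hlo⟩
    · apply Finset.mem_union_right
      rw [hD]
      refine Finset.mem_filter.2 ⟨hnI, ?_⟩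
      by_contra hhi
      exact hnb ⟨not_lt.1 hlo, (not_le.1 hhi).le⟩
  have hcard := (Finset.card_le_card hsub).trans (Finset.card_union_le A D)
  have hfin' : (((Icc 1 N).filter (fun n : ℕ => ¬ (d * (Real.log N / Real.log z) ^ 3 ≤ (c n : ℝ) ∧
      (c n : ℝ) ≤ z * Real.log N ^ 3))).card : ℝ) ≤ A.card + D.card := by
    exact_mod_cast hcard
  calc (((Icc 1 N).filter (fun n : ℕ => ¬ (d * (Real.log N / Real.log z) ^ 3 ≤ (c n : ℝ) ∧
      (c n : ℝ) ≤ z * Real.log N ^ 3))).card : ℝ) ≤ A.card + D.card := hfin'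
    _ ≤ B * N * Real.log z ^ 6 * (1 / z + 1 / Real.log N ^ 3) +
        C * N * Real.log z ^ 6 * (1 / z + 1 / Real.log N ^ 3) := add_le_add hAc hDc
    _ = (B + C) * N * Real.log z ^ 6 * (1 / z + 1 / Real.log N ^ 3) := by ring

end Pool.Agent.BR3.Uni34
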