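import Pool.Agent.BR3.LowFin64

/-!
# MP_5de915_nt: the order of `c n`, with the level as a parameter (helper64)
-/

set_option autoImplicit false
set_option maxHeartbeats 2000000

namespace Pool.Agent.BR3.Uni64

open Finset Pool.Agent.BR3 Pool.Agent.BR3.Low54 Pool.Agent.BR3.LowFin64

/-- the statement -/
def Uni : Prop := ∃ δ B : ℝ, 0 < δ ∧ ∀ N z : ℕ, 2 ≤ N → 3 ≤ z →
    (((Icc 1 N).filter (fun n : ℕ => ¬ (δ * (Real.log N / Real.log z) ^ 3 ≤ (Pool.Agent.Helper64.Breadth.c n : ℝ) ∧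
      (Pool.Agent.Helper64.Breadth.c n : ℝ) ≤ z * Real.log N ^ 3))).card : ℝ) ≤
      B * N * Real.log z ^ 6 * (1 / z + 1 / Real.log N ^ 3)

theorem low : RowT → RowS → RowV1 → RowV0 → RowF → ∃ δ B : ℝ, 0 < δ ∧ 0 ≤ B ∧ ∃ N₁ : ℕ, 3 ≤ N₁ ∧
    ∀ N z : ℕ, N₁ ≤ N → 3 ≤ z →
    (((Icc 1 N).filter (fun n : ℕ => (Pool.Agent.Helper64.Breadth.c n : ℝ) <
      δ * (Real.log N / Real.log z) ^ 3)).card : ℝ) ≤
      B * N * Real.log z ^ 6 * (1 / z + 1 / Real.log N ^ 3) := by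
  classical
  rintro ⟨cT, U₀, hcT, hT⟩ ⟨cS, K, hcS, -, hK1, hS⟩ ⟨C1, hC1, hV1⟩ ⟨C0, hC0, hV0⟩ hF
  obtain ⟨c2, hc2⟩ : ∃ c2 : ℝ, c2 = cT * cS / 4 * 10 := ⟨_, rfl⟩
  have hc20 : 0 < c2 := by rw [hc2]; positivity
  obtain ⟨E0, hE0⟩ : ∃ E0 : ℝ, E0 = (800 * C1 + 8080 * C0 + 12) / c2 ^ 2 := ⟨_, rfl⟩
  have hE00 : 0 < E0 := by rw [hE0]; positivity
  obtain ⟨E1, hE1⟩ : ∃ E1 : ℝ, E1 = (12 * K) ^ 3 + 1 + 8 * (E0 * 120 ^ 3) := ⟨_, rfl⟩
  have hE10 : 0 < E1 := by rw [hE1]; positivity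
  have hlog : Filter.Tendsto (fun U : ℕ => Real.log (U : ℝ)) Filter.atTop Filter.atTop :=
    Real.tendsto_log_atTop.comp tendsto_natCast_atTop_atTop
  have hcub : ∀ᶠ U : ℕ in Filter.atTop, 192 * (120 * Real.log (U : ℝ)) ^ 3 ≤ (U : ℝ) := by
    have h1 := (Asymptotics.isLittleO_iff.1 (Real.isLittleO_pow_log_id_atTop (n := 3)))
      (show (0 : ℝ) < 1 / (192 * 120 ^ 3) by positivity)
    have h2 := tendsto_natCast_atTop_atTop (R := ℝ) |>.eventually h1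
    filter_upwards [h2, Filter.eventually_ge_atTop 3] with U hU hU3
    have hp : (0 : ℝ) < U := by exact_mod_cast (show 0 < U by omega)
    rw [Real.norm_eq_abs, Real.norm_eq_abs, id, abs_of_pos hp] at hU
    have h3 := (le_abs_self _).trans hU
    rw [div_mul_eq_mul_div, one_mul, le_div_iff₀ (by positivity)] at h3
    have h4 : 192 * (120 * Real.log (U : ℝ)) ^ 3 = Real.log (U : ℝ) ^ 3 * (192 * 120 ^ 3) := by ring
    rw [h4]
    exact h3
  have hUev : ∀ᶠ U : ℕ in Filter.atTop, U₀ ≤ U ∧ 3 ≤ U ∧ 192 * (120 * Real.log (U : ℝ)) ^ 3 ≤ (U : ℝ) ∧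
      3 ≤ Real.log (U : ℝ) := by
    filter_upwards [Filter.eventually_ge_atTop U₀, Filter.eventually_ge_atTop 3, hcub,
      hlog.eventually_ge_atTop 3] with U a1 a2 a3 a4
    exact ⟨a1, a2, a3, a4⟩
  obtain ⟨U₂, hU₂⟩ := Filter.eventually_atTop.1 hUev
  refine ⟨c2 / (2 * 120 ^ 3), E1, by positivity, hE10.le, (U₂ + 4) ^ 60, ?_, fun N z hN hz3 => ?_⟩
  · calc 3 ≤ U₂ + 4 := by omega
      _ ≤ (U₂ + 4) ^ 60 := Nat.le_self_pow (by norm_num) _
  obtain ⟨U, hUU, hNr, hlN'⟩ := root2 hN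
  clear hN
  obtain ⟨b1, b2, b3, b4⟩ := hU₂ U hUU
  obtain ⟨L, hL⟩ : ∃ L : ℝ, L = Real.log (U : ℝ) := ⟨_, rfl⟩
  rw [← hL] at b3 b4
  have hL0 : 0 < L := by linarith
  have hUr : (3 : ℝ) ≤ U := by exact_mod_cast b2
  have hUr0 : (0 : ℝ) < U := by linarith
  have hlV : Real.log ((U ^ 10 : ℕ) : ℝ) = 10 * L := by
    push_cast
    rw [Real.log_pow, hL]; norm_num
  have hlN : Real.log N ≤ 120 * L := by rw [hL]; exact hlN'
  have hlN0 : 0 ≤ Real.log N := Real.log_natCast_nonneg N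
  have hN0 : (0 : ℝ) ≤ N := Nat.cast_nonneg N
  have hUN : (U : ℝ) ≤ N := by
    refine le_trans ?_ hNr
    calc (U : ℝ) = (U : ℝ) ^ 1 := (pow_one _).symm
      _ ≤ (U : ℝ) ^ 60 := pow_le_pow_right₀ (by linarith) (by norm_num)
  have hLN : L ≤ Real.log N := by rw [hL]; exact Real.log_le_log hUr0 hUN
  have hlNp : 0 < Real.log N := by linarith
  have hzr3 : (3 : ℝ) ≤ z := by exact_mod_cast hz3
  have hzr : (0 : ℝ) < z := by linarith
  obtain ⟨ℓ, hℓ⟩ : ∃ ℓ : ℝ, ℓ = Real.log z := ⟨_, rfl⟩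
  have hℓ1 : 1 ≤ ℓ := by
    rw [hℓ, Real.le_log_iff_exp_le hzr]
    have := Real.exp_one_lt_d9
    linarith
  have hℓ0 : 0 < ℓ := by linarith
  have hX : 1 / (120 * L) ^ 3 ≤ 1 / Real.log N ^ 3 :=
    one_div_le_one_div_of_le (by positivity) (pow_le_pow_left₀ hlN0 hlN 3)
  by_cases b4' : K * ℓ ^ 2 ≤ 10 * L
  swap
  · -- the trivial bound
    push Not at b4'
    have h1 : (((Icc 1 N).filter (fun n : ℕ => (Pool.Agent.Helper64.Breadth.c n : ℝ) <
      c2 / (2 * 120 ^ 3) * (Real.log N / Real.log z) ^ 3)).card : ℝ) ≤ N := by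
      have h2 : ((Icc 1 N).filter (fun n : ℕ => (Pool.Agent.Helper64.Breadth.c n : ℝ) <
        c2 / (2 * 120 ^ 3) * (Real.log N / Real.log z) ^ 3)).card ≤ N := by
        refine (card_le_card (filter_subset _ _)).trans ?_
        rw [Nat.card_Icc]
        omega
      exact_mod_cast h2
    refine h1.trans ?_
    rw [← hℓ]
    have h2 : (10 * L) ^ 3 ≤ (K * ℓ ^ 2) ^ 3 := pow_le_pow_left₀ (by positivity) b4'.le 3
    have h3 : 1 ≤ (12 * K) ^ 3 * ℓ ^ 6 * (1 / (120 * L) ^ 3) := by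
      rw [mul_one_div, le_div_iff₀ (by positivity)]
      have h4 : (12 * K) ^ 3 * ℓ ^ 6 = 12 ^ 3 * (K * ℓ ^ 2) ^ 3 := by ring
      have h5 : (1 : ℝ) * (120 * L) ^ 3 = 12 ^ 3 * (10 * L) ^ 3 := by ring
      rw [h4, h5]
      exact mul_le_mul_of_nonneg_left h2 (by norm_num)
    have h6 : (12 * K) ^ 3 ≤ E1 := by
      rw [hE1]
      have : 0 ≤ 8 * (E0 * 120 ^ 3) := by positivity
      linarith
    have h7 : 1 / (120 * L) ^ 3 ≤ 1 / (z : ℝ) + 1 / Real.log N ^ 3 := by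
      have : 0 ≤ 1 / (z : ℝ) := by positivity
      linarith
    have h8 : 1 ≤ E1 * ℓ ^ 6 * (1 / z + 1 / Real.log N ^ 3) := by
      refine h3.trans ?_
      gcongr
    calc (N : ℝ) = N * 1 := (mul_one _).symm
      _ ≤ N * (E1 * ℓ ^ 6 * (1 / z + 1 / Real.log N ^ 3)) := mul_le_mul_of_nonneg_left h8 hN0
      _ = E1 * N * ℓ ^ 6 * (1 / z + 1 / Real.log N ^ 3) := by ring
  obtain ⟨m0, hm0⟩ : ∃ m0 : ℝ, m0 = c2 / ℓ ^ 3 * L ^ 3 := ⟨_, rfl⟩
  have hm0p : 0 < m0 := by rw [hm0]; positivity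
  have hthr : c2 / (2 * 120 ^ 3) * (Real.log N / Real.log z) ^ 3 ≤ m0 / 2 := by
    rw [← hℓ, hm0]
    have h1 : Real.log N ^ 3 ≤ (120 * L) ^ 3 := pow_le_pow_left₀ hlN0 hlN 3
    calc c2 / (2 * 120 ^ 3) * (Real.log N / ℓ) ^ 3 = c2 / (2 * 120 ^ 3 * ℓ ^ 3) * Real.log N ^ 3 := by
          rw [div_pow]; field_simp
      _ ≤ c2 / (2 * 120 ^ 3 * ℓ ^ 3) * (120 * L) ^ 3 := mul_le_mul_of_nonneg_left h1 (by positivity)
      _ = c2 / ℓ ^ 3 * L ^ 3 / 2 := by field_simp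
  obtain ⟨Q, hQ⟩ : ∃ Q : ℝ, Q = C1 * (10 * L) ^ 2 * L ^ 3 * (L / z + (1 + L) / U) +
      C0 * (L ^ 2 * (10 * L) + (10 * L) ^ 3 / U) := ⟨_, rfl⟩
  have hLU : L ^ 3 ≤ U := by
    refine le_trans ?_ b3
    have : 192 * (120 * L) ^ 3 = (192 * 120 ^ 3) * L ^ 3 := by ring
    rw [this]
    have : 0 ≤ L ^ 3 := by positivity
    nlinarith
  have hU3 : 1 / (U : ℝ) ≤ 1 / L ^ 3 := one_div_le_one_div_of_le (by positivity) hLU
  obtain ⟨Y, hY⟩ : ∃ Y : ℝ, Y = 1 / (z : ℝ) + 1 / L ^ 3 := ⟨_, rfl⟩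
  have hYz : 1 / (z : ℝ) ≤ Y := by
    rw [hY]
    have : 0 ≤ 1 / L ^ 3 := by positivity
    linarith
  have hYL : 1 / L ^ 3 ≤ Y := by
    rw [hY]
    have : 0 ≤ 1 / (z : ℝ) := by positivity
    linarith
  have hY0 : 0 < Y := lt_of_lt_of_le (by positivity) hYz
  have hQC : Q ≤ (200 * C1 + 2020 * C0) * L ^ 6 * Y := by
    have t1 : C1 * (10 * L) ^ 2 * L ^ 3 * (L / z) = 100 * C1 * L ^ 6 * (1 / z) := by ring
    have t2 : C1 * (10 * L) ^ 2 * L ^ 3 * ((1 + L) / U) ≤ 200 * C1 * L ^ 6 * (1 / U) := by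
      have h1 : C1 * (10 * L) ^ 2 * L ^ 3 * ((1 + L) / U) = 100 * C1 * L ^ 5 * (1 / U) * (1 + L) := by ring
      have h2 : 200 * C1 * L ^ 6 * (1 / (U : ℝ)) = 100 * C1 * L ^ 5 * (1 / U) * (2 * L) := by ring
      rw [h1, h2]
      exact mul_le_mul_of_nonneg_left (by linarith) (by positivity)
    have t3 : C0 * (L ^ 2 * (10 * L) + (10 * L) ^ 3 / U) ≤ 1010 * C0 * L ^ 6 * (1 / L ^ 3) := by
      have e1 : (10 * L) ^ 3 / U ≤ 1000 * L ^ 3 := by
        rw [div_le_iff₀ hUr0]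
        have : 0 < L ^ 3 := by positivity
        nlinarith
      have e2 : L ^ 2 * (10 * L) + (10 * L) ^ 3 / U ≤ 1010 * L ^ 3 := by
        have : L ^ 2 * (10 * L) = 10 * L ^ 3 := by ring
        rw [this]; linarith
      have e3 : 1010 * C0 * L ^ 6 * (1 / L ^ 3) = C0 * (1010 * L ^ 3) := by
        field_simp
      rw [e3]
      exact mul_le_mul_of_nonneg_left e2 hC0.le
    have t1' : 100 * C1 * L ^ 6 * (1 / z) ≤ 100 * C1 * L ^ 6 * (1 / (z : ℝ)) := le_rfl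
    have t2' : 200 * C1 * L ^ 6 * (1 / (U : ℝ)) ≤ 200 * C1 * L ^ 6 * (1 / L ^ 3) :=
      mul_le_mul_of_nonneg_left hU3 (by positivity)
    have e : Q = C1 * (10 * L) ^ 2 * L ^ 3 * (L / z) + C1 * (10 * L) ^ 2 * L ^ 3 * ((1 + L) / U) +
          C0 * (L ^ 2 * (10 * L) + (10 * L) ^ 3 / U) := by rw [hQ]; ring
    have e' : (200 * C1 + 2020 * C0) * L ^ 6 * Y = 200 * C1 * L ^ 6 * (1 / z) + 200 * C1 * L ^ 6 * (1 / L ^ 3) +
        2020 * C0 * L ^ 6 * (1 / z) + 2020 * C0 * L ^ 6 * (1 / L ^ 3) := by rw [hY]; ring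
    have p1 : 0 ≤ C1 * L ^ 6 * (1 / (z : ℝ)) := by positivity
    have p2 : 0 ≤ C0 * L ^ 6 * (1 / (z : ℝ)) := by positivity
    have p3 : 0 ≤ C0 * L ^ 6 * (1 / L ^ 3) := by positivity
    rw [e, e', t1]
    linarith
  obtain ⟨η, hη⟩ : ∃ η : ℝ, η = E0 * ℓ ^ 6 * Y := ⟨_, rfl⟩
  have hη0 : 0 < η := by rw [hη]; positivity
  have hηm : η * m0 ^ 2 = (800 * C1 + 8080 * C0 + 12) * L ^ 6 * Y := by
    rw [hη, hm0, hE0]
    field_simp
  -- 4 Q ≤ η m0²
  have hQ4 : 4 * Q ≤ η * m0 ^ 2 := by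
    rw [hηm]
    have : 0 ≤ 12 * L ^ 6 * Y := by positivity
    linarith
  have hU48 : 12 * (U : ℝ) ^ 48 ≤ η * N * m0 ^ 2 := by
    have h0 : η * N * m0 ^ 2 = (η * m0 ^ 2) * N := by ring
    rw [h0, hηm]
    have h1 : 12 ≤ (800 * C1 + 8080 * C0 + 12) * L ^ 6 * Y := by
      have h2 : 1 ≤ L ^ 6 * Y := by
        calc (1 : ℝ) ≤ L ^ 3 := one_le_pow₀ (by linarith)
          _ = L ^ 6 * (1 / L ^ 3) := by field_simp
          _ ≤ L ^ 6 * Y := mul_le_mul_of_nonneg_left hYL (by positivity)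
      have h3 : (12 : ℝ) ≤ 800 * C1 + 8080 * C0 + 12 := by
        have : 0 ≤ 800 * C1 + 8080 * C0 := by positivity
        linarith
      calc (12 : ℝ) = 12 * 1 := by norm_num
        _ ≤ (800 * C1 + 8080 * C0 + 12) * (L ^ 6 * Y) := by gcongr
        _ = (800 * C1 + 8080 * C0 + 12) * L ^ 6 * Y := by ring
    have h3 : (U : ℝ) ^ 48 ≤ N := by
      refine le_trans ?_ hNr
      exact pow_le_pow_right₀ (by linarith) (by norm_num)
    exact mul_le_mul h1 h3 (by positivity) (by positivity)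
  have hcls : ∀ κ : ℕ, (((Ioc 0 N).filter (fun k => ((((E U (U ^ 10) (par κ).2.1 (par κ).1 (par κ).2.2 z).filter
      (fun i => mo (par κ).1 i ∣ 4 * k + κ + 2 * i.2.1 * i.1.2)).card : ℕ) : ℝ) < m0 / 2)).card : ℝ) ≤
      2 * η * N := by
    intro κ
    have hty := par_ty κ
    have hV3 : 3 ≤ U ^ 10 := by
      calc 3 ≤ U := b2
        _ ≤ U ^ 10 := Nat.le_self_pow (by norm_num) U
    have g1 := mu_low (V := U ^ 10) (β := (par κ).2.2) hcS hT hS hty b1 hz3 hV3 (by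
      rw [hlV, ← hℓ]; exact b4')
    have g2 := hV1 U (U ^ 10) (par κ).2.1 (par κ).1 (par κ).2.2 z hty (by omega) le_rfl (by omega)
    have g3 := hV0 U (U ^ 10) (par κ).2.1 (par κ).1 (par κ).2.2 z hty (by omega) le_rfl (by omega)
    rw [hlV, ← hL] at g2 g3
    rw [hlV, ← hL, ← hℓ] at g1
    refine cls (by omega : 2 ≤ z) hm0p ?_ ?_ hQ4 hU48
    · refine le_trans (le_of_eq ?_) g1
      rw [hm0, hc2]; ring
    · rw [hQ]
      exact add_le_add g2 g3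
  -- the bad set
  have hsub : (Icc 1 N).filter (fun n : ℕ => (Pool.Agent.Helper64.Breadth.c n : ℝ) <
      c2 / (2 * 120 ^ 3) * (Real.log N / Real.log z) ^ 3) ⊆
      Icc 1 (12 * U ^ 24) ∪ (range 4).biUnion (fun κ =>
        ((Ioc 0 N).filter (fun k => ((((E U (U ^ 10) (par κ).2.1 (par κ).1 (par κ).2.2 z).filter
      (fun i => mo (par κ).1 i ∣ 4 * k + κ + 2 * i.2.1 * i.1.2)).card : ℕ) : ℝ) < m0 / 2)).image
        (fun k => 4 * k + κ)) := by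
    intro n hn
    rw [mem_filter, mem_Icc] at hn
    obtain ⟨⟨hn1, hnN⟩, hnc⟩ := hn
    rw [mem_union, mem_Icc, mem_biUnion]
    rcases Nat.lt_or_ge (12 * U ^ 24) n with h | h
    · right
      refine ⟨n % 4, mem_range.2 (Nat.mod_lt _ (by norm_num)), ?_⟩
      rw [mem_image]
      have hU24 : 1 ≤ U ^ 24 := Nat.one_le_pow _ _ (by omega)
      refine ⟨n / 4, ?_, by omega⟩
      rw [mem_filter, mem_Ioc]
      refine ⟨⟨by omega, by omega⟩, ?_⟩
      have hn4 : 4 * (n / 4) + n % 4 = n := by omega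
      rw [hn4]
      have hbound := hF U (U ^ 10) (par (n % 4)).2.1 (par (n % 4)).1 (par (n % 4)).2.2 z n (by omega)
        (Nat.le_self_pow (by norm_num) U) (by omega) (by
          have : 12 * U ^ 4 * (U ^ 10) ^ 2 = 12 * U ^ 24 := by ring
          omega) (by
          unfold par
          have h4 : n % 4 < 4 := Nat.mod_lt _ (by norm_num)
          have h5 : n % 4 % 2 = n % 2 := by omega
          split_ifs with q1 q2
          · left; simp; omega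
          · right; left; simp; omega
          · right; right; simp; omega)
      have hb2 : ((((E U (U ^ 10) (par (n % 4)).2.1 (par (n % 4)).1 (par (n % 4)).2.2 z).filter
          (fun i => mo (par (n % 4)).1 i ∣ n + 2 * i.2.1 * i.1.2)).card : ℕ) : ℝ) ≤
          (Pool.Agent.Helper64.Breadth.c n : ℝ) := by exact_mod_cast hbound
      refine lt_of_le_of_lt hb2 (lt_of_lt_of_le hnc ?_)
      exact hthr
    · left; exact ⟨hn1, h⟩
  have hcard := card_le_card hsub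
  have h1 : ((Icc 1 (12 * U ^ 24) ∪ (range 4).biUnion (fun κ =>
        ((Ioc 0 N).filter (fun k => ((((E U (U ^ 10) (par κ).2.1 (par κ).1 (par κ).2.2 z).filter
      (fun i => mo (par κ).1 i ∣ 4 * k + κ + 2 * i.2.1 * i.1.2)).card : ℕ) : ℝ) < m0 / 2)).image
        (fun k => 4 * k + κ))).card : ℝ) ≤ 12 * (U : ℝ) ^ 24 + 4 * (2 * η * N) := by
    have h2 : ((Icc 1 (12 * U ^ 24) ∪ (range 4).biUnion (fun κ =>
        ((Ioc 0 N).filter (fun k => ((((E U (U ^ 10) (par κ).2.1 (par κ).1 (par κ).2.2 z).filter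
      (fun i => mo (par κ).1 i ∣ 4 * k + κ + 2 * i.2.1 * i.1.2)).card : ℕ) : ℝ) < m0 / 2)).image
        (fun k => 4 * k + κ))).card) ≤ 12 * U ^ 24 + ∑ κ ∈ range 4,
        ((Ioc 0 N).filter (fun k => ((((E U (U ^ 10) (par κ).2.1 (par κ).1 (par κ).2.2 z).filter
      (fun i => mo (par κ).1 i ∣ 4 * k + κ + 2 * i.2.1 * i.1.2)).card : ℕ) : ℝ) < m0 / 2)).card := by
      refine (card_union_le _ _).trans ?_
      apply add_le_add
      · simp
      · refine card_biUnion_le.trans ?_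
        apply sum_le_sum
        intro κ _
        exact card_image_le
    have h3 : (∑ κ ∈ range 4,
        (((Ioc 0 N).filter (fun k => ((((E U (U ^ 10) (par κ).2.1 (par κ).1 (par κ).2.2 z).filter
      (fun i => mo (par κ).1 i ∣ 4 * k + κ + 2 * i.2.1 * i.1.2)).card : ℕ) : ℝ) < m0 / 2)).card : ℝ)) ≤
        ∑ _κ ∈ range 4, 2 * η * N := sum_le_sum fun κ _ => hcls κ
    rw [sum_const, card_range, nsmul_eq_mul] at h3
    have h4 := (Nat.cast_le (α := ℝ)).2 h2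
    push_cast at h4
    push_cast at h3
    linarith
  have h2 := (Nat.cast_le (α := ℝ)).2 hcard
  have hLN3 : 1 / L ^ 3 ≤ 120 ^ 3 * (1 / Real.log N ^ 3) := by
    have h3 : 1 / L ^ 3 = 120 ^ 3 * (1 / (120 * L) ^ 3) := by
      rw [mul_pow]
      field_simp
    rw [h3]
    exact mul_le_mul_of_nonneg_left hX (by norm_num)
  have hYN : Y ≤ 120 ^ 3 * (1 / z + 1 / Real.log N ^ 3) := by
    rw [hY, mul_add]
    have : 1 / (z : ℝ) ≤ 120 ^ 3 * (1 / z) := by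
      have : 0 ≤ 1 / (z : ℝ) := by positivity
      linarith
    linarith
  have hℓ6 : (1 : ℝ) ≤ ℓ ^ 6 := one_le_pow₀ hℓ1
  have h3 : 12 * (U : ℝ) ^ 24 ≤ N * ℓ ^ 6 * (1 / z + 1 / Real.log N ^ 3) := by
    have h4 : Real.log N ^ 3 ≤ U / 192 := by
      have h5 : Real.log N ^ 3 ≤ (120 * L) ^ 3 := pow_le_pow_left₀ hlN0 hlN 3
      rw [le_div_iff₀ (by norm_num)]
      linarith
    have h5 : 12 * (U : ℝ) ^ 24 ≤ N * (1 / Real.log N ^ 3) := by
      rw [mul_one_div, le_div_iff₀ (by positivity)]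
      calc 12 * (U : ℝ) ^ 24 * Real.log N ^ 3 ≤ 12 * (U : ℝ) ^ 24 * (U / 192) :=
            mul_le_mul_of_nonneg_left h4 (by positivity)
        _ = (U : ℝ) ^ 25 / 16 := by ring
        _ ≤ (U : ℝ) ^ 25 := div_le_self (by positivity) (by norm_num)
        _ ≤ (U : ℝ) ^ 60 := pow_le_pow_right₀ (by linarith) (by norm_num)
        _ ≤ N := hNr
    have h6 : 1 / Real.log N ^ 3 ≤ 1 / (z : ℝ) + 1 / Real.log N ^ 3 := by
      have : 0 ≤ 1 / (z : ℝ) := by positivity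
      linarith
    calc 12 * (U : ℝ) ^ 24 ≤ N * (1 / Real.log N ^ 3) := h5
      _ = N * 1 * (1 / Real.log N ^ 3) := by ring
      _ ≤ N * ℓ ^ 6 * (1 / z + 1 / Real.log N ^ 3) := by gcongr
  have h5 : 4 * (2 * η * N) ≤ 8 * (E0 * 120 ^ 3) * N * ℓ ^ 6 * (1 / z + 1 / Real.log N ^ 3) := by
    have h6 : η ≤ E0 * ℓ ^ 6 * (120 ^ 3 * (1 / z + 1 / Real.log N ^ 3)) := by
      rw [hη]
      exact mul_le_mul_of_nonneg_left hYN (by positivity)
    have h7 := mul_le_mul_of_nonneg_right h6 hN0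
    linarith
  have h6 : E1 * N * ℓ ^ 6 * (1 / z + 1 / Real.log N ^ 3) =
      (12 * K) ^ 3 * N * ℓ ^ 6 * (1 / z + 1 / Real.log N ^ 3) + N * ℓ ^ 6 * (1 / z + 1 / Real.log N ^ 3) +
      8 * (E0 * 120 ^ 3) * N * ℓ ^ 6 * (1 / z + 1 / Real.log N ^ 3) := by
    rw [hE1]; ring
  have h7 : 0 ≤ (12 * K) ^ 3 * N * ℓ ^ 6 * (1 / z + 1 / Real.log N ^ 3) := by positivity
  rw [← hℓ, h6]
  rw [← hℓ] at h2
  refine h2.trans (h1.trans ?_)
  linarith

theorem uni_of (hT : RowT) (hS : RowS) (h1 : RowV1) (h0 : RowV0) (hF : RowF) (hUp : RowUp) : Uni := by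
  classical
  obtain ⟨δ, B, hδ, hB, N₁, hN₁, H⟩ := low hT hS h1 h0 hF
  obtain ⟨C, hC, hup⟩ := hUp
  refine ⟨δ, B + C + Real.log N₁ ^ 3, hδ, fun N z hN hz => ?_⟩
  have hzr3 : (3 : ℝ) ≤ z := by exact_mod_cast hz
  have hzr : (0 : ℝ) < z := by linarith
  have hN0 : (0 : ℝ) ≤ N := Nat.cast_nonneg N
  have hlN : 0 < Real.log N := Real.log_pos (by exact_mod_cast (show 1 < N by omega))
  obtain ⟨ℓ, hℓ⟩ : ∃ ℓ : ℝ, ℓ = Real.log z := ⟨_, rfl⟩
  have hℓ1 : 1 ≤ ℓ := by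
    rw [hℓ, Real.le_log_iff_exp_le hzr]
    have := Real.exp_one_lt_d9
    linarith
  have hℓ6 : (1 : ℝ) ≤ ℓ ^ 6 := one_le_pow₀ hℓ1
  have hlN1 : 0 ≤ Real.log N₁ := Real.log_natCast_nonneg N₁
  rcases le_or_gt N₁ N with hNN | hNN
  · have hL := H N z hNN hz
    have hU := hup N hN
    -- Markov
    have hM : (((Icc 1 N).filter (fun n : ℕ => (z : ℝ) * Real.log N ^ 3 <
        (Pool.Agent.Helper64.Breadth.c n : ℝ))).card : ℝ) ≤ C * N * (1 / z) := by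
      have h2 : (((Icc 1 N).filter (fun n : ℕ => (z : ℝ) * Real.log N ^ 3 <
          (Pool.Agent.Helper64.Breadth.c n : ℝ))).card : ℝ) * (z * Real.log N ^ 3) ≤
          ∑ n ∈ Icc 1 N, (Pool.Agent.Helper64.Breadth.c n : ℝ) := by
        calc (((Icc 1 N).filter (fun n : ℕ => (z : ℝ) * Real.log N ^ 3 <
              (Pool.Agent.Helper64.Breadth.c n : ℝ))).card : ℝ) * (z * Real.log N ^ 3) =
              ∑ _n ∈ (Icc 1 N).filter (fun n : ℕ => (z : ℝ) * Real.log N ^ 3 <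
              (Pool.Agent.Helper64.Breadth.c n : ℝ)), (z : ℝ) * Real.log N ^ 3 := by
              rw [sum_const, nsmul_eq_mul]
          _ ≤ ∑ n ∈ (Icc 1 N).filter (fun n : ℕ => (z : ℝ) * Real.log N ^ 3 <
              (Pool.Agent.Helper64.Breadth.c n : ℝ)), (Pool.Agent.Helper64.Breadth.c n : ℝ) :=
              sum_le_sum fun n hn => (mem_filter.1 hn).2.le
          _ ≤ ∑ n ∈ Icc 1 N, (Pool.Agent.Helper64.Breadth.c n : ℝ) :=
              sum_le_sum_of_subset_of_nonneg (filter_subset _ _) fun n _ _ => Nat.cast_nonneg _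
      have h3 := h2.trans hU
      have h4 : 0 < Real.log N ^ 3 := by positivity
      rw [mul_one_div, le_div_iff₀ hzr]
      have h5 : ((((Icc 1 N).filter (fun n : ℕ => (z : ℝ) * Real.log N ^ 3 <
          (Pool.Agent.Helper64.Breadth.c n : ℝ))).card : ℝ) * z) * Real.log N ^ 3 ≤
          (C * N) * Real.log N ^ 3 := by linarith
      exact le_of_mul_le_mul_right h5 h4
    have hsub : (Icc 1 N).filter (fun n : ℕ => ¬ (δ * (Real.log N / Real.log z) ^ 3 ≤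
        (Pool.Agent.Helper64.Breadth.c n : ℝ) ∧ (Pool.Agent.Helper64.Breadth.c n : ℝ) ≤ z * Real.log N ^ 3)) ⊆
        (Icc 1 N).filter (fun n : ℕ => (Pool.Agent.Helper64.Breadth.c n : ℝ) <
          δ * (Real.log N / Real.log z) ^ 3) ∪
        (Icc 1 N).filter (fun n : ℕ => (z : ℝ) * Real.log N ^ 3 < (Pool.Agent.Helper64.Breadth.c n : ℝ)) := by
      intro n hn
      rw [mem_filter] at hn
      rw [mem_union, mem_filter, mem_filter]
      by_cases h : (Pool.Agent.Helper64.Breadth.c n : ℝ) < δ * (Real.log N / Real.log z) ^ 3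
      · exact Or.inl ⟨hn.1, h⟩
      · right
        refine ⟨hn.1, ?_⟩
        by_contra h'
        exact hn.2 ⟨not_lt.1 h, not_lt.1 h'⟩
    have hc := (card_le_card hsub).trans (card_union_le _ _)
    have hc' := (Nat.cast_le (α := ℝ)).2 hc
    push_cast at hc'
    rw [← hℓ] at hL hc' ⊢
    have e1 : C * N * (1 / z) ≤ C * N * ℓ ^ 6 * (1 / z + 1 / Real.log N ^ 3) := by
      have h6 : 1 / (z : ℝ) ≤ 1 / z + 1 / Real.log N ^ 3 := by
        have : 0 ≤ 1 / Real.log N ^ 3 := by positivity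
        linarith
      calc C * N * (1 / z) = C * N * 1 * (1 / z) := by ring
        _ ≤ C * N * ℓ ^ 6 * (1 / z + 1 / Real.log N ^ 3) := by gcongr
    have e2 : 0 ≤ Real.log N₁ ^ 3 * N * ℓ ^ 6 * (1 / z + 1 / Real.log N ^ 3) := by positivity
    have e3 : (B + C + Real.log N₁ ^ 3) * N * ℓ ^ 6 * (1 / z + 1 / Real.log N ^ 3) =
        B * N * ℓ ^ 6 * (1 / z + 1 / Real.log N ^ 3) + C * N * ℓ ^ 6 * (1 / z + 1 / Real.log N ^ 3) +
        Real.log N₁ ^ 3 * N * ℓ ^ 6 * (1 / z + 1 / Real.log N ^ 3) := by ring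
    rw [e3]
    linarith
  · have h2 : (((Icc 1 N).filter (fun n : ℕ => ¬ (δ * (Real.log N / Real.log z) ^ 3 ≤
        (Pool.Agent.Helper64.Breadth.c n : ℝ) ∧ (Pool.Agent.Helper64.Breadth.c n : ℝ) ≤
          z * Real.log N ^ 3))).card : ℝ) ≤ N := by
      have h3 : ((Icc 1 N).filter (fun n : ℕ => ¬ (δ * (Real.log N / Real.log z) ^ 3 ≤
        (Pool.Agent.Helper64.Breadth.c n : ℝ) ∧ (Pool.Agent.Helper64.Breadth.c n : ℝ) ≤
          z * Real.log N ^ 3))).card ≤ N := by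
        refine (card_le_card (filter_subset _ _)).trans ?_
        rw [Nat.card_Icc]
        omega
      exact_mod_cast h3
    refine h2.trans ?_
    rw [← hℓ]
    have h4 : Real.log N ≤ Real.log N₁ :=
      Real.log_le_log (by exact_mod_cast (show 0 < N by omega)) (by exact_mod_cast hNN.le)
    have h5 : 1 ≤ Real.log N₁ ^ 3 * (1 / Real.log N ^ 3) := by
      rw [mul_one_div, le_div_iff₀ (by positivity), one_mul]
      exact pow_le_pow_left₀ hlN.le h4 3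
    have h6 : Real.log N₁ ^ 3 ≤ B + C + Real.log N₁ ^ 3 := by linarith
    have h7 : 1 / Real.log N ^ 3 ≤ 1 / (z : ℝ) + 1 / Real.log N ^ 3 := by
      have : 0 ≤ 1 / (z : ℝ) := by positivity
      linarith
    have h8 : 1 ≤ (B + C + Real.log N₁ ^ 3) * ℓ ^ 6 * (1 / z + 1 / Real.log N ^ 3) := by
      calc (1 : ℝ) ≤ Real.log N₁ ^ 3 * (1 / Real.log N ^ 3) := h5
        _ = Real.log N₁ ^ 3 * 1 * (1 / Real.log N ^ 3) := by ring
        _ ≤ (B + C + Real.log N₁ ^ 3) * ℓ ^ 6 * (1 / z + 1 / Real.log N ^ 3) := by gcongr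
    calc (N : ℝ) = N * 1 := (mul_one _).symm
      _ ≤ N * ((B + C + Real.log N₁ ^ 3) * ℓ ^ 6 * (1 / z + 1 / Real.log N ^ 3)) :=
        mul_le_mul_of_nonneg_left h8 hN0
      _ = (B + C + Real.log N₁ ^ 3) * N * ℓ ^ 6 * (1 / z + 1 / Real.log N ^ 3) := by ring

end Pool.Agent.BR3.Uni64
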