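import Pool.Agent.BR3.LowFin64

/-!
# MP_5de915_nt: the count of breadth three, uniform in the size of the exceptional set
-/

set_option autoImplicit false
set_option maxHeartbeats 2000000

namespace Pool.Agent.BR3.Uni89

open Finset Pool.Agent.BR3 Pool.Agent.BR3.Low54 Pool.Agent.BR3.LowFin64

/-- the lower half, uniform in `z` -/
def LowU : Prop := ∃ d B : ℝ, 0 < d ∧ 0 < B ∧ ∀ N z : ℕ, 2 ≤ N → 3 ≤ z →
    (((Icc 1 N).filter (fun n : ℕ => (Pool.Agent.Helper64.Breadth.c n : ℝ) <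
      d * (Real.log N / Real.log z) ^ 3)).card : ℝ) ≤
      B * N * Real.log z ^ 6 * (1 / z + 1 / Real.log N ^ 3)

lemma log3 {z : ℕ} (hz : 3 ≤ z) : 1 ≤ Real.log z := by
  have h3 : (3 : ℝ) ≤ z := by exact_mod_cast hz
  rw [Real.le_log_iff_exp_le (by linarith)]
  have := Real.exp_one_lt_d9
  linarith

/-- one large `N` -/
lemma big {cT cS K C1 C0 : ℝ} {U₀ : ℕ} (hcT : 0 < cT) (hcS : 0 < cS) (hK1 : 1 ≤ K) (hC1 : 0 < C1) (hC0 : 0 < C0)
    (hT : ∀ U α : ℕ, U₀ ≤ U → cT * Real.log U ^ 2 ≤ ∑ p ∈ T U α, (1 : ℝ) / ((p.1 : ℝ) * p.2))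
    (hS : ∀ A B z V β : ℕ, 2 ∣ A → 1 ≤ A → B ≤ A → Nat.Coprime A B →
      3 ≤ z → 3 ≤ V → K * Real.log z ^ 2 ≤ Real.log V →
      cS / Real.log z ^ 3 * Real.log V ≤
        ∑ b ∈ (Ioc V (V ^ 2)).filter (fun b => b ≡ β [MOD 2] ∧ z < (A * b - B).minFac), (1 : ℝ) / b)
    (hV1 : ∀ U V α s β z : ℕ, Ty s α → 2 ≤ U → U ^ 10 ≤ V → 2 ≤ z →
      ∑ i ∈ E U V α s β z, ∑ j ∈ (E U V α s β z).filter
        (fun j => j.1 ≠ i.1 ∧ 1 < Nat.gcd (mo s i) (mo s j) ∧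
          2 * i.2.1 * i.1.2 ≡ 2 * j.2.1 * j.1.2 [MOD Nat.gcd (mo s i) (mo s j)]),
        ((Nat.gcd (mo s i) (mo s j) : ℕ) : ℝ) / ((mo s i : ℝ) * mo s j)
      ≤ C1 * Real.log V ^ 2 * Real.log U ^ 3 * (Real.log U / z + (1 + Real.log U) / U))
    (hV0 : ∀ U V α s β z : ℕ, Ty s α → 2 ≤ U → U ^ 10 ≤ V → 2 ≤ z →
      ∑ i ∈ E U V α s β z, ∑ j ∈ (E U V α s β z).filter (fun j => j.1 = i.1),
        ((Nat.gcd (mo s i) (mo s j) : ℕ) : ℝ) / ((mo s i : ℝ) * mo s j)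
      ≤ C0 * (Real.log U ^ 2 * Real.log V + Real.log V ^ 3 / U))
    (hF : RowF) {c2 : ℝ} (hc2 : c2 = cT * cS / 4 * 10) (hc20 : 0 < c2)
    {N z U : ℕ} (hz3 : 3 ≤ z) (hU0 : U₀ ≤ U) (b2 : 3 ≤ U) (hNr : (U : ℝ) ^ 60 ≤ N)
    (hlN' : Real.log N ≤ 120 * Real.log U) (hKz : K * Real.log z ^ 2 ≤ 10 * Real.log U) :
    (((Icc 1 N).filter (fun n : ℕ => (Pool.Agent.Helper64.Breadth.c n : ℝ) <
      c2 / 2 / 120 ^ 3 * (Real.log N / Real.log z) ^ 3)).card : ℝ) ≤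
      ((800 * C1 / c2 ^ 2 + 12 + (9600 * C1 + 8080 * C0 + 192) / c2 ^ 2)) *
        N * Real.log z ^ 6 * (1 / z + 1 / Real.log U ^ 3) * 4 := by
  classical
  obtain ⟨ℓ, hℓ⟩ : ∃ ℓ : ℝ, ℓ = Real.log z := ⟨_, rfl⟩
  have hℓ1 : 1 ≤ ℓ := by rw [hℓ]; exact log3 hz3
  have hℓ0 : 0 < ℓ := by linarith
  obtain ⟨L, hL⟩ : ∃ L : ℝ, L = Real.log (U : ℝ) := ⟨_, rfl⟩
  have b3 : 1 ≤ L := by rw [hL]; exact log3 b2
  have hL0 : 0 < L := by linarith
  have hUr : (3 : ℝ) ≤ U := by exact_mod_cast b2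
  have hUr0 : (0 : ℝ) < U := by linarith
  have hzr : (0 : ℝ) < z := by
    have : 0 < z := by omega
    exact_mod_cast this
  have hN0 : (0 : ℝ) ≤ N := Nat.cast_nonneg N
  have hNpos : (0 : ℝ) < N := lt_of_lt_of_le (by positivity) hNr
  have hlV : Real.log ((U ^ 10 : ℕ) : ℝ) = 10 * L := by
    push_cast
    rw [Real.log_pow, hL]; norm_num
  have hlN : Real.log N ≤ 120 * L := by rw [hL]; exact hlN'
  have hlN0 : 0 ≤ Real.log N := Real.log_natCast_nonneg N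
  have hLU : L ^ 3 ≤ 6 * U := by
    have h1 := Real.pow_div_factorial_le_exp L hL0.le 3
    rw [hL, Real.exp_log hUr0, ← hL] at h1
    have h2 : ((Nat.factorial 3 : ℕ) : ℝ) = 6 := by norm_num [Nat.factorial]
    rw [h2] at h1
    linarith
  obtain ⟨m0, hm0⟩ : ∃ m0 : ℝ, m0 = c2 / ℓ ^ 3 * L ^ 3 := ⟨_, rfl⟩
  have hm0p : 0 < m0 := by rw [hm0]; positivity
  obtain ⟨Q, hQ⟩ : ∃ Q : ℝ, Q = C1 * (10 * L) ^ 2 * L ^ 3 * (L / z + (1 + L) / U) +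
      C0 * (L ^ 2 * (10 * L) + (10 * L) ^ 3 / U) := ⟨_, rfl⟩
  obtain ⟨η, hη⟩ : ∃ η : ℝ, η = 4 * Q / m0 ^ 2 + 12 * (U : ℝ) ^ 48 / (N * m0 ^ 2) := ⟨_, rfl⟩
  have hQ0 : 0 ≤ Q := by rw [hQ]; positivity
  have hQ4 : 4 * Q ≤ η * m0 ^ 2 := by
    have h1 : η * m0 ^ 2 = 4 * Q + 12 * (U : ℝ) ^ 48 / N := by rw [hη]; field_simp
    rw [h1]
    have : 0 ≤ 12 * (U : ℝ) ^ 48 / N := by positivity
    linarith
  have hU48 : 12 * (U : ℝ) ^ 48 ≤ η * N * m0 ^ 2 := by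
    have h1 : η * N * m0 ^ 2 = 4 * Q * N + 12 * (U : ℝ) ^ 48 := by rw [hη]; field_simp
    rw [h1]
    have : 0 ≤ 4 * Q * N := by positivity
    linarith
  have hcls : ∀ κ : ℕ, (((Ioc 0 N).filter (fun k => ((((E U (U ^ 10) (par κ).2.1 (par κ).1 (par κ).2.2 z).filter
      (fun i => mo (par κ).1 i ∣ 4 * k + κ + 2 * i.2.1 * i.1.2)).card : ℕ) : ℝ) < m0 / 2)).card : ℝ) ≤
      2 * η * N := by
    intro κ
    have hty := par_ty κ
    have hV3 : 3 ≤ U ^ 10 := by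
      calc 3 ≤ U := b2
        _ ≤ U ^ 10 := Nat.le_self_pow (by norm_num) U
    have g1 := mu_low (V := U ^ 10) (β := (par κ).2.2) hcS hT hS hty hU0 hz3 hV3 (by
      rw [hlV, hL]; exact hKz)
    have g2 := hV1 U (U ^ 10) (par κ).2.1 (par κ).1 (par κ).2.2 z hty (by omega) le_rfl (by omega)
    have g3 := hV0 U (U ^ 10) (par κ).2.1 (par κ).1 (par κ).2.2 z hty (by omega) le_rfl (by omega)
    rw [hlV, ← hL] at g2 g3
    rw [hlV, ← hL, ← hℓ] at g1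
    refine cls (by omega : 2 ≤ z) hm0p ?_ ?_ hQ4 hU48
    · refine le_trans (le_of_eq ?_) g1
      rw [hm0, hc2]; ring
    · rw [hQ]
      exact add_le_add g2 g3
  -- the bad set
  have hsub : (Icc 1 N).filter (fun n : ℕ => (Pool.Agent.Helper64.Breadth.c n : ℝ) <
      c2 / 2 / 120 ^ 3 * (Real.log N / Real.log z) ^ 3) ⊆
      Icc 1 (12 * U ^ 24) ∪ (range 4).biUnion (fun κ =>
        ((Ioc 0 N).filter (fun k => ((((E U (U ^ 10) (par κ).2.1 (par κ).1 (par κ).2.2 z).filter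
      (fun i => mo (par κ).1 i ∣ 4 * k + κ + 2 * i.2.1 * i.1.2)).card : ℕ) : ℝ) < m0 / 2)).image
        (fun k => 4 * k + κ)) := by
    intro n hn
    rw [mem_filter, mem_Icc] at hn
    obtain ⟨⟨hn1, hnN⟩, hnc⟩ := hn
    rw [mem_union, mem_Icc, mem_biUnion]
    rcases Nat.lt_or_ge (12 * U ^ 24) n with h | h
    · right
      refine ⟨n % 4, mem_range.2 (Nat.mod_lt _ (by norm_num)), ?_⟩
      rw [mem_image]
      have hU24 : 1 ≤ U ^ 24 := Nat.one_le_pow _ _ (by omega)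
      refine ⟨n / 4, ?_, by omega⟩
      rw [mem_filter, mem_Ioc]
      refine ⟨⟨by omega, by omega⟩, ?_⟩
      have hn4 : 4 * (n / 4) + n % 4 = n := by omega
      rw [hn4]
      have hbound := hF U (U ^ 10) (par (n % 4)).2.1 (par (n % 4)).1 (par (n % 4)).2.2 z n (by omega)
        (Nat.le_self_pow (by norm_num) U) (by omega) (by
          have : 12 * U ^ 4 * (U ^ 10) ^ 2 = 12 * U ^ 24 := by ring
          omega) (by
          unfold par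
          have h4 : n % 4 < 4 := Nat.mod_lt _ (by norm_num)
          have h5 : n % 4 % 2 = n % 2 := by omega
          split_ifs with q1 q2
          · left; simp; omega
          · right; left; simp; omega
          · right; right; simp; omega)
      have hb2 : ((((E U (U ^ 10) (par (n % 4)).2.1 (par (n % 4)).1 (par (n % 4)).2.2 z).filter
          (fun i => mo (par (n % 4)).1 i ∣ n + 2 * i.2.1 * i.1.2)).card : ℕ) : ℝ) ≤
          (Pool.Agent.Helper64.Breadth.c n : ℝ) := by exact_mod_cast hbound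
      refine lt_of_le_of_lt hb2 (lt_of_lt_of_le hnc ?_)
      have h6 : (Real.log N / Real.log z) ^ 3 ≤ (120 * L / ℓ) ^ 3 := by
        rw [← hℓ]
        apply pow_le_pow_left₀ (by positivity)
        gcongr
      calc c2 / 2 / 120 ^ 3 * (Real.log N / Real.log z) ^ 3 ≤ c2 / 2 / 120 ^ 3 * (120 * L / ℓ) ^ 3 :=
            mul_le_mul_of_nonneg_left h6 (by positivity)
        _ = m0 / 2 := by rw [hm0]; field_simp
    · left; exact ⟨hn1, h⟩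
  have hcard := card_le_card hsub
  have h1 : ((Icc 1 (12 * U ^ 24) ∪ (range 4).biUnion (fun κ =>
        ((Ioc 0 N).filter (fun k => ((((E U (U ^ 10) (par κ).2.1 (par κ).1 (par κ).2.2 z).filter
      (fun i => mo (par κ).1 i ∣ 4 * k + κ + 2 * i.2.1 * i.1.2)).card : ℕ) : ℝ) < m0 / 2)).image
        (fun k => 4 * k + κ))).card : ℝ) ≤ 12 * (U : ℝ) ^ 24 + 4 * (2 * η * N) := by
    have h2 : ((Icc 1 (12 * U ^ 24) ∪ (range 4).biUnion (fun κ =>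
        ((Ioc 0 N).filter (fun k => ((((E U (U ^ 10) (par κ).2.1 (par κ).1 (par κ).2.2 z).filter
      (fun i => mo (par κ).1 i ∣ 4 * k + κ + 2 * i.2.1 * i.1.2)).card : ℕ) : ℝ) < m0 / 2)).image
        (fun k => 4 * k + κ))).card) ≤ 12 * U ^ 24 + ∑ κ ∈ range 4,
        ((Ioc 0 N).filter (fun k => ((((E U (U ^ 10) (par κ).2.1 (par κ).1 (par κ).2.2 z).filter
      (fun i => mo (par κ).1 i ∣ 4 * k + κ + 2 * i.2.1 * i.1.2)).card : ℕ) : ℝ) < m0 / 2)).card := by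
      refine (card_union_le _ _).trans ?_
      apply add_le_add
      · simp
      · refine card_biUnion_le.trans ?_
        apply sum_le_sum
        intro κ _
        exact card_image_le
    have h3 : (∑ κ ∈ range 4,
        (((Ioc 0 N).filter (fun k => ((((E U (U ^ 10) (par κ).2.1 (par κ).1 (par κ).2.2 z).filter
      (fun i => mo (par κ).1 i ∣ 4 * k + κ + 2 * i.2.1 * i.1.2)).card : ℕ) : ℝ) < m0 / 2)).card : ℝ)) ≤
        ∑ _κ ∈ range 4, 2 * η * N := sum_le_sum fun κ _ => hcls κ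
    rw [sum_const, card_range, nsmul_eq_mul] at h3
    have h4 := (Nat.cast_le (α := ℝ)).2 h2
    push_cast at h4
    push_cast at h3
    linarith
  have h2 := (Nat.cast_le (α := ℝ)).2 hcard
  refine h2.trans (h1.trans ?_)
  rw [← hℓ, ← hL]
  -- the small n
  have hℓ6 : 1 ≤ ℓ ^ 6 := one_le_pow₀ hℓ1
  have hLU' : L ≤ U := by
    rw [hL]
    exact (Real.log_le_sub_one_of_pos hUr0).trans (by linarith)
  have s1 : 12 * (U : ℝ) ^ 24 ≤ 12 * N * (1 / L ^ 3) := by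
    rw [mul_one_div, le_div_iff₀ (by positivity)]
    have e1 : L ^ 3 ≤ (U : ℝ) ^ 3 := pow_le_pow_left₀ hL0.le hLU' 3
    calc 12 * (U : ℝ) ^ 24 * L ^ 3 ≤ 12 * (U : ℝ) ^ 24 * (U : ℝ) ^ 3 := by gcongr
      _ = 12 * (U : ℝ) ^ 27 := by ring
      _ ≤ 12 * (U : ℝ) ^ 60 := by
          have : (U : ℝ) ^ 27 ≤ (U : ℝ) ^ 60 := pow_le_pow_right₀ (by linarith) (by norm_num)
          linarith
      _ ≤ 12 * N := by linarith
  -- the variance
  have s2 : Q ≤ 100 * C1 * (L ^ 6 / z) + (1200 * C1 + 1010 * C0) * L ^ 3 := by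
    have e1 : (1 + L) / U ≤ 12 / L ^ 2 := by
      rw [div_le_div_iff₀ hUr0 (by positivity)]
      have e2 : (1 + L) * L ^ 2 ≤ (L + L) * L ^ 2 := by
        apply mul_le_mul_of_nonneg_right (by linarith) (by positivity)
      calc (1 + L) * L ^ 2 ≤ (L + L) * L ^ 2 := e2
        _ = 2 * L ^ 3 := by ring
        _ ≤ 12 * U := by linarith
    have e3 : (10 * L) ^ 3 / U ≤ 1000 * L ^ 3 := by
      rw [div_le_iff₀ hUr0]
      have : 0 < L ^ 3 := by positivity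
      nlinarith
    calc Q = C1 * (10 * L) ^ 2 * L ^ 3 * (L / z + (1 + L) / U) +
          C0 * (L ^ 2 * (10 * L) + (10 * L) ^ 3 / U) := hQ
      _ ≤ C1 * (10 * L) ^ 2 * L ^ 3 * (L / z + 12 / L ^ 2) +
          C0 * (L ^ 2 * (10 * L) + 1000 * L ^ 3) := by gcongr
      _ = 100 * C1 * (L ^ 6 / z) + (1200 * C1 + 1010 * C0) * L ^ 3 := by
          field_simp; ring
  have s3 : 4 * (2 * η * N) = 32 * Q * N / m0 ^ 2 + 96 * (U : ℝ) ^ 48 / m0 ^ 2 := by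
    rw [hη]; field_simp; ring
  have s4 : 32 * Q * N / m0 ^ 2 ≤ N * ℓ ^ 6 * (3200 * C1 / c2 ^ 2 * (1 / z) +
      (38400 * C1 + 32320 * C0) / c2 ^ 2 * (1 / L ^ 3)) := by
    calc 32 * Q * N / m0 ^ 2 ≤
          32 * (100 * C1 * (L ^ 6 / z) + (1200 * C1 + 1010 * C0) * L ^ 3) * N / m0 ^ 2 := by gcongr
      _ = N * ℓ ^ 6 * (3200 * C1 / c2 ^ 2 * (1 / z) +
          (38400 * C1 + 32320 * C0) / c2 ^ 2 * (1 / L ^ 3)) := by
          rw [hm0]; field_simp; ring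
  have s5 : 96 * (U : ℝ) ^ 48 / m0 ^ 2 ≤ N * ℓ ^ 6 * (96 / c2 ^ 2 * (1 / L ^ 3)) := by
    have e1 : 96 * (U : ℝ) ^ 48 / m0 ^ 2 = (U : ℝ) ^ 48 * ℓ ^ 6 * (96 / c2 ^ 2 * (1 / (L ^ 3 * L ^ 3))) := by
      rw [hm0]; field_simp
    rw [e1]
    have e2 : (U : ℝ) ^ 48 ≤ N := le_trans (pow_le_pow_right₀ (by linarith) (by norm_num)) hNr
    have e3 : 1 / (L ^ 3 * L ^ 3) ≤ 1 / L ^ 3 := by
      apply one_div_le_one_div_of_le (by positivity)
      have : 1 ≤ L ^ 3 := one_le_pow₀ b3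
      nlinarith
    gcongr
  have hX : 0 ≤ N * ℓ ^ 6 * (1 / z) := by positivity
  have hY : 0 ≤ N * ℓ ^ 6 * (1 / L ^ 3) := by positivity
  have s6 : 12 * N * (1 / L ^ 3) ≤ 12 * (N * ℓ ^ 6 * (1 / L ^ 3)) := by
    have e1 : N * (1 / L ^ 3) * 1 ≤ N * (1 / L ^ 3) * ℓ ^ 6 := by gcongr
    nlinarith
  have p1 : 0 ≤ C1 / c2 ^ 2 := by positivity
  have p0 : 0 ≤ C0 / c2 ^ 2 := by positivity
  have p2 : 0 ≤ 1 / c2 ^ 2 := by positivity
  calc 12 * (U : ℝ) ^ 24 + 4 * (2 * η * N) ≤ 12 * (N * ℓ ^ 6 * (1 / L ^ 3)) +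
        (N * ℓ ^ 6 * (3200 * C1 / c2 ^ 2 * (1 / z) +
          (38400 * C1 + 32320 * C0) / c2 ^ 2 * (1 / L ^ 3)) + N * ℓ ^ 6 * (96 / c2 ^ 2 * (1 / L ^ 3))) := by
        rw [s3]; linarith
    _ = 3200 * (C1 / c2 ^ 2) * (N * ℓ ^ 6 * (1 / z)) + (12 + 38400 * (C1 / c2 ^ 2) + 32320 * (C0 / c2 ^ 2) +
          96 * (1 / c2 ^ 2)) * (N * ℓ ^ 6 * (1 / L ^ 3)) := by ring
    _ ≤ (48 + 3200 * (C1 / c2 ^ 2) + 38400 * (C1 / c2 ^ 2) + 32320 * (C0 / c2 ^ 2) + 768 * (1 / c2 ^ 2)) *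
          (N * ℓ ^ 6 * (1 / z)) +
          (48 + 3200 * (C1 / c2 ^ 2) + 38400 * (C1 / c2 ^ 2) + 32320 * (C0 / c2 ^ 2) + 768 * (1 / c2 ^ 2)) *
          (N * ℓ ^ 6 * (1 / L ^ 3)) := by
        apply add_le_add
        · apply mul_le_mul_of_nonneg_right _ hX
          linarith
        · apply mul_le_mul_of_nonneg_right _ hY
          linarith
    _ = ((800 * C1 / c2 ^ 2 + 12 + (9600 * C1 + 8080 * C0 + 192) / c2 ^ 2)) *
        N * ℓ ^ 6 * (1 / z + 1 / L ^ 3) * 4 := by ring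

lemma rt (U₀ : ℕ) : ∃ N1 : ℕ, 2 ≤ N1 ∧ ∀ N : ℕ, N1 ≤ N →
    ∃ U : ℕ, U₀ ≤ U ∧ 3 ≤ U ∧ (U : ℝ) ^ 60 ≤ N ∧ Real.log N ≤ 120 * Real.log U := by
  obtain ⟨W, hW⟩ : ∃ W : ℕ, W = max U₀ 3 := ⟨_, rfl⟩
  refine ⟨(W + 4) ^ 60, ?_, fun N hN => ?_⟩
  · exact le_trans (by omega) (Nat.le_self_pow (show (60 : ℕ) ≠ 0 by norm_num) (W + 4))
  · obtain ⟨U, h1, h2, h3⟩ := root2 hN
    exact ⟨U, le_trans (by rw [hW]; exact le_max_left _ _) h1, le_trans (by rw [hW]; exact le_max_right _ _) h1, h2, h3⟩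

theorem lowU (hT : RowT) (hS : RowS) (hV1 : RowV1) (hV0 : RowV0) (hF : RowF) : LowU := by
  classical
  obtain ⟨cT, U₀, hcT, hT⟩ := hT
  obtain ⟨cS, K, hcS, -, hK1, hS⟩ := hS
  obtain ⟨C1, hC1, hV1⟩ := hV1
  obtain ⟨C0, hC0, hV0⟩ := hV0
  obtain ⟨c2, hc2⟩ : ∃ c2 : ℝ, c2 = cT * cS / 4 * 10 := ⟨_, rfl⟩
  have hc20 : 0 < c2 := by rw [hc2]; positivity
  obtain ⟨N1, hN1', hN1⟩ := rt U₀
  have hlN1 : 0 < Real.log N1 := Real.log_pos (by exact_mod_cast (show 1 < N1 by omega))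
  have hbig := fun (N z U : ℕ) => big (N := N) (z := z) (U := U) hcT hcS hK1 hC1 hC0 hT hS hV1 hV0 hF hc2 hc20
  obtain ⟨D, hD⟩ : ∃ D : ℝ, D = (800 * C1 / c2 ^ 2 + 12 + (9600 * C1 + 8080 * C0 + 192) / c2 ^ 2) := ⟨_, rfl⟩
  have hD0 : 0 < D := by rw [hD]; positivity
  rw [← hD] at hbig
  obtain ⟨d, hd⟩ : ∃ d : ℝ, d = c2 / 2 / 120 ^ 3 := ⟨_, rfl⟩
  have hd0 : 0 < d := by rw [hd]; positivity
  rw [← hd] at hbig
  have hK0 : 0 < K := by linarith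
  obtain ⟨P1, hP1⟩ : ∃ P : ℝ, P = D * 4 * 120 ^ 3 := ⟨_, rfl⟩
  obtain ⟨P2, hP2⟩ : ∃ P : ℝ, P = (12 * K) ^ 3 := ⟨_, rfl⟩
  obtain ⟨P3, hP3⟩ : ∃ P : ℝ, P = Real.log N1 ^ 3 := ⟨_, rfl⟩
  have hP10 : 0 < P1 := by rw [hP1]; positivity
  have hP20 : 0 < P2 := by rw [hP2]; positivity
  have hP30 : 0 < P3 := by rw [hP3]; positivity
  refine ⟨d, P1 + P2 + P3, hd0, by positivity, ?_⟩
  intro N z hN hz3
  have hℓ1 : 1 ≤ Real.log z := log3 hz3
  obtain ⟨ℓ, hℓ⟩ : ∃ ℓ : ℝ, ℓ = Real.log z := ⟨_, rfl⟩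
  have hℓ6 : 1 ≤ ℓ ^ 6 := by rw [hℓ]; exact one_le_pow₀ hℓ1
  have hN0 : (0 : ℝ) < N := by exact_mod_cast (show 0 < N by omega)
  have hz0 : (0 : ℝ) < z := by exact_mod_cast (show 0 < z by omega)
  have hlN : 0 < Real.log N := Real.log_pos (by exact_mod_cast (show 1 < N by omega))
  obtain ⟨M, hM⟩ : ∃ M : ℝ, M = Real.log N := ⟨_, rfl⟩
  have hM0 : 0 < M := by rw [hM]; exact hlN
  have htriv : (((Icc 1 N).filter (fun n : ℕ => (Pool.Agent.Helper64.Breadth.c n : ℝ) <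
      d * (Real.log N / Real.log z) ^ 3)).card : ℝ) ≤ N := by
    have h5 := card_filter_le (Icc 1 N) (fun n : ℕ => (Pool.Agent.Helper64.Breadth.c n : ℝ) <
      d * (Real.log N / Real.log z) ^ 3)
    rw [Nat.card_Icc, Nat.add_sub_cancel] at h5
    exact_mod_cast h5
  -- the trivial bound
  have hway : ∀ P : ℝ, 0 ≤ P → P ≤ P1 + P2 + P3 → M ^ 3 ≤ P * ℓ ^ 6 →
      (N : ℝ) ≤ (P1 + P2 + P3) * N * ℓ ^ 6 * (1 / z + 1 / M ^ 3) := by
    intro P hP hP2' hP3'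
    have e1 : 1 ≤ P * ℓ ^ 6 * (1 / M ^ 3) := by
      rw [mul_one_div, le_div_iff₀ (by positivity)]
      linarith
    have e2 : 1 / M ^ 3 ≤ 1 / (z : ℝ) + 1 / M ^ 3 := by
      have : 0 ≤ 1 / (z : ℝ) := by positivity
      linarith
    have e3 : P * ℓ ^ 6 * (1 / M ^ 3) ≤ (P1 + P2 + P3) * ℓ ^ 6 * (1 / z + 1 / M ^ 3) := by
      apply mul_le_mul _ e2 (by positivity) (by positivity)
      exact mul_le_mul_of_nonneg_right hP2' (by positivity)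
    calc (N : ℝ) = N * 1 := (mul_one _).symm
      _ ≤ N * ((P1 + P2 + P3) * ℓ ^ 6 * (1 / z + 1 / M ^ 3)) :=
          mul_le_mul_of_nonneg_left (e1.trans e3) hN0.le
      _ = _ := by ring
  rw [← hℓ, ← hM] at htriv ⊢
  rcases Nat.lt_or_ge N N1 with hs | hs
  · refine htriv.trans (hway P3 hP30.le (by linarith) ?_)
    have e1 : M ≤ Real.log N1 := by
      rw [hM]; exact Real.log_le_log hN0 (by exact_mod_cast hs.le)
    have e2 : M ^ 3 ≤ P3 := by rw [hP3]; exact pow_le_pow_left₀ hM0.le e1 3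
    calc M ^ 3 ≤ P3 * 1 := by linarith
      _ ≤ P3 * ℓ ^ 6 := mul_le_mul_of_nonneg_left hℓ6 hP30.le
  · obtain ⟨U, hU0, b2, hNr, hlN'⟩ := hN1 N hs
    obtain ⟨L, hL⟩ : ∃ L : ℝ, L = Real.log (U : ℝ) := ⟨_, rfl⟩
    have hL1 : 1 ≤ L := by rw [hL]; exact log3 b2
    rcases le_or_gt (K * ℓ ^ 2) (10 * L) with hKz | hKz
    · have h1 := hbig N z U hz3 hU0 b2 hNr hlN' (by rw [← hℓ, ← hL]; exact hKz)
      rw [← hℓ, ← hM, ← hL] at h1
      refine h1.trans ?_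
      have hML : M ≤ 120 * L := by rw [hM, hL]; exact hlN'
      have e1 : 1 / L ^ 3 ≤ 120 ^ 3 * (1 / M ^ 3) := by
        rw [mul_one_div, div_le_div_iff₀ (by positivity) (by positivity)]
        calc 1 * M ^ 3 = M ^ 3 := one_mul _
          _ ≤ (120 * L) ^ 3 := pow_le_pow_left₀ hM0.le hML 3
          _ = 120 ^ 3 * L ^ 3 := by ring
      have e2 : 1 / (z : ℝ) + 1 / L ^ 3 ≤ 120 ^ 3 * (1 / z + 1 / M ^ 3) := by
        have : 0 ≤ 1 / (z : ℝ) := by positivity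
        linarith
      calc D * N * ℓ ^ 6 * (1 / z + 1 / L ^ 3) * 4 ≤ D * N * ℓ ^ 6 * (120 ^ 3 * (1 / z + 1 / M ^ 3)) * 4 := by
            apply mul_le_mul_of_nonneg_right _ (by norm_num)
            exact mul_le_mul_of_nonneg_left e2 (by positivity)
        _ = P1 * (N * ℓ ^ 6 * (1 / z + 1 / M ^ 3)) := by rw [hP1]; ring
        _ ≤ (P1 + P2 + P3) * (N * ℓ ^ 6 * (1 / z + 1 / M ^ 3)) :=
            mul_le_mul_of_nonneg_right (by linarith) (by positivity)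
        _ = _ := by ring
    · refine htriv.trans (hway P2 hP20.le (by linarith) ?_)
      have hML : M ≤ 120 * L := by rw [hM, hL]; exact hlN'
      have e1 : M ≤ 12 * K * ℓ ^ 2 := by
        have : 12 * (10 * L) < 12 * (K * ℓ ^ 2) := by linarith
        linarith
      calc M ^ 3 ≤ (12 * K * ℓ ^ 2) ^ 3 := pow_le_pow_left₀ hM0.le e1 3
        _ = P2 * ℓ ^ 6 := by rw [hP2]; ring

/-- the two halves -/
theorem both (hL : LowU) (hU : RowUp) : ∃ d B : ℝ, 0 < d ∧ ∀ N z : ℕ, 2 ≤ N → 3 ≤ z →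
    (((Icc 1 N).filter (fun n : ℕ => ¬ (d * (Real.log N / Real.log z) ^ 3 ≤ (Pool.Agent.Helper64.Breadth.c n : ℝ) ∧
      (Pool.Agent.Helper64.Breadth.c n : ℝ) ≤ z * Real.log N ^ 3))).card : ℝ) ≤
      B * N * Real.log z ^ 6 * (1 / z + 1 / Real.log N ^ 3) := by
  classical
  obtain ⟨d, B, hd, hB, H⟩ := hL
  obtain ⟨C, hC, hU⟩ := hU
  refine ⟨d, B + C, hd, fun N z hN hz3 => ?_⟩
  have h1 := H N z hN hz3
  have hℓ1 : 1 ≤ Real.log z := log3 hz3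
  have hℓ6 : 1 ≤ Real.log z ^ 6 := one_le_pow₀ hℓ1
  have hN0 : (0 : ℝ) < N := by exact_mod_cast (show 0 < N by omega)
  have hz0 : (0 : ℝ) < z := by exact_mod_cast (show 0 < z by omega)
  have hlN : 0 < Real.log N := Real.log_pos (by exact_mod_cast (show 1 < N by omega))
  set D := (Icc 1 N).filter (fun n : ℕ => z * Real.log N ^ 3 < (Pool.Agent.Helper64.Breadth.c n : ℝ)) with hD
  have h2 : (D.card : ℝ) ≤ C * N * (1 / z) := by
    have e1 : (D.card : ℝ) * (z * Real.log N ^ 3) ≤ ∑ n ∈ Icc 1 N, (Pool.Agent.Helper64.Breadth.c n : ℝ) := by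
      calc (D.card : ℝ) * (z * Real.log N ^ 3) = ∑ n ∈ D, z * Real.log N ^ 3 := by
            rw [sum_const, nsmul_eq_mul]
        _ ≤ ∑ n ∈ D, (Pool.Agent.Helper64.Breadth.c n : ℝ) := by
            refine sum_le_sum fun n hn => ?_
            rw [hD, mem_filter] at hn
            exact hn.2.le
        _ ≤ ∑ n ∈ Icc 1 N, (Pool.Agent.Helper64.Breadth.c n : ℝ) :=
            sum_le_sum_of_subset_of_nonneg (filter_subset _ _) fun _ _ _ => Nat.cast_nonneg _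
    have e2 := e1.trans (hU N hN)
    rw [mul_one_div, le_div_iff₀ hz0]
    have e3 : 0 < Real.log N ^ 3 := by positivity
    have e4 : ((D.card : ℝ) * z) * Real.log N ^ 3 ≤ (C * N) * Real.log N ^ 3 := by linarith
    exact le_of_mul_le_mul_right e4 e3
  have hsub : (Icc 1 N).filter (fun n : ℕ => ¬ (d * (Real.log N / Real.log z) ^ 3 ≤ (Pool.Agent.Helper64.Breadth.c n : ℝ) ∧
      (Pool.Agent.Helper64.Breadth.c n : ℝ) ≤ z * Real.log N ^ 3)) ⊆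
      (Icc 1 N).filter (fun n : ℕ => (Pool.Agent.Helper64.Breadth.c n : ℝ) < d * (Real.log N / Real.log z) ^ 3) ∪ D := by
    intro n hn
    rw [mem_filter] at hn
    rw [mem_union, mem_filter, hD, mem_filter]
    by_contra hcon
    push Not at hcon
    exact hn.2 ⟨hcon.1 hn.1, hcon.2 hn.1⟩
  have h3 := (card_le_card hsub).trans (card_union_le _ _)
  have h3' : (((Icc 1 N).filter (fun n : ℕ => ¬ (d * (Real.log N / Real.log z) ^ 3 ≤ (Pool.Agent.Helper64.Breadth.c n : ℝ) ∧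
      (Pool.Agent.Helper64.Breadth.c n : ℝ) ≤ z * Real.log N ^ 3))).card : ℝ) ≤
      (((Icc 1 N).filter (fun n : ℕ => (Pool.Agent.Helper64.Breadth.c n : ℝ) < d * (Real.log N / Real.log z) ^ 3)).card : ℝ) +
        D.card := by exact_mod_cast h3
  have h4 : C * N * (1 / z) ≤ C * N * Real.log z ^ 6 * (1 / z + 1 / Real.log N ^ 3) := by
    have e1 : C * N * (1 / z) ≤ C * N * (1 / z + 1 / Real.log N ^ 3) := by
      apply mul_le_mul_of_nonneg_left _ (by positivity)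
      have : 0 ≤ 1 / Real.log N ^ 3 := by positivity
      linarith
    have e2 : C * N * (1 / z + 1 / Real.log N ^ 3) * 1 ≤ C * N * (1 / z + 1 / Real.log N ^ 3) * Real.log z ^ 6 :=
      mul_le_mul_of_nonneg_left hℓ6 (by positivity)
    calc C * N * (1 / z) ≤ C * N * (1 / z + 1 / Real.log N ^ 3) * 1 := by linarith
      _ ≤ _ := e2
      _ = _ := by ring
  calc _ ≤ _ := h3'
    _ ≤ B * N * Real.log z ^ 6 * (1 / z + 1 / Real.log N ^ 3) + C * N * Real.log z ^ 6 * (1 / z + 1 / Real.log N ^ 3) := by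
        linarith
    _ = _ := by ring

end Pool.Agent.BR3.Uni89
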