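import Pool.Agent.BR3.LowUni34
import Pool.Agent.BR3.Uni34
import Pool.Agent.BR3.V146
import Pool.Agent.BR3.V089
import Pool.Agent.BR3.T83
import Pool.Agent.BR3.S92
import Pool.Agent.BR3.F75
import Pool.Agent.BR3.Up62

/-!
# MP_5de915_nt: the two sided form, uniform in `N` and `z`
-/

set_option autoImplicit false

namespace Pool.Agent.BR3.UniFin34

open Finset Pool.Agent.BR3 Pool.Agent.Helper64.Breadth

/-- the uniform form -/
theorem uni34 : ∃ d B : ℝ, 0 < d ∧ ∀ N z : ℕ, 2 ≤ N → 3 ≤ z →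
    (((Icc 1 N).filter (fun n : ℕ => ¬ (d * (Real.log N / Real.log z) ^ 3 ≤ (c n : ℝ) ∧
      (c n : ℝ) ≤ z * Real.log N ^ 3))).card : ℝ) ≤
      B * N * Real.log z ^ 6 * (1 / z + 1 / Real.log N ^ 3) :=
  Uni34.uni_of (LowUni34.lowUni rowT83 S92.rowS92 V146.rowV146 V089.v0 F75.rowF) Up62.up62

end Pool.Agent.BR3.UniFin34
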