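import Pool.Agent.BR3.Uni89
import Pool.Agent.BR3.T83
import Pool.Agent.BR3.S92
import Pool.Agent.BR3.V146
import Pool.Agent.BR3.V089
import Pool.Agent.BR3.F75
import Pool.Agent.BR3.Up62

/-!
# MP_5de915_nt: the uniform theorem from the rows
-/

set_option autoImplicit false

namespace Pool.Agent.BR3.UniFin89

open Finset

theorem final : ∃ d B : ℝ, 0 < d ∧ ∀ N z : ℕ, 2 ≤ N → 3 ≤ z →
    (((Icc 1 N).filter (fun n : ℕ => ¬ (d * (Real.log N / Real.log z) ^ 3 ≤ (Pool.Agent.Helper64.Breadth.c n : ℝ) ∧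
      (Pool.Agent.Helper64.Breadth.c n : ℝ) ≤ z * Real.log N ^ 3))).card : ℝ) ≤
      B * N * Real.log z ^ 6 * (1 / z + 1 / Real.log N ^ 3) :=
  Uni89.both (Uni89.lowU rowT83 S92.rowS92 V146.rowV146 V089.v0 F75.rowF) Up62.up62

end Pool.Agent.BR3.UniFin89
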